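import Mathlib

section

/-!
# MP_6b7756_an, full disproof. Part 1: integer trees and the windmill theorem (statements)
-/

set_option autoImplicit false

namespace Pool.Agent.Lib.MP_6b7756_an.GM

/-! ## Integer trees -/

/-- The vertex set of a tree with its path metric, axiomatically: an integer valued metric which is
geodesic, satisfies the four point condition and the parity condition. -/
structure ZTree (T : Type) where
  d : T → T → ℕ
  d_self : ∀ x, d x x = 0
  eq_of : ∀ x y, d x y = 0 → x = y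
  symm : ∀ x y, d x y = d y x
  tri : ∀ x y z, d x z ≤ d x y + d y z
  seg : ∀ x y k, k ≤ d x y → ∃ z, d x z = k ∧ d z y = d x y - k
  four : ∀ x y z w, d x y + d z w ≤ max (d x z + d y w) (d x w + d y z)
  even : ∀ x y z, Even (d x y + d y z + d x z)

/-- `z` lies on the geodesic from `x` to `y`. -/
def ZTree.Btw {T : Type} (t : ZTree T) (x z y : T) : Prop := t.d x z + t.d z y = t.d x y

/-- Convex subsets (vertex sets of subtrees; the empty set is allowed). -/
def ZTree.Conv {T : Type} (t : ZTree T) (C : Set T) : Prop :=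
  ∀ x ∈ C, ∀ y ∈ C, ∀ z, t.Btw x z y → z ∈ C

/-- `p` is the projection (gate) of `x` to `C`. -/
def ZTree.IsGate {T : Type} (t : ZTree T) (C : Set T) (x p : T) : Prop :=
  p ∈ C ∧ ∀ c ∈ C, t.d x c = t.d x p + t.d p c

/-- Basic facts on integer trees. -/
def Stmt_Tree : Prop := ∀ (T : Type) (t : ZTree T),
  (∀ x y z, ∃ m, t.Btw x m y ∧ t.Btw y m z ∧ t.Btw x m z) ∧
  (∀ C : Set T, t.Conv C → C.Nonempty → ∀ x, ∃ p, t.IsGate C x p) ∧
  (∀ A B C : Set T, t.Conv A → t.Conv B → t.Conv C → (A ∩ B).Nonempty → (B ∩ C).Nonempty →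
    (A ∩ C).Nonempty → (A ∩ B ∩ C).Nonempty) ∧
  (∀ x y z u, t.Btw x u y → t.Btw x u z ∨ t.Btw z u y) ∧
  (∀ (C : Set T) (x y p q : T), t.Conv C → t.IsGate C x p → t.IsGate C y q → p ≠ q →
    t.d x y = t.d x p + t.d p q + t.d q y)

/-! ## Rotating families and the windmill theorem -/

/-- A rotating family on an integer tree with small overlaps (constant `K0`): a group `F` acts on
the tree `T` and on the index set `ι` of a family of subtrees `C Y` with stabilising groups `St Y`;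
nontrivial elements of `St Y` move the points of `C Y` by at least `g Y`, and the intersection of two
different subtrees has diameter at most `g Y / K0`. -/
structure Rot (T F ι : Type) [Group F] (t : ZTree T) (K0 : ℕ) where
  act : F → T → T
  act_one : ∀ x, act 1 x = x
  act_mul : ∀ f f' x, act (f * f') x = act f (act f' x)
  isom : ∀ f x y, t.d (act f x) (act f y) = t.d x y
  acti : F → ι → ι
  acti_one : ∀ Y, acti 1 Y = Y
  acti_mul : ∀ f f' Y, acti (f * f') Y = acti f (acti f' Y)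
  C : ι → Set T
  C_conv : ∀ Y, t.Conv (C Y)
  C_ne : ∀ Y, (C Y).Nonempty
  C_act : ∀ f Y x, x ∈ C Y → act f x ∈ C (acti f Y)
  St : ι → Subgroup F
  St_act : ∀ f Y h, h ∈ St Y → f * h * f⁻¹ ∈ St (acti f Y)
  St_fix : ∀ Y h, h ∈ St Y → acti h Y = Y
  g : ι → ℕ
  g_act : ∀ f Y, g (acti f Y) = g Y
  disp : ∀ Y h x, h ∈ St Y → h ≠ 1 → x ∈ C Y → g Y ≤ t.d x (act h x)
  small : ∀ Y Z x y, Y ≠ Z → x ∈ C Y → x ∈ C Z → y ∈ C Y → y ∈ C Z → K0 * t.d x y ≤ g Y
  large : ∀ Y, 2 * K0 ≤ g Y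

section
variable {T F ι : Type} [Group F] {t : ZTree T} {K0 : ℕ} (R : Rot T F ι t K0)

/-- The subgroup generated by all the groups `St Y`. -/
def Rot.N : Subgroup F := Subgroup.closure {h | ∃ Y, h ∈ R.St Y}

/-- The geodesic from `p` to `q` contains points `a`, `b` (in this order) of some `C Y` such that
`b` is close to `h a` for a nontrivial `h` in `St Y`. -/
def Rot.Big (p q : T) : Prop := ∃ Y, ∃ h ∈ R.St Y, h ≠ 1 ∧ ∃ a ∈ R.C Y, ∃ b ∈ R.C Y,
  t.d p q = t.d p a + t.d a b + t.d b q ∧ K0 * t.d b (R.act h a) ≤ 4 * R.g Y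

/-- The gate of `q` on `C Z` is close to a point of `C Z ∩ V`. -/
def Rot.Side (V : Set T) (Z : ι) (q : T) : Prop :=
  ∃ p s, t.IsGate (R.C Z) q p ∧ s ∈ R.C Z ∧ s ∈ V ∧ K0 * t.d p s ≤ R.g Z

/-- A windmill `(W, O, H)` with base point `o`. -/
structure Rot.Mill (o : T) (W : Set T) (O : Set ι) (H : Subgroup F) : Prop where
  conv : t.Conv W
  mem : o ∈ W
  inv : ∀ h ∈ H, ∀ x ∈ W, R.act h x ∈ W
  oinv : ∀ h ∈ H, ∀ Y ∈ O, R.acti h Y ∈ O
  stO : ∀ Y ∈ O, R.St Y ≤ H
  thin : ∀ Y, Y ∉ O → ∀ x ∈ R.C Y, x ∈ W → ∀ y ∈ R.C Y, y ∈ W → K0 * t.d x y ≤ 3 * R.g Y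
  big : ∀ n ∈ H, n ≠ 1 → R.Big o (R.act n o)

/-- The new indices: the subtrees which meet `W` and are not in `O`. -/
def Rot.newA (W : Set T) (O : Set ι) : Set ι := {Y | Y ∉ O ∧ ∃ x ∈ R.C Y, x ∈ W}

/-- The next group. -/
def Rot.nextH (W : Set T) (O : Set ι) (H : Subgroup F) : Subgroup F :=
  Subgroup.closure ((H : Set F) ∪ {h | ∃ Y ∈ R.newA W O, h ∈ R.St Y})

/-- The union of the translates of `W` and of the new subtrees. -/
def Rot.nextW' (W : Set T) (O : Set ι) (H : Subgroup F) : Set T :=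
  {x | ∃ n ∈ R.nextH W O H, ∃ z, (z ∈ W ∨ ∃ Y ∈ R.newA W O, z ∈ R.C Y) ∧ x = R.act n z}

/-- The next tree: the 1-neighbourhood of `nextW'`. -/
def Rot.nextW (W : Set T) (O : Set ι) (H : Subgroup F) : Set T :=
  {x | ∃ w ∈ R.nextW' W O H, t.d x w ≤ 1}

/-- The next set of indices. -/
def Rot.nextO (W : Set T) (O : Set ι) (H : Subgroup F) : Set ι :=
  {Y | ∃ n ∈ R.nextH W O H, ∃ Z, (Z ∈ O ∨ Z ∈ R.newA W O) ∧ Y = R.acti n Z}

/-- Normal forms: `NF Y n` says that `n = a₁ b₁ a₂ b₂ ... a_k b_k a_{k+1}` with `a_i ∈ H`,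
`1 ≠ b_i ∈ St Y_i`, `Y_i` new, `a₁ Y₁ ≠ Y`, `a_{i+1} Y_{i+1} ≠ Y_i`. -/
inductive Rot.NF (W : Set T) (O : Set ι) (H : Subgroup F) : ι → F → Prop
  | base (Y : ι) (n : F) : n ∈ H → Rot.NF W O H Y n
  | cons (Y : ι) (a : F) (Y' : ι) (b n' : F) : a ∈ H → Y' ∈ R.newA W O → b ∈ R.St Y' → b ≠ 1 →
      Rot.NF W O H Y' n' → R.acti a Y' ≠ Y → Rot.NF W O H Y (a * b * n')

end

/-- Elements of `nextH` have normal forms, and the gate lemma for normal forms. -/
def Stmt_NF : Prop := ∀ (T F ι : Type) [Group F] (t : ZTree T) (K0 : ℕ) (R : Rot T F ι t K0),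
  10 ≤ K0 → ∀ (o : T) (W : Set T) (O : Set ι) (H : Subgroup F), R.Mill o W O H →
    (∀ h ∈ H, ∀ Y ∈ R.newA W O, R.acti h Y ∈ R.newA W O) ∧
    (∀ n ∈ R.nextH W O H, n ∈ H ∨ ∃ a ∈ H, ∃ Y' ∈ R.newA W O, ∃ b ∈ R.St Y', b ≠ 1 ∧
      ∃ n', R.NF W O H Y' n' ∧ n = a * b * n') ∧
    (∀ Y n p, R.NF W O H Y n → Y ∈ R.newA W O → p ∈ W → R.Side W Y (R.act n p)) ∧
    (∀ Y Z q, Y ∈ R.newA W O → Z ∈ R.newA W O → Y ≠ Z → q ∈ R.C Y → R.Side W Z q)

/-- The next triple satisfies the formal properties of windmills. -/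
def Stmt_MillForm : Prop := ∀ (T F ι : Type) [Group F] (t : ZTree T) (K0 : ℕ)
  (R : Rot T F ι t K0) (o : T) (W : Set T) (O : Set ι) (H : Subgroup F), R.Mill o W O H →
    t.Conv (R.nextW' W O H) ∧ t.Conv (R.nextW W O H) ∧ o ∈ R.nextW W O H ∧
    (∀ h ∈ R.nextH W O H, ∀ x ∈ R.nextW' W O H, R.act h x ∈ R.nextW' W O H) ∧
    (∀ h ∈ R.nextH W O H, ∀ x ∈ R.nextW W O H, R.act h x ∈ R.nextW W O H) ∧
    (∀ h ∈ R.nextH W O H, ∀ Y ∈ R.nextO W O H, R.acti h Y ∈ R.nextO W O H) ∧
    (∀ Y ∈ R.nextO W O H, R.St Y ≤ R.nextH W O H)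

/-- The next triple satisfies the bigness condition. -/
def Stmt_MillBig : Prop := ∀ (T F ι : Type) [Group F] (t : ZTree T) (K0 : ℕ)
  (R : Rot T F ι t K0), 10 ≤ K0 → ∀ (o : T) (W : Set T) (O : Set ι) (H : Subgroup F),
    R.Mill o W O H → ∀ n ∈ R.nextH W O H, n ≠ 1 → R.Big o (R.act n o)

/-- Subtrees outside `nextO` meet `nextW'` in small sets. -/
def Stmt_MillThin' : Prop := ∀ (T F ι : Type) [Group F] (t : ZTree T) (K0 : ℕ)
  (R : Rot T F ι t K0), 10 ≤ K0 → ∀ (o : T) (W : Set T) (O : Set ι) (H : Subgroup F),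
    R.Mill o W O H → ∀ Y, Y ∉ R.nextO W O H → ∀ x ∈ R.C Y, x ∈ R.nextW' W O H →
      ∀ y ∈ R.C Y, y ∈ R.nextW' W O H → K0 * t.d x y ≤ 2 * R.g Y

/-- The windmill theorem: for every nontrivial `n` in the group generated by the rotation groups
and every vertex `o`, the geodesic from `o` to `n o` contains a long segment from `a` to `b` in
some `C Y`, which is almost a full rotation. -/
def Stmt_Windmill : Prop := ∀ (T F ι : Type) [Group F] (t : ZTree T) (K0 : ℕ)
  (R : Rot T F ι t K0), 10 ≤ K0 → ∀ n ∈ R.N, n ≠ 1 → ∀ o : T, R.Big o (R.act n o)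

/-- Elements of `N` which map a point of `C Y` to a point of `C Y` are in `St Y`. -/
def Stmt_RotInj : Prop := ∀ (T F ι : Type) [Group F] (t : ZTree T) (K0 : ℕ)
  (R : Rot T F ι t K0), 10 ≤ K0 → ∀ n ∈ R.N, ∀ Y, ∀ x ∈ R.C Y, R.act n x ∈ R.C Y → n ∈ R.St Y

/-- The Cayley tree of a free group. -/
def Stmt_FreeTree : Prop := ∀ (S : Type) [DecidableEq S], ∃ t : ZTree (FreeGroup S),
  (∀ x y, t.d x y = (x⁻¹ * y).norm) ∧
  (∀ x z y, t.Btw x z y ↔ (x⁻¹ * y).toWord = (x⁻¹ * z).toWord ++ (z⁻¹ * y).toWord)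

end Pool.Agent.Lib.MP_6b7756_an.GM
end

section

/-!
# MP_6b7756_an, full disproof. Part 2: labelled graphs, charts, the group `Q`, sparsity of `Q`
-/

set_option autoImplicit false

namespace Pool.Agent.Lib.MP_6b7756_an.GM

/-! ## Labelled graphs and words -/

/-- A finite graph with edges labelled by `S`; `step v (s, true) = some w` means that there is an edge
from `v` to `w` with label `s`, and `step v (s, false) = some w` means that there is an edge from `w`
to `v` with label `s`. -/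
structure LGr (S : Type) where
  V : Type
  fin : Fintype V
  dec : DecidableEq V
  step : V → S × Bool → Option V
  inv : ∀ v w s b, step v (s, b) = some w → step w (s, !b) = some v

attribute [instance] LGr.fin LGr.dec

/-- Reading a word from a vertex. -/
def LGr.run {S : Type} (X : LGr S) : X.V → List (S × Bool) → Option X.V
  | v, [] => some v
  | v, a :: l => (X.step v a).bind fun w => X.run w l

/-- The degree of a vertex. -/
noncomputable def LGr.deg {S : Type} (X : LGr S) (v : X.V) : ℕ := {a | (X.step v a).isSome}.ncard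

/-- The numerical condition on the girth parameter. -/
def NumOK (g : ℕ) : Prop := 1000000 ≤ g ∧ ∀ t : ℕ, g ≤ 4 * (t + 1) →
  450 * ((g : ℝ) + 1) * 9001 ^ (4 * g / 100000) ≤ (151 / 150 : ℝ) ^ t

/-- A good family of labelled graphs. -/
structure Good {S : Type} [Fintype S] (X : ℕ → LGr S) (g : ℕ → ℕ) : Prop where
  ne : ∀ i, Nonempty (X i).V
  conn : ∀ i (v w : (X i).V), ∃ l, FreeGroup.IsReduced l ∧ (X i).run v l = some w
  girth : ∀ i (v : (X i).V) l, FreeGroup.IsReduced l → l ≠ [] → (X i).run v l = some v →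
    g i ≤ l.length
  small : ∀ i j (v : (X i).V) (w : (X j).V) l, FreeGroup.IsReduced l → ((X i).run v l).isSome →
    ((X j).run w l).isSome → (⟨i, v⟩ : Σ i, (X i).V) ≠ ⟨j, w⟩ → 100000 * l.length ≤ g i
  num : ∀ i, NumOK (g i)
  deg : ∀ i (v : (X i).V), (X i).deg v ≤ 9000
  dfc : ∀ i, 1000 * {v : (X i).V | (X i).deg v < 1550}.ncard ≤ Fintype.card (X i).V
  sparse : ∀ i (A B : Finset (X i).V), Disjoint A B →
    {p : (X i).V × S | ∃ w, (X i).step p.1 (p.2, true) = some w ∧
      ((p.1 ∈ A ∧ w ∈ B) ∨ (p.1 ∈ B ∧ w ∈ A))}.ncard ≤ 750 * (A.card + B.card)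

/-- There is a good family. -/
def Stmt_Family : Prop := ∃ (S : Type) (_ : Fintype S) (_ : DecidableEq S) (X : ℕ → LGr S)
  (g : ℕ → ℕ), Good X g

/-- The numerical condition holds for large numbers. -/
def Stmt_Num : Prop := ∃ G0, ∀ g ≥ G0, NumOK g

/-! ## Charts, the groups `Nc`, `NN` and `QQ` -/

section
variable {S : Type} [DecidableEq S]

/-- The chart of `X` which takes the value `v` at `u`. -/
def LGr.chart (X : LGr S) (u : FreeGroup S) (v : X.V) : FreeGroup S → Option X.V :=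
  fun x => X.run v (u⁻¹ * x).toWord

/-- `f` stabilises `θ`. -/
def Stab {V : Type} (θ : FreeGroup S → Option V) (f : FreeGroup S) : Prop :=
  ∀ x, θ (f⁻¹ * x) = θ x

/-- The sign homomorphism of the free group. -/
def sgn : FreeGroup S →* ℤˣ := FreeGroup.lift fun _ => -1

/-- The compact group. -/
abbrev KK : Type := ℕ → ℤˣ

/-- The normal subgroup of `FreeGroup S × KK` generated by the twisted stabilisers of charts. -/
def Nc (X : ℕ → LGr S) : Subgroup (FreeGroup S × KK) :=
  Subgroup.normalClosure {p | ∃ (i : ℕ) (u : FreeGroup S) (v : (X i).V),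
    Stab ((X i).chart u v) p.1 ∧ p.2 = Pi.mulSingle i (sgn p.1)}

instance (X : ℕ → LGr S) : (Nc X).Normal := Subgroup.normalClosure_normal

/-- Its projection to the free group. -/
def NN (X : ℕ → LGr S) : Subgroup (FreeGroup S) := (Nc X).map (MonoidHom.fst (FreeGroup S) KK)

instance (X : ℕ → LGr S) : (NN X).Normal :=
  Subgroup.Normal.map inferInstance _ fun x => ⟨(x, 1), rfl⟩

/-- The group `Q`. -/
abbrev QQ (X : ℕ → LGr S) : Type := FreeGroup S ⧸ NN X

/-- The class of an element of the free group. -/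
def cl (X : ℕ → LGr S) (x : FreeGroup S) : QQ X := QuotientGroup.mk x

end

/-- Charts: change of base point and convexity of the domain. -/
def Stmt_Chart : Prop := ∀ (S : Type) [DecidableEq S] (X : LGr S) (u : FreeGroup S) (v : X.V),
  (∀ x w, X.chart u v x = some w → X.chart u v = X.chart x w) ∧
  (∀ x y z, (X.chart u v x).isSome → (X.chart u v y).isSome →
    (x⁻¹ * y).toWord = (x⁻¹ * z).toWord ++ (z⁻¹ * y).toWord → (X.chart u v z).isSome)

/-- Consequences of the windmill theorem for `Nc`. -/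
def Stmt_NcBig : Prop := ∀ (S : Type) [Fintype S] [DecidableEq S] (X : ℕ → LGr S) (g : ℕ → ℕ),
  Good X g →
    (∀ p ∈ Nc X, p ≠ 1 → ∀ o : FreeGroup S, ∃ (i : ℕ) (u : FreeGroup S) (v : (X i).V)
      (h a b : FreeGroup S), Stab ((X i).chart u v) h ∧ h ≠ 1 ∧ ((X i).chart u v a).isSome ∧
        ((X i).chart u v b).isSome ∧
        (o⁻¹ * (p.1 * o)).norm = (o⁻¹ * a).norm + (a⁻¹ * b).norm + (b⁻¹ * (p.1 * o)).norm ∧
        100000 * (b⁻¹ * (h * a)).norm ≤ 4 * g i) ∧
    (∀ p ∈ Nc X, ∀ (i : ℕ) (u : FreeGroup S) (v : (X i).V) (x : FreeGroup S),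
      ((X i).chart u v x).isSome → ((X i).chart u v (p.1 * x)).isSome →
        Stab ((X i).chart u v) p.1 ∧ p.2 = Pi.mulSingle i (sgn p.1)) ∧
    (∀ p ∈ Nc X, p.1.norm ≤ 1 → p = 1)

/-- The graphs `X i` embed in `QQ X`. -/
def Stmt_Emb : Prop := ∀ (S : Type) [Fintype S] [DecidableEq S] (X : ℕ → LGr S) (g : ℕ → ℕ),
  Good X g → ∀ (i : ℕ) (u : FreeGroup S) (v0 : (X i).V), ∃ j : (X i).V → QQ X,
    Function.Injective j ∧ (∀ x v, (X i).chart u v0 x = some v → j v = cl X x) ∧
    (∀ v, ∃ x, (X i).chart u v0 x = some v) ∧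
    (∀ v w a, (X i).step v a = some w → j w = j v * cl X (FreeGroup.mk [a]))

/-! ## The sparsity (A) of `QQ X` -/

/-- Statement (A) for a group `Q` with generators `gen`. -/
def SparseA {Q S : Type} [Group Q] (gen : S → Q) : Prop := ∀ (U : Finset Q) (σ : Q → Bool),
  {p : Q × S | p.1 ∈ U ∧ p.1 * gen p.2 ∈ U ∧ σ p.1 ≠ σ (p.1 * gen p.2)}.ncard ≤ 760 * U.card

/-- Critical pairs: every nonempty subset of `U` meets many alternating edges. -/
def Crit {Q S : Type} [Group Q] (gen : S → Q) (U : Finset Q) (σ : Q → Bool) : Prop :=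
  U.Nonempty ∧ ∀ P : Finset Q, P ⊆ U → P.Nonempty → 760 * P.card <
    {p : Q × S | p.1 ∈ U ∧ p.1 * gen p.2 ∈ U ∧ σ p.1 ≠ σ (p.1 * gen p.2) ∧
      (p.1 ∈ P ∨ p.1 * gen p.2 ∈ P)}.ncard

/-- If (A) fails then there is a critical pair. -/
def Stmt_Crit : Prop := ∀ (Q S : Type) [Group Q] [Fintype S] (gen : S → Q), ¬ SparseA gen →
  ∃ U σ, Crit gen U σ

/-- Breadth first search. -/
def Stmt_BFS : Prop := ∀ (V : Type) [Fintype V] [DecidableEq V] (adj near : V → V → Prop)
  (g Bd : ℕ) (root z0 : V) (T : Finset V) (Ex U : Set V),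
  root ∈ U → (∀ v w, adj v w → w ∈ U) → (∀ v, {w | near v w}.ncard ≤ Bd) →
  (∀ P : Finset V, P.Nonempty → (∀ v ∈ P, v ∈ U) → (∀ v ∈ P, v ∉ Ex) →
    76 * P.card ≤ 75 * {w | w ∈ P ∨ ∃ v ∈ P, adj v w}.ncard) →
  (root ∉ Ex → 761 ≤ {w | adj root w}.ncard) →
  (∀ t : ℕ, g ≤ 4 * (t + 1) → 450 * ((T.card : ℝ) + 1) * Bd ≤ (151 / 150 : ℝ) ^ t) →
  ∃ (t : ℕ) (y : ℕ → V), y 0 = root ∧ y t ∈ Ex ∧ (∀ k < t, adj (y k) (y (k + 1))) ∧
    (∀ k k', k < k' → k' ≤ t → y k ≠ y k') ∧ (∀ k, 1 ≤ k → k ≤ t → y k ≠ z0) ∧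
    (∀ s t', s < t' → t' ≤ t → g ≤ 2 * (t' - s) → ¬ near (y s) (y t')) ∧
    (∀ τ ∈ T, ∀ t' ≤ t, g ≤ 4 * t' → ¬ near τ (y t'))

section
variable {S : Type} [DecidableEq S]

/-- The letter `a` at `h` is an alternating edge in `U`. -/
def HE (X : ℕ → LGr S) (U : Finset (QQ X)) (σ : QQ X → Bool) (h : QQ X) (a : S × Bool) : Prop :=
  h ∈ U ∧ h * cl X (FreeGroup.mk [a]) ∈ U ∧ σ h ≠ σ (h * cl X (FreeGroup.mk [a]))

/-- Alternating edges of `X i` in `U` (for an embedding `j` of `X i` in `QQ X`). -/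
def adjU (X : ℕ → LGr S) (U : Finset (QQ X)) (σ : QQ X → Bool) (i : ℕ) (j : (X i).V → QQ X)
    (v w : (X i).V) : Prop :=
  ∃ a, (X i).step v a = some w ∧ j v ∈ U ∧ j w ∈ U ∧ σ (j v) ≠ σ (j w)

/-- The exits: vertices of `X i` at which there is an alternating edge not in `X i`. -/
def exits (X : ℕ → LGr S) (U : Finset (QQ X)) (σ : QQ X → Bool) (i : ℕ) (j : (X i).V → QQ X) :
    Set (X i).V := {v | ∃ a, (X i).step v a = none ∧ HE X U σ (j v) a}

/-- Vertices which are close in `X i`. -/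
def nearX (X : ℕ → LGr S) (g : ℕ → ℕ) (i : ℕ) (v w : (X i).V) : Prop :=
  ∃ l, FreeGroup.IsReduced l ∧ 100000 * l.length ≤ 4 * g i ∧ (X i).run v l = some w

/-- The points of a path. -/
def pt (x0 : FreeGroup S) (l : List (S × Bool)) (k : ℕ) : FreeGroup S :=
  x0 * FreeGroup.mk (l.take k)

/-- Reduced, valid and clean paths in `U`. -/
structure GPath (X : ℕ → LGr S) (g : ℕ → ℕ) (U : Finset (QQ X)) (x0 : FreeGroup S)
    (l : List (S × Bool)) : Prop where
  red : FreeGroup.IsReduced l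
  inU : ∀ k ≤ l.length, cl X (pt x0 l k) ∈ U
  valid : ∀ (i : ℕ) (u : FreeGroup S) (v : (X i).V) (s t : ℕ), s < t → t ≤ l.length →
    ((X i).chart u v (pt x0 l s)).isSome → ((X i).chart u v (pt x0 l t)).isSome →
    g i ≤ 2 * (t - s) → ∀ f, f ≠ 1 → Stab ((X i).chart u v) f →
    4 * g i < 100000 * ((pt x0 l t)⁻¹ * (f * pt x0 l s)).norm
  clean : ∀ (i : ℕ) (u : FreeGroup S) (v : (X i).V) (s : ℕ), s ≤ l.length →
    ((X i).chart u v (pt x0 l s)).isSome → ((X i).chart u v (pt x0 l l.length)).isSome →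
    8 * (l.length - s) < g i

end

/-- Growth of alternating neighbourhoods in `X i`. -/
def Stmt_Growth : Prop := ∀ (S : Type) [Fintype S] [DecidableEq S] (X : ℕ → LGr S) (g : ℕ → ℕ),
  Good X g → ∀ (U : Finset (QQ X)) (σ : QQ X → Bool),
    Crit (fun s : S => cl X (FreeGroup.of s)) U σ →
    (∀ h ∈ U, 761 ≤ {a | HE X U σ h a}.ncard) ∧
    ∀ (i : ℕ) (j : (X i).V → QQ X), Function.Injective j →
      (∀ v w a, (X i).step v a = some w → j w = j v * cl X (FreeGroup.mk [a])) →
      (∀ P : Finset (X i).V, P.Nonempty → (∀ v ∈ P, j v ∈ U) → (∀ v ∈ P, v ∉ exits X U σ i j) →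
        76 * P.card ≤ 75 * {w | w ∈ P ∨ ∃ v ∈ P, adjU X U σ i j v w}.ncard) ∧
      (∀ v, j v ∈ U → v ∉ exits X U σ i j → 761 ≤ {w | adjU X U σ i j v w}.ncard) ∧
      (∀ v, {w | nearX X g i v w}.ncard ≤ 9001 ^ (4 * g i / 100000))

/-- Validity of the extended paths constructed by breadth first search: the path `l` has its end in
a chart of `X i` (from the index `s0` on), it is continued inside the chart by `w`, and leaves the chart
with the letter `a`. -/
def Stmt_ExtOK : Prop := ∀ (S : Type) [Fintype S] [DecidableEq S] (X : ℕ → LGr S) (g : ℕ → ℕ),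
  Good X g → ∀ (U : Finset (QQ X)) (x0 : FreeGroup S) (l : List (S × Bool)), GPath X g U x0 l →
    ∀ (i : ℕ) (u : FreeGroup S) (v : (X i).V) (s0 : ℕ) (w : List (S × Bool)) (a : S × Bool),
      s0 ≤ l.length → g i ≤ 8 * (l.length + 1 - s0) →
      (∀ s ≤ l.length, ((X i).chart u v (pt x0 l s)).isSome ↔ s0 ≤ s) →
      FreeGroup.IsReduced (l ++ w ++ [a]) →
      (∀ k ≤ (l ++ w ++ [a]).length, cl X (pt x0 (l ++ w ++ [a]) k) ∈ U) →
      (∀ k ≤ w.length, ((X i).chart u v (pt x0 (l ++ w ++ [a]) (l.length + k))).isSome) →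
      (X i).chart u v (pt x0 (l ++ w ++ [a]) (l.length + w.length + 1)) = none →
      (∀ s t y z, s < t → t ≤ w.length → g i ≤ 2 * (t - s) →
        (X i).chart u v (pt x0 (l ++ w ++ [a]) (l.length + s)) = some y →
        (X i).chart u v (pt x0 (l ++ w ++ [a]) (l.length + t)) = some z → ¬ nearX X g i y z) →
      (∀ s t y z, s0 ≤ s → s ≤ l.length → t ≤ w.length → g i ≤ 4 * t →
        (X i).chart u v (pt x0 (l ++ w ++ [a]) s) = some y →
        (X i).chart u v (pt x0 (l ++ w ++ [a]) (l.length + t)) = some z → ¬ nearX X g i y z) →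
      GPath X g U x0 (l ++ w ++ [a])

/-- The extension lemma. -/
def Stmt_Ext : Prop := ∀ (S : Type) [Fintype S] [DecidableEq S] (X : ℕ → LGr S) (g : ℕ → ℕ),
  Good X g → ∀ (U : Finset (QQ X)) (σ : QQ X → Bool),
    Crit (fun s : S => cl X (FreeGroup.of s)) U σ → ∀ x0 l, GPath X g U x0 l →
      ∃ l', l.length < l'.length ∧ GPath X g U x0 l'

/-- (A) holds for `QQ X`. -/
def Stmt_A : Prop := ∀ (S : Type) [Fintype S] [DecidableEq S] (X : ℕ → LGr S) (g : ℕ → ℕ),
  Good X g → SparseA (fun s : S => cl X (FreeGroup.of s))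

end Pool.Agent.Lib.MP_6b7756_an.GM
end

section

/-!
# MP_6b7756_an, full disproof. Part 3: analysis (statements)
-/

set_option autoImplicit false

open scoped ComplexConjugate Classical

namespace Pool.Agent.Lib.MP_6b7756_an.GM

/-! ## The frozen statement for one group; limits of coefficients -/

/-- The body of the frozen statement. -/
def EbBody (G : Type) [Group G] [TopologicalSpace G] [IsTopologicalGroup G]
    [LocallyCompactSpace G] [T2Space G] [MeasurableSpace G] [BorelSpace G] : Prop :=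
  ∀ φ : G → ℂ, Continuous φ →
    φ ∈ closure {ψ : G → ℂ | ∃ ξ : G → ℂ,
          MeasureTheory.MemLp ξ 2 (MeasureTheory.Measure.haar : MeasureTheory.Measure G) ∧
          ∀ x : G, ψ x = ∫ y, ξ y * (starRingEnd ℂ) (ξ (x⁻¹ * y))
            ∂(MeasureTheory.Measure.haar : MeasureTheory.Measure G)} →
    ∀ K : Set G, IsCompact K → ∀ ε : ℝ, 0 < ε →
      ∃ ξ : G → ℂ,
        MeasureTheory.MemLp ξ 2 (MeasureTheory.Measure.haar : MeasureTheory.Measure G) ∧
        ∀ x ∈ K, ‖φ x - ∫ y, ξ y * (starRingEnd ℂ) (ξ (x⁻¹ * y))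
            ∂(MeasureTheory.Measure.haar : MeasureTheory.Measure G)‖ < ε

/-- The coefficient of `v` modulo the central open compact subgroup `K`. -/
noncomputable def qform {G : Type} [Group G] (K : Subgroup G) (v : G → ℂ) (x : G) : ℂ :=
  ∑ᶠ q : G ⧸ K, v q.out * conj (v (x⁻¹ * q.out))

/-- Hypothesis (H1): a lower bound for `K`-invariant vectors. -/
def H1 {G : Type} [Group G] (K : Subgroup G) {κ : Type} [Fintype κ] (x : κ → G) (γ : κ → ℝ)
    (δ : ℝ) : Prop :=
  ∀ v : G → ℂ, (∀ y, ∀ k ∈ K, v (y * k) = v y) → {q : G ⧸ K | v q.out ≠ 0}.Finite →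
    δ * (qform K v 1).re ≤ ∑ i, γ i * (qform K v (x i)).re

/-- Hypothesis (H2): vectors with characters of `K` tending to one which violate the lower bound. -/
def H2 {G : Type} [Group G] [TopologicalSpace G] (K : Subgroup G) {κ : Type} [Fintype κ]
    (x : κ → G) (γ : κ → ℝ) (δ : ℝ) : Prop :=
  ∀ E0 : Finset G, (E0 : Set G) ⊆ K → ∃ (v : G → ℂ) (χ : G → ℂ),
    (∀ y, ∀ k ∈ K, v (y * k) = χ k * v y) ∧ (∀ k ∈ K, ‖χ k‖ = 1) ∧ (∀ k ∈ E0, χ k = 1) ∧
    Continuous v ∧ {q : G ⧸ K | v q.out ≠ 0}.Finite ∧ qform K v 1 = 1 ∧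
    ∑ i, γ i * (qform K v (x i)).re ≤ δ / 2

/-- Under (H2) there is a `K`-invariant limit of coefficients which violates the lower bound. -/
def Stmt_LimitA : Prop := ∀ (G : Type) [Group G] [TopologicalSpace G] [IsTopologicalGroup G]
  [LocallyCompactSpace G] [T2Space G] [MeasurableSpace G] [BorelSpace G] (K : Subgroup G),
  IsOpen (K : Set G) → IsCompact (K : Set G) → K ≤ Subgroup.center G →
  ∀ (κ : Type) [Fintype κ] (x : κ → G) (γ : κ → ℝ) (δ : ℝ), H2 K x γ δ →
    ∃ φ : G → ℂ,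
      φ ∈ closure {ψ : G → ℂ | ∃ ξ : G → ℂ,
        MeasureTheory.MemLp ξ 2 (MeasureTheory.Measure.haar : MeasureTheory.Measure G) ∧
        ∀ x : G, ψ x = ∫ y, ξ y * (starRingEnd ℂ) (ξ (x⁻¹ * y))
          ∂(MeasureTheory.Measure.haar : MeasureTheory.Measure G)} ∧
      (∀ y, ∀ k ∈ K, φ (y * k) = φ y) ∧ φ 1 = 1 ∧ ∑ i, γ i * (φ (x i)).re ≤ δ / 2

/-- Under (H1) such a limit is not a uniform limit on compact sets. -/
def Stmt_LimitB : Prop := ∀ (G : Type) [Group G] [TopologicalSpace G] [IsTopologicalGroup G]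
  [LocallyCompactSpace G] [T2Space G] [MeasurableSpace G] [BorelSpace G] (K : Subgroup G),
  IsOpen (K : Set G) → IsCompact (K : Set G) → K ≤ Subgroup.center G →
  ∀ (κ : Type) [Fintype κ] (x : κ → G) (γ : κ → ℝ) (δ : ℝ), 0 < δ → H1 K x γ δ →
    ∀ φ : G → ℂ, (∀ y, ∀ k ∈ K, φ (y * k) = φ y) → φ 1 = 1 →
      ∑ i, γ i * (φ (x i)).re ≤ δ / 2 →
      ∃ C : Set G, IsCompact C ∧ ∃ ε : ℝ, 0 < ε ∧ ¬ ∃ ξ : G → ℂ,
        MeasureTheory.MemLp ξ 2 (MeasureTheory.Measure.haar : MeasureTheory.Measure G) ∧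
        ∀ x ∈ C, ‖φ x - ∫ y, ξ y * (starRingEnd ℂ) (ξ (x⁻¹ * y))
            ∂(MeasureTheory.Measure.haar : MeasureTheory.Measure G)‖ < ε

/-! ## Cheeger inequality -/

/-- The weights. -/
noncomputable def Wt (k : ℕ) : ℝ := if k < 1550 then 1 else if k ≤ 9000 then 0 else k

section
variable {Q S : Type} [Group Q]

/-- The degree of `h` in the set of edges `ω`. -/
noncomputable def dg (gen : S → Q) (ω : Finset (Q × S)) (h : Q) : ℕ :=
  {s | (h, s) ∈ ω}.ncard + {s | (h * (gen s)⁻¹, s) ∈ ω}.ncard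

end

/-- Layer cake form of (A). -/
def Stmt_Layer : Prop := ∀ (Q S : Type) [Group Q] [Fintype S] (gen : S → Q), SparseA gen →
  ∀ (ω : Finset (Q × S)) (P : Finset Q) (f : Q → ℝ) (σ : Q → Bool), (∀ h, 0 ≤ f h) →
    (∀ h, h ∉ P → f h = 0) →
    ∑ p ∈ ω with σ p.1 ≠ σ (p.1 * gen p.2), min (f p.1) (f (p.1 * gen p.2)) ≤ 760 * ∑ h ∈ P, f h

/-- Cheeger type inequality for all subgraphs `ω`. -/
def Stmt_Cheeger : Prop := ∀ (Q S : Type) [Group Q] [Fintype S] (gen : S → Q), SparseA gen →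
  ∀ (ω : Finset (Q × S)) (P : Finset Q) (η : Q → ℝ), (∀ h, h ∉ P → η h = 0) →
    (9 / 1000 : ℝ) * ∑ h ∈ P, η h ^ 2 ≤
      ∑ p ∈ ω, (η p.1 + η (p.1 * gen p.2)) ^ 2 + ∑ h ∈ P, Wt (dg gen ω h) * η h ^ 2

/-! ## Walsh functions -/

/-- The symmetric difference. -/
noncomputable def sdf {J : Type} (b w : Finset J) : Finset J := symmDiff b w

theorem mem_sdf {J : Type} {b w : Finset J} {p : J} :
    p ∈ sdf b w ↔ (p ∈ b ∧ p ∉ w) ∨ (p ∈ w ∧ p ∉ b) := Finset.mem_symmDiff

/-- The Walsh function. -/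
noncomputable def sg {J : Type} (b w : Finset J) : ℝ := (-1) ^ (b ∩ w).card

/-- Parseval identity and inversion formula. -/
def Stmt_Walsh : Prop := ∀ (J : Type) (Om : Finset J),
  (∀ (z z' : Finset J → ℝ) (c : Finset J), c ⊆ Om → (∀ b, z b ≠ 0 → b ⊆ Om) →
    (∀ b, z' b ≠ 0 → b ⊆ Om) →
    ∑ w ∈ Om.powerset, sg c w * (∑ b ∈ Om.powerset, sg b w * z b) *
      (∑ b ∈ Om.powerset, sg b w * z' b) =
      2 ^ Om.card * ∑ b ∈ Om.powerset, z b * z' (sdf c b)) ∧
  (∀ (F : Finset J → ℝ), ∀ w ⊆ Om, F w =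
    ∑ T ∈ Om.powerset, ((2 : ℝ) ^ Om.card)⁻¹ * (∑ w' ∈ Om.powerset, sg T w' * F w') * sg T w)

/-! ## Translations, the core inequality -/

section
variable {Q S : Type} [Group Q]

theorem tr_inj (q : Q) : Function.Injective fun p : Q × S => (q * p.1, p.2) := by
  intro p p' h
  have h1 := congrArg Prod.fst h
  have h2 := congrArg Prod.snd h
  exact Prod.ext (mul_left_cancel h1) h2

/-- Translation of finite subsets of `Q × S`. -/
def tr (q : Q) (c : Finset (Q × S)) : Finset (Q × S) :=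
  c.map ⟨fun p => (q * p.1, p.2), tr_inj q⟩

/-- The edges at the identity. -/
noncomputable def LL [Fintype S] (gen : S → Q) : Finset (Q × S) :=
  Finset.univ.image (fun s => ((1 : Q), s)) ∪ Finset.univ.image (fun s => ((gen s)⁻¹, s))

/-- The Walsh coefficients of the weight. -/
noncomputable def hW [Fintype S] (gen : S → Q) (T : Finset (Q × S)) : ℝ :=
  ((2 : ℝ) ^ (LL gen).card)⁻¹ * ∑ w ∈ (LL gen).powerset, sg T w * Wt w.card

/-- The quadratic form on functions on `Q × Finset (Q × S)`. -/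
noncomputable def Phi (ζ : Q → Finset (Q × S) → ℝ) (c : Finset (Q × S)) (f : Q) : ℝ :=
  ∑ᶠ p : Q × Finset (Q × S), ζ p.1 p.2 * ζ (p.1 * f) (sdf (tr p.1 c) p.2)

/-- The linear combination which defines the operator. -/
noncomputable def Form [Fintype S] {E : Type} [Group E] (gen : S → Q) (gE : S → E)
    (F : Finset (Q × S) → E → ℝ) : ℝ :=
  ∑ s, (F ∅ 1 + F ∅ (gE s) - 1 / 2 * F {((1 : Q), s)} 1 - 1 / 2 * F {((gen s)⁻¹, s)} 1 -
    F {((1 : Q), s)} (gE s)) + ∑ T ∈ (LL gen).powerset, hW gen T * F T 1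

end

/-- The weight of the degree in terms of Walsh functions. -/
def Stmt_WtW : Prop := ∀ (Q S : Type) [Group Q] [Fintype S] (gen : S → Q), (∀ s, gen s ≠ 1) →
  ∀ (ω : Finset (Q × S)) (q : Q),
    Wt (dg gen ω q) = ∑ T ∈ (LL gen).powerset, hW gen T * sg (tr q T) ω

/-- The identity in one fibre. -/
def Stmt_Fib : Prop := ∀ (Q S : Type) [Group Q] [Fintype S] (gen : S → Q) (ω : Finset (Q × S))
  (P : Finset Q) (A : Q → ℝ) (B : S → Q → ℝ), (∀ q, q ∉ P → A q = 0) →
  (∀ s q, q ∉ P → B s q = 0) →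
    ∑ s, (∑ q ∈ P, A q + ∑ q ∈ P, B s q - 1 / 2 * ∑ q ∈ P, sg (tr q {((1 : Q), s)}) ω * A q -
      1 / 2 * ∑ q ∈ P, sg (tr q {((gen s)⁻¹, s)}) ω * A q -
      ∑ q ∈ P, sg (tr q {((1 : Q), s)}) ω * B s q) =
    ∑ p ∈ ω, (A p.1 + A (p.1 * gen p.2) + 2 * B p.2 p.1)

/-- The core inequality. -/
def Stmt_Core : Prop := ∀ (Q S : Type) [Group Q] [Fintype S] (gen : S → Q), (∀ s, gen s ≠ 1) →
  SparseA gen → ∀ ζ : Q → Finset (Q × S) → ℝ,
    {p : Q × Finset (Q × S) | ζ p.1 p.2 ≠ 0}.Finite →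
    (9 / 1000 : ℝ) * Phi ζ ∅ 1 ≤ Form gen gen (Phi ζ)

/-! ## The group `WR` -/

/-- The semidirect product of the group of finite subsets of `Q × S` by `E`, which acts through
`π : E →* Q`. -/
structure WR {Q E : Type} (S : Type) [Group Q] [Group E] (π : E →* Q) where
  b : Finset (Q × S)
  e : E

section
variable {Q S E : Type} [Group Q] [Group E] (π : E →* Q)

theorem tr_one (c : Finset (Q × S)) : tr 1 c = c := by
  ext p; simp [tr]

theorem mem_tr (q : Q) (c : Finset (Q × S)) (p : Q × S) : p ∈ tr q c ↔ (q⁻¹ * p.1, p.2) ∈ c := by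
  simp only [tr, Finset.mem_map, Function.Embedding.coeFn_mk]
  constructor
  · rintro ⟨a, ha, rfl⟩; simpa using ha
  · intro h; exact ⟨_, h, by simp⟩

theorem tr_mul (q q' : Q) (c : Finset (Q × S)) : tr (q * q') c = tr q (tr q' c) := by
  ext p; simp [mem_tr, mul_assoc]

theorem tr_sdf (q : Q) (c d : Finset (Q × S)) : tr q (sdf c d) = sdf (tr q c) (tr q d) := by
  ext p; simp only [mem_tr, mem_sdf]

theorem tr_empty (q : Q) : tr q (∅ : Finset (Q × S)) = ∅ := rfl

theorem sdf_assoc {J : Type} (a b c : Finset J) : sdf (sdf a b) c = sdf a (sdf b c) := by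
  ext p; simp only [mem_sdf]; tauto

theorem empty_sdf {J : Type} (a : Finset J) : sdf ∅ a = a := by
  ext p; simp [mem_sdf]

theorem sdf_empty {J : Type} (a : Finset J) : sdf a ∅ = a := by
  ext p; simp [mem_sdf]

theorem sdf_self {J : Type} (a : Finset J) : sdf a a = ∅ := by
  ext p; simp [mem_sdf]

@[ext] theorem WR.ext' {x y : WR S π} (h1 : x.b = y.b) (h2 : x.e = y.e) : x = y := by
  cases x; cases y; simp_all

noncomputable instance : Mul (WR S π) := ⟨fun x y => ⟨sdf x.b (tr (π x.e) y.b), x.e * y.e⟩⟩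

noncomputable instance : One (WR S π) := ⟨⟨∅, 1⟩⟩

noncomputable instance : Inv (WR S π) := ⟨fun x => ⟨tr (π x.e)⁻¹ x.b, x.e⁻¹⟩⟩

theorem WR.mul_b (x y : WR S π) : (x * y).b = sdf x.b (tr (π x.e) y.b) := rfl
theorem WR.mul_e (x y : WR S π) : (x * y).e = x.e * y.e := rfl
theorem WR.one_b : (1 : WR S π).b = ∅ := rfl
theorem WR.one_e : (1 : WR S π).e = 1 := rfl
theorem WR.inv_b (x : WR S π) : (x⁻¹).b = tr (π x.e)⁻¹ x.b := rfl
theorem WR.inv_e (x : WR S π) : (x⁻¹).e = x.e⁻¹ := rfl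

noncomputable instance : Group (WR S π) := Group.ofLeftAxioms
  (fun x y z => by
    apply WR.ext' π
    · simp only [WR.mul_b, WR.mul_e, tr_sdf, tr_mul, map_mul, sdf_assoc]
    · simp only [WR.mul_e, mul_assoc])
  (fun x => by
    apply WR.ext' π
    · simp only [WR.mul_b, WR.one_b, WR.one_e, map_one, tr_one, empty_sdf]
    · simp only [WR.mul_e, WR.one_e, one_mul])
  (fun x => by
    apply WR.ext' π
    · simp only [WR.mul_b, WR.inv_b, WR.inv_e, map_inv, WR.one_b, sdf_self]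
    · simp only [WR.mul_e, WR.inv_e, inv_mul_cancel, WR.one_e])

instance [TopologicalSpace E] : TopologicalSpace (WR S π) :=
  TopologicalSpace.induced (fun x : WR S π => (x.b, x.e))
    (@instTopologicalSpaceProd (Finset (Q × S)) E ⊥ _)

/-- The central subgroup of `WR S π` given by the kernel of `π`. -/
def KW (S : Type) : Subgroup (WR S π) where
  carrier := {x | x.b = ∅ ∧ x.e ∈ π.ker}
  mul_mem' := by
    rintro x y ⟨hx, hx'⟩ ⟨hy, hy'⟩
    refine ⟨?_, ?_⟩
    · rw [WR.mul_b, hx, hy, tr_empty, sdf_self]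
    · rw [WR.mul_e]; exact mul_mem hx' hy'
  one_mem' := ⟨rfl, by rw [WR.one_e]; exact one_mem _⟩
  inv_mem' := by
    rintro x ⟨hx, hx'⟩
    refine ⟨?_, ?_⟩
    · rw [WR.inv_b, hx]; rfl
    · rw [WR.inv_e]; exact inv_mem hx'

/-- The coordinates of a function on `WR S π`. -/
noncomputable def zeta (v : WR S π → ℂ) (e : E) (b : Finset (Q × S)) : ℂ :=
  v ⟨tr (π e)⁻¹ b, e⁻¹⟩

end

/-- Topological properties of `WR`. -/
def Stmt_WRtop : Prop := ∀ (Q S E : Type) [Group Q] [Group E] [TopologicalSpace E]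
  [IsTopologicalGroup E] [T2Space E] (π : E →* Q), IsOpen (π.ker : Set E) →
  IsCompact (π.ker : Set E) → π.ker ≤ Subgroup.center E →
    IsTopologicalGroup (WR S π) ∧ T2Space (WR S π) ∧ LocallyCompactSpace (WR S π) ∧
    IsOpen (KW π S : Set (WR S π)) ∧ IsCompact (KW π S : Set (WR S π)) ∧
    KW π S ≤ Subgroup.center (WR S π) ∧
    (∀ v : WR S π → ℂ, (∀ b, Continuous fun e => v ⟨b, e⟩) → Continuous v)

/-- The coefficients in coordinates. -/
def Stmt_WRq : Prop := ∀ (Q S E : Type) [Group Q] [Group E] (π : E →* Q),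
  π.ker ≤ Subgroup.center E → ∀ τ : Q → E, (∀ q, π (τ q) = q) → ∀ (v χ : WR S π → ℂ),
    (∀ y, ∀ k ∈ KW π S, v (y * k) = χ k * v y) → (∀ k ∈ KW π S, ‖χ k‖ = 1) →
    ({q : WR S π ⧸ KW π S | v q.out ≠ 0}.Finite ↔
      {p : Q × Finset (Q × S) | zeta π v (τ p.1) p.2 ≠ 0}.Finite) ∧
    ∀ (c : Finset (Q × S)) (f : E), qform (KW π S) v ⟨c, f⟩ =
      ∑ᶠ p : Q × Finset (Q × S), zeta π v (τ p.1) p.2 *
        conj (zeta π v (τ p.1 * f) (sdf (tr p.1 c) p.2))

/-- (H1) for `WR`. -/
def Stmt_H1 : Prop := ∀ (Q S E : Type) [Group Q] [Fintype S] [Group E] (gen : S → Q) (π : E →* Q)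
  (gE : S → E), (∀ s, gen s ≠ 1) → SparseA gen → Function.Surjective π →
  (∀ s, π (gE s) = gen s) → π.ker ≤ Subgroup.center E →
  ∀ v : WR S π → ℂ, (∀ y, ∀ k ∈ KW π S, v (y * k) = v y) →
    {q : WR S π ⧸ KW π S | v q.out ≠ 0}.Finite →
    (9 / 1000 : ℝ) * (qform (KW π S) v 1).re ≤
      Form gen gE fun c f => (qform (KW π S) v ⟨c, f⟩).re

/-! ## Extensions with many characters -/

/-- Properties of the extension `π : E →* Q`. -/
structure ExtOK {Q S E : Type} [Group Q] [Group E] [TopologicalSpace E] (gen : S → Q)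
    (π : E →* Q) (gE : S → E) : Prop where
  tg : IsTopologicalGroup E
  t2 : T2Space E
  surj : Function.Surjective π
  gen_eq : ∀ s, π (gE s) = gen s
  op : IsOpen (π.ker : Set E)
  cpt : IsCompact (π.ker : Set E)
  cen : π.ker ≤ Subgroup.center E
  bb : ∀ E0 : Finset E, (E0 : Set E) ⊆ π.ker → ∃ (u χ : E → ℝ) (P : Finset Q)
    (ω : Finset (Q × S)), Continuous u ∧ (∀ e, ∀ k ∈ π.ker, u (e * k) = χ k * u e) ∧
    (∀ k ∈ π.ker, χ k = 1 ∨ χ k = -1) ∧ (∀ k ∈ E0, χ k = 1) ∧
    (∀ e, π e ∈ P → u e = 1 ∨ u e = -1) ∧ (∀ e, π e ∉ P → u e = 0) ∧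
    (∀ p ∈ ω, p.1 ∈ P ∧ p.1 * gen p.2 ∈ P) ∧ (∀ e s, (π e, s) ∈ ω → u (e * gE s) = -u e) ∧
    (∀ h ∈ P, dg gen ω h ≤ 9000) ∧ 1000 * {h | h ∈ P ∧ dg gen ω h < 1550}.ncard ≤ P.card ∧
    P.Nonempty

/-- (H2) for `WR`. -/
def Stmt_H2 : Prop := ∀ (Q S E : Type) [Group Q] [Fintype S] [Group E] [TopologicalSpace E]
  (gen : S → Q) (π : E →* Q) (gE : S → E), (∀ s, gen s ≠ 1) → ExtOK gen π gE →
  ∀ E0 : Finset (WR S π), (E0 : Set (WR S π)) ⊆ KW π S → ∃ (v : WR S π → ℂ) (χ : WR S π → ℂ),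
    (∀ y, ∀ k ∈ KW π S, v (y * k) = χ k * v y) ∧ (∀ k ∈ KW π S, ‖χ k‖ = 1) ∧
    (∀ k ∈ E0, χ k = 1) ∧ (∀ b, Continuous fun e => v ⟨b, e⟩) ∧
    {q : WR S π ⧸ KW π S | v q.out ≠ 0}.Finite ∧ qform (KW π S) v 1 = 1 ∧
    (Form gen gE fun c f => (qform (KW π S) v ⟨c, f⟩).re) ≤ 9 / 2000

/-- The topological group `(F × KK) ⧸ M` for a discrete group `F` and a normal subgroup `M` which
meets `1 × KK` trivially. -/
def Stmt_ExtTop : Prop := ∀ (F : Type) [Group F] (M : Subgroup (F × KK)) [M.Normal],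
  (∀ p ∈ M, p.1 = 1 → p = 1) → ∃ top : TopologicalSpace ((F × KK) ⧸ M),
    @IsTopologicalGroup ((F × KK) ⧸ M) top _ ∧ @T2Space _ top ∧
    (∀ u : (F × KK) ⧸ M → ℝ, (∀ f : F, Continuous fun κ : KK => u (QuotientGroup.mk (f, κ))) →
      @Continuous _ _ top _ u) ∧
    @IsOpen _ top (Set.range fun κ : KK => (QuotientGroup.mk ((1 : F), κ) : (F × KK) ⧸ M)) ∧
    @IsCompact _ top (Set.range fun κ : KK => (QuotientGroup.mk ((1 : F), κ) : (F × KK) ⧸ M)) ∧
    (∀ κ : KK, (QuotientGroup.mk ((1 : F), κ) : (F × KK) ⧸ M) ∈ Subgroup.center ((F × KK) ⧸ M))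

/-- The extension of `QQ X` by `KK`. -/
def Stmt_ExtQ : Prop := ∀ (S : Type) [Fintype S] [DecidableEq S] (X : ℕ → LGr S) (g : ℕ → ℕ),
  Good X g → ∃ (E : Type) (_ : Group E) (_ : TopologicalSpace E) (π : E →* QQ X) (gE : S → E),
    ExtOK (fun s : S => cl X (FreeGroup.of s)) π gE

/-- The analytic part. -/
def Stmt_AN : Prop := ∀ (Q S E : Type) [Group Q] [Fintype S] [Group E] [TopologicalSpace E]
  (gen : S → Q) (π : E →* Q) (gE : S → E), (∀ s, gen s ≠ 1) → SparseA gen → ExtOK gen π gE →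
  ¬ (∀ (G : Type) [Group G] [TopologicalSpace G] [IsTopologicalGroup G]
      [LocallyCompactSpace G] [T2Space G] [MeasurableSpace G] [BorelSpace G], EbBody G)

end Pool.Agent.Lib.MP_6b7756_an.GM
end

section

/-!
# MP_6b7756_an: assembly of the analytic part
-/

set_option autoImplicit false

open scoped ComplexConjugate Classical

namespace Pool.Agent.Lib.MP_6b7756_an.GM

section
variable {Q S E : Type} [Group Q] [Fintype S] [Group E]

/-- the finitely many group elements of the operator -/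
noncomputable def an_x (gen : S → Q) (π : E →* Q) (gE : S → E) :
    (S × Fin 5) ⊕ {T // T ∈ (LL gen).powerset} → WR S π
  | Sum.inl (_, 0) => ⟨∅, 1⟩
  | Sum.inl (s, 1) => ⟨∅, gE s⟩
  | Sum.inl (s, 2) => ⟨{((1 : Q), s)}, 1⟩
  | Sum.inl (s, 3) => ⟨{((gen s)⁻¹, s)}, 1⟩
  | Sum.inl (s, 4) => ⟨{((1 : Q), s)}, gE s⟩
  | Sum.inr T => ⟨T, 1⟩

/-- the coefficients of the operator -/
noncomputable def an_c (gen : S → Q) :
    (S × Fin 5) ⊕ {T // T ∈ (LL gen).powerset} → ℝ
  | Sum.inl (_, 0) => 1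
  | Sum.inl (_, 1) => 1
  | Sum.inl (_, 2) => - (1 / 2)
  | Sum.inl (_, 3) => - (1 / 2)
  | Sum.inl (_, 4) => -1
  | Sum.inr T => hW gen T

theorem an_sum (gen : S → Q) (π : E →* Q) (gE : S → E) (F : WR S π → ℝ) :
    ∑ i, an_c gen i * F (an_x gen π gE i) = Form gen gE (fun c f => F ⟨c, f⟩) := by
  rw [Fintype.sum_sum_type, Fintype.sum_prod_type]
  unfold Form
  congr 1
  · apply Finset.sum_congr rfl
    intro s _
    rw [Fin.sum_univ_five]
    simp only [an_c, an_x]
    ring
  · have h := Finset.sum_coe_sort (LL gen).powerset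
      (fun T => hW gen T * F (⟨T, 1⟩ : WR S π))
    simpa only [an_c, an_x] using h

end

/-- a function which is invariant under an open subgroup is continuous -/
theorem an_cont {G : Type} [Group G] [TopologicalSpace G] [IsTopologicalGroup G] (K : Subgroup G)
    (hK : IsOpen (K : Set G)) (φ : G → ℂ) (h : ∀ y, ∀ k ∈ K, φ (y * k) = φ y) :
    Continuous φ := by
  rw [continuous_iff_continuousAt]
  intro y
  have hopen : IsOpen ((fun z : G => y⁻¹ * z) ⁻¹' (K : Set G)) :=
    hK.preimage (continuous_const.mul continuous_id)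
  have hmem : (fun z : G => y⁻¹ * z) ⁻¹' (K : Set G) ∈ nhds y :=
    hopen.mem_nhds (by simp [K.one_mem])
  have heq : (fun _ : G => φ y) =ᶠ[nhds y] φ := by
    filter_upwards [hmem] with z hz
    have h1 := h y _ hz
    rw [mul_inv_cancel_left] at h1
    exact h1.symm
  exact (continuousAt_const).congr heq

theorem an (h1 : Stmt_WRtop) (h2 : Stmt_LimitA) (h3 : Stmt_LimitB) (h4 : Stmt_H1)
    (h5 : Stmt_H2) : Stmt_AN := by
  intro Q S E _ _ _ _ gen π gE hgen hA hExt hall
  haveI := hExt.tg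
  haveI := hExt.t2
  obtain ⟨tg, t2, lc, hopen, hcomp, hcen, hcont⟩ := h1 Q S E π hExt.op hExt.cpt hExt.cen
  letI : MeasurableSpace (WR S π) := borel _
  haveI : BorelSpace (WR S π) := ⟨rfl⟩
  have hH1 : H1 (KW π S) (an_x gen π gE) (an_c gen) (9 / 1000) := by
    intro v hv hfin
    have h := h4 Q S E gen π gE hgen hA hExt.surj hExt.gen_eq hExt.cen v hv hfin
    rw [an_sum gen π gE (fun x => (qform (KW π S) v x).re)]
    exact h
  have hH2 : H2 (KW π S) (an_x gen π gE) (an_c gen) (9 / 1000) := by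
    intro E0 hE0
    obtain ⟨v, χ, a1, a2, a3, a4, a5, a6, a7⟩ := h5 Q S E gen π gE hgen hExt E0 hE0
    refine ⟨v, χ, a1, a2, a3, hcont v a4, a5, a6, ?_⟩
    rw [an_sum gen π gE (fun x => (qform (KW π S) v x).re)]
    linarith
  obtain ⟨φ, hcl, hinv, hone, hsum⟩ := h2 (WR S π) (KW π S) hopen hcomp hcen _
    (an_x gen π gE) (an_c gen) (9 / 1000) hH2
  obtain ⟨C, hC, ε, hε, hno⟩ := h3 (WR S π) (KW π S) hopen hcomp hcen _
    (an_x gen π gE) (an_c gen) (9 / 1000) (by norm_num) hH1 φ hinv hone hsum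
  exact hno (hall (WR S π) φ (an_cont (KW π S) hopen φ hinv) hcl C hC ε hε)

end Pool.Agent.Lib.MP_6b7756_an.GM
end

section

/-!
# MP_6b7756_an: the analytic part with the properties of the group
-/

set_option autoImplicit false

open scoped ComplexConjugate Classical

namespace Pool.Agent.Lib.MP_6b7756_an.GM

/-- The analytic part, with the open compact central subgroup. -/
theorem an2 (h1 : Stmt_WRtop) (h2 : Stmt_LimitA) (h3 : Stmt_LimitB) (h4 : Stmt_H1)
    (h5 : Stmt_H2) (Q S E : Type) [Group Q] [Fintype S] [Group E] [TopologicalSpace E]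
    (gen : S → Q) (π : E →* Q) (gE : S → E) (hgen : ∀ s, gen s ≠ 1) (hA : SparseA gen)
    (hExt : ExtOK gen π gE) :
    ∃ (G : Type) (_ : Group G) (_ : TopologicalSpace G) (_ : IsTopologicalGroup G)
      (_ : LocallyCompactSpace G) (_ : T2Space G) (_ : MeasurableSpace G) (_ : BorelSpace G)
      (K : Subgroup G), IsOpen (K : Set G) ∧ IsCompact (K : Set G) ∧ K ≤ Subgroup.center G ∧
      ∃ φ : G → ℂ, Continuous φ ∧
        φ ∈ closure {ψ : G → ℂ | ∃ ξ : G → ℂ,
          MeasureTheory.MemLp ξ 2 (MeasureTheory.Measure.haar : MeasureTheory.Measure G) ∧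
          ∀ x : G, ψ x = ∫ y, ξ y * (starRingEnd ℂ) (ξ (x⁻¹ * y))
            ∂(MeasureTheory.Measure.haar : MeasureTheory.Measure G)} ∧
        ∃ C : Set G, IsCompact C ∧ ∃ ε : ℝ, 0 < ε ∧ ¬ ∃ ξ : G → ℂ,
          MeasureTheory.MemLp ξ 2 (MeasureTheory.Measure.haar : MeasureTheory.Measure G) ∧
          ∀ x ∈ C, ‖φ x - ∫ y, ξ y * (starRingEnd ℂ) (ξ (x⁻¹ * y))
            ∂(MeasureTheory.Measure.haar : MeasureTheory.Measure G)‖ < ε := by
  haveI := hExt.tg
  haveI := hExt.t2
  obtain ⟨tg, t2, lc, hopen, hcomp, hcen, hcont⟩ := h1 Q S E π hExt.op hExt.cpt hExt.cen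
  letI : MeasurableSpace (WR S π) := borel _
  haveI : BorelSpace (WR S π) := ⟨rfl⟩
  have hH1 : H1 (KW π S) (an_x gen π gE) (an_c gen) (9 / 1000) := by
    intro v hv hfin
    have h := h4 Q S E gen π gE hgen hA hExt.surj hExt.gen_eq hExt.cen v hv hfin
    rw [an_sum gen π gE (fun x => (qform (KW π S) v x).re)]
    exact h
  have hH2 : H2 (KW π S) (an_x gen π gE) (an_c gen) (9 / 1000) := by
    intro E0 hE0
    obtain ⟨v, χ, a1, a2, a3, a4, a5, a6, a7⟩ := h5 Q S E gen π gE hgen hExt E0 hE0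
    refine ⟨v, χ, a1, a2, a3, hcont v a4, a5, a6, ?_⟩
    rw [an_sum gen π gE (fun x => (qform (KW π S) v x).re)]
    linarith
  obtain ⟨φ, hcl, hinv, hone, hsum⟩ := h2 (WR S π) (KW π S) hopen hcomp hcen _
    (an_x gen π gE) (an_c gen) (9 / 1000) hH2
  obtain ⟨C, hC, ε, hε, hno⟩ := h3 (WR S π) (KW π S) hopen hcomp hcen _
    (an_x gen π gE) (an_c gen) (9 / 1000) (by norm_num) hH1 φ hinv hone hsum
  exact ⟨WR S π, inferInstance, inferInstance, tg, lc, t2, inferInstance, inferInstance, KW π S,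
    hopen, hcomp, hcen, φ, an_cont (KW π S) hopen φ hinv, hcl, C, hC, ε, hε, hno⟩

end Pool.Agent.Lib.MP_6b7756_an.GM
end

section

/-!
# MP_6b7756_an: the breadth first search lemma
-/

set_option autoImplicit false

namespace Pool.Agent.Lib.MP_6b7756_an.GM

open Classical in
/-- The history of a recursion with memory. -/
noncomputable def bf_hist {V : Type} (F : ℕ → (ℕ → Finset V) → Finset V) (r : V) :
    ℕ → ℕ → Finset V
  | 0 => fun _ => {r}
  | t + 1 => fun s => if s ≤ t then bf_hist F r t s else F t (bf_hist F r t)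

theorem bf_hist_eq {V : Type} (F : ℕ → (ℕ → Finset V) → Finset V) (r : V) (t s : ℕ)
    (h : s ≤ t) : bf_hist F r t s = bf_hist F r s s := by
  induction t with
  | zero =>
    have : s = 0 := by omega
    subst this
    rfl
  | succ t ih =>
    rcases Nat.lt_or_ge t s with h1 | h1
    · have : s = t + 1 := by omega
      subst this
      rfl
    · rw [← ih h1]
      show (if s ≤ t then bf_hist F r t s else F t (bf_hist F r t)) = _
      rw [if_pos h1]

theorem bf_rec {V : Type} (F : ℕ → (ℕ → Finset V) → Finset V) (r : V)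
    (hF : ∀ t P P', (∀ s ≤ t, P s = P' s) → F t P = F t P') :
    ∃ P : ℕ → Finset V, P 0 = {r} ∧ ∀ t, P (t + 1) = F t P := by
  refine ⟨fun t => bf_hist F r t t, rfl, ?_⟩
  intro t
  have h1 : bf_hist F r (t + 1) (t + 1) = F t (bf_hist F r t) := by
    show (if t + 1 ≤ t then bf_hist F r t (t + 1) else F t (bf_hist F r t)) = _
    rw [if_neg (by omega)]
  show bf_hist F r (t + 1) (t + 1) = _
  rw [h1]
  apply hF
  intro s hs
  exact bf_hist_eq F r t s hs

/-- Forbidden vertices at time `t`. -/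
def bf_Bad {V : Type} (near : V → V → Prop) (g : ℕ) (z0 : V) (T : Finset V)
    (P : ℕ → Finset V) (t : ℕ) (w : V) : Prop :=
  w = z0 ∨ (g ≤ 4 * t ∧ ∃ τ ∈ T, near τ w) ∨
    ∃ s, s < t ∧ g ≤ 2 * (t - s) ∧ ∃ v ∈ P s, near v w

theorem bf_Bad_mono {V : Type} {near : V → V → Prop} {g : ℕ} {z0 : V} {T : Finset V}
    {P : ℕ → Finset V} {t t' : ℕ} {w : V} (htt : t ≤ t') (h : bf_Bad near g z0 T P t w) :
    bf_Bad near g z0 T P t' w := by
  rcases h with h | ⟨h, h'⟩ | ⟨s, h1, h2, h3⟩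
  · exact Or.inl h
  · exact Or.inr (Or.inl ⟨by omega, h'⟩)
  · exact Or.inr (Or.inr ⟨s, by omega, by omega, h3⟩)

open Classical in
/-- The levels of the search. -/
theorem bf_levels {V : Type} [Fintype V] (adj near : V → V → Prop) (g : ℕ) (root z0 : V)
    (T : Finset V) : ∃ P : ℕ → Finset V, P 0 = {root} ∧
      ∀ t, ∀ w, w ∈ P (t + 1) ↔ w ∈ P t ∨ ((∃ v ∈ P t, adj v w) ∧
        ¬ bf_Bad near g z0 T P (t + 1) w) := by
  obtain ⟨P, h0, h1⟩ := bf_rec (fun t P => Finset.univ.filter (fun w => w ∈ P t ∨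
    ((∃ v ∈ P t, adj v w) ∧ ¬ bf_Bad near g z0 T P (t + 1) w))) root (by
      intro t P P' h
      apply Finset.filter_congr
      intro w _
      have h2 : bf_Bad near g z0 T P (t + 1) w ↔ bf_Bad near g z0 T P' (t + 1) w := by
        unfold bf_Bad
        have : (∃ s, s < t + 1 ∧ g ≤ 2 * (t + 1 - s) ∧ ∃ v ∈ P s, near v w) ↔
            (∃ s, s < t + 1 ∧ g ≤ 2 * (t + 1 - s) ∧ ∃ v ∈ P' s, near v w) := by
          constructor
          · rintro ⟨s, a, b, c⟩
            exact ⟨s, a, b, by rwa [← h s (by omega)]⟩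
          · rintro ⟨s, a, b, c⟩
            exact ⟨s, a, b, by rwa [h s (by omega)]⟩
        rw [this]
      rw [h t le_rfl, h2])
  refine ⟨P, h0, fun t w => ?_⟩
  rw [h1 t]
  simp

open Classical in
/-- The number of forbidden vertices. -/
theorem bf_Bad_card {V : Type} [Fintype V] (near : V → V → Prop) (g Bd : ℕ) (z0 : V)
    (T : Finset V) (P : ℕ → Finset V) (hmono : ∀ s t, s ≤ t → P s ⊆ P t)
    (hB : ∀ v, {w | near v w}.ncard ≤ Bd) (t : ℕ)
    (hN : ∀ t : ℕ, g ≤ 4 * (t + 1) → 450 * ((T.card : ℝ) + 1) * Bd ≤ (151 / 150 : ℝ) ^ t)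
    (hgr : ∀ s ≤ t, (151 / 150 : ℝ) ^ (t - s) * (P s).card ≤ (P t).card)
    (h0 : 1 ≤ (P 0).card) :
    ((Finset.univ.filter (fun w => bf_Bad near g z0 T P (t + 1) w)).card : ℝ) ≤
      1 + (P t).card / 225 := by
  have hnb : ∀ v, (Finset.univ.filter (fun w => near v w)).card ≤ Bd := by
    intro v
    have h1 := hB v
    rw [Set.ncard_eq_toFinset_card'] at h1
    simpa using h1
  have hPt0 : (0 : ℝ) ≤ (P t).card := Nat.cast_nonneg _
  by_cases hg : g ≤ 4 * (t + 1)
  swap
  · have hsub : Finset.univ.filter (fun w => bf_Bad near g z0 T P (t + 1) w) ⊆ {z0} := by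
      intro w hw
      rw [Finset.mem_filter] at hw
      rcases hw.2 with h | ⟨h, _⟩ | ⟨s, h1, h2, _⟩
      · rw [h]; exact Finset.mem_singleton_self _
      · exact absurd h hg
      · exact absurd (by omega) hg
    have hc := Finset.card_le_card hsub
    rw [Finset.card_singleton] at hc
    have hc' : ((Finset.univ.filter (fun w => bf_Bad near g z0 T P (t + 1) w)).card : ℝ) ≤ 1 := by
      exact_mod_cast hc
    have : (0 : ℝ) ≤ (P t).card / 225 := by positivity
    linarith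
  -- the set of vertices near to `T`
  have hT : 450 * ((T.biUnion (fun v => Finset.univ.filter (fun w => near v w))).card : ℝ)
      ≤ (P t).card := by
    have h1 : (T.biUnion (fun v => Finset.univ.filter (fun w => near v w))).card
        ≤ T.card * Bd := Finset.card_biUnion_le_card_mul _ _ _ (fun v _ => hnb v)
    have h1' : ((T.biUnion (fun v => Finset.univ.filter (fun w => near v w))).card : ℝ)
        ≤ T.card * Bd := by exact_mod_cast h1
    have h2 := hN t hg
    have h3 := hgr 0 (Nat.zero_le _)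
    have h4 : (1 : ℝ) ≤ (P 0).card := by exact_mod_cast h0
    have h5 : (151 / 150 : ℝ) ^ t ≤ (P t).card := by
      calc (151 / 150 : ℝ) ^ t = (151 / 150 : ℝ) ^ (t - 0) * 1 := by simp
        _ ≤ (151 / 150 : ℝ) ^ (t - 0) * (P 0).card := by gcongr
        _ ≤ _ := h3
    have h6 : (0 : ℝ) ≤ Bd := Nat.cast_nonneg _
    nlinarith
  obtain ⟨ss, hss⟩ : ∃ ss, ss = min t (t + 1 - (g + 1) / 2) := ⟨_, rfl⟩
  have hS : 450 * ((Finset.univ.filter (fun w => ∃ s, s < t + 1 ∧ g ≤ 2 * (t + 1 - s) ∧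
      ∃ v ∈ P s, near v w)).card : ℝ) ≤ (P t).card := by
    by_cases hex : g ≤ 2 * (t + 1)
    · have hsub : Finset.univ.filter (fun w => ∃ s, s < t + 1 ∧ g ≤ 2 * (t + 1 - s) ∧
          ∃ v ∈ P s, near v w) ⊆
          (P ss).biUnion (fun v => Finset.univ.filter (fun w => near v w)) := by
        intro w hw
        rw [Finset.mem_filter] at hw
        obtain ⟨-, s, h1, h2, v, hv, hvw⟩ := hw
        rw [Finset.mem_biUnion]
        refine ⟨v, hmono s ss (by omega) hv, ?_⟩
        rw [Finset.mem_filter]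
        exact ⟨Finset.mem_univ _, hvw⟩
      have h1 : (Finset.univ.filter (fun w => ∃ s, s < t + 1 ∧ g ≤ 2 * (t + 1 - s) ∧
          ∃ v ∈ P s, near v w)).card ≤ (P ss).card * Bd :=
        (Finset.card_le_card hsub).trans
          (Finset.card_biUnion_le_card_mul _ _ _ (fun v _ => hnb v))
      have h1' : ((Finset.univ.filter (fun w => ∃ s, s < t + 1 ∧ g ≤ 2 * (t + 1 - s) ∧
          ∃ v ∈ P s, near v w)).card : ℝ) ≤ (P ss).card * Bd := by exact_mod_cast h1
      have h2 := hN (t - ss) (by omega)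
      have h3 := hgr ss (by omega)
      have h4 : (0 : ℝ) ≤ (P ss).card := Nat.cast_nonneg _
      have h5 : (0 : ℝ) ≤ T.card := Nat.cast_nonneg _
      have h6 : (0 : ℝ) ≤ Bd := Nat.cast_nonneg _
      have h7 : 450 * (Bd : ℝ) ≤ (151 / 150 : ℝ) ^ (t - ss) := by nlinarith
      have h8 : 450 * (Bd : ℝ) * (P ss).card ≤ (151 / 150 : ℝ) ^ (t - ss) * (P ss).card :=
        mul_le_mul_of_nonneg_right h7 h4
      linarith
    · have he : Finset.univ.filter (fun w => ∃ s, s < t + 1 ∧ g ≤ 2 * (t + 1 - s) ∧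
          ∃ v ∈ P s, near v w) = ∅ := by
        rw [Finset.filter_eq_empty_iff]
        rintro w _ ⟨s, h1, h2, _⟩
        exact hex (by omega)
      rw [he]
      simp
  have hsub : Finset.univ.filter (fun w => bf_Bad near g z0 T P (t + 1) w) ⊆
      {z0} ∪ (T.biUnion (fun v => Finset.univ.filter (fun w => near v w)) ∪
        Finset.univ.filter (fun w => ∃ s, s < t + 1 ∧ g ≤ 2 * (t + 1 - s) ∧
          ∃ v ∈ P s, near v w)) := by
    intro w hw
    rw [Finset.mem_filter] at hw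
    rw [Finset.mem_union, Finset.mem_union]
    rcases hw.2 with h | ⟨_, τ, hτ, h⟩ | h
    · left; rw [h]; exact Finset.mem_singleton_self _
    · right; left
      rw [Finset.mem_biUnion]
      exact ⟨τ, hτ, by rw [Finset.mem_filter]; exact ⟨Finset.mem_univ _, h⟩⟩
    · right; right
      rw [Finset.mem_filter]
      exact ⟨Finset.mem_univ _, h⟩
  have hc := (Finset.card_le_card hsub).trans ((Finset.card_union_le _ _).trans
    (Nat.add_le_add_left (Finset.card_union_le _ _) _))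
  rw [Finset.card_singleton] at hc
  have hc' : ((Finset.univ.filter (fun w => bf_Bad near g z0 T P (t + 1) w)).card : ℝ) ≤
      1 + (((T.biUnion (fun v => Finset.univ.filter (fun w => near v w))).card : ℝ) +
        ((Finset.univ.filter (fun w => ∃ s, s < t + 1 ∧ g ≤ 2 * (t + 1 - s) ∧
          ∃ v ∈ P s, near v w)).card : ℝ)) := by exact_mod_cast hc
  linarith

open Classical in
/-- If the levels never meet `Ex` they grow exponentially. -/
theorem bf_growth {V : Type} [Fintype V] (adj near : V → V → Prop) (g Bd : ℕ) (root z0 : V)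
    (T : Finset V) (Ex U : Set V) (hr : root ∈ U) (hU : ∀ v w, adj v w → w ∈ U)
    (hB : ∀ v, {w | near v w}.ncard ≤ Bd)
    (h2 : ∀ P : Finset V, P.Nonempty → (∀ v ∈ P, v ∈ U) → (∀ v ∈ P, v ∉ Ex) →
      76 * P.card ≤ 75 * {w | w ∈ P ∨ ∃ v ∈ P, adj v w}.ncard)
    (h3 : root ∉ Ex → 761 ≤ {w | adj root w}.ncard)
    (hN : ∀ t : ℕ, g ≤ 4 * (t + 1) → 450 * ((T.card : ℝ) + 1) * Bd ≤ (151 / 150 : ℝ) ^ t)
    (P : ℕ → Finset V) (hP0 : P 0 = {root})
    (hP : ∀ t, ∀ w, w ∈ P (t + 1) ↔ w ∈ P t ∨ ((∃ v ∈ P t, adj v w) ∧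
        ¬ bf_Bad near g z0 T P (t + 1) w))
    (hmono : ∀ s t, s ≤ t → P s ⊆ P t) : ∃ t, ∃ v ∈ P t, v ∈ Ex := by
  by_contra hno
  push Not at hno
  have hcard0 : (P 0).card = 1 := by rw [hP0]; exact Finset.card_singleton _
  have hPU : ∀ t, ∀ v ∈ P t, v ∈ U := by
    intro t
    induction t with
    | zero =>
      intro v hv
      rw [hP0, Finset.mem_singleton] at hv
      rw [hv]; exact hr
    | succ t ih =>
      intro v hv
      rcases (hP t v).1 hv with h | ⟨⟨u, _, h⟩, _⟩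
      · exact ih v h
      · exact hU u v h
  have hne : ∀ t, (P t).Nonempty := by
    intro t
    refine ⟨root, hmono 0 t (Nat.zero_le _) ?_⟩
    rw [hP0]; exact Finset.mem_singleton_self _
  -- lower bound for the size of the next level
  have hstep : ∀ t, ({w | w ∈ P t ∨ ∃ v ∈ P t, adj v w}.ncard : ℝ) ≤ (P (t + 1)).card +
      ((Finset.univ.filter (fun w => bf_Bad near g z0 T P (t + 1) w)).card : ℝ) := by
    intro t
    have h1 : {w | w ∈ P t ∨ ∃ v ∈ P t, adj v w}.ncard =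
        (Finset.univ.filter (fun w => w ∈ P t ∨ ∃ v ∈ P t, adj v w)).card := by
      rw [Set.ncard_eq_toFinset_card']
      congr 1
      ext w
      simp
    have h4 : Finset.univ.filter (fun w => w ∈ P t ∨ ∃ v ∈ P t, adj v w) ⊆
        P (t + 1) ∪ Finset.univ.filter (fun w => bf_Bad near g z0 T P (t + 1) w) := by
      intro w hw
      rw [Finset.mem_filter] at hw
      rw [Finset.mem_union, Finset.mem_filter, hP t w]
      by_cases hb : bf_Bad near g z0 T P (t + 1) w
      · exact Or.inr ⟨Finset.mem_univ _, hb⟩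
      · rcases hw.2 with h | h
        · exact Or.inl (Or.inl h)
        · exact Or.inl (Or.inr ⟨h, hb⟩)
    have h5 := (Finset.card_le_card h4).trans (Finset.card_union_le _ _)
    rw [h1]
    exact_mod_cast h5
  have key : ∀ t, (∀ s ≤ t, (151 / 150 : ℝ) ^ (t - s) * (P s).card ≤ (P t).card) ∧
      (1 ≤ t → (760 : ℝ) ≤ (P t).card) := by
    intro t
    induction t with
    | zero =>
      refine ⟨?_, fun h => by omega⟩
      intro s hs
      have : s = 0 := by omega
      subst this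
      simp
    | succ t ih =>
      obtain ⟨ih1, ih2⟩ := ih
      have hbad := bf_Bad_card near g Bd z0 T P hmono hB t hN ih1 (by rw [hcard0])
      have hs := hstep t
      have hmain : (151 / 150 : ℝ) * (P t).card ≤ (P (t + 1)).card ∧
          (760 : ℝ) ≤ (P (t + 1)).card := by
        rcases Nat.eq_zero_or_pos t with h0 | h0
        · subst h0
          rw [hcard0] at hbad
          have hroot : root ∉ Ex := hno 0 root (by rw [hP0]; exact Finset.mem_singleton_self _)
          have h6 := h3 hroot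
          have h7 : {w | adj root w}.ncard ≤ {w | w ∈ P 0 ∨ ∃ v ∈ P 0, adj v w}.ncard := by
            apply Set.ncard_le_ncard _ (Set.toFinite _)
            intro w hw
            right
            exact ⟨root, by rw [hP0]; exact Finset.mem_singleton_self _, hw⟩
          have h8 : (761 : ℝ) ≤ ({w | w ∈ P 0 ∨ ∃ v ∈ P 0, adj v w}.ncard : ℝ) := by
            exact_mod_cast h6.trans h7
          have h9 : (Finset.univ.filter (fun w => bf_Bad near g z0 T P (0 + 1) w)).card ≤ 1 := by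
            by_contra hlt
            push Not at hlt
            have : (2 : ℝ) ≤ ((Finset.univ.filter
              (fun w => bf_Bad near g z0 T P (0 + 1) w)).card : ℝ) := by exact_mod_cast hlt
            norm_num at hbad
            linarith
          have h9' : ((Finset.univ.filter (fun w => bf_Bad near g z0 T P (0 + 1) w)).card : ℝ)
              ≤ 1 := by exact_mod_cast h9
          rw [hcard0]
          constructor
          · norm_num
            linarith
          · linarith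
        · have h6 := h2 (P t) (hne t) (hPU t) (hno t)
          have h6' : (76 : ℝ) * (P t).card ≤ 75 * ({w | w ∈ P t ∨ ∃ v ∈ P t, adj v w}.ncard : ℝ) := by
            exact_mod_cast h6
          have h7 := ih2 h0
          constructor
          · linarith
          · linarith
      refine ⟨?_, fun _ => hmain.2⟩
      intro s hst
      rcases Nat.lt_or_ge t s with h | h
      · have : s = t + 1 := by omega
        subst this
        simp
      · have h8 := ih1 s h
        rw [show t + 1 - s = (t - s) + 1 by omega, pow_succ]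
        calc (151 / 150 : ℝ) ^ (t - s) * (151 / 150) * (P s).card
            = (151 / 150) * ((151 / 150 : ℝ) ^ (t - s) * (P s).card) := by ring
          _ ≤ (151 / 150) * (P t).card := by gcongr
          _ ≤ _ := hmain.1
  obtain ⟨n, hn⟩ := pow_unbounded_of_one_lt (Fintype.card V : ℝ)
    (show (1 : ℝ) < 151 / 150 by norm_num)
  have h1 := (key n).1 0 (Nat.zero_le _)
  rw [hcard0] at h1
  have h2' : ((P n).card : ℝ) ≤ Fintype.card V := by exact_mod_cast Finset.card_le_univ _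
  simp only [Nat.cast_one, mul_one, Nat.sub_zero] at h1
  linarith

theorem bfs : Stmt_BFS := by
  intro V _ _ adj near g Bd root z0 T Ex U hr hU hB h2 h3 hN
  obtain ⟨P, hP0, hP⟩ := bf_levels adj near g root z0 T
  have hsucc : ∀ t, P t ⊆ P (t + 1) := fun t w hw => (hP t w).2 (Or.inl hw)
  have hmono : ∀ s t, s ≤ t → P s ⊆ P t := by
    intro s t hst
    induction t with
    | zero =>
      have : s = 0 := by omega
      subst this
      exact Finset.Subset.refl _
    | succ t ih =>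
      rcases Nat.lt_or_ge t s with h | h
      · have : s = t + 1 := by omega
        subst this
        exact Finset.Subset.refl _
      · exact (ih h).trans (hsucc t)
  have hex := bf_growth adj near g Bd root z0 T Ex U hr hU hB h2 h3 hN P hP0 hP hmono
  classical
  -- the first level which meets `Ex`
  obtain ⟨z, hz, hzE⟩ := Nat.find_spec hex
  have hfirst : ∀ s < Nat.find hex, ∀ v ∈ P s, v ∉ Ex := by
    intro s hs v hv hvE
    exact Nat.find_min hex hs ⟨v, hv, hvE⟩
  generalize Nat.find hex = t0 at hz hfirst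
  -- going back
  have hback : ∀ t w, w ∈ P t → (∀ s < t, w ∉ P s) → ∃ y : ℕ → V, y 0 = root ∧ y t = w ∧
      (∀ k ≤ t, y k ∈ P k ∧ ∀ s < k, y k ∉ P s) ∧ (∀ k < t, adj (y k) (y (k + 1))) := by
    intro t
    induction t with
    | zero =>
      intro w hw _
      rw [hP0, Finset.mem_singleton] at hw
      refine ⟨fun _ => root, rfl, hw.symm, ?_, fun k hk => by omega⟩
      intro k hk
      have : k = 0 := by omega
      subst this
      refine ⟨?_, fun s hs => by omega⟩
      rw [hP0]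
      exact Finset.mem_singleton_self _
    | succ t ih =>
      intro w hw hnew
      rcases (hP t w).1 hw with h | ⟨⟨v, hv, hvw⟩, hb⟩
      · exact absurd h (hnew t (by omega))
      have hvnew : ∀ s < t, v ∉ P s := by
        intro s hs hvs
        apply hnew (s + 1) (by omega)
        rw [hP s w]
        refine Or.inr ⟨⟨v, hvs, hvw⟩, fun hb' => hb (bf_Bad_mono (by omega) hb')⟩
      obtain ⟨y, hy0, hyt, hy1, hy2⟩ := ih v hv hvnew
      refine ⟨fun k => if k ≤ t then y k else w, ?_, ?_, ?_, ?_⟩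
      · simp [hy0]
      · simp
      · intro k hk
        by_cases hkt : k ≤ t
        · simp only [if_pos hkt]
          exact hy1 k hkt
        · have : k = t + 1 := by omega
          subst this
          simp only [if_neg hkt]
          exact ⟨hw, hnew⟩
      · intro k hk
        by_cases hkt : k + 1 ≤ t
        · have hkt' : k ≤ t := by omega
          simp only [if_pos hkt, if_pos hkt']
          exact hy2 k (by omega)
        · have : k = t := by omega
          subst this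
          simp only [le_refl, if_true, if_neg hkt]
          rw [hyt]
          exact hvw
  obtain ⟨y, hy0, hyt, hy1, hy2⟩ := hback t0 z hz (fun s hs hzs => hfirst s hs z hzs hzE)
  have hnb : ∀ k, 1 ≤ k → k ≤ t0 → ¬ bf_Bad near g z0 T P k (y k) := by
    intro k hk1 hk
    obtain ⟨a, b⟩ := hy1 k hk
    obtain ⟨k', rfl⟩ : ∃ k', k = k' + 1 := ⟨k - 1, by omega⟩
    rcases (hP k' _).1 a with h | ⟨_, h⟩
    · exact absurd h (b k' (by omega))
    · exact h
  refine ⟨t0, y, hy0, by rw [hyt]; exact hzE, hy2, ?_, ?_, ?_, ?_⟩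
  · intro k k' hkk hk' h
    have h1 := (hy1 k (by omega)).1
    have h4 := (hy1 k' hk').2 k hkk
    rw [h] at h1
    exact h4 h1
  · intro k hk1 hk h
    exact hnb k hk1 hk (Or.inl h)
  · intro s t' hs ht' hg hnear
    exact hnb t' (by omega) ht' (Or.inr (Or.inr ⟨s, hs, hg, y s, (hy1 s (by omega)).1, hnear⟩))
  · intro τ hτ t' ht' hg hnear
    rcases Nat.eq_zero_or_pos t' with h0 | h0
    · subst h0
      have h5 := hN 0 (by omega)
      have h6 : Bd = 0 := by
        by_contra hne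
        have h7 : (1 : ℝ) ≤ Bd := by exact_mod_cast Nat.one_le_iff_ne_zero.2 hne
        have h8 : (0 : ℝ) ≤ T.card := Nat.cast_nonneg _
        simp only [pow_zero] at h5
        nlinarith
      have h7 := hB τ
      rw [h6, Nat.le_zero, Set.ncard_eq_zero (Set.toFinite _)] at h7
      have : y 0 ∈ {w | near τ w} := hnear
      rw [h7] at this
      exact this
    · exact hnb t' h0 ht' (Or.inr (Or.inl ⟨hg, τ, hτ, hnear⟩))

end Pool.Agent.Lib.MP_6b7756_an.GM
end

section

/-!
# MP_6b7756_an, full disproof. Charts: change of base point, convexity of the domain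
-/

set_option autoImplicit false

namespace Pool.Agent.Lib.MP_6b7756_an.GM

theorem ch_run_append {S : Type} (X : LGr S) (l l' : List (S × Bool)) :
    ∀ v : X.V, X.run v (l ++ l') = (X.run v l).bind fun w => X.run w l' := by
  induction l with
  | nil => intro v; simp [LGr.run]
  | cons a l ih =>
    intro v
    simp only [List.cons_append, LGr.run]
    cases h : X.step v a with
    | none => simp
    | some w => simp [ih]

theorem ch_run_append_some {S : Type} (X : LGr S) (l l' : List (S × Bool)) (v w z : X.V)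
    (h1 : X.run v l = some w) (h2 : X.run w l' = some z) : X.run v (l ++ l') = some z := by
  rw [ch_run_append, h1]; simpa using h2

theorem ch_run_append_left {S : Type} (X : LGr S) (l l' : List (S × Bool)) (v : X.V)
    (h : (X.run v (l ++ l')).isSome) : (X.run v l).isSome := by
  rw [ch_run_append] at h
  cases h1 : X.run v l with
  | none => simp [h1] at h
  | some w => simp

theorem ch_run_step {S : Type} (X : LGr S) {L L' : List (S × Bool)}
    (h : FreeGroup.Red.Step L L') (v z : X.V) (hz : X.run v L = some z) :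
    X.run v L' = some z := by
  obtain ⟨L1, L2, x, b, rfl, rfl⟩ : ∃ (L1 L2 : List (S × Bool)) (x : S) (b : Bool),
      L = L1 ++ (x, b) :: (x, !b) :: L2 ∧ L' = L1 ++ L2 := by
    cases h with
    | not => exact ⟨_, _, _, _, rfl, rfl⟩
  rw [ch_run_append] at hz ⊢
  cases h1 : X.run v L1 with
  | none => simp [h1] at hz
  | some w =>
    rw [h1] at hz
    simp only [Option.bind_some, LGr.run] at hz ⊢
    cases h2 : X.step w (x, b) with
    | none => simp [h2] at hz
    | some m =>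
      rw [h2] at hz
      simp only [Option.bind_some] at hz
      rw [X.inv w m x b h2] at hz
      simpa using hz

theorem ch_run_red {S : Type} (X : LGr S) {L L' : List (S × Bool)}
    (h : FreeGroup.Red L L') (v z : X.V) (hz : X.run v L = some z) :
    X.run v L' = some z := by
  induction h with
  | refl => exact hz
  | tail _ h2 ih => exact ch_run_step X h2 v z ih

theorem ch_run_inv {S : Type} (X : LGr S) (l : List (S × Bool)) :
    ∀ v w : X.V, X.run v l = some w → X.run w (FreeGroup.invRev l) = some v := by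
  induction l with
  | nil =>
    intro v w h
    simp only [LGr.run, Option.some.injEq] at h
    simp [LGr.run, h]
  | cons a l ih =>
    intro v w h
    simp only [LGr.run] at h
    cases h1 : X.step v a with
    | none => simp [h1] at h
    | some m =>
      rw [h1] at h
      simp only [Option.bind_some] at h
      have h2 := ih m w h
      have h3 : FreeGroup.invRev (a :: l) = FreeGroup.invRev l ++ [(a.1, !a.2)] := by
        simp [FreeGroup.invRev]
      rw [h3]
      refine ch_run_append_some X _ _ _ _ _ h2 ?_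
      have h4 := X.inv v m a.1 a.2 (by simpa using h1)
      simp [LGr.run, h4]

variable {S : Type} [DecidableEq S]

theorem ch_run_mul (X : LGr S) (a b : FreeGroup S) (v w z : X.V)
    (h1 : X.run v a.toWord = some w) (h2 : X.run w b.toWord = some z) :
    X.run v (a * b).toWord = some z := by
  have h3 := ch_run_append_some X _ _ _ _ _ h1 h2
  rw [FreeGroup.toWord_mul]
  exact ch_run_red X FreeGroup.reduce.red v z h3

theorem ch_run_inv' (X : LGr S) (a : FreeGroup S) (v w : X.V)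
    (h1 : X.run v a.toWord = some w) : X.run w a⁻¹.toWord = some v := by
  rw [FreeGroup.toWord_inv]
  exact ch_run_inv X _ _ _ h1

theorem ch_base (X : LGr S) (u : FreeGroup S) (v : X.V) (x : FreeGroup S) (w : X.V)
    (h : X.chart u v x = some w) : X.chart u v = X.chart x w := by
  funext y
  unfold LGr.chart at h ⊢
  apply Option.ext
  intro z
  constructor
  · intro hz
    have h1 := ch_run_inv' X _ _ _ h
    have h2 := ch_run_mul X _ _ _ _ _ h1 hz
    have e : (u⁻¹ * x)⁻¹ * (u⁻¹ * y) = x⁻¹ * y := by group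
    rw [e] at h2
    exact h2
  · intro hz
    have h2 := ch_run_mul X _ _ _ _ _ h hz
    have e : u⁻¹ * x * (x⁻¹ * y) = u⁻¹ * y := by group
    rw [e] at h2
    exact h2

theorem chart : Stmt_Chart := by
  intro S _ X u v
  refine ⟨fun x w h => ch_base X u v x w h, ?_⟩
  intro x y z hx hy hw
  obtain ⟨w, hw1⟩ := Option.isSome_iff_exists.mp hx
  have e := ch_base X u v x w hw1
  rw [e] at hy ⊢
  unfold LGr.chart at hy ⊢
  rw [hw] at hy
  exact ch_run_append_left X _ _ _ hy

end Pool.Agent.Lib.MP_6b7756_an.GM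
end

section

/-!
# MP_6b7756_an: Cheeger type inequality (task D2)
-/

set_option autoImplicit false

open scoped ComplexConjugate Classical

namespace Pool.Agent.Lib.MP_6b7756_an.GM

/-- The inequality for one edge. -/
theorem cg_edge (u v : ℝ) :
    u ^ 2 + v ^ 2 ≤ 2 * (if decide (0 < u) ≠ decide (0 < v) then min (u ^ 2) (v ^ 2) else 0) +
      701 * (u + v) ^ 2 + (u ^ 2 + v ^ 2) / 1400 := by
  have hs : 0 ≤ (u + v) ^ 2 := sq_nonneg _
  have h0 : 0 ≤ (u ^ 2 + v ^ 2) / 1400 := by positivity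
  split_ifs with h
  · have key : |u ^ 2 - v ^ 2| ≤ 700 * (u + v) ^ 2 + (u ^ 2 + v ^ 2) / 1400 := by
      rw [abs_le]
      constructor
      · nlinarith [sq_nonneg (1400 * (u + v) + (u - v)), sq_nonneg (u + v), sq_nonneg (u - v)]
      · nlinarith [sq_nonneg (1400 * (u + v) - (u - v)), sq_nonneg (u + v), sq_nonneg (u - v)]
    have h1 : u ^ 2 + v ^ 2 = 2 * min (u ^ 2) (v ^ 2) + |u ^ 2 - v ^ 2| := by
      rcases le_total (u ^ 2) (v ^ 2) with h2 | h2
      · rw [min_eq_left h2, abs_of_nonpos (by linarith)]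
        ring
      · rw [min_eq_right h2, abs_of_nonneg (by linarith)]
        ring
    linarith
  · have huv : 0 ≤ u * v := by
      have h' : (0 < u ↔ 0 < v) := by
        simpa using h
      by_cases hu : 0 < u
      · exact (mul_pos hu (h'.mp hu)).le
      · have hv : ¬ 0 < v := fun h2 => hu (h'.mpr h2)
        exact mul_nonneg_of_nonpos_of_nonpos (not_lt.mp hu) (not_lt.mp hv)
    nlinarith

/-- Counting the ends of the edges of `ω`. -/
theorem cg_dg {Q S : Type} [Group Q] [Fintype S] (gen : S → Q) (ω : Finset (Q × S))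
    (P : Finset Q) (f : Q → ℝ) (hf0 : ∀ h, 0 ≤ f h) (hfP : ∀ h, h ∉ P → f h = 0) :
    ∑ h ∈ P, (dg gen ω h : ℝ) * f h ≤ ∑ p ∈ ω, (f p.1 + f (p.1 * gen p.2)) := by
  have hrep : ∀ x : Q, f x = ∑ h ∈ P, if x = h then f h else 0 := by
    intro x
    rw [Finset.sum_ite_eq]
    split_ifs with h1
    · rfl
    · exact hfP x h1
  have hA : ∀ e : Q × S → Q, ∑ p ∈ ω, f (e p) =
      ∑ h ∈ P, ((ω.filter (fun p => e p = h)).card : ℝ) * f h := by
    intro e
    rw [Finset.sum_congr rfl (fun p _ => hrep (e p)), Finset.sum_comm]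
    refine Finset.sum_congr rfl (fun h _ => ?_)
    rw [← Finset.sum_filter, Finset.sum_const, nsmul_eq_mul]
  rw [Finset.sum_add_distrib, hA (fun p => p.1), hA (fun p => p.1 * gen p.2),
    ← Finset.sum_add_distrib]
  refine Finset.sum_le_sum (fun h _ => ?_)
  rw [← add_mul]
  refine mul_le_mul_of_nonneg_right ?_ (hf0 h)
  have h1 : {s | (h, s) ∈ ω}.ncard ≤ (ω.filter (fun p => p.1 = h)).card := by
    rw [← Set.ncard_coe_finset]
    refine Set.ncard_le_ncard_of_injOn (fun s => (h, s)) ?_ ?_ (Finset.finite_toSet _)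
    · intro s hs
      rw [Finset.mem_coe, Finset.mem_filter]
      exact ⟨hs, rfl⟩
    · intro s _ s' _ hss
      exact (Prod.ext_iff.mp hss).2
  have h2 : {s | (h * (gen s)⁻¹, s) ∈ ω}.ncard ≤
      (ω.filter (fun p => p.1 * gen p.2 = h)).card := by
    rw [← Set.ncard_coe_finset]
    refine Set.ncard_le_ncard_of_injOn (fun s => (h * (gen s)⁻¹, s)) ?_ ?_
      (Finset.finite_toSet _)
    · intro s hs
      rw [Finset.mem_coe, Finset.mem_filter]
      refine ⟨hs, ?_⟩
      simp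
    · intro s _ s' _ hss
      exact (Prod.ext_iff.mp hss).2
  rw [dg]
  push_cast
  have h1' : ({s | (h, s) ∈ ω}.ncard : ℝ) ≤ (ω.filter (fun p => p.1 = h)).card := by
    exact_mod_cast h1
  have h2' : ({s | (h * (gen s)⁻¹, s) ∈ ω}.ncard : ℝ) ≤
      (ω.filter (fun p => p.1 * gen p.2 = h)).card := by
    exact_mod_cast h2
  linarith

theorem cheeger (h : Stmt_Layer) : Stmt_Cheeger := by
  intro Q S _ _ gen hA ω P η hη
  set f : Q → ℝ := fun x => η x ^ 2 with hf
  have hf0 : ∀ x, 0 ≤ f x := fun x => sq_nonneg _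
  have hfP : ∀ x, x ∉ P → f x = 0 := by
    intro x hx
    simp only [hf]
    rw [hη x hx]
    ring
  have hlay := h Q S gen hA ω P f (fun x => decide (0 < η x)) hf0 hfP
  have hdg := cg_dg gen ω P f hf0 hfP
  set s := ∑ h ∈ P, f h with hs
  set R := ∑ p ∈ ω, (η p.1 + η (p.1 * gen p.2)) ^ 2 with hR
  set M := ∑ p ∈ ω, (f p.1 + f (p.1 * gen p.2)) with hM
  set W := ∑ h ∈ P, Wt (dg gen ω h) * η h ^ 2 with hW
  set L := ∑ h ∈ P, (if dg gen ω h < 1550 then f h else 0) with hL
  have hR0 : 0 ≤ R := Finset.sum_nonneg (fun p _ => sq_nonneg _)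
  -- edges
  have ha : M ≤ 2 * (760 * s) + 701 * R + M / 1400 := by
    have h1 : M ≤ ∑ p ∈ ω, (2 * (if decide (0 < η p.1) ≠ decide (0 < η (p.1 * gen p.2)) then
        min (f p.1) (f (p.1 * gen p.2)) else 0) + 701 * (η p.1 + η (p.1 * gen p.2)) ^ 2 +
        (f p.1 + f (p.1 * gen p.2)) / 1400) :=
      Finset.sum_le_sum (fun p _ => cg_edge (η p.1) (η (p.1 * gen p.2)))
    rw [Finset.sum_add_distrib, Finset.sum_add_distrib, ← Finset.mul_sum, ← Finset.mul_sum,
      ← Finset.sum_div, ← Finset.sum_filter] at h1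
    linarith
  have hb : 1550 * (s - L) ≤ M := by
    refine le_trans ?_ hdg
    rw [hs, hL, ← Finset.sum_sub_distrib, Finset.mul_sum]
    refine Finset.sum_le_sum (fun x _ => ?_)
    split_ifs with h1
    · rw [sub_self, mul_zero]
      exact mul_nonneg (Nat.cast_nonneg _) (hf0 x)
    · rw [sub_zero]
      refine mul_le_mul_of_nonneg_right ?_ (hf0 x)
      exact_mod_cast not_lt.mp h1
  have hc : L ≤ W := by
    refine Finset.sum_le_sum (fun x _ => ?_)
    rw [Wt]
    split_ifs with h1 h2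
    · rw [one_mul]
    · rw [zero_mul]
    · exact mul_nonneg (Nat.cast_nonneg _) (sq_nonneg _)
  have hL0 : 0 ≤ L := by
    refine Finset.sum_nonneg (fun x _ => ?_)
    split_ifs
    · exact hf0 x
    · exact le_refl _
  have hs0 : 0 ≤ s := Finset.sum_nonneg (fun x _ => hf0 x)
  have hgoal : 9 / 1000 * s ≤ R + W := by
    by_contra hcon
    push Not at hcon
    linarith
  exact hgoal

end Pool.Agent.Lib.MP_6b7756_an.GM
end

section

/-!
# MP_6b7756_an, full disproof. Part 4: the family of labelled graphs (statements)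
-/

set_option autoImplicit false

namespace Pool.Agent.Lib.MP_6b7756_an.GM

/-! ## Graphs given by functions -/

/-- The edges: the edge `e = (v, k)` joins `v` to `φ e`. -/
abbrev Ed (N : ℕ) : Type := Fin N × Fin 1000

/-- The edge of a step from `x` to `x'` with direction `b` and index `κ`. -/
def wE {N : ℕ} (x x' : Fin N) (b : Bool) (κ : Fin 1000) : Ed N := if b then (x, κ) else (x', κ)

/-- The step is a step of the graph of `φ`. -/
def wOK {N : ℕ} (φ : Ed N → Fin N) (x x' : Fin N) (b : Bool) (κ : Fin 1000) : Prop :=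
  φ (wE x x' b κ) = if b then x' else x

/-- Data of a closed walk with `k + 1` steps: vertices, directions, indices. -/
abbrev CW (N k : ℕ) : Type := Fin (k + 1) → Fin N × Bool × Fin 1000

/-- The edges of the closed walk. -/
def cwE {N k : ℕ} (p : CW N k) (i : Fin (k + 1)) : Ed N :=
  wE (p i).1 (p (i + 1)).1 (p i).2.1 (p i).2.2

/-- `p` is a closed walk with distinct edges in the graph of `φ`. -/
def IsCW {N k : ℕ} (φ : Ed N → Fin N) (p : CW N k) : Prop :=
  Function.Injective (cwE p) ∧ ∀ i, wOK φ (p i).1 (p (i + 1)).1 (p i).2.1 (p i).2.2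

/-- Data of a walk with `m` steps. -/
abbrev PW (N m : ℕ) : Type := (Fin (m + 1) → Fin N) × (Fin m → Bool × Fin 1000)

/-- The edges of the walk. -/
def pwE {N m : ℕ} (p : PW N m) (t : Fin m) : Ed N :=
  wE (p.1 t.castSucc) (p.1 t.succ) (p.2 t).1 (p.2 t).2

/-- `p` is a walk with distinct edges in `E`. -/
def IsPW {N m : ℕ} (φ : Ed N → Fin N) (E : Finset (Ed N)) (p : PW N m) : Prop :=
  Function.Injective (pwE p) ∧
    ∀ t, pwE p t ∈ E ∧ wOK φ (p.1 t.castSucc) (p.1 t.succ) (p.2 t).1 (p.2 t).2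

/-- The in-degree of `v` in the graph of `φ`. -/
noncomputable def ind {N : ℕ} (φ : Ed N → Fin N) (v : Fin N) : ℕ := {e | φ e = v}.ncard

/-- The degree of `v` in the graph `(φ, E)`. -/
noncomputable def degE {N : ℕ} (φ : Ed N → Fin N) (E : Finset (Ed N)) (v : Fin N) : ℕ :=
  {e | e ∈ E ∧ e.1 = v}.ncard + {e | e ∈ E ∧ φ e = v}.ncard

/-- The number of edges between `A` and `B`. -/
noncomputable def eAB {N : ℕ} (φ : Ed N → Fin N) (A B : Finset (Fin N)) : ℕ :=
  {e : Ed N | (e.1 ∈ A ∧ φ e ∈ B) ∨ (e.1 ∈ B ∧ φ e ∈ A)}.ncard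

/-! ## Random functions -/

/-- The number of closed walks. -/
def Stmt_RG : Prop := ∀ N k : ℕ,
  {q : (Ed N → Fin N) × CW N k | IsCW q.1 q.2}.ncard ≤ 2000 ^ (k + 1) * N ^ (1000 * N)

/-- Exponential moments of the number of edges between two sets. -/
def Stmt_RX1 : Prop := ∀ (N : ℕ) (A B : Finset (Fin N)) (t : ℝ), 1 ≤ N → Disjoint A B → 1 ≤ t →
  ∑ φ : Ed N → Fin N, t ^ eAB φ A B ≤
    (N : ℝ) ^ (1000 * N) * Real.exp ((t - 1) * (2000 * A.card * B.card) / N)

/-- Few functions have dense bipartite subgraphs. -/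
def Stmt_RX : Prop := ∀ N : ℕ, 1 ≤ N →
  100 * {φ : Ed N → Fin N | ∃ A B : Finset (Fin N), Disjoint A B ∧
    750 * (A.card + B.card) < eAB φ A B}.ncard ≤ N ^ (1000 * N)

/-- Tails of the in-degree. -/
def Stmt_RT : Prop := ∀ N : ℕ, 1 ≤ N →
  10 ^ 10 * ∑ φ : Ed N → Fin N, {v | ind φ v < 550}.ncard ≤ N * N ^ (1000 * N) ∧
  10 ^ 10 * ∑ φ : Ed N → Fin N, ∑ v, (if 8000 < ind φ v then 1000 + ind φ v else 0) ≤
    N * N ^ (1000 * N)

/-- The graphs before labelling. -/
structure PreG (g N : ℕ) (φ : Ed N → Fin N) (E : Finset (Ed N)) : Prop where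
  cyc : ∀ k, k + 1 < g → ∀ p : CW N k, IsCW φ p → ∃ i, cwE p i ∉ E
  deg : ∀ v, degE φ E v ≤ 9000
  dfc : 10 ^ 5 * {v | degE φ E v < 1550}.ncard ≤ N
  sparse : ∀ A B : Finset (Fin N), Disjoint A B → eAB φ A B ≤ 750 * (A.card + B.card)

/-- Existence of the graphs. -/
def Stmt_Graph : Prop := ∃ M : ℕ, ∀ g : ℕ, 1 ≤ g → ∃ N : ℕ, 1 ≤ N ∧ N ≤ M ^ g ∧
  ∃ (φ : Ed N → Fin N) (E : Finset (Ed N)), PreG g N φ E

/-! ## Labels -/

/-- The number of walks. -/
def Stmt_PathCount : Prop := ∀ (N m : ℕ) (φ : Ed N → Fin N) (E : Finset (Ed N)),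
  (∀ v, degE φ E v ≤ 9000) → {p : PW N m | IsPW φ E p}.ncard ≤ N * 9000 ^ m

/-- Distinct edges with the same source or the same target, and the same label. -/
def T1 {N : ℕ} {S : Type} (φ : Ed N → Fin N) (E : Finset (Ed N)) (c : Ed N → S)
    (e : Ed N × Ed N) : Prop :=
  e.1 ∈ E ∧ e.2 ∈ E ∧ e.1 ≠ e.2 ∧ (e.1.1 = e.2.1 ∨ φ e.1 = φ e.2) ∧ c e.1 = c e.2

/-- Walks whose label word is in `Wd`. -/
def T2 {N m : ℕ} {S : Type} (φ : Ed N → Fin N) (E : Finset (Ed N)) (c : Ed N → S)
    (Wd : Set (Fin m → S × Bool)) (p : PW N m) : Prop :=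
  IsPW φ E p ∧ (fun t => (c (pwE p t), (p.2 t).1)) ∈ Wd

/-- Pairs of walks with equal labels and different edges at all times. -/
def T3 {N m : ℕ} {S : Type} (φ : Ed N → Fin N) (E : Finset (Ed N)) (c : Ed N → S)
    (p : PW N m × PW N m) : Prop :=
  IsPW φ E p.1 ∧ IsPW φ E p.2 ∧ (∀ t, pwE p.1 t ≠ pwE p.2 t) ∧
    ∀ t, c (pwE p.1 t) = c (pwE p.2 t)

/-- Counting labellings with conflicts of type 1. -/
def Stmt_Cnt1 : Prop := ∀ (S : Type) [Fintype S] (N : ℕ) (φ : Ed N → Fin N) (E : Finset (Ed N)),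
  (∀ v, degE φ E v ≤ 9000) →
  {q : (Ed N → S) × (Ed N × Ed N) | T1 φ E q.1 q.2}.ncard * Fintype.card S ≤
    2 * N * 9000 ^ 2 * Fintype.card S ^ (1000 * N)

/-- Counting labellings with conflicts of type 2. -/
def Stmt_Cnt2 : Prop := ∀ (S : Type) [Fintype S] (N m : ℕ) (φ : Ed N → Fin N) (E : Finset (Ed N))
  (Wd : Set (Fin m → S × Bool)), (∀ v, degE φ E v ≤ 9000) →
  {q : (Ed N → S) × PW N m | T2 φ E q.1 Wd q.2}.ncard * Fintype.card S ^ m ≤
    N * 9000 ^ m * Wd.ncard * Fintype.card S ^ (1000 * N)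

/-- Two injective sequences which differ at all times: the number of labellings for which their
labels agree. -/
def Stmt_Pair : Prop := ∀ (J S : Type) [Fintype J] [Fintype S] [Nonempty S] (m : ℕ)
  (p p' : Fin m → J), Function.Injective p → Function.Injective p' → (∀ t, p t ≠ p' t) →
  {c : J → S | ∀ t, c (p t) = c (p' t)}.ncard * Fintype.card S ^ ((m + 2) / 3) ≤
    Fintype.card S ^ Fintype.card J

/-- Counting labellings with conflicts of type 3. -/
def Stmt_Cnt3 : Prop := ∀ (S : Type) [Fintype S] [Nonempty S] (N m : ℕ) (φ : Ed N → Fin N)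
  (E : Finset (Ed N)), (∀ v, degE φ E v ≤ 9000) →
  {q : (Ed N → S) × (PW N m × PW N m) | T3 φ E q.1 q.2}.ncard *
    Fintype.card S ^ ((m + 2) / 3) ≤ (N * 9000 ^ m) ^ 2 * Fintype.card S ^ (1000 * N)

/-- Existence of the labelling. -/
def Stmt_Label : Prop := ∀ M : ℕ, ∃ L0 : ℕ, 1 ≤ L0 ∧ ∀ (S : Type) [Fintype S],
  L0 ≤ Fintype.card S → ∀ (j0 j N : ℕ), 1 ≤ N → N ≤ M ^ (100000 * (j + j0)) →
  ∀ (φ : Ed N → Fin N) (E : Finset (Ed N)), (∀ v, degE φ E v ≤ 9000) →
  ∀ (Wd : ∀ i : ℕ, Set (Fin (i + j0 + 1) → S × Bool)),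
    (∀ i < j, (Wd i).ncard ≤ M ^ (100000 * (i + j0)) * 9000 ^ (i + j0 + 1)) →
    ∃ (c : Ed N → S) (E' : Finset (Ed N)), E' ⊆ E ∧ 10 ^ 5 * (E \ E').card ≤ N ∧
      (∀ e, ¬ T1 φ E' c e) ∧ (∀ i < j, ∀ p, ¬ T2 φ E' c (Wd i) p) ∧
      (∀ p : PW N (j + j0 + 1) × PW N (j + j0 + 1), ¬ T3 φ E' c p)

/-! ## The labelled graphs -/

/-- `X` is isomorphic (by `ρ`) to a union of components of the labelled graph `(φ, E, c)`. -/
structure IsComp {S : Type} {N : ℕ} (φ : Ed N → Fin N) (E : Finset (Ed N)) (c : Ed N → S)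
    (X : LGr S) (ρ : X.V → Fin N) : Prop where
  inj : Function.Injective ρ
  step_iff : ∀ v w s, X.step v (s, true) = some w ↔
    ∃ k, (ρ v, k) ∈ E ∧ c (ρ v, k) = s ∧ φ (ρ v, k) = ρ w
  src : ∀ v e, e ∈ E → e.1 = ρ v → ∃ w, ρ w = φ e
  tgt : ∀ v e, e ∈ E → φ e = ρ v → ∃ w, ρ w = e.1
  deg : ∀ v, X.deg v = degE φ E (ρ v)

/-- Existence of a component with few vertices of small degree. -/
def Stmt_Comp : Prop := ∀ (S : Type) [Fintype S] [DecidableEq S] (N : ℕ) (φ : Ed N → Fin N)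
  (E : Finset (Ed N)) (c : Ed N → S), 1 ≤ N → (∀ e, ¬ T1 φ E c e) →
  1000 * {v | degE φ E v < 1550}.ncard ≤ N →
    ∃ (X : LGr S) (ρ : X.V → Fin N), IsComp φ E c X ρ ∧ Nonempty X.V ∧
      (∀ v w : X.V, ∃ l, FreeGroup.IsReduced l ∧ X.run v l = some w) ∧
      1000 * {v : X.V | X.deg v < 1550}.ncard ≤ Fintype.card X.V

/-- The girth of the labelled graph. -/
def Stmt_GirthX : Prop := ∀ (S : Type) (N g : ℕ) (φ : Ed N → Fin N) (E : Finset (Ed N))
  (c : Ed N → S) (X : LGr S) (ρ : X.V → Fin N), IsComp φ E c X ρ →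
  (∀ k, k + 1 < g → ∀ p : CW N k, IsCW φ p → ∃ i, cwE p i ∉ E) →
    ∀ (v : X.V) l, FreeGroup.IsReduced l → l ≠ [] → X.run v l = some v → g ≤ l.length

/-- Reduced words of length less than the girth are labels of walks with distinct edges. -/
def Stmt_WordPath : Prop := ∀ (S : Type) (N g : ℕ) (φ : Ed N → Fin N) (E : Finset (Ed N))
  (c : Ed N → S) (X : LGr S) (ρ : X.V → Fin N), IsComp φ E c X ρ →
  (∀ (v : X.V) l, FreeGroup.IsReduced l → l ≠ [] → X.run v l = some v → g ≤ l.length) →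
    ∀ (m : ℕ) (f : Fin m → S × Bool) (v : X.V), m < g → FreeGroup.IsReduced (List.ofFn f) →
      (X.run v (List.ofFn f)).isSome → ∃ p : PW N m, IsPW φ E p ∧ p.1 0 = ρ v ∧
        (∀ t, (c (pwE p t), (p.2 t).1) = f t) ∧
        (∀ (k : Fin (m + 1)) (y : X.V), X.run v ((List.ofFn f).take k) = some y → ρ y = p.1 k)

/-- The properties of the graphs. -/
structure PX {S : Type} [Fintype S] (M g m : ℕ) (X : LGr S) : Prop where
  card_le : Fintype.card X.V ≤ M ^ g
  ne : Nonempty X.V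
  conn : ∀ v w : X.V, ∃ l, FreeGroup.IsReduced l ∧ X.run v l = some w
  girth : ∀ (v : X.V) l, FreeGroup.IsReduced l → l ≠ [] → X.run v l = some v → g ≤ l.length
  own : ∀ (v w : X.V) l, FreeGroup.IsReduced l → (X.run v l).isSome → (X.run w l).isSome →
    v ≠ w → l.length < m
  deg : ∀ v : X.V, X.deg v ≤ 9000
  dfc : 1000 * {v : X.V | X.deg v < 1550}.ncard ≤ Fintype.card X.V
  sparse : ∀ A B : Finset X.V, Disjoint A B →
    {p : X.V × S | ∃ w, X.step p.1 (p.2, true) = some w ∧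
      ((p.1 ∈ A ∧ w ∈ B) ∨ (p.1 ∈ B ∧ w ∈ A))}.ncard ≤ 750 * (A.card + B.card)

/-- Common words. -/
def Stmt_Own : Prop := ∀ (S : Type) [Fintype S] (N g m : ℕ) (φ : Ed N → Fin N)
  (E : Finset (Ed N)) (c : Ed N → S) (X : LGr S) (ρ : X.V → Fin N), IsComp φ E c X ρ →
  (∀ (v : X.V) l, FreeGroup.IsReduced l → l ≠ [] → X.run v l = some v → g ≤ l.length) →
  m < g →
    ((∀ p : PW N m × PW N m, ¬ T3 φ E c p) → ∀ (v w : X.V) l, FreeGroup.IsReduced l →
      (X.run v l).isSome → (X.run w l).isSome → v ≠ w → l.length < m) ∧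
    (∀ Wd : Set (Fin m → S × Bool), (∀ p : PW N m, ¬ T2 φ E c Wd p) → ∀ (f : Fin m → S × Bool)
      (v : X.V), FreeGroup.IsReduced (List.ofFn f) → (X.run v (List.ofFn f)).isSome → f ∉ Wd)

/-- The number of words which can be read in a graph. -/
def Stmt_WdCount : Prop := ∀ (S : Type) [Fintype S] (X : LGr S) (m : ℕ),
  (∀ v : X.V, X.deg v ≤ 9000) →
    {f : Fin m → S × Bool | ∃ v, (X.run v (List.ofFn f)).isSome}.ncard ≤
      Fintype.card X.V * 9000 ^ m

/-- The next graph of the family. -/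
def Stmt_Next : Prop := ∃ (M : ℕ) (S : Type) (_ : Fintype S) (_ : DecidableEq S),
  ∀ j0 : ℕ, 1 ≤ j0 → ∀ (j : ℕ) (X : ℕ → LGr S),
    (∀ i < j, PX M (100000 * (i + j0)) (i + j0 + 1) (X i)) →
    ∃ Y : LGr S, PX M (100000 * (j + j0)) (j + j0 + 1) Y ∧ ∀ i < j, ∀ (v : (X i).V) (w : Y.V) l,
      FreeGroup.IsReduced l → ((X i).run v l).isSome → (Y.run w l).isSome →
        l.length < i + j0 + 1

end Pool.Agent.Lib.MP_6b7756_an.GM
end

section

/-!
# MP_6b7756_an, full disproof: counting labellings with conflicts of types 1 and 2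
-/

set_option autoImplicit false

namespace Pool.Agent.Lib.MP_6b7756_an.GM

theorem cn_pair {J S : Type} [Fintype J] [Fintype S] (e e' : J) (h : e ≠ e') :
    ({c : J → S | c e = c e'} : Set (J → S)).ncard * Fintype.card S ≤
      Fintype.card S ^ Fintype.card J := by
  classical
  have hinj : Function.Injective
      (fun q : {c : J → S // c e = c e'} × S => Function.update q.1.1 e' q.2) := by
    rintro ⟨⟨c, hc⟩, s⟩ ⟨⟨c', hc'⟩, s'⟩ hq
    simp only at hq
    have hs : s = s' := by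
      have := congrFun hq e'
      simpa using this
    have hx : ∀ x, x ≠ e' → c x = c' x := by
      intro x hx
      have := congrFun hq x
      simpa [Function.update_of_ne hx] using this
    have hcc : c = c' := by
      funext x
      by_cases hxe : x = e'
      · rw [hxe, ← hc, ← hc']
        exact hx e h
      · exact hx x hxe
    subst hs
    subst hcc
    rfl
  have h1 := Fintype.card_le_of_injective _ hinj
  rw [Fintype.card_prod, Fintype.card_fun] at h1
  have h2 : ({c : J → S | c e = c e'} : Set (J → S)).ncard =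
      Fintype.card {c : J → S // c e = c e'} := by
    rw [← Nat.card_coe_set_eq, Nat.card_eq_fintype_card]
    rfl
  rw [h2]
  exact h1

theorem cn_fix {J S : Type} [Fintype J] [Fintype S] {m : ℕ} (e : Fin m → J)
    (he : Function.Injective e) (w : Fin m → S) :
    ({c : J → S | ∀ t, c (e t) = w t} : Set (J → S)).ncard * Fintype.card S ^ m ≤
      Fintype.card S ^ Fintype.card J := by
  classical
  have hinj : Function.Injective
      (fun q : {c : J → S // ∀ t, c (e t) = w t} × (Fin m → S) =>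
        Function.extend e q.2 q.1.1) := by
    rintro ⟨⟨c, hc⟩, s⟩ ⟨⟨c', hc'⟩, s'⟩ hq
    simp only at hq
    have hs : s = s' := by
      funext t
      have := congrFun hq (e t)
      rwa [he.extend_apply, he.extend_apply] at this
    have hcc : c = c' := by
      funext x
      by_cases hxe : ∃ t, e t = x
      · obtain ⟨t, rfl⟩ := hxe
        rw [hc, hc']
      · have := congrFun hq x
        rwa [Function.extend_apply' _ _ _ hxe, Function.extend_apply' _ _ _ hxe] at this
    subst hs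
    subst hcc
    rfl
  have h1 := Fintype.card_le_of_injective _ hinj
  rw [Fintype.card_prod, Fintype.card_fun, Fintype.card_fun, Fintype.card_fin] at h1
  have h2 : ({c : J → S | ∀ t, c (e t) = w t} : Set (J → S)).ncard =
      Fintype.card {c : J → S // ∀ t, c (e t) = w t} := by
    rw [← Nat.card_coe_set_eq, Nat.card_eq_fintype_card]
    rfl
  rw [h2]
  exact h1

theorem cn_card_ed (N : ℕ) : Fintype.card (Ed N) = 1000 * N := by
  rw [Fintype.card_prod, Fintype.card_fin, Fintype.card_fin, mul_comm]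

theorem cn_sq {α : Type} [DecidableEq α] {N : ℕ} (E : Finset α) (f : α → Fin N)
    (h : ∀ v, (E.filter fun e => f e = v).card ≤ 9000) :
    ((E ×ˢ E).filter fun b => f b.1 = f b.2).card ≤ N * 9000 ^ 2 := by
  classical
  rw [Finset.card_eq_sum_card_fiberwise (f := fun b => f b.1) (t := Finset.univ)
    (fun _ _ => Finset.mem_coe.2 (Finset.mem_univ _))]
  calc ∑ v : Fin N, (((E ×ˢ E).filter fun b => f b.1 = f b.2).filter fun b => f b.1 = v).card
      ≤ ∑ v : Fin N, 9000 ^ 2 := by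
        refine Finset.sum_le_sum fun v _ => ?_
        have hsub : (((E ×ˢ E).filter fun b => f b.1 = f b.2).filter fun b => f b.1 = v) ⊆
            (E.filter fun e => f e = v) ×ˢ (E.filter fun e => f e = v) := by
          intro b hb
          simp only [Finset.mem_filter, Finset.mem_product] at hb ⊢
          obtain ⟨⟨⟨h1, h2⟩, h3⟩, h4⟩ := hb
          exact ⟨⟨h1, h4⟩, h2, h3 ▸ h4⟩
        refine (Finset.card_le_card hsub).trans ?_
        rw [Finset.card_product, sq]
        exact Nat.mul_le_mul (h v) (h v)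
    _ = N * 9000 ^ 2 := by
        rw [Finset.sum_const, Finset.card_univ, Fintype.card_fin, smul_eq_mul]

theorem cnt1 : Stmt_Cnt1 := by
  classical
  intro S _ N φ E hdeg
  have hd1 : ∀ v, (E.filter fun e => e.1 = v).card ≤ 9000 := by
    intro v
    refine le_trans ?_ (hdeg v)
    unfold degE
    refine le_trans (le_of_eq ?_) (Nat.le_add_right _ _)
    rw [← Set.ncard_coe_finset]
    congr 1
    ext e
    simp
  have hd2 : ∀ v, (E.filter fun e => φ e = v).card ≤ 9000 := by
    intro v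
    refine le_trans ?_ (hdeg v)
    unfold degE
    refine le_trans (le_of_eq ?_) (Nat.le_add_left _ _)
    rw [← Set.ncard_coe_finset]
    congr 1
    ext e
    simp
  set P : Finset (Ed N × Ed N) := (E ×ˢ E).filter fun b =>
    b.1 ≠ b.2 ∧ (b.1.1 = b.2.1 ∨ φ b.1 = φ b.2) with hP
  have hPcard : P.card ≤ 2 * N * 9000 ^ 2 := by
    have hsub : P ⊆ ((E ×ˢ E).filter fun b => b.1.1 = b.2.1) ∪
        ((E ×ˢ E).filter fun b => φ b.1 = φ b.2) := by
      intro b hb
      rw [hP, Finset.mem_filter] at hb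
      rw [Finset.mem_union, Finset.mem_filter, Finset.mem_filter]
      rcases hb.2.2 with h | h
      · exact Or.inl ⟨hb.1, h⟩
      · exact Or.inr ⟨hb.1, h⟩
    refine (Finset.card_le_card hsub).trans ((Finset.card_union_le _ _).trans ?_)
    have h1 := cn_sq E (fun e : Ed N => e.1) hd1
    have h2 := cn_sq E φ hd2
    calc _ ≤ N * 9000 ^ 2 + N * 9000 ^ 2 := Nat.add_le_add h1 h2
      _ = 2 * N * 9000 ^ 2 := by ring
  set s : Finset ((Ed N → S) × (Ed N × Ed N)) :=
    Finset.univ.filter fun q => T1 φ E q.1 q.2 with hs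
  have hcard : {q : (Ed N → S) × (Ed N × Ed N) | T1 φ E q.1 q.2}.ncard = s.card := by
    rw [← Set.ncard_coe_finset]
    congr 1
    ext q
    simp [hs]
  have hmaps : ∀ q ∈ s, q.2 ∈ P := by
    intro q hq
    rw [hs, Finset.mem_filter] at hq
    obtain ⟨_, h1, h2, h3, h4, _⟩ := hq
    rw [hP, Finset.mem_filter, Finset.mem_product]
    exact ⟨⟨h1, h2⟩, h3, h4⟩
  have hfib : ∀ b ∈ P, (s.filter fun q => q.2 = b).card * Fintype.card S ≤
      Fintype.card S ^ (1000 * N) := by
    intro b hb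
    have hne : b.1 ≠ b.2 := by
      rw [hP, Finset.mem_filter] at hb
      exact hb.2.1
    have h1 : (s.filter fun q => q.2 = b).card ≤
        ({c : Ed N → S | c b.1 = c b.2} : Set (Ed N → S)).ncard := by
      rw [← Set.ncard_coe_finset]
      refine Set.ncard_le_ncard_of_injOn Prod.fst ?_ ?_ (Set.toFinite _)
      · intro q hq
        simp only [Finset.coe_filter, Set.mem_ofPred_eq, hs, Finset.mem_filter,
          Finset.mem_univ, true_and] at hq
        obtain ⟨hT, hqb⟩ := hq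
        obtain ⟨_, _, _, _, h5⟩ := hT
        rw [hqb] at h5
        exact h5
      · intro q hq q' hq' h
        simp only [Finset.coe_filter, Set.mem_ofPred_eq] at hq hq'
        exact Prod.ext h (hq.2.trans hq'.2.symm)
    calc _ ≤ ({c : Ed N → S | c b.1 = c b.2} : Set (Ed N → S)).ncard * Fintype.card S :=
          Nat.mul_le_mul_right _ h1
      _ ≤ Fintype.card S ^ Fintype.card (Ed N) := cn_pair b.1 b.2 hne
      _ = _ := by rw [cn_card_ed]
  rw [hcard, Finset.card_eq_sum_card_fiberwise (f := Prod.snd) (t := P)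
    (fun q hq => Finset.mem_coe.2 (hmaps q (Finset.mem_coe.1 hq))), Finset.sum_mul]
  calc ∑ b ∈ P, (s.filter fun q => q.2 = b).card * Fintype.card S
      ≤ ∑ b ∈ P, Fintype.card S ^ (1000 * N) := Finset.sum_le_sum hfib
    _ = P.card * Fintype.card S ^ (1000 * N) := by rw [Finset.sum_const, smul_eq_mul]
    _ ≤ _ := Nat.mul_le_mul_right _ hPcard

theorem cnt2 (h : Stmt_PathCount) : Stmt_Cnt2 := by
  classical
  intro S _ N m φ E Wd hdeg
  have hpath := h N m φ E hdeg
  set P : Finset (PW N m) := Finset.univ.filter fun p => IsPW φ E p with hP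
  have hPcard : {p : PW N m | IsPW φ E p}.ncard = P.card := by
    rw [← Set.ncard_coe_finset]
    congr 1
    ext q
    simp [hP]
  have hWfin : Wd.Finite := Set.toFinite _
  set W : Finset (Fin m → S × Bool) := hWfin.toFinset with hW
  have hWcard : Wd.ncard = W.card := Set.ncard_eq_toFinset_card _ hWfin
  set s : Finset ((Ed N → S) × PW N m) :=
    Finset.univ.filter fun q => T2 φ E q.1 Wd q.2 with hs
  have hcard : {q : (Ed N → S) × PW N m | T2 φ E q.1 Wd q.2}.ncard = s.card := by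
    rw [← Set.ncard_coe_finset]
    congr 1
    ext q
    simp [hs]
  let F : (Ed N → S) × PW N m → PW N m × (Fin m → S × Bool) := fun q =>
    (q.2, fun t => (q.1 (pwE q.2 t), (q.2.2 t).1))
  have hmaps : ∀ q ∈ s, F q ∈ P ×ˢ W := by
    intro q hq
    rw [hs, Finset.mem_filter] at hq
    obtain ⟨_, h1, h2⟩ := hq
    rw [Finset.mem_product, hP, Finset.mem_filter, hW, Set.Finite.mem_toFinset]
    exact ⟨⟨Finset.mem_univ _, h1⟩, h2⟩
  have hfib : ∀ b ∈ P ×ˢ W, (s.filter fun q => F q = b).card * Fintype.card S ^ m ≤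
      Fintype.card S ^ (1000 * N) := by
    intro b hb
    have hinj : Function.Injective (pwE b.1) := by
      rw [Finset.mem_product, hP, Finset.mem_filter] at hb
      exact hb.1.2.1
    have h1 : (s.filter fun q => F q = b).card ≤
        ({c : Ed N → S | ∀ t, c (pwE b.1 t) = (b.2 t).1} : Set (Ed N → S)).ncard := by
      rw [← Set.ncard_coe_finset]
      refine Set.ncard_le_ncard_of_injOn Prod.fst ?_ ?_ (Set.toFinite _)
      · intro q hq
        simp only [Finset.coe_filter, Set.mem_ofPred_eq] at hq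
        intro t
        rw [← hq.2]
      · intro q hq q' hq' hqq
        simp only [Finset.coe_filter, Set.mem_ofPred_eq] at hq hq'
        have h3 : (F q).1 = (F q').1 := by rw [hq.2, hq'.2]
        exact Prod.ext hqq h3
    calc _ ≤ ({c : Ed N → S | ∀ t, c (pwE b.1 t) = (b.2 t).1} : Set (Ed N → S)).ncard *
            Fintype.card S ^ m := Nat.mul_le_mul_right _ h1
      _ ≤ Fintype.card S ^ Fintype.card (Ed N) := cn_fix _ hinj fun t => (b.2 t).1
      _ = _ := by rw [cn_card_ed]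
  rw [hcard, Finset.card_eq_sum_card_fiberwise (f := F) (t := P ×ˢ W)
    (fun q hq => Finset.mem_coe.2 (hmaps q (Finset.mem_coe.1 hq))), Finset.sum_mul]
  calc ∑ b ∈ P ×ˢ W, (s.filter fun q => F q = b).card * Fintype.card S ^ m
      ≤ ∑ b ∈ P ×ˢ W, Fintype.card S ^ (1000 * N) := Finset.sum_le_sum hfib
    _ = (P.card * W.card) * Fintype.card S ^ (1000 * N) := by
        rw [Finset.sum_const, smul_eq_mul, Finset.card_product]
    _ ≤ _ := by
        refine Nat.mul_le_mul_right _ ?_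
        rw [hWcard]
        exact Nat.mul_le_mul_right _ (hPcard ▸ hpath)

end Pool.Agent.Lib.MP_6b7756_an.GM
end

section

/-!
# MP_6b7756_an: counting labellings, type 3 (task E8)
-/

set_option autoImplicit false

namespace Pool.Agent.Lib.MP_6b7756_an.GM

/-- A set `I` of times with `p I` and `p' I` disjoint, which contains a third of the times. -/
theorem ct_exists {J : Type} (m : ℕ) (p p' : Fin m → J) (hp : Function.Injective p)
    (hp' : Function.Injective p') (hne : ∀ t, p t ≠ p' t) :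
    ∃ I : Finset (Fin m), (∀ t ∈ I, ∀ t' ∈ I, p t ≠ p' t') ∧ m ≤ 3 * I.card := by
  classical
  obtain ⟨I, hI, hmax⟩ := Finset.exists_max_image
    ((Finset.univ : Finset (Finset (Fin m))).filter
      (fun I => ∀ t ∈ I, ∀ t' ∈ I, p t ≠ p' t')) Finset.card ⟨∅, by simp⟩
  rw [Finset.mem_filter] at hI
  refine ⟨I, hI.2, ?_⟩
  set A : Finset (Fin m) := Finset.univ.filter (fun t => p t ∈ I.image p') with hA
  set B : Finset (Fin m) := Finset.univ.filter (fun t => p' t ∈ I.image p) with hB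
  have hAc : A.card ≤ I.card := by
    rw [← Finset.card_image_of_injective A hp]
    refine le_trans (Finset.card_le_card (t := I.image p') ?_) Finset.card_image_le
    intro j hj
    obtain ⟨t, ht, rfl⟩ := Finset.mem_image.mp hj
    exact (Finset.mem_filter.mp ht).2
  have hBc : B.card ≤ I.card := by
    rw [← Finset.card_image_of_injective B hp']
    refine le_trans (Finset.card_le_card (t := I.image p) ?_) Finset.card_image_le
    intro j hj
    obtain ⟨t, ht, rfl⟩ := Finset.mem_image.mp hj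
    exact (Finset.mem_filter.mp ht).2
  have hcov : (Finset.univ : Finset (Fin m)) ⊆ I ∪ (A ∪ B) := by
    intro t _
    by_contra hcon
    rw [Finset.mem_union, Finset.mem_union, not_or, not_or] at hcon
    obtain ⟨h1, h2, h3⟩ := hcon
    have h2' : ∀ t' ∈ I, p t ≠ p' t' := by
      intro t' ht' h
      exact h2 (Finset.mem_filter.mpr ⟨Finset.mem_univ _, Finset.mem_image.mpr ⟨t', ht', h.symm⟩⟩)
    have h3' : ∀ t' ∈ I, p t' ≠ p' t := by
      intro t' ht' h
      exact h3 (Finset.mem_filter.mpr ⟨Finset.mem_univ _, Finset.mem_image.mpr ⟨t', ht', h⟩⟩)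
    have h4 := hmax (insert t I) (Finset.mem_filter.mpr ⟨Finset.mem_univ _, by
      intro t1 ht1 t2 ht2
      rcases Finset.mem_insert.mp ht1 with h5 | h5 <;>
        rcases Finset.mem_insert.mp ht2 with h6 | h6
      · rw [h5, h6]; exact hne _
      · rw [h5]; exact h2' _ h6
      · rw [h6]; exact h3' _ h5
      · exact hI.2 _ h5 _ h6⟩)
    rw [Finset.card_insert_of_notMem h1] at h4
    omega
  have h1 := Finset.card_le_card hcov
  rw [Finset.card_univ, Fintype.card_fin] at h1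
  have h2 := Finset.card_union_le I (A ∪ B)
  have h3 := Finset.card_union_le A B
  omega

theorem pair : Stmt_Pair := by
  classical
  intro J S _ _ _ m p p' hp hp' hne
  obtain ⟨I, hI, hcard⟩ := ct_exists m p p' hp hp' hne
  have hinj : Set.InjOn (fun (c : J → S) (j : {j // j ∉ I.image p'}) => c j)
      {c : J → S | ∀ t, c (p t) = c (p' t)} := by
    intro c hc d hd hcd
    have h1 : ∀ j, j ∉ I.image p' → c j = d j := fun j hj => congrFun hcd ⟨j, hj⟩
    funext j
    by_cases hj : j ∈ I.image p'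
    · obtain ⟨t, ht, rfl⟩ := Finset.mem_image.mp hj
      rw [← hc t, ← hd t]
      apply h1
      intro h
      obtain ⟨t', ht', h2⟩ := Finset.mem_image.mp h
      exact hI t ht t' ht' h2.symm
    · exact h1 j hj
  have h1 := Set.ncard_le_ncard_of_injOn (t := Set.univ) _ (fun c _ => Set.mem_univ _) hinj
    Set.finite_univ
  have h2 : (Set.univ : Set ({j // j ∉ I.image p'} → S)).ncard =
      Fintype.card S ^ (Fintype.card J - I.card) := by
    rw [Set.ncard_univ, Nat.card_eq_fintype_card, Fintype.card_fun]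
    congr 1
    rw [Fintype.card_subtype_compl, Fintype.card_coe, Finset.card_image_of_injective _ hp']
  rw [h2] at h1
  have h3 : I.card ≤ Fintype.card J := by
    rw [← Finset.card_image_of_injective I hp', ← Finset.card_univ]
    exact Finset.card_le_card (Finset.subset_univ _)
  have h4 : 1 ≤ Fintype.card S := Fintype.card_pos
  calc {c : J → S | ∀ t, c (p t) = c (p' t)}.ncard * Fintype.card S ^ ((m + 2) / 3)
      ≤ Fintype.card S ^ (Fintype.card J - I.card) * Fintype.card S ^ I.card :=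
        Nat.mul_le_mul h1 (Nat.pow_le_pow_right h4 (by omega))
    _ = Fintype.card S ^ Fintype.card J := by
        rw [← pow_add]
        congr 1
        omega

theorem cnt3 (h1 : Stmt_PathCount) (h2 : Stmt_Pair) : Stmt_Cnt3 := by
  classical
  intro S _ _ N m φ E hdeg
  set P : Finset (PW N m) := Finset.univ.filter (fun p => IsPW φ E p) with hP
  have hPc : P.card ≤ N * 9000 ^ m := by
    have := h1 N m φ E hdeg
    rw [Set.ncard_eq_toFinset_card'] at this
    refine le_trans (le_of_eq ?_) this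
    congr 1
    ext p
    simp [hP]
  set Q : Finset ((Ed N → S) × (PW N m × PW N m)) :=
    Finset.univ.filter (fun q => T3 φ E q.1 q.2) with hQ
  have hQc : {q : (Ed N → S) × (PW N m × PW N m) | T3 φ E q.1 q.2}.ncard = Q.card := by
    rw [← Set.ncard_coe_finset]
    congr 1
    ext q
    simp [hQ]
  rw [hQc]
  have hfib : Q.card = ∑ b ∈ P ×ˢ P, (Q.filter (fun q => q.2 = b)).card := by
    refine Finset.card_eq_sum_card_fiberwise ?_
    intro q hq
    have hq' := (Finset.mem_filter.mp (Finset.mem_coe.mp hq)).2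
    rw [Finset.mem_coe, Finset.mem_product]
    exact ⟨Finset.mem_filter.mpr ⟨Finset.mem_univ _, hq'.1⟩,
      Finset.mem_filter.mpr ⟨Finset.mem_univ _, hq'.2.1⟩⟩
  have hb : ∀ b ∈ P ×ˢ P, (Q.filter (fun q => q.2 = b)).card * Fintype.card S ^ ((m + 2) / 3) ≤
      Fintype.card S ^ (1000 * N) := by
    intro b hb
    rw [Finset.mem_product] at hb
    have hb1 : IsPW φ E b.1 := (Finset.mem_filter.mp hb.1).2
    have hb2 : IsPW φ E b.2 := (Finset.mem_filter.mp hb.2).2
    by_cases hne : ∀ t, pwE b.1 t ≠ pwE b.2 t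
    · have h3 := h2 (Ed N) S m (pwE b.1) (pwE b.2) hb1.1 hb2.1 hne
      have h4 : Fintype.card (Ed N) = 1000 * N := by
        rw [Fintype.card_prod, Fintype.card_fin, Fintype.card_fin, mul_comm]
      rw [h4] at h3
      refine le_trans (Nat.mul_le_mul_right _ ?_) h3
      rw [← Set.ncard_coe_finset]
      refine Set.ncard_le_ncard_of_injOn Prod.fst ?_ ?_ (Set.toFinite _)
      · intro q hq
        rw [Finset.mem_coe, Finset.mem_filter, Finset.mem_filter] at hq
        obtain ⟨⟨-, hq1⟩, rfl⟩ := hq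
        exact hq1.2.2.2
      · intro q hq q' hq' hqq
        rw [Finset.mem_coe, Finset.mem_filter] at hq hq'
        exact Prod.ext hqq (hq.2.trans hq'.2.symm)
    · have h3 : Q.filter (fun q => q.2 = b) = ∅ := by
        rw [Finset.eq_empty_iff_forall_notMem]
        intro q hq
        rw [Finset.mem_filter, Finset.mem_filter] at hq
        obtain ⟨⟨-, hq1⟩, rfl⟩ := hq
        exact hne hq1.2.2.1
      rw [h3, Finset.card_empty, zero_mul]
      exact Nat.zero_le _
  rw [hfib, Finset.sum_mul]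
  refine le_trans (Finset.sum_le_sum hb) ?_
  rw [Finset.sum_const, smul_eq_mul, Finset.card_product]
  refine Nat.mul_le_mul_right _ ?_
  rw [sq]
  exact Nat.mul_le_mul hPc hPc

end Pool.Agent.Lib.MP_6b7756_an.GM
end

section

/-!
# MP_6b7756_an, full disproof: components of labelled graphs
-/

set_option autoImplicit false

namespace Pool.Agent.Lib.MP_6b7756_an.GM

section
variable {S : Type} {N : ℕ} (φ : Ed N → Fin N) (E : Finset (Ed N)) (c : Ed N → S)

/-- The step relation. -/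
def cm_Rel (v : Fin N) (a : S × Bool) (w : Fin N) : Prop :=
  ∃ e ∈ E, c e = a.1 ∧ (if a.2 then (e.1 = v ∧ φ e = w) else (e.1 = w ∧ φ e = v))

theorem cm_rel_true (v : Fin N) (s : S) (w : Fin N) :
    cm_Rel φ E c v (s, true) w ↔ ∃ e ∈ E, c e = s ∧ e.1 = v ∧ φ e = w := by
  simp [cm_Rel]

theorem cm_rel_false (v : Fin N) (s : S) (w : Fin N) :
    cm_Rel φ E c v (s, false) w ↔ ∃ e ∈ E, c e = s ∧ e.1 = w ∧ φ e = v := by
  simp [cm_Rel]

theorem cm_rel_inv (v : Fin N) (s : S) (b : Bool) (w : Fin N) :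
    cm_Rel φ E c v (s, b) w ↔ cm_Rel φ E c w (s, !b) v := by
  cases b
  · rw [cm_rel_false]
    exact (cm_rel_true φ E c w s v).symm
  · rw [cm_rel_true]
    exact (cm_rel_false φ E c w s v).symm

theorem cm_edge_eq (hT : ∀ e, ¬ T1 φ E c e) (e e' : Ed N) (he : e ∈ E) (he' : e' ∈ E)
    (h : e.1 = e'.1 ∨ φ e = φ e') (hc : c e = c e') : e = e' := by
  by_contra hne
  exact hT (e, e') ⟨he, he', hne, h, hc⟩

theorem cm_rel_fun (hT : ∀ e, ¬ T1 φ E c e) (v : Fin N) (a : S × Bool) (w w' : Fin N)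
    (h : cm_Rel φ E c v a w) (h' : cm_Rel φ E c v a w') : w = w' := by
  obtain ⟨s, b⟩ := a
  cases b
  · rw [cm_rel_false] at h h'
    obtain ⟨e, he, h1, h2, h3⟩ := h
    obtain ⟨e', he', h1', h2', h3'⟩ := h'
    have := cm_edge_eq φ E c hT e e' he he' (Or.inr (h3.trans h3'.symm)) (h1.trans h1'.symm)
    subst this
    exact h2.symm.trans h2'
  · rw [cm_rel_true] at h h'
    obtain ⟨e, he, h1, h2, h3⟩ := h
    obtain ⟨e', he', h1', h2', h3'⟩ := h'
    have := cm_edge_eq φ E c hT e e' he he' (Or.inl (h2.trans h2'.symm)) (h1.trans h1'.symm)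
    subst this
    exact h3.symm.trans h3'

/-- The connectedness relation. -/
def cm_adj (v w : Fin N) : Prop := ∃ e ∈ E, (e.1 = v ∧ φ e = w) ∨ (e.1 = w ∧ φ e = v)

/-- The setoid of components. -/
def cm_set : Setoid (Fin N) := Relation.EqvGen.setoid (cm_adj φ E)

/-- The set of vertices of a component. -/
def cm_V (q : Quotient (cm_set φ E)) : Type := {v : Fin N // Quotient.mk (cm_set φ E) v = q}

theorem cm_mk_of_rel (v : Fin N) (a : S × Bool) (w : Fin N) (h : cm_Rel φ E c v a w) :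
    Quotient.mk (cm_set φ E) v = Quotient.mk (cm_set φ E) w := by
  apply Quotient.sound
  refine Relation.EqvGen.rel _ _ ?_
  obtain ⟨s, b⟩ := a
  cases b
  · rw [cm_rel_false] at h
    obtain ⟨e, he, _, h2, h3⟩ := h
    exact ⟨e, he, Or.inr ⟨h2, h3⟩⟩
  · rw [cm_rel_true] at h
    obtain ⟨e, he, _, h2, h3⟩ := h
    exact ⟨e, he, Or.inl ⟨h2, h3⟩⟩

open Classical in
/-- The step function. -/
noncomputable def cm_step (q : Quotient (cm_set φ E)) (v : cm_V φ E q) (a : S × Bool) :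
    Option (cm_V φ E q) :=
  if h : ∃ w : cm_V φ E q, cm_Rel φ E c v.1 a w.1 then some h.choose else none

theorem cm_step_iff (hT : ∀ e, ¬ T1 φ E c e) (q : Quotient (cm_set φ E)) (v w : cm_V φ E q)
    (a : S × Bool) : cm_step φ E c q v a = some w ↔ cm_Rel φ E c v.1 a w.1 := by
  unfold cm_step
  constructor
  · intro h
    split_ifs at h with h1
    have h2 := h1.choose_spec
    have h3 : h1.choose = w := Option.some.inj h
    rw [h3] at h2
    exact h2
  · intro h
    have h1 : ∃ w : cm_V φ E q, cm_Rel φ E c v.1 a w.1 := ⟨w, h⟩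
    rw [dif_pos h1]
    have h2 := h1.choose_spec
    congr 1
    exact Subtype.ext (cm_rel_fun φ E c hT _ _ _ _ h2 h)

open Classical in
/-- The labelled graph of a component. -/
noncomputable def cm_X (hT : ∀ e, ¬ T1 φ E c e) (q : Quotient (cm_set φ E)) : LGr S where
  V := cm_V φ E q
  fin := by unfold cm_V; infer_instance
  dec := by unfold cm_V; infer_instance
  step := cm_step φ E c q
  inv := by
    intro v w s b h
    rw [cm_step_iff φ E c hT] at h ⊢
    rwa [← cm_rel_inv]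

theorem cm_isSome_iff (hT : ∀ e, ¬ T1 φ E c e) (q : Quotient (cm_set φ E)) (v : cm_V φ E q)
    (a : S × Bool) : (cm_step φ E c q v a).isSome ↔ ∃ w : Fin N, cm_Rel φ E c v.1 a w := by
  constructor
  · intro h
    obtain ⟨w, hw⟩ := Option.isSome_iff_exists.1 h
    exact ⟨w.1, (cm_step_iff φ E c hT q v w a).1 hw⟩
  · rintro ⟨w, hw⟩
    have hq : Quotient.mk (cm_set φ E) w = q := by
      rw [← cm_mk_of_rel φ E c v.1 a w hw]
      exact v.2
    rw [Option.isSome_iff_exists]
    exact ⟨⟨w, hq⟩, (cm_step_iff φ E c hT q v ⟨w, hq⟩ a).2 hw⟩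

theorem cm_deg (hT : ∀ e, ¬ T1 φ E c e) (q : Quotient (cm_set φ E)) (v : (cm_X φ E c hT q).V) :
    (cm_X φ E c hT q).deg v = degE φ E v.1 := by
  have h1 : {a : S × Bool | ((cm_X φ E c hT q).step v a).isSome} =
      (fun e : Ed N => ((c e, true) : S × Bool)) '' {e | e ∈ E ∧ e.1 = v.1} ∪
      (fun e : Ed N => ((c e, false) : S × Bool)) '' {e | e ∈ E ∧ φ e = v.1} := by
    ext ⟨s, b⟩
    have h2 : ((cm_X φ E c hT q).step v (s, b)).isSome ↔
      ∃ w : Fin N, cm_Rel φ E c v.1 (s, b) w := cm_isSome_iff φ E c hT q v (s, b)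
    change ((cm_X φ E c hT q).step v (s, b)).isSome ↔ _
    rw [h2]
    simp only [Set.mem_union, Set.mem_image, Prod.mk.injEq]
    cases b
    · simp only [cm_rel_false]
      constructor
      · rintro ⟨w, e, he, h3, h4, h5⟩
        exact Or.inr ⟨e, ⟨he, h5⟩, h3, trivial⟩
      · rintro (⟨e, _, _, h⟩ | ⟨e, ⟨he, h5⟩, h3, _⟩)
        · simp at h
        · exact ⟨e.1, e, he, h3, rfl, h5⟩
    · simp only [cm_rel_true]
      constructor
      · rintro ⟨w, e, he, h3, h4, h5⟩
        exact Or.inl ⟨e, ⟨he, h4⟩, h3, trivial⟩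
      · rintro (⟨e, ⟨he, h5⟩, h3, _⟩ | ⟨e, _, _, h⟩)
        · exact ⟨φ e, e, he, h3, h5, rfl⟩
        · simp at h
  unfold LGr.deg degE
  rw [h1, Set.ncard_union_eq]
  · congr 1
    · refine Set.InjOn.ncard_image ?_
      intro e he e' he' h
      exact cm_edge_eq φ E c hT e e' he.1 he'.1 (Or.inl (he.2.trans he'.2.symm))
        (congrArg Prod.fst h)
    · refine Set.InjOn.ncard_image ?_
      intro e he e' he' h
      exact cm_edge_eq φ E c hT e e' he.1 he'.1 (Or.inr (he.2.trans he'.2.symm))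
        (congrArg Prod.fst h)
  · rw [Set.disjoint_left]
    rintro a ⟨e, _, rfl⟩ ⟨e', _, h⟩
    simp at h

end

/-! ### Runs -/

theorem cm_run_append {S : Type} (X : LGr S) (v : X.V) (l l' : List (S × Bool)) :
    X.run v (l ++ l') = (X.run v l).bind fun w => X.run w l' := by
  induction l generalizing v with
  | nil => rfl
  | cons a l ih =>
    change (X.step v a).bind (fun w => X.run w (l ++ l')) =
      ((X.step v a).bind fun w => X.run w l).bind fun w => X.run w l'
    rw [Option.bind_assoc]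
    congr 1
    funext w
    exact ih w

theorem cm_run_red {S : Type} (X : LGr S) (v w : X.V) (l l' : List (S × Bool))
    (h : FreeGroup.Red l l') (hr : X.run v l = some w) : X.run v l' = some w := by
  induction h with
  | refl => exact hr
  | tail _ hs ih =>
    cases hs with
    | @not L1 L2 x b =>
      rw [cm_run_append] at ih ⊢
      rw [Option.bind_eq_some_iff] at ih ⊢
      obtain ⟨u, hu, hu'⟩ := ih
      refine ⟨u, hu, ?_⟩
      change (X.step u (x, b)).bind (fun w => (X.step w (x, !b)).bind fun w => X.run w L2) =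
        some w at hu'
      rw [Option.bind_eq_some_iff] at hu'
      obtain ⟨u1, hu1, hu1'⟩ := hu'
      rw [Option.bind_eq_some_iff] at hu1'
      obtain ⟨u2, hu2, hu2'⟩ := hu1'
      have h3 := X.inv _ _ _ _ hu1
      rw [hu2] at h3
      have h4 : u2 = u := Option.some.inj h3
      rw [h4] at hu2'
      exact hu2'

theorem cm_exists_run {S : Type} {N : ℕ} (φ : Ed N → Fin N) (E : Finset (Ed N)) (c : Ed N → S)
    (hT : ∀ e, ¬ T1 φ E c e) (q : Quotient (cm_set φ E)) (v w : Fin N)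
    (h : Relation.EqvGen (cm_adj φ E) v w) :
    ∀ (hv : Quotient.mk (cm_set φ E) v = q) (hw : Quotient.mk (cm_set φ E) w = q),
      (∃ l, (cm_X φ E c hT q).run ⟨v, hv⟩ l = some ⟨w, hw⟩) ∧
      (∃ l, (cm_X φ E c hT q).run ⟨w, hw⟩ l = some ⟨v, hv⟩) := by
  induction h with
  | rel x y h =>
    intro hv hw
    obtain ⟨e, he, h1 | h1⟩ := h
    · have h2 : cm_Rel φ E c x (c e, true) y := (cm_rel_true φ E c x _ y).2 ⟨e, he, rfl, h1⟩
      have h3 : (cm_X φ E c hT q).step ⟨x, hv⟩ (c e, true) = some ⟨y, hw⟩ :=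
        (cm_step_iff φ E c hT q ⟨x, hv⟩ ⟨y, hw⟩ _).2 h2
      have h4 := (cm_X φ E c hT q).inv _ _ _ _ h3
      refine ⟨⟨[(c e, true)], ?_⟩, ⟨[(c e, !true)], ?_⟩⟩
      · change ((cm_X φ E c hT q).step ⟨x, hv⟩ (c e, true)).bind _ = _
        rw [h3]
        rfl
      · change ((cm_X φ E c hT q).step ⟨y, hw⟩ (c e, !true)).bind _ = _
        rw [h4]
        rfl
    · have h2 : cm_Rel φ E c x (c e, false) y := (cm_rel_false φ E c x _ y).2 ⟨e, he, rfl, h1⟩
      have h3 : (cm_X φ E c hT q).step ⟨x, hv⟩ (c e, false) = some ⟨y, hw⟩ :=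
        (cm_step_iff φ E c hT q ⟨x, hv⟩ ⟨y, hw⟩ _).2 h2
      have h4 := (cm_X φ E c hT q).inv _ _ _ _ h3
      refine ⟨⟨[(c e, false)], ?_⟩, ⟨[(c e, !false)], ?_⟩⟩
      · change ((cm_X φ E c hT q).step ⟨x, hv⟩ (c e, false)).bind _ = _
        rw [h3]
        rfl
      · change ((cm_X φ E c hT q).step ⟨y, hw⟩ (c e, !false)).bind _ = _
        rw [h4]
        rfl
  | refl x =>
    intro hv hw
    exact ⟨⟨[], rfl⟩, ⟨[], rfl⟩⟩
  | symm x y _ ih =>
    intro hv hw
    exact ⟨(ih hw hv).2, (ih hw hv).1⟩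
  | trans x y z h1 _ ih1 ih2 =>
    intro hv hw
    have hy : Quotient.mk (cm_set φ E) y = q := by
      rw [← hv]
      exact (Quotient.sound h1).symm
    obtain ⟨⟨l1, hl1⟩, ⟨l2, hl2⟩⟩ := ih1 hv hy
    obtain ⟨⟨l3, hl3⟩, ⟨l4, hl4⟩⟩ := ih2 hy hw
    refine ⟨⟨l1 ++ l3, ?_⟩, ⟨l4 ++ l2, ?_⟩⟩
    · rw [cm_run_append, hl1]
      exact hl3
    · rw [cm_run_append, hl4]
      exact hl2

theorem comp : Stmt_Comp := by
  classical
  intro S _ _ N φ E c hN hT hlow
  -- choice of the component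
  have : NeZero N := ⟨by omega⟩
  have hex : ∃ q : Quotient (cm_set φ E),
      1000 * ((Finset.univ : Finset (Fin N)).filter
        (fun v => Quotient.mk (cm_set φ E) v = q ∧ degE φ E v < 1550)).card ≤
      ((Finset.univ : Finset (Fin N)).filter (fun v => Quotient.mk (cm_set φ E) v = q)).card ∧
      ∃ v, Quotient.mk (cm_set φ E) v = q := by
    have h1 : (Finset.univ : Finset (Fin N)).card =
        ∑ q : Quotient (cm_set φ E), ((Finset.univ : Finset (Fin N)).filter
          (fun v => Quotient.mk (cm_set φ E) v = q)).card :=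
      Finset.card_eq_sum_card_fiberwise (fun _ _ => Finset.mem_coe.2 (Finset.mem_univ _))
    have h2 : ((Finset.univ : Finset (Fin N)).filter (fun v => degE φ E v < 1550)).card =
        ∑ q : Quotient (cm_set φ E), (((Finset.univ : Finset (Fin N)).filter
          (fun v => degE φ E v < 1550)).filter (fun v => Quotient.mk (cm_set φ E) v = q)).card :=
      Finset.card_eq_sum_card_fiberwise (fun _ _ => Finset.mem_coe.2 (Finset.mem_univ _))
    have h3 : {v | degE φ E v < 1550}.ncard =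
        ((Finset.univ : Finset (Fin N)).filter (fun v => degE φ E v < 1550)).card := by
      rw [← Set.ncard_coe_finset]
      congr 1
      ext v
      simp
    rw [h3, h2, Finset.mul_sum] at hlow
    rw [Finset.card_univ, Fintype.card_fin] at h1
    replace hlow := hlow.trans h1.le
    obtain ⟨q, _, hq⟩ := Finset.exists_le_of_sum_le
      (⟨Quotient.mk (cm_set φ E) 0, Finset.mem_univ _⟩ :
        (Finset.univ : Finset (Quotient (cm_set φ E))).Nonempty) hlow
    refine ⟨q, ?_, Quotient.exists_rep q⟩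
    rw [Finset.filter_filter] at hq
    simpa only [and_comm] using hq
  obtain ⟨q, hq, v0, hv0⟩ := hex
  refine ⟨cm_X φ E c hT q, Subtype.val, ?_, ⟨⟨v0, hv0⟩⟩, ?_, ?_⟩
  · refine ⟨Subtype.val_injective, ?_, ?_, ?_, ?_⟩
    · intro v w s
      have h1 : (cm_X φ E c hT q).step v (s, true) = some w ↔ cm_Rel φ E c v.1 (s, true) w.1 :=
        cm_step_iff φ E c hT q v w (s, true)
      rw [h1, cm_rel_true]
      constructor
      · rintro ⟨e, he, h2, h3, h4⟩
        have h5 : e = (v.1, e.2) := Prod.ext h3 rfl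
        exact ⟨e.2, by rw [← h5]; exact he, by rw [← h5]; exact h2, by rw [← h5]; exact h4⟩
      · rintro ⟨k, h2, h3, h4⟩
        exact ⟨(v.1, k), h2, h3, rfl, h4⟩
    · intro v e he h1
      have h2 : cm_Rel φ E c v.1 (c e, true) (φ e) :=
        (cm_rel_true φ E c _ _ _).2 ⟨e, he, rfl, h1, rfl⟩
      refine ⟨⟨φ e, ?_⟩, rfl⟩
      rw [← cm_mk_of_rel φ E c _ _ _ h2]
      exact v.2
    · intro v e he h1
      have h2 : cm_Rel φ E c v.1 (c e, false) e.1 :=
        (cm_rel_false φ E c _ _ _).2 ⟨e, he, rfl, rfl, h1⟩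
      refine ⟨⟨e.1, ?_⟩, rfl⟩
      rw [← cm_mk_of_rel φ E c _ _ _ h2]
      exact v.2
    · intro v
      exact cm_deg φ E c hT q v
  · intro v w
    have h1 : Relation.EqvGen (cm_adj φ E) v.1 w.1 := by
      have h2 : Quotient.mk (cm_set φ E) v.1 = Quotient.mk (cm_set φ E) w.1 := v.2.trans w.2.symm
      exact Quotient.exact h2
    obtain ⟨⟨l, hl⟩, _⟩ := cm_exists_run φ E c hT q v.1 w.1 h1 v.2 w.2
    refine ⟨FreeGroup.reduce l, ?_, ?_⟩
    · exact FreeGroup.isReduced_iff_reduce_eq.2 FreeGroup.reduce.idem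
    · exact cm_run_red _ _ _ _ _ FreeGroup.reduce.red hl
  · have h1 : {v : (cm_X φ E c hT q).V | (cm_X φ E c hT q).deg v < 1550}.ncard ≤
        ((Finset.univ : Finset (Fin N)).filter
        (fun v => Quotient.mk (cm_set φ E) v = q ∧ degE φ E v < 1550)).card := by
      rw [← Set.ncard_coe_finset]
      refine Set.ncard_le_ncard_of_injOn (fun v => v.1) ?_ ?_ (Set.toFinite _)
      · intro v hv
        have hv' : (cm_X φ E c hT q).deg v < 1550 := hv
        rw [cm_deg] at hv'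
        simp only [Finset.coe_filter, Finset.mem_univ, true_and]
        exact ⟨v.2, hv'⟩
      · intro v _ w _ h
        exact Subtype.ext h
    have h2 : ((Finset.univ : Finset (Fin N)).filter
        (fun v => Quotient.mk (cm_set φ E) v = q)).card ≤ Fintype.card (cm_X φ E c hT q).V := by
      rw [← Fintype.card_subtype]
      refine le_of_eq ?_
      exact Fintype.card_congr (Equiv.refl _)
    omega

end Pool.Agent.Lib.MP_6b7756_an.GM
end

section

/-!
# MP_6b7756_an, full disproof: the core inequality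
-/

set_option autoImplicit false

open scoped ComplexConjugate Classical

namespace Pool.Agent.Lib.MP_6b7756_an.GM

section
variable {Q S : Type} [Group Q]

theorem co_form_congr [Fintype S] {E : Type} [Group E] (gen : S → Q) (gE : S → E)
    (F F' : Finset (Q × S) → E → ℝ) (h : ∀ c f, c ⊆ LL gen → F c f = F' c f) :
    Form gen gE F = Form gen gE F' := by
  have h1 : ∀ s : S, {((1 : Q), s)} ⊆ LL gen := by
    intro s
    rw [Finset.singleton_subset_iff]
    exact Finset.mem_union_left _ (Finset.mem_image_of_mem _ (Finset.mem_univ s))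
  have h2 : ∀ s : S, {((gen s)⁻¹, s)} ⊆ LL gen := by
    intro s
    rw [Finset.singleton_subset_iff]
    exact Finset.mem_union_right _ (Finset.mem_image_of_mem (fun s => ((gen s)⁻¹, s))
      (Finset.mem_univ s))
  have h3 : (∅ : Finset (Q × S)) ⊆ LL gen := Finset.empty_subset _
  unfold Form
  congr 1
  · refine Finset.sum_congr rfl fun s _ => ?_
    rw [h _ _ h3, h _ _ h3, h _ _ (h1 s), h _ _ (h2 s), h _ _ (h1 s)]
  · refine Finset.sum_congr rfl fun T hT => ?_
    rw [h _ _ (Finset.mem_powerset.1 hT)]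

theorem co_form_smul [Fintype S] {E : Type} [Group E] (gen : S → Q) (gE : S → E)
    (F : Finset (Q × S) → E → ℝ) (a : ℝ) :
    Form gen gE (fun c f => a * F c f) = a * Form gen gE F := by
  unfold Form
  rw [mul_add, Finset.mul_sum, Finset.mul_sum]
  congr 1
  · refine Finset.sum_congr rfl fun s _ => ?_
    ring
  · refine Finset.sum_congr rfl fun T hT => ?_
    ring

theorem co_form_sum [Fintype S] {E : Type} [Group E] (gen : S → Q) (gE : S → E) {ι : Type}
    (I : Finset ι) (F : ι → Finset (Q × S) → E → ℝ) :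
    Form gen gE (fun c f => ∑ i ∈ I, F i c f) = ∑ i ∈ I, Form gen gE (F i) := by
  unfold Form
  rw [Finset.sum_add_distrib]
  congr 1
  · rw [Finset.sum_comm]
    refine Finset.sum_congr rfl fun s _ => ?_
    simp only [Finset.sum_sub_distrib, Finset.sum_add_distrib, Finset.mul_sum]
  · rw [Finset.sum_comm]
    refine Finset.sum_congr rfl fun T hT => ?_
    rw [Finset.mul_sum]

/-- The Fourier transform. -/
noncomputable def co_eta (ζ : Q → Finset (Q × S) → ℝ) (Om w : Finset (Q × S)) (q : Q) : ℝ :=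
  ∑ b ∈ Om.powerset, sg b w * ζ q b

/-- The form in one fibre. -/
noncomputable def co_R (ζ : Q → Finset (Q × S) → ℝ) (P : Finset Q) (Om w c : Finset (Q × S))
    (f : Q) : ℝ :=
  ∑ q ∈ P, sg (tr q c) w * co_eta ζ Om w q * co_eta ζ Om w (q * f)

theorem co_key (h2 : Stmt_Walsh) (ζ : Q → Finset (Q × S) → ℝ) (P : Finset Q)
    (Om : Finset (Q × S)) (hP : ∀ q b, ζ q b ≠ 0 → q ∈ P) (hOm : ∀ q b, ζ q b ≠ 0 → b ⊆ Om)
    (c : Finset (Q × S)) (hc : ∀ q ∈ P, tr q c ⊆ Om) (f : Q) :
    ∑ w ∈ Om.powerset, co_R ζ P Om w c f = 2 ^ Om.card * Phi ζ c f := by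
  unfold co_R
  rw [Finset.sum_comm]
  have h1 : ∀ q ∈ P, ∑ w ∈ Om.powerset,
      sg (tr q c) w * co_eta ζ Om w q * co_eta ζ Om w (q * f) =
      2 ^ Om.card * ∑ b ∈ Om.powerset, ζ q b * ζ (q * f) (sdf (tr q c) b) := by
    intro q hq
    exact (h2 (Q × S) Om).1 (ζ q) (ζ (q * f)) (tr q c) (hc q hq) (hOm q) (hOm (q * f))
  rw [Finset.sum_congr rfl h1, ← Finset.mul_sum]
  congr 1
  unfold Phi
  have h3 : Function.support (fun p : Q × Finset (Q × S) =>
      ζ p.1 p.2 * ζ (p.1 * f) (sdf (tr p.1 c) p.2)) ⊆ ((P ×ˢ Om.powerset : Finset _) : Set _) := by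
    intro p hp
    rw [Function.mem_support] at hp
    have hne : ζ p.1 p.2 ≠ 0 := left_ne_zero_of_mul hp
    simp only [Finset.coe_product, Set.mem_prod, Finset.mem_coe, Finset.mem_powerset]
    exact ⟨hP _ _ hne, hOm _ _ hne⟩
  rw [finsum_eq_sum_of_support_subset _ h3, Finset.sum_product]

theorem co_fibre [Fintype S] (h1 : Stmt_Cheeger) (h3 : Stmt_WtW) (h4 : Stmt_Fib)
    (gen : S → Q) (hg : ∀ s, gen s ≠ 1) (hA : SparseA gen) (ζ : Q → Finset (Q × S) → ℝ)
    (P : Finset Q) (Om : Finset (Q × S)) (hP : ∀ q b, ζ q b ≠ 0 → q ∈ P) (w : Finset (Q × S)) :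
    (9 / 1000 : ℝ) * co_R ζ P Om w ∅ 1 ≤ Form gen gen (co_R ζ P Om w) := by
  have hz : ∀ q, q ∉ P → co_eta ζ Om w q = 0 := by
    intro q hq
    unfold co_eta
    refine Finset.sum_eq_zero fun b _ => ?_
    have : ζ q b = 0 := by
      by_contra hne
      exact hq (hP q b hne)
    rw [this, mul_zero]
  have hsg : ∀ q, sg (tr q (∅ : Finset (Q × S))) w = 1 := by
    intro q
    rw [tr_empty]
    simp [sg]
  have hch := h1 Q S gen hA w P (co_eta ζ Om w) hz
  have hfib := h4 Q S gen w P (fun q => co_eta ζ Om w q ^ 2)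
    (fun s q => co_eta ζ Om w q * co_eta ζ Om w (q * gen s))
    (fun q hq => by simp [hz q hq]) (fun s q hq => by simp [hz q hq])
  have hL : co_R ζ P Om w ∅ 1 = ∑ h ∈ P, co_eta ζ Om w h ^ 2 := by
    unfold co_R
    refine Finset.sum_congr rfl fun q _ => ?_
    rw [hsg, mul_one]
    ring
  have hR1 : ∑ p ∈ w, (co_eta ζ Om w p.1 + co_eta ζ Om w (p.1 * gen p.2)) ^ 2 =
      ∑ s, (co_R ζ P Om w ∅ 1 + co_R ζ P Om w ∅ (gen s) -
        1 / 2 * co_R ζ P Om w {((1 : Q), s)} 1 - 1 / 2 * co_R ζ P Om w {((gen s)⁻¹, s)} 1 -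
        co_R ζ P Om w {((1 : Q), s)} (gen s)) := by
    have e1 : ∑ p ∈ w, (co_eta ζ Om w p.1 + co_eta ζ Om w (p.1 * gen p.2)) ^ 2 =
        ∑ p ∈ w, (co_eta ζ Om w p.1 ^ 2 + co_eta ζ Om w (p.1 * gen p.2) ^ 2 +
          2 * (co_eta ζ Om w p.1 * co_eta ζ Om w (p.1 * gen p.2))) := by
      refine Finset.sum_congr rfl fun p _ => ?_
      ring
    rw [e1]
    refine hfib.symm.trans ?_
    refine Finset.sum_congr rfl fun s _ => ?_
    have a1 : ∑ q ∈ P, co_eta ζ Om w q ^ 2 = co_R ζ P Om w ∅ 1 := hL.symm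
    have a2 : ∑ q ∈ P, co_eta ζ Om w q * co_eta ζ Om w (q * gen s) =
        co_R ζ P Om w ∅ (gen s) := by
      unfold co_R
      refine Finset.sum_congr rfl fun q _ => ?_
      rw [hsg, one_mul]
    have a3 : ∑ q ∈ P, sg (tr q {((1 : Q), s)}) w * co_eta ζ Om w q ^ 2 =
        co_R ζ P Om w {((1 : Q), s)} 1 := by
      unfold co_R
      refine Finset.sum_congr rfl fun q _ => ?_
      rw [mul_one]
      ring
    have a4 : ∑ q ∈ P, sg (tr q {((gen s)⁻¹, s)}) w * co_eta ζ Om w q ^ 2 =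
        co_R ζ P Om w {((gen s)⁻¹, s)} 1 := by
      unfold co_R
      refine Finset.sum_congr rfl fun q _ => ?_
      rw [mul_one]
      ring
    have a5 : ∑ q ∈ P, sg (tr q {((1 : Q), s)}) w *
        (co_eta ζ Om w q * co_eta ζ Om w (q * gen s)) =
        co_R ζ P Om w {((1 : Q), s)} (gen s) := by
      unfold co_R
      refine Finset.sum_congr rfl fun q _ => ?_
      ring
    rw [a1, a2, a3, a4, a5]
  have hR2 : ∑ h ∈ P, Wt (dg gen w h) * co_eta ζ Om w h ^ 2 =
      ∑ T ∈ (LL gen).powerset, hW gen T * co_R ζ P Om w T 1 := by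
    have e1 : ∀ T : Finset (Q × S), hW gen T * co_R ζ P Om w T 1 =
        ∑ q ∈ P, hW gen T * sg (tr q T) w * co_eta ζ Om w q ^ 2 := by
      intro T
      unfold co_R
      rw [Finset.mul_sum]
      refine Finset.sum_congr rfl fun q _ => ?_
      rw [mul_one]
      ring
    rw [Finset.sum_congr rfl fun T _ => e1 T, Finset.sum_comm]
    refine Finset.sum_congr rfl fun q _ => ?_
    rw [h3 Q S gen hg w q, Finset.sum_mul]
  rw [hL]
  refine hch.trans (le_of_eq ?_)
  rw [hR1, hR2]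
  rfl

end

theorem core (h1 : Stmt_Cheeger) (h2 : Stmt_Walsh) (h3 : Stmt_WtW) (h4 : Stmt_Fib) :
    Stmt_Core := by
  intro Q S _ _ gen hg hA ζ hfin
  set P : Finset Q := hfin.toFinset.image Prod.fst with hPdef
  set Om : Finset (Q × S) := (hfin.toFinset.image Prod.snd).biUnion id ∪
    P.biUnion (fun q => tr q (LL gen)) with hOmdef
  have hP : ∀ q b, ζ q b ≠ 0 → q ∈ P := by
    intro q b h
    rw [hPdef, Finset.mem_image]
    exact ⟨(q, b), (Set.Finite.mem_toFinset hfin).2 h, rfl⟩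
  have hOm : ∀ q b, ζ q b ≠ 0 → b ⊆ Om := by
    intro q b h x hx
    rw [hOmdef, Finset.mem_union]
    left
    rw [Finset.mem_biUnion]
    exact ⟨b, Finset.mem_image.2 ⟨(q, b), (Set.Finite.mem_toFinset hfin).2 h, rfl⟩, hx⟩
  have hLL : ∀ q ∈ P, tr q (LL gen) ⊆ Om := by
    intro q hq x hx
    rw [hOmdef, Finset.mem_union]
    right
    rw [Finset.mem_biUnion]
    exact ⟨q, hq, hx⟩
  have hc : ∀ c : Finset (Q × S), c ⊆ LL gen → ∀ q ∈ P, tr q c ⊆ Om := by
    intro c hc q hq x hx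
    apply hLL q hq
    rw [mem_tr] at hx ⊢
    exact hc hx
  have hkey := fun c f (h : c ⊆ LL gen) => co_key h2 ζ P Om hP hOm c (hc c h) f
  have hsum : (9 / 1000 : ℝ) * ∑ w ∈ Om.powerset, co_R ζ P Om w ∅ 1 ≤
      ∑ w ∈ Om.powerset, Form gen gen (co_R ζ P Om w) := by
    rw [Finset.mul_sum]
    exact Finset.sum_le_sum fun w _ => co_fibre h1 h3 h4 gen hg hA ζ P Om hP w
  rw [← co_form_sum, co_form_congr gen gen _ (fun c f => 2 ^ Om.card * Phi ζ c f)
    (fun c f h => hkey c f h), co_form_smul, hkey ∅ 1 (Finset.empty_subset _)] at hsum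
  have hpos : (0 : ℝ) < 2 ^ Om.card := by positivity
  nlinarith [hsum, hpos]

end Pool.Agent.Lib.MP_6b7756_an.GM
end

section

/-!
# MP_6b7756_an, full disproof: critical pairs
-/

set_option autoImplicit false

namespace Pool.Agent.Lib.MP_6b7756_an.GM

/-- The set of alternating edges inside `U`. -/
def cr_H {Q S : Type} [Group Q] (gen : S → Q) (U : Finset Q) (σ : Q → Bool) : Set (Q × S) :=
  {p : Q × S | p.1 ∈ U ∧ p.1 * gen p.2 ∈ U ∧ σ p.1 ≠ σ (p.1 * gen p.2)}

theorem cr_finite {Q S : Type} [Group Q] [Fintype S] (gen : S → Q) (U : Finset Q) (σ : Q → Bool) :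
    (cr_H gen U σ).Finite := by
  classical
  refine (Finset.finite_toSet (U ×ˢ (Finset.univ : Finset S))).subset ?_
  intro p hp
  have h1 : p.1 ∈ U := hp.1
  simp [h1]

theorem crit : Stmt_Crit := by
  classical
  intro Q S _ _ gen hA
  have hex : ∃ n : ℕ, ∃ (U : Finset Q) (σ : Q → Bool), U.card = n ∧
      760 * U.card < (cr_H gen U σ).ncard := by
    unfold SparseA at hA
    push Not at hA
    obtain ⟨U, σ, h⟩ := hA
    exact ⟨U.card, U, σ, rfl, h⟩
  obtain ⟨U, σ, hcard, hbig⟩ := Nat.find_spec hex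
  have hmin : ∀ V : Finset Q, V.card < U.card → (cr_H gen V σ).ncard ≤ 760 * V.card := by
    intro V hV
    by_contra hcon
    push Not at hcon
    rw [hcard] at hV
    exact Nat.find_min hex hV ⟨V, σ, rfl, hcon⟩
  refine ⟨U, σ, ?_, ?_⟩
  · by_contra hne
    rw [Finset.not_nonempty_iff_eq_empty] at hne
    subst hne
    have h0 : cr_H gen (∅ : Finset Q) σ = ∅ := by
      ext p
      simp [cr_H]
    rw [h0] at hbig
    simp at hbig
  · intro P hPU hP
    have hlt : (U \ P).card < U.card := by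
      have h1 := Finset.card_sdiff_add_card_eq_card hPU
      have h2 := hP.card_pos
      omega
    have hm := hmin (U \ P) hlt
    set M : Set (Q × S) := {p : Q × S | p.1 ∈ U ∧ p.1 * gen p.2 ∈ U ∧ σ p.1 ≠ σ (p.1 * gen p.2) ∧
      (p.1 ∈ P ∨ p.1 * gen p.2 ∈ P)} with hM
    have hsub : cr_H gen U σ ⊆ cr_H gen (U \ P) σ ∪ M := by
      intro p hp
      obtain ⟨h1, h2, h3⟩ := hp
      by_cases hc : p.1 ∈ P ∨ p.1 * gen p.2 ∈ P
      · right
        exact ⟨h1, h2, h3, hc⟩
      · left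
        push Not at hc
        exact ⟨Finset.mem_sdiff.2 ⟨h1, hc.1⟩, Finset.mem_sdiff.2 ⟨h2, hc.2⟩, h3⟩
    have hMfin : M.Finite := (cr_finite gen U σ).subset fun p hp => ⟨hp.1, hp.2.1, hp.2.2.1⟩
    have hle : (cr_H gen U σ).ncard ≤ (cr_H gen (U \ P) σ).ncard + M.ncard :=
      (Set.ncard_le_ncard hsub ((cr_finite gen (U \ P) σ).union hMfin)).trans
        (Set.ncard_union_le _ _)
    have h1 := Finset.card_sdiff_add_card_eq_card hPU
    omega

end Pool.Agent.Lib.MP_6b7756_an.GM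
end

section

/-!
# MP_6b7756_an: the graphs embed in the quotient (task C3)
-/

set_option autoImplicit false

namespace Pool.Agent.Lib.MP_6b7756_an.GM

/-- Two points with the same value of a chart differ by a stabilising element. -/
theorem em_stab (h1 : Stmt_Chart) {S : Type} [DecidableEq S] (X : LGr S) (u : FreeGroup S)
    (v0 v : X.V) (x x' : FreeGroup S) (hx : X.chart u v0 x = some v)
    (hx' : X.chart u v0 x' = some v) : Stab (X.chart u v0) (x' * x⁻¹) := by
  intro y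
  have e1 := (h1 S X u v0).1 x v hx
  have e2 := (h1 S X u v0).1 x' v hx'
  have e3 : X.chart u v0 ((x' * x⁻¹)⁻¹ * y) = X.chart x v ((x' * x⁻¹)⁻¹ * y) := congrFun e1 _
  have e4 : X.chart u v0 y = X.chart x' v y := congrFun e2 _
  rw [e3, e4]
  show X.run v (x⁻¹ * ((x' * x⁻¹)⁻¹ * y)).toWord = X.run v (x'⁻¹ * y).toWord
  have e5 : x⁻¹ * ((x' * x⁻¹)⁻¹ * y) = x'⁻¹ * y := by group
  rw [e5]

theorem em_mem {S : Type} [DecidableEq S] (X : ℕ → LGr S) (i : ℕ) (u : FreeGroup S)
    (v0 : (X i).V) (f : FreeGroup S) (hf : Stab ((X i).chart u v0) f) : f ∈ NN X := by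
  refine ⟨(f, Pi.mulSingle i (sgn f)), ?_, rfl⟩
  exact Subgroup.subset_normalClosure ⟨i, u, v0, hf, rfl⟩

theorem em_eq {S : Type} [DecidableEq S] (X : ℕ → LGr S) (x x' : FreeGroup S) :
    cl X x = cl X x' ↔ x' * x⁻¹ ∈ NN X := by
  rw [cl, cl, QuotientGroup.eq]
  have hN : (NN X).Normal := inferInstance
  rw [hN.mem_comm_iff]

theorem emb (h1 : Stmt_Chart) (h2 : Stmt_NcBig) : Stmt_Emb := by
  intro S _ _ X g hG i u v0
  -- surjectivity of the chart
  have hsurj : ∀ v, ∃ x, (X i).chart u v0 x = some v := by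
    intro v
    obtain ⟨l, hl, hrun⟩ := hG.conn i v0 v
    refine ⟨u * FreeGroup.mk l, ?_⟩
    show (X i).run v0 (u⁻¹ * (u * FreeGroup.mk l)).toWord = some v
    rw [inv_mul_cancel_left, FreeGroup.toWord_mk, hl.reduce_eq]
    exact hrun
  choose e he using hsurj
  -- well defined
  have hwd : ∀ x v, (X i).chart u v0 x = some v → cl X (e v) = cl X x := by
    intro x v hx
    rw [em_eq]
    exact em_mem X i u v0 _ (em_stab h1 (X i) u v0 v (e v) x (he v) hx)
  refine ⟨fun v => cl X (e v), ?_, fun x v hx => hwd x v hx, fun v => ⟨e v, he v⟩, ?_⟩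
  · intro v w hvw
    have h3 : e w * (e v)⁻¹ ∈ NN X := (em_eq X (e v) (e w)).mp hvw
    obtain ⟨p, hp, hp1⟩ := h3
    have hp1' : p.1 = e w * (e v)⁻¹ := hp1
    have h4 := (h2 S X g hG).2.1 p hp i u v0 (e v) (by rw [he v]; rfl) (by
      rw [hp1', inv_mul_cancel_right, he w]; rfl)
    have h5 := h4.1 (e w)
    rw [hp1'] at h5
    have e5 : (e w * (e v)⁻¹)⁻¹ * e w = e v := by group
    rw [e5, he v, he w] at h5
    exact Option.some.inj h5
  · intro v w a hstep
    have e1 := (h1 S (X i) u v0).1 (e v) v (he v)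
    have h3 : (X i).chart u v0 (e v * FreeGroup.mk [a]) = some w := by
      rw [e1]
      show (X i).run v ((e v)⁻¹ * (e v * FreeGroup.mk [a])).toWord = some w
      rw [inv_mul_cancel_left, FreeGroup.toWord_mk,
        (FreeGroup.IsReduced.singleton (a := a)).reduce_eq]
      simp [LGr.run, hstep]
    have h4 := hwd _ _ h3
    show cl X (e w) = cl X (e v) * cl X (FreeGroup.mk [a])
    rw [h4]
    rfl

end Pool.Agent.Lib.MP_6b7756_an.GM
end

section

/-!
# MP_6b7756_an: the topological group `(F × KK) ⧸ M` (task D13)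
-/

set_option autoImplicit false

open scoped ComplexConjugate Classical

namespace Pool.Agent.Lib.MP_6b7756_an.GM

/-- A subgroup of `F × KK` (with `F` discrete) which meets `1 × KK` trivially is closed. -/
theorem et_closed (F : Type) [Group F] [TopologicalSpace F] [DiscreteTopology F]
    (M : Subgroup (F × KK)) (hM : ∀ p ∈ M, p.1 = 1 → p = 1) : IsClosed (M : Set (F × KK)) := by
  rw [← isOpen_compl_iff, isOpen_prod_iff]
  intro f κ h
  have h1 : IsClosed {κ : KK | (f, κ) ∈ M} := by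
    have h2 : {κ : KK | (f, κ) ∈ M}.Subsingleton := by
      intro κ1 h1 κ2 h2
      have h3 := M.mul_mem (M.inv_mem h1) h2
      have h4 := hM _ h3 (by simp)
      have h5 := congrArg Prod.snd h4
      change κ1⁻¹ * κ2 = 1 at h5
      exact inv_mul_eq_one.mp h5
    exact h2.isClosed
  refine ⟨{f}, {κ : KK | (f, κ) ∈ M}ᶜ, isOpen_discrete _, h1.isOpen_compl, rfl, h, ?_⟩
  rintro ⟨f', κ'⟩ ⟨h2, h3⟩
  have h4 : f' = f := h2
  subst h4
  exact h3

theorem extTop : Stmt_ExtTop := by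
  intro F _ M _ hM
  let _ : TopologicalSpace F := ⊥
  have : DiscreteTopology F := ⟨rfl⟩
  have : IsClosed (M : Set (F × KK)) := et_closed F M hM
  refine ⟨inferInstance, inferInstance, inferInstance, ?_, ?_, ?_, ?_⟩
  · intro u hu
    rw [(isQuotientMap_quotient_mk' (s := QuotientGroup.leftRel M)).continuous_iff]
    rw [continuous_prod_of_discrete_left]
    exact hu
  · have h1 : (Set.range fun κ : KK => (QuotientGroup.mk ((1 : F), κ) : (F × KK) ⧸ M)) =
        (QuotientGroup.mk : F × KK → (F × KK) ⧸ M) '' (({1} : Set F) ×ˢ Set.univ) := by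
      ext q
      constructor
      · rintro ⟨κ, rfl⟩
        exact ⟨(1, κ), ⟨rfl, trivial⟩, rfl⟩
      · rintro ⟨⟨f, κ⟩, ⟨h1, -⟩, rfl⟩
        have h2 : f = 1 := h1
        subst h2
        exact ⟨κ, rfl⟩
    rw [h1]
    exact QuotientGroup.isOpenMap_coe _ ((isOpen_discrete _).prod isOpen_univ)
  · refine isCompact_range ?_
    exact continuous_quotient_mk'.comp (Continuous.prodMk continuous_const continuous_id)
  · intro κ
    rw [Subgroup.mem_center_iff]
    intro q
    obtain ⟨⟨f, κ'⟩, rfl⟩ := QuotientGroup.mk_surjective q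
    rw [← QuotientGroup.mk_mul, ← QuotientGroup.mk_mul]
    congr 1
    ext1
    · change f * 1 = 1 * f
      rw [mul_one, one_mul]
    · change κ' * κ = κ * κ'
      exact mul_comm _ _

end Pool.Agent.Lib.MP_6b7756_an.GM
end
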