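import Mathlib
import Pool.Agent.Lib.MP_6b7756_an.Mg.G001

section

/-!
# MP_6b7756_an, full disproof: the extension lemma
-/

set_option autoImplicit false

namespace Pool.Agent.Lib.MP_6b7756_an.GM

section
variable {S : Type}

lemma ex_toWord_mk [DecidableEq S] {l : List (S × Bool)} (h : FreeGroup.IsReduced l) :
    (FreeGroup.mk l).toWord = l := by
  rw [FreeGroup.toWord_mk]
  exact h.reduce_eq

lemma ex_pt_append (x0 : FreeGroup S) (l m : List (S × Bool)) {k : ℕ} (hk : k ≤ l.length) :
    pt x0 (l ++ m) k = pt x0 l k := by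
  unfold pt
  rw [List.take_append_of_le_length hk]

lemma ex_pt_len (x0 : FreeGroup S) (l : List (S × Bool)) :
    pt x0 l l.length = x0 * FreeGroup.mk l := by
  unfold pt
  rw [List.take_length]

lemma ex_pt_snoc (x0 : FreeGroup S) (l : List (S × Bool)) (a : S × Bool) :
    pt x0 (l ++ [a]) (l.length + 1) = pt x0 l l.length * FreeGroup.mk [a] := by
  have h : l.length + 1 = (l ++ [a]).length := by simp
  rw [h, ex_pt_len, ex_pt_len, mul_assoc, FreeGroup.mul_mk]

lemma ex_pt_word [DecidableEq S] (x0 : FreeGroup S) {l : List (S × Bool)} (hl : FreeGroup.IsReduced l) {s t : ℕ}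
    (hst : s ≤ t) : ((pt x0 l s)⁻¹ * pt x0 l t).toWord = (l.take t).drop s := by
  have h1 : l.take t = l.take s ++ (l.take t).drop s := by
    have h2 := (List.take_append_drop s (l.take t)).symm
    rwa [List.take_take, min_eq_left hst] at h2
  have h3 : pt x0 l t = pt x0 l s * FreeGroup.mk ((l.take t).drop s) := by
    unfold pt
    rw [mul_assoc, FreeGroup.mul_mk, ← h1]
  rw [h3, inv_mul_cancel_left]
  apply ex_toWord_mk
  exact (hl.take t).drop s

lemma ex_conv [DecidableEq S] (h1 : Stmt_Chart) (X : LGr S) (u : FreeGroup S) (v : X.V) (x0 : FreeGroup S)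
    {l : List (S × Bool)} (hl : FreeGroup.IsReduced l) {s r t : ℕ} (hsr : s ≤ r) (hrt : r ≤ t)
    (htl : t ≤ l.length) (hs : (X.chart u v (pt x0 l s)).isSome) (ht : (X.chart u v (pt x0 l t)).isSome) :
    (X.chart u v (pt x0 l r)).isSome := by
  refine (h1 S X u v).2 _ _ _ hs ht ?_
  rw [ex_pt_word x0 hl (hsr.trans hrt), ex_pt_word x0 hl hsr, ex_pt_word x0 hl hrt]
  have h2 : l.take t = l.take r ++ (l.take t).drop r := by
    have h3 := (List.take_append_drop r (l.take t)).symm
    rwa [List.take_take, min_eq_left hrt] at h3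
  have h4 : s ≤ (l.take r).length := by
    rw [List.length_take]
    omega
  conv_lhs => rw [h2]
  rw [List.drop_append_of_le_length h4]

lemma ex_chart_step [DecidableEq S] (h1 : Stmt_Chart) (X : LGr S) (u : FreeGroup S) (v : X.V) (p : FreeGroup S)
    (q : X.V) (h : X.chart u v p = some q) (a : S × Bool) :
    X.chart u v (p * FreeGroup.mk [a]) = X.step q a := by
  rw [(h1 S X u v).1 p q h]
  unfold LGr.chart
  rw [inv_mul_cancel_left, ex_toWord_mk FreeGroup.IsReduced.singleton]
  simp [LGr.run]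

lemma ex_red_snoc {X : LGr S} {L0 : List (S × Bool)} {c a : S × Bool} {q' q : X.V}
    (hc : X.step q' c = some q) (hred : FreeGroup.IsReduced (L0 ++ [c]))
    (ha : X.step q a ≠ some q') : FreeGroup.IsReduced (L0 ++ [c] ++ [a]) := by
  have h1 : FreeGroup.IsReduced ([c] ++ [a]) := by
    show FreeGroup.IsReduced [c, a]
    rw [FreeGroup.isReduced_cons_cons]
    refine ⟨?_, FreeGroup.IsReduced.singleton⟩
    intro h2
    by_contra h3
    apply ha
    have h4 : a = (c.1, !c.2) := by
      refine Prod.ext h2.symm ?_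
      revert h3
      cases c.2 <;> cases a.2 <;> simp
    rw [h4]
    exact X.inv q' q c.1 c.2 hc
  exact hred.append_overlap h1 (by simp)

/-- one more letter inside a chart -/
lemma ex_step_path [DecidableEq S] (h1 : Stmt_Chart) (X : LGr S) (u : FreeGroup S) (v0 : X.V)
    (x0 : FreeGroup S) (l : List (S × Bool)) (t : ℕ) (y : ℕ → X.V) (L0 : List (S × Bool))
    (c : S × Bool) (z0 : X.V) (hl : FreeGroup.IsReduced l) (hl0 : l = L0 ++ [c])
    (hc : X.step z0 c = some (y 0)) (h0 : X.chart u v0 (pt x0 l l.length) = some (y 0))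
    (hy : ∀ k < t, ∃ a, X.step (y k) a = some (y (k + 1)))
    (hz : ∀ k, 1 ≤ k → k ≤ t → y k ≠ z0) (hd : ∀ k k', k < k' → k' ≤ t → y k ≠ y k') :
    ∀ k ≤ t, ∃ w : List (S × Bool), w.length = k ∧ FreeGroup.IsReduced (l ++ w) ∧
      (∃ L c' q, l ++ w = L ++ [c'] ∧ X.step q c' = some (y k) ∧
        (∀ k', k < k' → k' ≤ t → y k' ≠ q)) ∧
      (∀ m ≤ k, X.chart u v0 (pt x0 (l ++ w) (l.length + m)) = some (y m)) := by
  intro k
  induction k with
  | zero =>
    intro _
    refine ⟨[], rfl, by rwa [List.append_nil], ⟨L0, c, z0, by rw [List.append_nil, hl0], hc, ?_⟩, ?_⟩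
    · intro k' h2 h3
      exact hz k' h2 h3
    · intro m hm
      obtain rfl : m = 0 := by omega
      rw [List.append_nil]
      exact h0
  | succ k ih =>
    intro hk
    obtain ⟨w, hw1, hw2, ⟨L, c', q, hL, hq, hq'⟩, hw3⟩ := ih (by omega)
    obtain ⟨a, ha⟩ := hy k (by omega)
    refine ⟨w ++ [a], by simp [hw1], ?_, ⟨l ++ w, a, y k, by simp, ha, ?_⟩, ?_⟩
    · rw [← List.append_assoc, hL]
      rw [hL] at hw2
      refine ex_red_snoc hq hw2 ?_
      rw [ha]
      intro h2
      exact hq' (k + 1) (by omega) hk (Option.some.inj h2)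
    · intro k' h2 h3 h4
      exact hd k k' (by omega) h3 h4.symm
    · intro m hm
      rcases Nat.lt_or_ge k m with h2 | h2
      · obtain rfl : m = k + 1 := by omega
        have h3 : l.length + (k + 1) = (l ++ w).length + 1 := by
          rw [List.length_append, hw1]
          omega
        rw [← List.append_assoc, h3, ex_pt_snoc]
        have h4 := hw3 k le_rfl
        have h5 : l.length + k = (l ++ w).length := by
          rw [List.length_append, hw1]
        rw [h5] at h4
        rw [ex_chart_step h1 X u v0 _ _ h4, ha]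
      · rw [← List.append_assoc, ex_pt_append]
        · exact hw3 m h2
        · rw [List.length_append, hw1]
          omega

end

theorem ext (h1 : Stmt_Chart) (h2 : Stmt_Emb) (h3 : Stmt_BFS) (h4 : Stmt_Growth)
    (h5 : Stmt_ExtOK) : Stmt_Ext := by
  classical
  intro S _ _ X g hG U σ hC x0 l hP
  obtain ⟨hg1, hg2⟩ := h4 S X g hG U σ hC
  have hn : cl X (pt x0 l l.length) ∈ U := hP.inU _ le_rfl
  -- a letter which can be added
  obtain ⟨a, ha, hared⟩ : ∃ a, HE X U σ (cl X (pt x0 l l.length)) a ∧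
      FreeGroup.IsReduced (l ++ [a]) := by
    have h6 := hg1 _ hn
    rcases List.eq_nil_or_concat l with h7 | ⟨L0, c, h7⟩
    · have h8 : {a | HE X U σ (cl X (pt x0 l l.length)) a}.Nonempty := by
        apply Set.nonempty_of_ncard_ne_zero
        omega
      obtain ⟨a, ha⟩ := h8
      refine ⟨a, ha, ?_⟩
      rw [h7]
      exact FreeGroup.IsReduced.singleton
    · obtain ⟨a, ha, hne⟩ := Set.exists_ne_of_one_lt_ncard
        (show 1 < {a | HE X U σ (cl X (pt x0 l l.length)) a}.ncard by omega) (c.1, !c.2)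
      refine ⟨a, ha, ?_⟩
      have h8 : FreeGroup.IsReduced ([c] ++ [a]) := by
        show FreeGroup.IsReduced [c, a]
        rw [FreeGroup.isReduced_cons_cons]
        refine ⟨?_, FreeGroup.IsReduced.singleton⟩
        intro h9
        by_contra h10
        apply hne
        refine Prod.ext h9.symm ?_
        revert h10
        cases c.2 <;> cases a.2 <;> simp
      have h11 : FreeGroup.IsReduced (L0 ++ [c]) := by
        rw [← List.concat_eq_append, ← h7]
        exact hP.red
      rw [h7, List.concat_eq_append]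
      exact h11.append_overlap h8 (by simp)
  by_cases hcl : ∀ (i : ℕ) (u : FreeGroup S) (v : (X i).V) (s : ℕ), s ≤ (l ++ [a]).length →
      ((X i).chart u v (pt x0 (l ++ [a]) s)).isSome →
      ((X i).chart u v (pt x0 (l ++ [a]) (l ++ [a]).length)).isSome →
      8 * ((l ++ [a]).length - s) < g i
  · -- the new path is clean
    refine ⟨l ++ [a], by simp, hared, ?_, ?_, hcl⟩
    · intro k hk
      rcases Nat.lt_or_ge l.length k with h6 | h6
      · have h7 : k = l.length + 1 := by
          rw [List.length_append, List.length_singleton] at hk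
          omega
        rw [h7, ex_pt_snoc]
        exact ha.2.1
      · rw [ex_pt_append _ _ _ h6]
        exact hP.inU k h6
    · intro i u v s t hst ht hs1 ht1 hgt f hf hst'
      rcases Nat.lt_or_ge l.length t with h6 | h6
      · have h7 : t = (l ++ [a]).length := by
          rw [List.length_append, List.length_singleton] at ht ⊢
          omega
        rw [h7] at ht1
        have h8 := hcl i u v s (by omega) hs1 ht1
        rw [← h7] at h8
        omega
      · have hs2 : s ≤ l.length := by omega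
        rw [ex_pt_append _ _ _ h6] at ht1 ⊢
        rw [ex_pt_append _ _ _ hs2] at hs1 ⊢
        exact hP.valid i u v s t hst h6 hs1 ht1 hgt f hf hst'
  · push Not at hcl
    obtain ⟨i, u, v, s, hs, hs1, ht1, hge⟩ := hcl
    have hlen : (l ++ [a]).length = l.length + 1 := by simp
    rw [hlen] at hs ht1 hge
    have hnum := hG.num i
    have hg6 : 1000000 ≤ g i := hnum.1
    -- the first point in the chart
    have hex : ∃ s, s ≤ l.length + 1 ∧ ((X i).chart u v (pt x0 (l ++ [a]) s)).isSome :=
      ⟨s, hs, hs1⟩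
    obtain ⟨s0, hs0, hs0min⟩ : ∃ s0, (s0 ≤ l.length + 1 ∧
        ((X i).chart u v (pt x0 (l ++ [a]) s0)).isSome) ∧ ∀ m < s0, ¬ (m ≤ l.length + 1 ∧
        ((X i).chart u v (pt x0 (l ++ [a]) m)).isSome) :=
      ⟨Nat.find hex, Nat.find_spec hex, fun m hm => Nat.find_min hex hm⟩
    have hs0s : s0 ≤ s := by
      by_contra h6
      exact hs0min s (by omega) ⟨hs, hs1⟩
    have hge0 : g i ≤ 8 * (l.length + 1 - s0) := by omega
    have hs0n : s0 + 1 ≤ l.length := by omega
    have hdom : ∀ s ≤ l.length, ((X i).chart u v (pt x0 l s)).isSome ↔ s0 ≤ s := by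
      intro s' hs'
      rw [← ex_pt_append x0 l [a] hs']
      constructor
      · intro h6
        by_contra h7
        exact hs0min s' (by omega) ⟨by omega, h6⟩
      · intro h6
        exact ex_conv h1 (X i) u v x0 hared h6 (by omega : s' ≤ l.length + 1) (by rw [hlen]) hs0.2 ht1
    -- the root and the previous point
    obtain ⟨L0, c, hL0⟩ : ∃ L0 c, l = L0 ++ [c] := by
      rcases List.eq_nil_or_concat l with h7 | ⟨L0, c, h7⟩
      · rw [h7] at hs0n
        simp at hs0n
      · exact ⟨L0, c, by rw [h7, List.concat_eq_append]⟩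
    have hL0len : l.length = L0.length + 1 := by rw [hL0]; simp
    obtain ⟨root, hroot⟩ := Option.isSome_iff_exists.1 ((hdom l.length le_rfl).2 (by omega))
    obtain ⟨z0, hz0⟩ := Option.isSome_iff_exists.1 ((hdom L0.length (by omega)).2 (by omega))
    have hc : (X i).step z0 c = some root := by
      have h6 : pt x0 l L0.length = pt x0 L0 L0.length := by
        rw [hL0]
        exact ex_pt_append x0 L0 [c] le_rfl
      have h7 : pt x0 l l.length = pt x0 L0 L0.length * FreeGroup.mk [c] := by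
        rw [hL0len, hL0]
        exact ex_pt_snoc x0 L0 c
      rw [h6] at hz0
      rw [h7] at hroot
      rw [← ex_chart_step h1 (X i) u v _ _ hz0 c, hroot]
    obtain ⟨j, hj1, hj2, hj3, hj4⟩ := h2 S X g hG i u v
    obtain ⟨hgr1, hgr2, hgr3⟩ := hg2 i j hj1 hj4
    have hclean := hP.clean i u v s0 (by omega) ((hdom s0 (by omega)).2 le_rfl)
      ((hdom l.length le_rfl).2 (by omega))
    -- the tail
    let T : Finset (X i).V := Finset.univ.filter fun q => ∃ k, s0 ≤ k ∧ k ≤ l.length ∧
      (X i).chart u v (pt x0 l k) = some q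
    have hT : T.card ≤ g i := by
      have h6 : T ⊆ (Finset.Icc s0 l.length).image
          (fun k => ((X i).chart u v (pt x0 l k)).getD root) := by
        intro q hq
        obtain ⟨k, hk1, hk2, hk3⟩ := (Finset.mem_filter.1 hq).2
        refine Finset.mem_image.2 ⟨k, Finset.mem_Icc.2 ⟨hk1, hk2⟩, ?_⟩
        rw [hk3]
        rfl
      have h7 := (Finset.card_le_card h6).trans Finset.card_image_le
      rw [Nat.card_Icc] at h7
      omega
    obtain ⟨t, y, hy0, hyt, hyadj, hyd, hyz, hyn, hyT⟩ := h3 (X i).V (adjU X U σ i j)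
      (nearX X g i) (g i) (9001 ^ (4 * g i / 100000)) root z0 T (exits X U σ i j) {v | j v ∈ U}
      (by
        show j root ∈ U
        rw [hj2 _ _ hroot]
        exact hn)
      (fun v w hvw => by
        obtain ⟨b, -, -, h6, -⟩ := hvw
        exact h6)
      hgr3
      (fun P hP1 hP2 hP3 => hgr1 P hP1 hP2 hP3)
      (fun h6 => hgr2 root (by rw [hj2 _ _ hroot]; exact hn) h6)
      (fun t' ht' => by
        refine le_trans ?_ (hnum.2 t' ht')
        push_cast
        have h6 : (T.card : ℝ) ≤ (g i : ℝ) := by exact_mod_cast hT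
        gcongr)
    have hU : ∀ m ≤ t, j (y m) ∈ U := by
      intro m hm
      rcases m with - | m
      · rw [hy0, hj2 _ _ hroot]
        exact hn
      · obtain ⟨b, -, -, h6, -⟩ := hyadj m (by omega)
        exact h6
    obtain ⟨a', ha'1, ha'2⟩ := hyt
    obtain ⟨w, hw1, hw2, ⟨L, c', q, hL, hq, -⟩, hw3⟩ := ex_step_path h1 (X i) u v x0 l t y L0 c z0
      hP.red hL0 (by rw [hy0]; exact hc) (by rw [hy0]; exact hroot)
      (fun k hk => by
        obtain ⟨b, h6, -⟩ := hyadj k hk
        exact ⟨b, h6⟩)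
      hyz hyd t le_rfl
    have hpt : ∀ m ≤ t, (X i).chart u v (pt x0 (l ++ w ++ [a']) (l.length + m)) = some (y m) := by
      intro m hm
      rw [ex_pt_append]
      · exact hw3 m hm
      · rw [List.length_append, hw1]
        omega
    have hlw : (l ++ w).length = l.length + t := by rw [List.length_append, hw1]
    have hlast : pt x0 (l ++ w ++ [a']) (l.length + t + 1) =
        pt x0 (l ++ w) (l.length + t) * FreeGroup.mk [a'] := by
      rw [← hlw]
      exact ex_pt_snoc x0 (l ++ w) a'
    refine ⟨l ++ w ++ [a'], by simp only [List.length_append, List.length_singleton]; omega, ?_⟩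
    refine h5 S X g hG U x0 l hP i u v s0 w a' (by omega) hge0 hdom ?_ ?_ ?_ ?_ ?_ ?_
    · rw [hL] at hw2 ⊢
      refine ex_red_snoc hq hw2 ?_
      rw [ha'1]
      simp
    · intro k hk
      rw [List.length_append, List.length_singleton, hlw] at hk
      rcases Nat.lt_or_ge l.length k with h6 | h6
      · rcases Nat.lt_or_ge (l.length + t) k with h7 | h7
        · obtain rfl : k = l.length + t + 1 := by omega
          rw [hlast]
          have h8 : cl X (pt x0 (l ++ w) (l.length + t)) = j (y t) := (hj2 _ _ (hw3 t le_rfl)).symm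
          show cl X (pt x0 (l ++ w) (l.length + t)) * cl X (FreeGroup.mk [a']) ∈ U
          rw [h8]
          exact ha'2.2.1
        · obtain ⟨m, rfl⟩ := Nat.exists_eq_add_of_le h6.le
          rw [← hj2 _ _ (hpt m (by omega))]
          exact hU m (by omega)
      · rw [List.append_assoc, ex_pt_append _ _ _ h6]
        exact hP.inU k h6
    · intro k hk
      rw [hpt k (by omega)]
      rfl
    · rw [hw1, hlast, ex_chart_step h1 (X i) u v _ _ (hw3 t le_rfl), ha'1]
    · intro s1 t1 p1 p2 hst ht' hg' hp1 hp2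
      rw [hpt s1 (by omega)] at hp1
      rw [hpt t1 (by omega)] at hp2
      obtain rfl := Option.some.inj hp1
      obtain rfl := Option.some.inj hp2
      exact hyn s1 t1 hst (by omega) hg'
    · intro s1 t1 p1 p2 hs1' hs1'' ht' hg' hp1 hp2
      rw [hpt t1 (by omega)] at hp2
      obtain rfl := Option.some.inj hp2
      refine hyT p1 ?_ t1 (by omega) hg'
      rw [List.append_assoc, ex_pt_append _ _ _ hs1''] at hp1
      exact Finset.mem_filter.2 ⟨Finset.mem_univ _, s1, hs1', hs1'', hp1⟩

end Pool.Agent.Lib.MP_6b7756_an.GM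
end

section

set_option autoImplicit false

namespace Pool.Agent.Lib.MP_6b7756_an.GM

/-- Contiguous sublists of reduced words are reduced. -/
theorem red_sub {S : Type} {l l' : List (S × Bool)} (h : FreeGroup.IsReduced l)
    (h' : l' <:+: l) : FreeGroup.IsReduced l' := by
  obtain ⟨s, t, rfl⟩ := h'
  have h1 : List.IsChain (fun a b : S × Bool => a.1 = b.1 → a.2 = b.2) (s ++ l' ++ t) := h
  exact (List.isChain_append.mp (List.isChain_append.mp h1).1).2.1

end Pool.Agent.Lib.MP_6b7756_an.GM
end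

section

/-!
# MP_6b7756_an: validity of the extended paths (task C7)
-/

set_option autoImplicit false

namespace Pool.Agent.Lib.MP_6b7756_an.GM

/-- Running along an appended word. -/
theorem eo_run_append {S : Type} (X : LGr S) (l1 l2 : List (S × Bool)) (v : X.V) :
    X.run v (l1 ++ l2) = (X.run v l1).bind fun w => X.run w l2 := by
  induction l1 generalizing v with
  | nil => simp [LGr.run]
  | cons a l1 ih =>
    simp only [List.cons_append, LGr.run]
    cases h : X.step v a with
    | none => simp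
    | some w => simp [ih]

/-- Prefixes of readable words are readable. -/
theorem eo_run_prefix {S : Type} (X : LGr S) (l1 l2 : List (S × Bool)) (v : X.V)
    (h : (X.run v (l1 ++ l2)).isSome) : (X.run v l1).isSome := by
  rw [eo_run_append] at h
  cases h1 : X.run v l1 with
  | none => simp [h1] at h
  | some w => simp

section
variable {S : Type} [DecidableEq S]

/-- Differences of points along a reduced path. -/
theorem eo_dist (x0 : FreeGroup S) (L : List (S × Bool)) (hL : FreeGroup.IsReduced L) (p q : ℕ)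
    (hpq : p ≤ q) : ((pt x0 L p)⁻¹ * pt x0 L q).toWord = (L.drop p).take (q - p) := by
  have h1 : L.take q = L.take p ++ (L.drop p).take (q - p) := by
    have : q = p + (q - p) := by omega
    conv_lhs => rw [this]
    rw [List.take_add]
  have h2 : (pt x0 L p)⁻¹ * pt x0 L q = FreeGroup.mk ((L.drop p).take (q - p)) := by
    unfold pt
    rw [h1, ← FreeGroup.mul_mk]
    group
  rw [h2, FreeGroup.toWord_mk]
  refine FreeGroup.IsReduced.reduce_eq (red_sub hL ?_)
  exact (List.take_prefix _ _).isInfix.trans (List.drop_suffix _ _).isInfix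

/-- The value of a chart along a path. -/
theorem eo_along (h1 : Stmt_Chart) (X : LGr S) (u : FreeGroup S) (v : X.V) (x0 : FreeGroup S)
    (L : List (S × Bool)) (hL : FreeGroup.IsReduced L) (p q : ℕ) (hpq : p ≤ q) (y : X.V)
    (hy : X.chart u v (pt x0 L p) = some y) :
    X.chart u v (pt x0 L q) = X.run y ((L.drop p).take (q - p)) := by
  rw [(h1 S X u v).1 _ _ hy]
  unfold LGr.chart
  rw [eo_dist x0 L hL p q hpq]

/-- Domains are convex along a path. -/
theorem eo_conv (h1 : Stmt_Chart) (X : LGr S) (u : FreeGroup S) (v : X.V) (x0 : FreeGroup S)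
    (L : List (S × Bool)) (hL : FreeGroup.IsReduced L) (p m q : ℕ) (hpm : p ≤ m) (hmq : m ≤ q)
    (hp : (X.chart u v (pt x0 L p)).isSome) (hq : (X.chart u v (pt x0 L q)).isSome) :
    (X.chart u v (pt x0 L m)).isSome := by
  obtain ⟨y, hy⟩ := Option.isSome_iff_exists.mp hp
  rw [eo_along h1 X u v x0 L hL p q (hpm.trans hmq) y hy] at hq
  rw [eo_along h1 X u v x0 L hL p m hpm y hy]
  have h2 : (L.drop p).take (q - p) =
      (L.drop p).take (m - p) ++ ((L.drop p).drop (m - p)).take (q - m) := by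
    have : q - p = (m - p) + (q - m) := by omega
    rw [this, List.take_add]
  rw [h2] at hq
  exact eo_run_prefix X _ _ _ hq

/-- Overlaps of charts along a path. -/
theorem eo_overlap (h1 : Stmt_Chart) [Fintype S] (X : ℕ → LGr S) (g : ℕ → ℕ) (hG : Good X g)
    (x0 : FreeGroup S) (L : List (S × Bool)) (hL : FreeGroup.IsReduced L)
    (i i1 : ℕ) (u u1 : FreeGroup S) (v : (X i).V) (v1 : (X i1).V) (p q : ℕ) (hpq : p ≤ q)
    (hqL : q ≤ L.length)
    (hp : ((X i).chart u v (pt x0 L p)).isSome) (hq : ((X i).chart u v (pt x0 L q)).isSome)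
    (hp1 : ((X i1).chart u1 v1 (pt x0 L p)).isSome)
    (hq1 : ((X i1).chart u1 v1 (pt x0 L q)).isSome) :
    (100000 * (q - p) ≤ g i ∧ 100000 * (q - p) ≤ g i1) ∨
      (i1 = i ∧ (∀ x, ((X i).chart u v x).isSome ↔ ((X i1).chart u1 v1 x).isSome) ∧
        ∀ f, Stab ((X i1).chart u1 v1) f → Stab ((X i).chart u v) f) := by
  obtain ⟨y, hy⟩ := Option.isSome_iff_exists.mp hp
  obtain ⟨y1, hy1⟩ := Option.isSome_iff_exists.mp hp1
  have hlen : ((L.drop p).take (q - p)).length = q - p := by
    rw [List.length_take, List.length_drop]; omega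
  have hred : FreeGroup.IsReduced ((L.drop p).take (q - p)) :=
    red_sub hL ((List.take_prefix _ _).isInfix.trans (List.drop_suffix _ _).isInfix)
  rw [eo_along h1 _ u v x0 L hL p q hpq y hy] at hq
  rw [eo_along h1 _ u1 v1 x0 L hL p q hpq y1 hy1] at hq1
  by_cases hne : (⟨i, y⟩ : Σ i, (X i).V) = ⟨i1, y1⟩
  · right
    obtain ⟨rfl, h2⟩ := Sigma.mk.inj_iff.mp hne
    have h3 : y = y1 := eq_of_heq h2
    subst h3
    have h4 : (X i).chart u v = (X i).chart u1 v1 := by
      rw [(h1 S (X i) u v).1 _ _ hy, (h1 S (X i) u1 v1).1 _ _ hy1]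
    refine ⟨rfl, fun x => by rw [h4], fun f hf => by rw [h4]; exact hf⟩
  · left
    have h2 := hG.small i i1 y y1 _ hred hq hq1 hne
    have h3 := hG.small i1 i y1 y _ hred hq1 hq (fun h => hne h.symm)
    rw [hlen] at h2 h3
    exact ⟨h2, h3⟩

omit [DecidableEq S] in
/-- Points of an initial segment. -/
theorem eo_pt_append (x0 : FreeGroup S) (l l2 : List (S × Bool)) (k : ℕ) (hk : k ≤ l.length) :
    pt x0 (l ++ l2) k = pt x0 l k := by
  unfold pt
  rw [List.take_append_of_le_length hk]

/-- If `f` stabilises the chart and `f x` is close to `y`, then the values at `x` and `y` are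
close. -/
theorem eo_near (h1 : Stmt_Chart) (X : ℕ → LGr S) (g : ℕ → ℕ) (i : ℕ) (u : FreeGroup S)
    (v : (X i).V) (f x y : FreeGroup S) (a b : (X i).V) (hf : Stab ((X i).chart u v) f)
    (hx : (X i).chart u v x = some a) (hy : (X i).chart u v y = some b)
    (hn : 100000 * (y⁻¹ * (f * x)).norm ≤ 4 * g i) : nearX X g i a b := by
  have h2 : (X i).chart u v (f * x) = some a := by
    have := hf (f * x)
    rw [← this, inv_mul_cancel_left]
    exact hx
  have h3 := (h1 S (X i) u v).1 _ _ h2
  refine ⟨((f * x)⁻¹ * y).toWord, FreeGroup.isReduced_toWord, ?_, ?_⟩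
  · have h4 : ((f * x)⁻¹ * y) = (y⁻¹ * (f * x))⁻¹ := by group
    change 100000 * ((f * x)⁻¹ * y).norm ≤ 4 * g i
    rw [h4, FreeGroup.norm_inv_eq]
    exact hn
  · rw [h3] at hy
    exact hy

end

/-- Validity of the extended paths. -/
theorem extOK (h1 : Stmt_Chart) : Stmt_ExtOK := by
  intro S _ _ X g hG U x0 l hl i u v s0 w a hs0 hgi hdom hred hU hw hnone hn1 hn2
  set L := l ++ w ++ [a] with hLdef
  have hlen : L.length = l.length + w.length + 1 := by
    simp [hLdef]; omega
  have hnum : ∀ j, 1000000 ≤ g j := fun j => (hG.num j).1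
  have hpt : ∀ k ≤ l.length, pt x0 L k = pt x0 l k := by
    intro k hk
    rw [hLdef, List.append_assoc]
    exact eo_pt_append x0 l _ k hk
  -- the chart is defined on the segment
  have hseg : ∀ k, s0 ≤ k → k ≤ l.length + w.length →
      ((X i).chart u v (pt x0 L k)).isSome := by
    intro k hk1 hk2
    rcases le_or_gt k l.length with h | h
    · rw [hpt k h]; exact (hdom k h).mpr hk1
    · obtain ⟨k', rfl⟩ := Nat.exists_eq_add_of_le h.le
      exact hw k' (by omega)
  have hclean : ∀ (i1 : ℕ) (u1 : FreeGroup S) (v1 : (X i1).V) (s1 : ℕ), s1 ≤ L.length →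
      ((X i1).chart u1 v1 (pt x0 L s1)).isSome →
      ((X i1).chart u1 v1 (pt x0 L L.length)).isSome → 8 * (L.length - s1) < g i1 := by
    intro i1 u1 v1 s1 hs1 hd1 hd2
    have hg1 := hnum i1
    have hg := hnum i
    rcases Nat.lt_or_ge s1 L.length with hlt | hge
    swap
    · omega
    have hd3 : ∀ m, s1 ≤ m → m ≤ L.length → ((X i1).chart u1 v1 (pt x0 L m)).isSome :=
      fun m hm1 hm2 => eo_conv h1 (X i1) u1 v1 x0 L hred s1 m L.length hm1 hm2 hd1 hd2
    have hov := eo_overlap h1 X g hG x0 L hred i i1 u u1 v v1 (max s0 s1)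
      (l.length + w.length) (by omega) (by omega) (hseg _ (by omega) (by omega))
      (hseg _ (by omega) (by omega)) (hd3 _ (by omega) (by omega)) (hd3 _ (by omega) (by omega))
    rcases hov with ⟨ho1, ho2⟩ | ⟨-, ho, -⟩
    · rcases le_or_gt s1 s0 with hc | hc
      · rw [max_eq_left hc] at ho1
        omega
      · rw [max_eq_right hc.le] at ho2
        omega
    · have := (ho (pt x0 L L.length)).mpr hd2
      rw [hlen, hnone] at this
      simp at this
  refine ⟨hred, hU, ?_, hclean⟩
  intro i1 u1 v1 s1 t1 hst ht1 hd1 hd2 hg1t f hf hfs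
  have hg1 := hnum i1
  have hg := hnum i
  rcases le_or_gt t1 l.length with hc | hc
  · -- old part
    rw [hpt t1 hc, hpt s1 (by omega)] at *
    exact hl.valid i1 u1 v1 s1 t1 hst hc hd1 hd2 hg1t f hf hfs
  rcases Nat.lt_or_ge t1 L.length with hc2 | hc2
  swap
  · -- the new end
    have ht : t1 = L.length := le_antisymm ht1 hc2
    subst ht
    have := hclean i1 u1 v1 s1 (by omega) hd1 hd2
    omega
  -- inside the chart
  have hd3 : ∀ m, s1 ≤ m → m ≤ t1 → ((X i1).chart u1 v1 (pt x0 L m)).isSome :=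
    fun m hm1 hm2 => eo_conv h1 (X i1) u1 v1 x0 L hred s1 m t1 hm1 hm2 hd1 hd2
  have hov := eo_overlap h1 X g hG x0 L hred i i1 u u1 v v1 (max s0 s1) t1 (by omega) (by omega)
    (hseg _ (by omega) (by omega)) (hseg _ (by omega) (by omega)) (hd3 _ (by omega) (by omega))
    (hd3 _ (by omega) (by omega))
  rcases hov with ⟨ho1, ho2⟩ | ⟨hii, ho, hstab⟩
  · exfalso
    rcases le_or_gt s1 s0 with hc3 | hc3
    · rw [max_eq_left hc3] at ho1
      omega
    · rw [max_eq_right hc3.le] at ho2
      omega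
  subst hii
  have hfs' := hstab f hfs
  have hdA := (ho _).mpr hd1
  have hdB := (ho _).mpr hd2
  have hss : s0 ≤ s1 := by
    rcases le_or_gt s1 l.length with h | h
    · have := hdA
      rw [hpt s1 h] at this
      exact (hdom s1 h).mp this
    · omega
  obtain ⟨y, hy⟩ := Option.isSome_iff_exists.mp hdA
  obtain ⟨z, hz⟩ := Option.isSome_iff_exists.mp hdB
  by_contra hcon
  have hnear : nearX X g i1 y z :=
    eo_near h1 X g i1 u v f _ _ y z hfs' hy hz (by omega)
  obtain ⟨t', rfl⟩ := Nat.exists_eq_add_of_le hc.le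
  rcases le_or_gt l.length s1 with hc3 | hc3
  · obtain ⟨s', rfl⟩ := Nat.exists_eq_add_of_le hc3
    exact hn1 s' t' y z (by omega) (by omega) (by omega) hy hz hnear
  · have hcl := hl.clean i1 u v s1 hc3.le (by rw [← hpt s1 hc3.le]; exact hdA)
      ((hdom l.length le_rfl).mpr hs0)
    exact hn2 s1 t' y z hss hc3.le (by omega) (by omega) hy hz hnear

end Pool.Agent.Lib.MP_6b7756_an.GM
end

section

/-!
# MP_6b7756_an, full disproof. The extension of `QQ X` by the compact group `KK`
-/

set_option autoImplicit false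

open scoped ComplexConjugate Classical

namespace Pool.Agent.Lib.MP_6b7756_an.GM

section
variable {S : Type} [DecidableEq S] (X : ℕ → LGr S)

/-- The projection of the extension. -/
def eq_pi : (FreeGroup S × KK) ⧸ Nc X →* QQ X :=
  QuotientGroup.map (Nc X) (NN X) (MonoidHom.fst (FreeGroup S) KK)
    (fun _ hp => Subgroup.mem_map_of_mem _ hp)

theorem eq_pi_mk (p : FreeGroup S × KK) :
    eq_pi X (QuotientGroup.mk p) = cl X p.1 := rfl

theorem eq_mk_mul_left (n p : FreeGroup S × KK) (hn : n ∈ Nc X) :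
    (QuotientGroup.mk (n * p) : (FreeGroup S × KK) ⧸ Nc X) = QuotientGroup.mk p := by
  rw [QuotientGroup.mk_mul, (QuotientGroup.eq_one_iff n).mpr hn, one_mul]

theorem eq_cl_eq (x y : FreeGroup S) (h : cl X x = cl X y) :
    ∃ n ∈ Nc X, n.1 * x = y := by
  have e1 : x⁻¹ * y ∈ NN X := QuotientGroup.eq.mp h
  have e2 := (inferInstance : (NN X).Normal).conj_mem _ e1 x
  obtain ⟨p, hp, hp1⟩ := Subgroup.mem_map.mp e2
  have hp1' : p.1 = x * (x⁻¹ * y) * x⁻¹ := hp1
  exact ⟨p, hp, by rw [hp1']; group⟩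

theorem eq_rep (e : (FreeGroup S × KK) ⧸ Nc X) (x : FreeGroup S) (h : eq_pi X e = cl X x) :
    ∃ κ : KK, e = QuotientGroup.mk (x, κ) := by
  obtain ⟨⟨y, μ⟩, rfl⟩ := QuotientGroup.mk_surjective e
  obtain ⟨n, hn, hnx⟩ := eq_cl_eq X y x h
  refine ⟨n.2 * μ, ?_⟩
  rw [← eq_mk_mul_left X n (y, μ) hn]
  congr 1
  exact Prod.ext hnx rfl

theorem eq_ker_iff (e : (FreeGroup S × KK) ⧸ Nc X) :
    e ∈ (eq_pi X).ker ↔ ∃ κ : KK, e = QuotientGroup.mk ((1 : FreeGroup S), κ) := by
  rw [MonoidHom.mem_ker]
  constructor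
  · intro h
    exact eq_rep X e 1 h
  · rintro ⟨κ, rfl⟩
    rfl

/-- Well definedness of `eq_u`. -/
theorem eq_wd (i j : ℕ) (hij : i ≠ j) (v0 : (X i).V)
    (hN : ∀ p ∈ Nc X, ∀ (i : ℕ) (u : FreeGroup S) (v : (X i).V) (x : FreeGroup S),
      ((X i).chart u v x).isSome → ((X i).chart u v (p.1 * x)).isSome →
        Stab ((X i).chart u v) p.1 ∧ p.2 = Pi.mulSingle i (sgn p.1))
    (x x' : FreeGroup S) (κ κ' : KK) (hx : ((X i).chart 1 v0 x).isSome)
    (hx' : ((X i).chart 1 v0 x').isSome)
    (h : (QuotientGroup.mk (x, κ) : (FreeGroup S × KK) ⧸ Nc X) = QuotientGroup.mk (x', κ')) :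
    κ i * κ j * sgn x = κ' i * κ' j * sgn x' := by
  have e1 : (x, κ)⁻¹ * (x', κ') ∈ Nc X := QuotientGroup.eq.mp h
  have e2 := (inferInstance : (Nc X).Normal).conj_mem _ e1 (x, κ)
  have e3 : (x, κ) * ((x, κ)⁻¹ * (x', κ')) * (x, κ)⁻¹ = (x', κ') * (x, κ)⁻¹ := by group
  rw [e3] at e2
  have e4 : ((x', κ') * (x, κ)⁻¹).1 * x = x' := by
    simp
  obtain ⟨_, h2⟩ := hN _ e2 i 1 v0 x hx (by rw [e4]; exact hx')
  have e5 : κ' * κ⁻¹ = Pi.mulSingle i (sgn (x' * x⁻¹)) := h2
  have e6 : κ' i * (κ i)⁻¹ = sgn (x' * x⁻¹) := by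
    have := congrFun e5 i
    simpa using this
  have e7 : κ' j * (κ j)⁻¹ = 1 := by
    have := congrFun e5 j
    rw [Pi.mulSingle_eq_of_ne hij.symm] at this
    simpa using this
  have e8 : κ' i = sgn (x' * x⁻¹) * κ i := by rw [← e6]; group
  have e9 : κ' j = κ j := by
    have : κ' j = κ' j * (κ j)⁻¹ * κ j := by group
    rw [this, e7, one_mul]
  rw [e8, e9, map_mul, map_inv]
  have e10 : sgn x' * (sgn x)⁻¹ * κ i * κ j * sgn x' = κ i * κ j * (sgn x)⁻¹ * (sgn x' * sgn x') := by
    ac_rfl
  rw [e10, Int.units_mul_self, mul_one, Int.units_inv_eq_self]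

/-- The function `u`. -/
noncomputable def eq_u (i j : ℕ) (v0 : (X i).V) (e : (FreeGroup S × KK) ⧸ Nc X) : ℝ :=
  if h : ∃ p : FreeGroup S × KK, e = QuotientGroup.mk p ∧ ((X i).chart 1 v0 p.1).isSome then
    (((h.choose.2 i * h.choose.2 j * sgn h.choose.1 : ℤˣ) : ℤ) : ℝ) else 0

theorem eq_u_mk (i j : ℕ) (hij : i ≠ j) (v0 : (X i).V)
    (hN : ∀ p ∈ Nc X, ∀ (i : ℕ) (u : FreeGroup S) (v : (X i).V) (x : FreeGroup S),
      ((X i).chart u v x).isSome → ((X i).chart u v (p.1 * x)).isSome →
        Stab ((X i).chart u v) p.1 ∧ p.2 = Pi.mulSingle i (sgn p.1))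
    (x : FreeGroup S) (κ : KK) (hx : ((X i).chart 1 v0 x).isSome) :
    eq_u X i j v0 (QuotientGroup.mk (x, κ)) = (((κ i * κ j * sgn x : ℤˣ) : ℤ) : ℝ) := by
  have h : ∃ p : FreeGroup S × KK, (QuotientGroup.mk (x, κ) : (FreeGroup S × KK) ⧸ Nc X) =
      QuotientGroup.mk p ∧ ((X i).chart 1 v0 p.1).isSome := ⟨(x, κ), rfl, hx⟩
  unfold eq_u
  rw [dif_pos h]
  rw [eq_wd X i j hij v0 hN x h.choose.1 κ h.choose.2 hx h.choose_spec.2 h.choose_spec.1]

theorem eq_u_zero (i j : ℕ) (v0 : (X i).V) (e : (FreeGroup S × KK) ⧸ Nc X)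
    (h : ∀ x, ((X i).chart 1 v0 x).isSome → eq_pi X e ≠ cl X x) : eq_u X i j v0 e = 0 := by
  unfold eq_u
  rw [dif_neg]
  rintro ⟨p, hp, hp2⟩
  apply h p.1 hp2
  rw [hp]; rfl

/-- The character. -/
noncomputable def eq_chi (i j : ℕ) (e : (FreeGroup S × KK) ⧸ Nc X) : ℝ :=
  if h : ∃ κ : KK, e = QuotientGroup.mk ((1 : FreeGroup S), κ) then
    (((h.choose i * h.choose j : ℤˣ) : ℤ) : ℝ) else 1

theorem eq_chi_mk (i j : ℕ) (h3 : ∀ p ∈ Nc X, p.1.norm ≤ 1 → p = 1) (κ : KK) :
    eq_chi X i j (QuotientGroup.mk ((1 : FreeGroup S), κ)) = (((κ i * κ j : ℤˣ) : ℤ) : ℝ) := by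
  have h : ∃ κ' : KK, (QuotientGroup.mk ((1 : FreeGroup S), κ) : (FreeGroup S × KK) ⧸ Nc X) =
      QuotientGroup.mk ((1 : FreeGroup S), κ') := ⟨κ, rfl⟩
  unfold eq_chi
  rw [dif_pos h]
  have e1 := QuotientGroup.eq.mp h.choose_spec
  have e2 : ((1 : FreeGroup S), κ)⁻¹ * ((1 : FreeGroup S), h.choose) = 1 :=
    h3 _ e1 (by simp)
  have e3 : κ⁻¹ * h.choose = 1 := congrArg Prod.snd e2
  have e4 : h.choose = κ := by
    have := congrArg (fun t => κ * t) e3
    simpa using this
  rw [e4]

theorem eq_units_cast (a : ℤˣ) : (((a : ℤˣ) : ℤ) : ℝ) = 1 ∨ (((a : ℤˣ) : ℤ) : ℝ) = -1 := by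
  rcases Int.units_eq_one_or a with h | h <;> simp [h]

omit [DecidableEq S] in
theorem eq_sgn_of (s : S) : sgn (FreeGroup.of s) = -1 := by
  simp [sgn]

theorem eq_cont (μ : KK) (i j : ℕ) (a : ℤˣ) :
    Continuous fun κ : KK => (((((μ * κ) i) * ((μ * κ) j) * a : ℤˣ) : ℤ) : ℝ) := by
  have h1 : Continuous fun z : ℤˣ => (((z : ℤˣ) : ℤ) : ℝ) := continuous_of_discreteTopology
  have h2 : Continuous fun κ : KK => ((μ * κ) i) * ((μ * κ) j) * a := by
    have h3 : ∀ k : ℕ, Continuous fun κ : KK => (μ * κ) k := by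
      intro k
      have : (fun κ : KK => (μ * κ) k) = (fun z : ℤˣ => μ k * z) ∘ fun κ : KK => κ k := rfl
      rw [this]
      exact (continuous_of_discreteTopology).comp (continuous_apply k)
    exact ((h3 i).mul (h3 j)).mul continuous_const
  exact h1.comp h2

end

theorem extQ (h1 : Stmt_Chart) (h2 : Stmt_NcBig) (h3 : Stmt_Emb) (h4 : Stmt_ExtTop) :
    Stmt_ExtQ := by
  intro S _ _ X g hG
  obtain ⟨_, hN, hN1⟩ := h2 S X g hG
  obtain ⟨top, htg, ht2, hcont, hop, hcpt, hcen⟩ := h4 (FreeGroup S) (Nc X)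
    (fun p hp hp1 => hN1 p hp (by rw [hp1]; simp))
  have hker : ((eq_pi X).ker : Set ((FreeGroup S × KK) ⧸ Nc X)) =
      Set.range fun κ : KK => (QuotientGroup.mk ((1 : FreeGroup S), κ) :
        (FreeGroup S × KK) ⧸ Nc X) := by
    ext e
    rw [SetLike.mem_coe, eq_ker_iff]
    constructor
    · rintro ⟨κ, h⟩; exact ⟨κ, h.symm⟩
    · rintro ⟨κ, h⟩; exact ⟨κ, h.symm⟩
  refine ⟨(FreeGroup S × KK) ⧸ Nc X, inferInstance, top, eq_pi X,
    fun s => QuotientGroup.mk (FreeGroup.of s, 1), ?_⟩
  refine ⟨htg, ht2, ?_, fun s => rfl, by rw [hker]; exact hop, by rw [hker]; exact hcpt, ?_, ?_⟩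
  · intro q
    obtain ⟨x, rfl⟩ := QuotientGroup.mk_surjective q
    exact ⟨QuotientGroup.mk (x, 1), rfl⟩
  · intro e he
    obtain ⟨κ, rfl⟩ := (eq_ker_iff X e).mp he
    exact hcen κ
  · intro E0 hE0
    have hch : ∀ e : E0, ∃ κ : KK, (e : (FreeGroup S × KK) ⧸ Nc X) =
        QuotientGroup.mk ((1 : FreeGroup S), κ) := fun e =>
      (eq_ker_iff X e.1).mp (hE0 e.2)
    choose κE hκE using hch
    obtain ⟨i, j, hij, hEij⟩ : ∃ i j : ℕ, i ≠ j ∧
        (fun e : E0 => κE e i) = (fun e : E0 => κE e j) :=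
      Finite.exists_ne_map_eq_of_infinite (fun i : ℕ => fun e : E0 => κE e i)
    obtain ⟨v0⟩ := hG.ne i
    obtain ⟨J, hJinj, hJch, hJsurj, hJstep⟩ := h3 S X g hG i 1 v0
    -- facts on `J`
    have hdom : ∀ v x, (X i).chart 1 v0 x = some v → J v = cl X x := fun v x h => hJch x v h
    have hgen : ∀ v w s, (X i).step v (s, true) = some w → J w = J v * cl X (FreeGroup.of s) :=
      fun v w s h => hJstep v w (s, true) h
    have hPmem : ∀ q : QQ X, q ∈ Finset.univ.image J ↔ ∃ v, J v = q := by
      intro q; simp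
    have hω : ∀ (q : QQ X) (s : S), (q, s) ∈ (Finset.univ.filter (fun p : (X i).V × S =>
        ((X i).step p.1 (p.2, true)).isSome)).image (fun p => (J p.1, p.2)) ↔
        ∃ v w, J v = q ∧ (X i).step v (s, true) = some w := by
      intro q s
      simp only [Finset.mem_image, Finset.mem_filter, Finset.mem_univ, true_and, Prod.exists,
        Prod.mk.injEq]
      constructor
      · rintro ⟨v, s', h, rfl, rfl⟩
        obtain ⟨w, hw⟩ := Option.isSome_iff_exists.mp h
        exact ⟨v, w, rfl, hw⟩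
      · rintro ⟨v, w, rfl, hw⟩
        exact ⟨v, s, by rw [hw]; rfl, rfl, rfl⟩
    have hdg : ∀ v, dg (fun s : S => cl X (FreeGroup.of s))
        ((Finset.univ.filter (fun p : (X i).V × S =>
          ((X i).step p.1 (p.2, true)).isSome)).image (fun p => (J p.1, p.2))) (J v) =
        (X i).deg v := by
      intro v
      unfold dg LGr.deg
      have e1 : {s | (J v, s) ∈ (Finset.univ.filter (fun p : (X i).V × S =>
          ((X i).step p.1 (p.2, true)).isSome)).image (fun p => (J p.1, p.2))} =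
          {s | ((X i).step v (s, true)).isSome} := by
        ext s
        simp only [Set.mem_ofPred_eq]
        rw [hω]
        constructor
        · rintro ⟨v', w, h, hw⟩
          rw [← hJinj h, hw]; rfl
        · intro h
          obtain ⟨w, hw⟩ := Option.isSome_iff_exists.mp h
          exact ⟨v, w, rfl, hw⟩
      have e2 : {s | (J v * (cl X (FreeGroup.of s))⁻¹, s) ∈
          (Finset.univ.filter (fun p : (X i).V × S =>
          ((X i).step p.1 (p.2, true)).isSome)).image (fun p => (J p.1, p.2))} =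
          {s | ((X i).step v (s, false)).isSome} := by
        ext s
        simp only [Set.mem_ofPred_eq]
        rw [hω]
        constructor
        · rintro ⟨v', w, h, hw⟩
          have h5 := hgen v' w s hw
          rw [h, inv_mul_cancel_right] at h5
          rw [hJinj h5] at hw
          have h6 : (X i).step v (s, false) = some v' := (X i).inv v' v s true hw
          rw [h6]; rfl
        · intro h
          obtain ⟨w, hw⟩ := Option.isSome_iff_exists.mp h
          have h5 := (X i).inv v w s false hw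
          refine ⟨w, v, ?_, h5⟩
          rw [hgen w v s h5, mul_inv_cancel_right]
      rw [e1, e2]
      have e3 : {a : S × Bool | ((X i).step v a).isSome} =
          (fun s => (s, true)) '' {s | ((X i).step v (s, true)).isSome} ∪
          (fun s => (s, false)) '' {s | ((X i).step v (s, false)).isSome} := by
        ext ⟨s, b⟩
        cases b <;> simp
      rw [e3, Set.ncard_union_eq, Set.ncard_image_of_injective, Set.ncard_image_of_injective]
      · intro a b h; exact congrArg Prod.fst h
      · intro a b h; exact congrArg Prod.fst h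
      · rw [Set.disjoint_left]
        rintro ⟨s, b⟩ ⟨s1, _, h5⟩ ⟨s2, _, h6⟩
        have h7 := congrArg Prod.snd h5
        have h8 := congrArg Prod.snd h6
        simp only at h7 h8
        rw [← h7] at h8
        exact absurd h8 (by decide)
    refine ⟨eq_u X i j v0, eq_chi X i j, Finset.univ.image J,
      (Finset.univ.filter (fun p : (X i).V × S =>
        ((X i).step p.1 (p.2, true)).isSome)).image (fun p => (J p.1, p.2)),
      ?_, ?_, ?_, ?_, ?_, ?_, ?_, ?_, ?_, ?_, ?_⟩
    · -- continuity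
      refine hcont _ ?_
      intro f
      by_cases hf : ∃ x, ((X i).chart 1 v0 x).isSome ∧ cl X x = cl X f
      · obtain ⟨x, hx, hxf⟩ := hf
        obtain ⟨n, hn, hnx⟩ := eq_cl_eq X x f hxf
        have e1 : (fun κ : KK => eq_u X i j v0 (QuotientGroup.mk (f, κ))) =
            fun κ : KK => (((((n.2⁻¹ * κ) i) * ((n.2⁻¹ * κ) j) * sgn x : ℤˣ) : ℤ) : ℝ) := by
          funext κ
          rw [← eq_u_mk X i j hij v0 hN x (n.2⁻¹ * κ) hx]
          congr 1
          rw [← eq_mk_mul_left X n (x, n.2⁻¹ * κ) hn]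
          congr 1
          refine Prod.ext hnx.symm ?_
          simp
        rw [e1]
        exact eq_cont _ _ _ _
      · have e1 : (fun κ : KK => eq_u X i j v0 (QuotientGroup.mk (f, κ))) = fun _ => 0 := by
          funext κ
          refine eq_u_zero X i j v0 _ ?_
          intro x hx h
          exact hf ⟨x, hx, h.symm⟩
        rw [e1]
        exact continuous_const
    · -- covariance
      intro e k hk
      obtain ⟨μ, rfl⟩ := (eq_ker_iff X k).mp hk
      rw [eq_chi_mk X i j hN1 μ]
      by_cases hf : ∃ x, ((X i).chart 1 v0 x).isSome ∧ eq_pi X e = cl X x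
      · obtain ⟨x, hx, hxe⟩ := hf
        obtain ⟨κ, rfl⟩ := eq_rep X e x hxe
        rw [← QuotientGroup.mk_mul]
        have e1 : (x, κ) * ((1 : FreeGroup S), μ) = (x, κ * μ) := by simp
        rw [e1, eq_u_mk X i j hij v0 hN x _ hx, eq_u_mk X i j hij v0 hN x _ hx]
        push_cast
        simp only [Pi.mul_apply, Units.val_mul]
        push_cast
        ring
      · push Not at hf
        rw [eq_u_zero X i j v0 e (fun x hx => hf x hx), mul_zero]
        refine eq_u_zero X i j v0 _ ?_
        intro x hx h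
        apply hf x hx
        rw [← h, map_mul]
        rw [MonoidHom.mem_ker.mp hk, mul_one]
    · intro k hk
      obtain ⟨μ, rfl⟩ := (eq_ker_iff X k).mp hk
      rw [eq_chi_mk X i j hN1 μ]
      exact eq_units_cast _
    · intro k hk
      have e1 : k = QuotientGroup.mk ((1 : FreeGroup S), κE ⟨k, hk⟩) := hκE ⟨k, hk⟩
      rw [e1, eq_chi_mk X i j hN1]
      have e2 : κE ⟨k, hk⟩ i = κE ⟨k, hk⟩ j := congrFun hEij ⟨k, hk⟩
      rw [e2, Int.units_mul_self]
      simp
    · intro e he
      obtain ⟨v, hv⟩ := (hPmem _).mp he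
      obtain ⟨x, hx⟩ := hJsurj v
      have e1 : eq_pi X e = cl X x := by rw [← hv]; exact hdom v x hx
      obtain ⟨κ, rfl⟩ := eq_rep X e x e1
      rw [eq_u_mk X i j hij v0 hN x κ (by rw [hx]; rfl)]
      exact eq_units_cast _
    · intro e he
      refine eq_u_zero X i j v0 e ?_
      intro x hx h
      obtain ⟨v, hv⟩ := Option.isSome_iff_exists.mp hx
      apply he
      rw [hPmem]
      exact ⟨v, by rw [h]; exact hdom v x hv⟩
    · rintro ⟨q, s⟩ hp
      obtain ⟨v, w, rfl, hw⟩ := (hω q s).mp hp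
      exact ⟨(hPmem _).mpr ⟨v, rfl⟩, (hPmem _).mpr ⟨w, hgen v w s hw⟩⟩
    · intro e s hp
      obtain ⟨v, w, hv, hw⟩ := (hω _ s).mp hp
      obtain ⟨x, hx⟩ := hJsurj v
      have e1 : eq_pi X e = cl X x := by rw [← hv]; exact hdom v x hx
      obtain ⟨κ, rfl⟩ := eq_rep X e x e1
      have e2 : ((X i).chart 1 v0 (x * FreeGroup.of s)).isSome := by
        have e3 := (h1 S (X i) 1 v0).1 x v hx
        rw [e3]
        unfold LGr.chart
        rw [inv_mul_cancel_left, FreeGroup.toWord_of]
        simp only [LGr.run]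
        rw [hw]
        rfl
      rw [eq_u_mk X i j hij v0 hN x κ (by rw [hx]; rfl), ← QuotientGroup.mk_mul]
      have e4 : (x, κ) * (FreeGroup.of s, (1 : KK)) = (x * FreeGroup.of s, κ) := by simp
      rw [e4, eq_u_mk X i j hij v0 hN _ κ e2, map_mul, eq_sgn_of]
      simp
    · intro h hh
      obtain ⟨v, rfl⟩ := (hPmem _).mp hh
      rw [hdg]
      exact hG.deg i v
    · have e1 : {h | h ∈ Finset.univ.image J ∧ dg (fun s : S => cl X (FreeGroup.of s))
          ((Finset.univ.filter (fun p : (X i).V × S =>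
            ((X i).step p.1 (p.2, true)).isSome)).image (fun p => (J p.1, p.2))) h < 1550} =
          J '' {v | (X i).deg v < 1550} := by
        ext h
        simp only [Set.mem_ofPred_eq, Set.mem_image]
        constructor
        · rintro ⟨hh, hd⟩
          obtain ⟨v, rfl⟩ := (hPmem _).mp hh
          rw [hdg] at hd
          exact ⟨v, hd, rfl⟩
        · rintro ⟨v, hd, rfl⟩
          exact ⟨(hPmem _).mpr ⟨v, rfl⟩, by rw [hdg]; exact hd⟩
      rw [e1, Set.ncard_image_of_injective _ hJinj, Finset.card_image_of_injective _ hJinj,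
        Finset.card_univ]
      exact hG.dfc i
    · exact ⟨J v0, (hPmem _).mpr ⟨v0, rfl⟩⟩

end Pool.Agent.Lib.MP_6b7756_an.GM
end

section

/-!
# MP_6b7756_an, full disproof. The family of labelled graphs
-/

set_option autoImplicit false

namespace Pool.Agent.Lib.MP_6b7756_an.GM

/-- Recursive choice of a sequence with pairwise relations. -/
theorem fa_seq {α : Type 1} [Nonempty α] (P : ℕ → α → Prop) (R : ℕ → α → α → Prop)
    (h : ∀ (j : ℕ) (X : ℕ → α), (∀ i < j, P i (X i)) → ∃ Y, P j Y ∧ ∀ i < j, R i (X i) Y) :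
    ∃ X : ℕ → α, (∀ i, P i (X i)) ∧ ∀ i j, i < j → R i (X i) (X j) := by
  classical
  -- the next element, given a sequence
  have key : ∀ (j : ℕ) (X : ℕ → α), ∃ Y, (∀ i < j, P i (X i)) → P j Y ∧ ∀ i < j, R i (X i) Y := by
    intro j X
    by_cases hX : ∀ i < j, P i (X i)
    · obtain ⟨Y, hY⟩ := h j X hX
      exact ⟨Y, fun _ => hY⟩
    · exact ⟨Classical.arbitrary α, fun hh => absurd hh hX⟩
  choose F hF using key
  -- sequences `G j` which are correct below `j`
  let G : ℕ → (ℕ → α) := fun j => Nat.rec (fun _ => Classical.arbitrary α)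
    (fun n X => Function.update X n (F n X)) j
  have hG : ∀ j, G (j + 1) = Function.update (G j) j (F j (G j)) := fun j => rfl
  have hst : ∀ k j i, i < j → G (j + k) i = G j i := by
    intro k
    induction k with
    | zero => intro j i _; rfl
    | succ k ih =>
      intro j i hij
      rw [← add_assoc, hG, Function.update_of_ne (by omega)]
      exact ih j i hij
  let X : ℕ → α := fun i => G (i + 1) i
  have hX : ∀ j i, i < j → G j i = X i := by
    intro j i hij
    obtain ⟨k, rfl⟩ := Nat.exists_eq_add_of_le (Nat.succ_le_of_lt hij)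
    exact hst k (i + 1) i (Nat.lt_succ_self i)
  have hX' : ∀ j, X j = F j (G j) := by
    intro j
    show G (j + 1) j = _
    rw [hG, Function.update_self]
  have hP : ∀ j, (∀ i < j, P i (X i)) → P j (X j) ∧ ∀ i < j, R i (X i) (X j) := by
    intro j hj
    have h1 := hF j (G j) (fun i hi => by rw [hX j i hi]; exact hj i hi)
    rw [← hX' j] at h1
    refine ⟨h1.1, fun i hi => ?_⟩
    have := h1.2 i hi
    rwa [hX j i hi] at this
  have hall : ∀ j, P j (X j) := by
    intro j
    induction j using Nat.strong_induction_on with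
    | _ j ih => exact (hP j ih).1
  exact ⟨X, hall, fun i j hij => (hP j (fun i _ => hall i)).2 i hij⟩

theorem family (h1 : Stmt_Next) (h2 : Stmt_Num) : Stmt_Family := by
  obtain ⟨M, S, iS, dS, hN⟩ := h1
  obtain ⟨G0, hG0⟩ := h2
  have hne : Nonempty (LGr S) := ⟨⟨Empty, inferInstance, inferInstance, fun v => v.elim,
    fun v => v.elim⟩⟩
  obtain ⟨X, hX1, hX2⟩ := fa_seq
    (fun i X => PX M (100000 * (i + (G0 + 1))) (i + (G0 + 1) + 1) X)
    (fun i X Y => ∀ (v : X.V) (w : Y.V) (l : List (S × Bool)), FreeGroup.IsReduced l →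
      (X.run v l).isSome → (Y.run w l).isSome → l.length < i + (G0 + 1) + 1)
    (fun j X hX => hN (G0 + 1) (by omega) j X hX)
  refine ⟨S, iS, dS, X, fun i => 100000 * (i + (G0 + 1)), ?_⟩
  constructor
  · exact fun i => (hX1 i).ne
  · exact fun i => (hX1 i).conn
  · exact fun i => (hX1 i).girth
  · intro i j v w l hl hv hw hne
    have key : l.length < i + (G0 + 1) + 1 := by
      rcases lt_trichotomy i j with hij | hij | hij
      · exact hX2 i j hij v w l hl hv hw
      · subst hij
        refine (hX1 i).own v w l hl hv hw ?_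
        rintro rfl
        exact hne rfl
      · have := hX2 j i hij w v l hl hw hv
        omega
    show 100000 * l.length ≤ 100000 * (i + (G0 + 1))
    omega
  · intro i
    exact hG0 _ (by show G0 ≤ 100000 * (i + (G0 + 1)); omega)
  · exact fun i => (hX1 i).deg
  · exact fun i => (hX1 i).dfc
  · exact fun i => (hX1 i).sparse

end Pool.Agent.Lib.MP_6b7756_an.GM
end

section

/-!
# MP_6b7756_an, full disproof: the identity in one fibre
-/

set_option autoImplicit false

open scoped ComplexConjugate Classical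

namespace Pool.Agent.Lib.MP_6b7756_an.GM

theorem fi_sg {J : Type} (p : J) (w : Finset J) :
    sg {p} w = 1 - 2 * (if p ∈ w then (1 : ℝ) else 0) := by
  unfold sg
  by_cases h : p ∈ w
  · rw [Finset.singleton_inter_of_mem h]
    simp [h]
    norm_num
  · rw [Finset.singleton_inter_of_notMem h]
    simp [h]

theorem fi_tr {Q S : Type} [Group Q] (q g : Q) (s : S) :
    tr q {(g, s)} = {(q * g, s)} := by
  simp [tr]

theorem fi_sum {Q S : Type} [Group Q] [Fintype S] (e : S → Q ≃ Q) (ω : Finset (Q × S))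
    (P : Finset Q) (G : Q → S → ℝ) (hG : ∀ q s, q ∉ P → G q s = 0) :
    ∑ s, ∑ q ∈ P, (if ((e s).symm q, s) ∈ ω then (1 : ℝ) else 0) * G q s =
      ∑ p ∈ ω, G (e p.2 p.1) p.2 := by
  have h1 : ∑ s, ∑ q ∈ P, (if ((e s).symm q, s) ∈ ω then (1 : ℝ) else 0) * G q s =
      ∑ x ∈ (Finset.univ ×ˢ P : Finset (S × Q)) with ((e x.1).symm x.2, x.1) ∈ ω,
        G x.2 x.1 := by
    rw [Finset.sum_filter, Finset.sum_product]
    refine Finset.sum_congr rfl fun s _ => Finset.sum_congr rfl fun q _ => ?_
    simp only [ite_mul, one_mul, zero_mul]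
  have h2 : ∑ p ∈ ω, G (e p.2 p.1) p.2 = ∑ p ∈ ω with e p.2 p.1 ∈ P, G (e p.2 p.1) p.2 := by
    symm
    refine Finset.sum_filter_of_ne fun p _ hne => ?_
    by_contra hcon
    exact hne (hG _ _ hcon)
  rw [h1, h2]
  refine Finset.sum_nbij' (fun x => ((e x.1).symm x.2, x.1)) (fun p => (p.2, e p.2 p.1))
    ?_ ?_ ?_ ?_ ?_
  · intro x hx
    rw [Finset.mem_filter, Finset.mem_product] at hx
    rw [Finset.mem_filter]
    refine ⟨hx.2, ?_⟩
    simpa using hx.1.2
  · intro p hp
    rw [Finset.mem_filter] at hp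
    rw [Finset.mem_filter, Finset.mem_product]
    refine ⟨⟨Finset.mem_univ _, hp.2⟩, ?_⟩
    simpa using hp.1
  · intro x _
    simp
  · intro p _
    simp
  · intro x _
    simp

theorem fib : Stmt_Fib := by
  intro Q S _ _ gen ω P A B hA hB
  have e1 := fi_sum (fun _ : S => Equiv.refl Q) ω P (fun q _ => A q) (fun q _ h => hA q h)
  have e2 := fi_sum (fun s : S => Equiv.mulRight (gen s)) ω P (fun q _ => A q)
    (fun q _ h => hA q h)
  have e3 := fi_sum (fun _ : S => Equiv.refl Q) ω P (fun q s => B s q) (fun q s h => hB s q h)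
  simp only [Equiv.refl_symm, Equiv.refl_apply] at e1 e3
  simp only [Equiv.mulRight_symm, Equiv.coe_mulRight] at e2
  rw [Finset.sum_add_distrib, Finset.sum_add_distrib, ← Finset.mul_sum, ← e1, ← e2, ← e3,
    Finset.mul_sum, ← Finset.sum_add_distrib, ← Finset.sum_add_distrib]
  refine Finset.sum_congr rfl fun s _ => ?_
  rw [Finset.mul_sum, Finset.mul_sum, Finset.mul_sum, ← Finset.sum_add_distrib,
    ← Finset.sum_sub_distrib, ← Finset.sum_sub_distrib, ← Finset.sum_sub_distrib,
    ← Finset.sum_add_distrib, ← Finset.sum_add_distrib]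
  refine Finset.sum_congr rfl fun q _ => ?_
  rw [fi_tr, fi_tr, fi_sg, fi_sg, mul_one]
  ring_nf

end Pool.Agent.Lib.MP_6b7756_an.GM
end

section

/-!
# MP_6b7756_an, full disproof. Assembly
-/

set_option autoImplicit false

namespace Pool.Agent.Lib.MP_6b7756_an.GM

theorem fn_gen_ne {S : Type} [Fintype S] [DecidableEq S] (X : ℕ → LGr S) (g : ℕ → ℕ)
    (hX : Good X g) (h : Stmt_NcBig) (s : S) : cl X (FreeGroup.of s) ≠ 1 := by
  intro h1
  have h2 : FreeGroup.of s ∈ NN X := by
    have := (QuotientGroup.eq_one_iff (N := NN X) (FreeGroup.of s)).mp h1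
    exact this
  obtain ⟨p, hp, hps⟩ := h2
  have h3 : p.1 = FreeGroup.of s := hps
  have h4 := (h S X g hX).2.2 p hp (by rw [h3]; simp)
  rw [h4] at h3
  exact FreeGroup.of_ne_one s h3.symm

/-- Assembly of the full disproof. -/
theorem final (hF : Stmt_Family) (hN : Stmt_NcBig) (hA : Stmt_A) (hE : Stmt_ExtQ)
    (hAN : Stmt_AN) :
    ¬ (∀ (G : Type) [Group G] [TopologicalSpace G] [IsTopologicalGroup G]
      [LocallyCompactSpace G] [T2Space G] [MeasurableSpace G] [BorelSpace G], EbBody G) := by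
  obtain ⟨S, hS1, hS2, X, g, hX⟩ := hF
  obtain ⟨E, iE, tE, π, gE, hE1⟩ := hE S X g hX
  exact hAN (QQ X) S E (fun s => cl X (FreeGroup.of s)) π gE (fn_gen_ne X g hX hN) (hA S X g hX) hE1

end Pool.Agent.Lib.MP_6b7756_an.GM
end

section

/-!
# MP_6b7756_an: the Cayley tree of a free group is an integer tree
-/

set_option autoImplicit false

namespace Pool.Agent.Lib.MP_6b7756_an.GM

open FreeGroup

section
variable {S : Type} [DecidableEq S]

lemma ft_word_mul (a b : FreeGroup S) (h : (a * b).norm = a.norm + b.norm) :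
    (a * b).toWord = a.toWord ++ b.toWord := by
  have h1 : (a * b).toWord.Sublist (a.toWord ++ b.toWord) := toWord_mul_sublist a b
  apply h1.eq_of_length
  rw [List.length_append]
  exact h

lemma ft_parity (a b : FreeGroup S) : ∃ k, a.norm + b.norm = (a * b).norm + 2 * k := by
  obtain ⟨k, hk⟩ := Red.length (reduce.red (L := a.toWord ++ b.toWord))
  refine ⟨k, ?_⟩
  rw [List.length_append, ← toWord_mul] at hk
  exact hk

/-- length of the common initial segment -/
def ft_cp : List (S × Bool) → List (S × Bool) → ℕ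
  | a :: l, b :: m => if a = b then ft_cp l m + 1 else 0
  | _, _ => 0

lemma ft_cp_ultra (l m n : List (S × Bool)) : min (ft_cp l m) (ft_cp m n) ≤ ft_cp l n := by
  induction l generalizing m n with
  | nil => simp [ft_cp]
  | cons a l ih =>
    cases m with
    | nil => simp [ft_cp]
    | cons b m =>
      cases n with
      | nil => simp [ft_cp]
      | cons c n =>
        simp only [ft_cp]
        by_cases h1 : a = b
        · by_cases h2 : b = c
          · subst h1
            subst h2
            have := ih m n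
            rw [if_pos rfl, if_pos rfl, if_pos rfl]
            omega
          · rw [if_neg h2]
            omega
        · rw [if_neg h1]
          omega

lemma ft_norm_mk {w : List (S × Bool)} (h : IsReduced w) : (mk w).norm = w.length := by
  unfold FreeGroup.norm
  rw [toWord_mk, h.reduce_eq]

lemma ft_reduced_invRev {w : List (S × Bool)} (h : IsReduced w) : IsReduced (invRev w) := by
  apply IsReduced.of_reduce_eq
  rw [reduce_invRev, h.reduce_eq]

omit [DecidableEq S] in
lemma ft_reduced_tail {a : S × Bool} {w : List (S × Bool)} (h : IsReduced (a :: w)) :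
    IsReduced w :=
  red_sub h ⟨[a], [], by simp⟩

lemma ft_norm (u v : List (S × Bool)) (hu : IsReduced u) (hv : IsReduced v) :
    ((mk u)⁻¹ * mk v).norm + 2 * ft_cp u v = u.length + v.length := by
  induction u generalizing v with
  | nil =>
    have h1 : (mk ([] : List (S × Bool))) = 1 := rfl
    rw [h1, inv_one, one_mul, ft_norm_mk hv]
    simp [ft_cp]
  | cons a u ih =>
    cases v with
    | nil =>
      have h1 : (mk ([] : List (S × Bool))) = 1 := rfl
      rw [h1, mul_one, norm_inv_eq, ft_norm_mk hu]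
      simp [ft_cp]
    | cons b v =>
      by_cases h : a = b
      · subst h
        have e1 : mk (a :: u) = mk [a] * mk u := by simp [mul_mk]
        have e2 : mk (a :: v) = mk [a] * mk v := by simp [mul_mk]
        have e3 : (mk (a :: u))⁻¹ * mk (a :: v) = (mk u)⁻¹ * mk v := by
          rw [e1, e2]
          group
        have := ih v (ft_reduced_tail hu) (ft_reduced_tail hv)
        rw [e3]
        simp only [ft_cp, if_true, List.length_cons]
        omega
      · have hred : IsReduced (invRev u ++ [(a.1, !a.2)] ++ (b :: v)) := by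
          apply IsReduced.append_overlap
          · have := ft_reduced_invRev hu
            rw [invRev_cons] at this
            simpa [invRev] using this
          · rw [List.singleton_append, isReduced_cons_cons]
            refine ⟨?_, hv⟩
            intro h2
            by_contra h3
            apply h
            have h2' : a.1 = b.1 := h2
            have h3' : ¬ (!a.2) = b.2 := h3
            apply Prod.ext h2'
            revert h3'
            cases a.2 <;> cases b.2 <;> simp
          · simp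
        have e : (mk (a :: u))⁻¹ * mk (b :: v) = mk (invRev u ++ [(a.1, !a.2)] ++ (b :: v)) := by
          rw [inv_mk, mul_mk, invRev_cons]
          simp [invRev]
        rw [e, ft_norm_mk hred]
        simp [ft_cp, h, invRev_length]
        omega

lemma ft_norm' (a b : FreeGroup S) :
    (a⁻¹ * b).norm + 2 * ft_cp a.toWord b.toWord = a.norm + b.norm := by
  have h := ft_norm a.toWord b.toWord isReduced_toWord isReduced_toWord
  rw [mk_toWord, mk_toWord] at h
  exact h

lemma ft_seg (a : FreeGroup S) (k : ℕ) (hk : k ≤ a.norm) :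
    ∃ z : FreeGroup S, z.norm = k ∧ (z⁻¹ * a).norm = a.norm - k := by
  have hr : IsReduced a.toWord := isReduced_toWord
  have h1 : IsReduced (a.toWord.take k) := red_sub hr (List.take_prefix k _).isInfix
  have h2 : IsReduced (a.toWord.drop k) := red_sub hr (List.drop_suffix k _).isInfix
  refine ⟨mk (a.toWord.take k), ?_, ?_⟩
  · rw [ft_norm_mk h1, List.length_take]
    exact min_eq_left hk
  · have e : a = mk (a.toWord.take k) * mk (a.toWord.drop k) := by
      rw [mul_mk, List.take_append_drop, mk_toWord]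
    have e2 : (mk (a.toWord.take k))⁻¹ * a = mk (a.toWord.drop k) := by
      conv_lhs => rw [e]
      rw [← e]
      nth_rewrite 2 [e]
      group
    rw [e2, ft_norm_mk h2, List.length_drop]
    rfl

end

theorem freeTree : Stmt_FreeTree := by
  intro S _
  refine ⟨{ d := fun x y => (x⁻¹ * y).norm
            d_self := ?_
            eq_of := ?_
            symm := ?_
            tri := ?_
            seg := ?_
            four := ?_
            even := ?_ }, fun _ _ => rfl, ?_⟩
  · intro x
    simp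
  · intro x y h
    have := norm_eq_zero.1 h
    exact (inv_mul_eq_one.1 this)
  · intro x y
    rw [← norm_inv_eq]
    simp
  · intro x y z
    have h := norm_mul_le (x⁻¹ * y) (y⁻¹ * z)
    have e : x⁻¹ * y * (y⁻¹ * z) = x⁻¹ * z := by group
    rw [e] at h
    exact h
  · intro x y k hk
    obtain ⟨z, hz1, hz2⟩ := ft_seg (x⁻¹ * y) k hk
    refine ⟨x * z, ?_, ?_⟩
    · simpa using hz1
    · have e : (x * z)⁻¹ * y = z⁻¹ * (x⁻¹ * y) := by group
      rw [e]
      exact hz2
  · intro x y z w
    have h1 := ft_norm' (x⁻¹ * z) (x⁻¹ * w)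
    have h2 := ft_norm' (x⁻¹ * y) (x⁻¹ * w)
    have h3 := ft_norm' (x⁻¹ * z) (x⁻¹ * y)
    have h4 := ft_cp_ultra (x⁻¹ * z).toWord (x⁻¹ * y).toWord (x⁻¹ * w).toWord
    have e1 : (x⁻¹ * z)⁻¹ * (x⁻¹ * w) = z⁻¹ * w := by group
    have e2 : (x⁻¹ * y)⁻¹ * (x⁻¹ * w) = y⁻¹ * w := by group
    have e3 : (x⁻¹ * z)⁻¹ * (x⁻¹ * y) = (y⁻¹ * z)⁻¹ := by group
    rw [e1] at h1
    rw [e2] at h2
    rw [e3, norm_inv_eq] at h3
    omega
  · intro x y z
    obtain ⟨k, hk⟩ := ft_parity (x⁻¹ * y) (y⁻¹ * z)
    have e : x⁻¹ * y * (y⁻¹ * z) = x⁻¹ * z := by group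
    rw [e] at hk
    exact ⟨(x⁻¹ * z).norm + k, by omega⟩
  · intro x z y
    have e : x⁻¹ * z * (z⁻¹ * y) = x⁻¹ * y := by group
    constructor
    · intro h
      have h' : (x⁻¹ * z).norm + (z⁻¹ * y).norm = (x⁻¹ * y).norm := h
      rw [← e] at h' ⊢
      exact ft_word_mul _ _ h'.symm
    · intro h
      have h2 := congrArg List.length h
      rw [List.length_append] at h2
      exact h2.symm

end Pool.Agent.Lib.MP_6b7756_an.GM
end

section

/-!
# MP_6b7756_an, full disproof: E11, the girth of the labelled graphs, words and walks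
-/

set_option autoImplicit false

namespace Pool.Agent.Lib.MP_6b7756_an.GM

section
variable {S : Type} {N : ℕ} {φ : Ed N → Fin N} {E : Finset (Ed N)} {c : Ed N → S}
  {X : LGr S} {ρ : X.V → Fin N}

/-- The vertices visited while reading a word. -/
theorem gx_trace (X : LGr S) : ∀ (l : List (S × Bool)) (v w : X.V), X.run v l = some w →
    ∃ x : ℕ → X.V, x 0 = v ∧ x l.length = w ∧
      ∀ t (h : t < l.length), X.step (x t) l[t] = some (x (t + 1)) := by
  intro l
  induction l with
  | nil =>
    intro v w h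
    refine ⟨fun _ => v, rfl, ?_, ?_⟩
    · simpa [LGr.run] using h
    · intro t ht
      simp at ht
  | cons a l ih =>
    intro v w h
    rw [LGr.run, Option.bind_eq_some_iff] at h
    obtain ⟨v', hv', hw⟩ := h
    obtain ⟨x, h0, h1, h2⟩ := ih v' w hw
    refine ⟨fun t => Nat.casesOn t v x, rfl, ?_, ?_⟩
    · simpa using h1
    · intro t ht
      rcases t with _ | t
      · show X.step v a = some (x 0)
        rw [h0]
        exact hv'
      · exact h2 t (by simpa using ht)

/-- Reading a subword. -/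
theorem gx_sub {x : ℕ → X.V} {l : List (S × Bool)}
    (hx : ∀ t (h : t < l.length), X.step (x t) l[t] = some (x (t + 1))) :
    ∀ k i, i + k ≤ l.length → X.run (x i) ((l.drop i).take k) = some (x (i + k)) := by
  intro k
  induction k with
  | zero =>
    intro i _
    simp [LGr.run]
  | succ k ih =>
    intro i hi
    have hi' : i < l.length := by omega
    rw [List.drop_eq_getElem_cons hi', List.take_succ_cons, LGr.run, hx i hi']
    have := ih (i + 1) (by omega)
    rw [show i + (k + 1) = i + 1 + k by omega]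
    exact this

theorem gx_infix (l : List (S × Bool)) (i k : ℕ) : (l.drop i).take k <:+: l :=
  (List.take_prefix k (l.drop i)).isInfix.trans (List.drop_suffix i l).isInfix

/-- A step of `X` comes from an edge of `E`. -/
theorem gx_edge (hC : IsComp φ E c X ρ) {v w : X.V} {a : S × Bool}
    (h : X.step v a = some w) : ∃ κ, wE (ρ v) (ρ w) a.2 κ ∈ E ∧ c (wE (ρ v) (ρ w) a.2 κ) = a.1 ∧
      wOK φ (ρ v) (ρ w) a.2 κ := by
  obtain ⟨s, b⟩ := a
  cases b with
  | true =>
    obtain ⟨κ, h1, h2, h3⟩ := (hC.step_iff v w s).1 h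
    exact ⟨κ, h1, h2, h3⟩
  | false =>
    have h' := X.inv v w s false h
    obtain ⟨κ, h1, h2, h3⟩ := (hC.step_iff w v s).1 h'
    exact ⟨κ, h1, h2, h3⟩

/-- Two steps along the same edge. -/
theorem gx_same (hC : IsComp φ E c X ρ) {x x' y y' : X.V} {b b' : Bool} {κ κ' : Fin 1000}
    (h1 : wOK φ (ρ x) (ρ x') b κ) (h2 : wOK φ (ρ y) (ρ y') b' κ')
    (he : wE (ρ x) (ρ x') b κ = wE (ρ y) (ρ y') b' κ') :
    (b = b' ∧ x = y ∧ x' = y') ∨ (b' = !b ∧ x = y' ∧ x' = y) := by
  unfold wOK at h1 h2
  rw [he, h2] at h1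
  cases b <;> cases b'
  · simp only [wE, Bool.false_eq_true, if_false, Prod.mk.injEq] at he h1
    exact Or.inl ⟨rfl, (hC.inj h1).symm, hC.inj he.1⟩
  · simp only [wE, Bool.false_eq_true, if_false, if_true, Prod.mk.injEq] at he h1
    exact Or.inr ⟨rfl, (hC.inj h1).symm, hC.inj he.1⟩
  · simp only [wE, Bool.false_eq_true, if_false, if_true, Prod.mk.injEq] at he h1
    exact Or.inr ⟨rfl, hC.inj he.1, (hC.inj h1).symm⟩
  · simp only [wE, if_true, Prod.mk.injEq] at he h1
    exact Or.inl ⟨rfl, hC.inj he.1, (hC.inj h1).symm⟩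

/-- The edges of a trace. -/
theorem gx_edges (hC : IsComp φ E c X ρ) {x : ℕ → X.V} {l : List (S × Bool)}
    (hx : ∀ t (h : t < l.length), X.step (x t) l[t] = some (x (t + 1))) :
    ∃ κ : ℕ → Fin 1000, ∀ t (h : t < l.length),
      wE (ρ (x t)) (ρ (x (t + 1))) l[t].2 (κ t) ∈ E ∧
      c (wE (ρ (x t)) (ρ (x (t + 1))) l[t].2 (κ t)) = l[t].1 ∧
      wOK φ (ρ (x t)) (ρ (x (t + 1))) l[t].2 (κ t) := by
  have h1 : ∀ t, ∃ κ : Fin 1000, ∀ (h : t < l.length),
      wE (ρ (x t)) (ρ (x (t + 1))) l[t].2 κ ∈ E ∧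
      c (wE (ρ (x t)) (ρ (x (t + 1))) l[t].2 κ) = l[t].1 ∧
      wOK φ (ρ (x t)) (ρ (x (t + 1))) l[t].2 κ := by
    intro t
    by_cases h : t < l.length
    · obtain ⟨κ, hκ⟩ := gx_edge hC (hx t h)
      exact ⟨κ, fun _ => hκ⟩
    · exact ⟨0, fun h' => (h h').elim⟩
  choose κ hκ using h1
  exact ⟨κ, hκ⟩

end

theorem girthX : Stmt_GirthX := by
  intro S N g φ E c X ρ hC hcw v₀ l₀ hred₀ hne₀ hrun₀
  classical
  have hex : ∃ n, ∃ (v : X.V) (l : List (S × Bool)), FreeGroup.IsReduced l ∧ l ≠ [] ∧
      X.run v l = some v ∧ l.length = n := ⟨_, v₀, l₀, hred₀, hne₀, hrun₀, rfl⟩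
  set n := Nat.find hex with hn
  obtain ⟨v, l, hred, hne, hrun, hlen⟩ := Nat.find_spec hex
  rw [← hn] at hlen
  have hmin : ∀ (v : X.V) (l : List (S × Bool)), FreeGroup.IsReduced l → l ≠ [] →
      X.run v l = some v → n ≤ l.length := fun v l h1 h2 h3 =>
    Nat.find_min' hex ⟨v, l, h1, h2, h3, rfl⟩
  refine le_trans ?_ (hmin v₀ l₀ hred₀ hne₀ hrun₀)
  by_contra hgn
  have hgn' : n < g := by omega
  obtain ⟨x, hx0, hxn, hx⟩ := gx_trace X l v v hrun
  obtain ⟨κ, hκ⟩ := gx_edges hC hx
  have hpos : 0 < l.length := List.length_pos_of_ne_nil hne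
  -- vertices are distinct
  have hdist : ∀ i j, i < j → j ≤ l.length → x i = x j → i = 0 ∧ j = l.length := by
    intro i j hij hj he
    have h1 := gx_sub hx (j - i) i (by omega)
    rw [show i + (j - i) = j by omega, ← he] at h1
    have h3 : ((l.drop i).take (j - i)).length = j - i := by
      rw [List.length_take, List.length_drop]
      omega
    have h2 := hmin (x i) _ (red_sub hred (gx_infix l i (j - i))) (by
      intro h0
      rw [h0] at h3
      simp at h3
      omega) h1
    rw [h3] at h2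
    omega
  obtain ⟨k, hk⟩ : ∃ k, l.length = k + 1 := ⟨l.length - 1, by omega⟩
  have hlt : ∀ i : Fin (k + 1), (i : ℕ) < l.length := fun i => by
    have := i.2
    omega
  have hsucc : ∀ i : Fin (k + 1), x ((i + 1 : Fin (k + 1)) : ℕ) = x ((i : ℕ) + 1) := by
    intro i
    by_cases hi : i < Fin.last k
    · rw [Fin.val_add_one_of_lt hi]
    · have hi' : i = Fin.last k := le_antisymm (Fin.le_last i) (not_lt.1 hi)
      rw [hi', Fin.last_add_one, Fin.val_last]
      show x 0 = x (k + 1)
      have h9 : x (k + 1) = x l.length := congrArg x hk.symm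
      rw [h9, hxn, hx0]
  let p : CW N k := fun i => (ρ (x i), (l[(i : ℕ)]'(hlt i)).2, κ i)
  have hE : ∀ i : Fin (k + 1), cwE p i =
      wE (ρ (x i)) (ρ (x ((i : ℕ) + 1))) (l[(i : ℕ)]'(hlt i)).2 (κ i) := by
    intro i
    show wE (ρ (x i)) (ρ (x ((i + 1 : Fin (k + 1)) : ℕ))) (l[(i : ℕ)]'(hlt i)).2 (κ i) = _
    rw [hsucc i]
  have hkey : ∀ t t' : Fin (k + 1), t < t' → cwE p t ≠ cwE p t' := by
    intro t t' htt he
    rw [hE, hE] at he
    have h1 := (hκ t (hlt t))
    have h2 := (hκ t' (hlt t'))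
    have htt' : (t : ℕ) < t' := htt
    have ht' := hlt t'
    rcases gx_same hC h1.2.2 h2.2.2 he with ⟨_, h3, _⟩ | ⟨h3, h4, h5⟩
    · have := hdist t t' htt' (by omega) h3
      omega
    · have h6 := hdist t (t' + 1) (by omega) (by omega) h4
      have h7 : (t : ℕ) + 1 = t' := by
        rcases Nat.lt_or_ge ((t : ℕ) + 1) t' with h8 | h8
        · have := hdist (t + 1) t' h8 (by omega) h5
          omega
        · omega
      have hs : (l[(t : ℕ)]'(hlt t)).1 = (l[(t' : ℕ)]'(hlt t')).1 := by
        rw [← h1.2.1, ← h2.2.1, he]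
      have hr := (List.isChain_iff_getElem.1 hred) t (by omega)
      simp only [h7] at hr
      have := hr hs
      rw [this] at h3
      revert h3
      cases (l[(t' : ℕ)]'(hlt t')).2 <;> simp
  have hCW : IsCW φ p := by
    refine ⟨?_, ?_⟩
    · intro t t' he
      rcases lt_trichotomy t t' with h | h | h
      · exact (hkey t t' h he).elim
      · exact h
      · exact (hkey t' t h he.symm).elim
    · intro i
      show wOK φ (ρ (x i)) (ρ (x ((i + 1 : Fin (k + 1)) : ℕ))) (l[(i : ℕ)]'(hlt i)).2 (κ i)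
      rw [hsucc i]
      exact (hκ i (hlt i)).2.2
  obtain ⟨i, hi⟩ := hcw k (by omega) p hCW
  apply hi
  rw [hE]
  exact (hκ i (hlt i)).1

theorem wordPath : Stmt_WordPath := by
  intro S N g φ E c X ρ hC hgirth m f v hm hred hsome
  obtain ⟨w, hw⟩ := Option.isSome_iff_exists.1 hsome
  obtain ⟨x, hx0, _, hx⟩ := gx_trace X _ v w hw
  obtain ⟨κ, hκ⟩ := gx_edges hC hx
  have hlen : (List.ofFn f).length = m := List.length_ofFn
  have hget : ∀ (t : ℕ) (h : t < m), (List.ofFn f)[t]'(by rw [hlen]; exact h) = f ⟨t, h⟩ := by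
    intro t h
    rw [List.getElem_ofFn]
  have hdist : ∀ i j, i < j → j ≤ m → x i ≠ x j := by
    intro i j hij hj he
    have h1 := gx_sub hx (j - i) i (by omega)
    rw [show i + (j - i) = j by omega, ← he] at h1
    have h3 : (((List.ofFn f).drop i).take (j - i)).length = j - i := by
      rw [List.length_take, List.length_drop]
      omega
    have h2 := hgirth (x i) _ (red_sub hred (gx_infix (List.ofFn f) i (j - i))) (by
      intro h0
      rw [h0] at h3
      simp at h3
      omega) h1
    rw [h3] at h2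
    omega
  let p : PW N m := (fun k => ρ (x k), fun t => ((f t).2, κ t))
  have hE : ∀ t : Fin m, pwE p t = wE (ρ (x t)) (ρ (x ((t : ℕ) + 1))) (f t).2 (κ t) := by
    intro t
    rfl
  have hP : ∀ t : Fin m, pwE p t ∈ E ∧ c (pwE p t) = (f t).1 ∧
      wOK φ (ρ (x t)) (ρ (x ((t : ℕ) + 1))) (f t).2 (κ t) := by
    intro t
    have h1 := hκ t (by rw [hlen]; exact t.2)
    simp only [hget t t.2] at h1
    exact h1
  have hkey : ∀ t t' : Fin m, t < t' → pwE p t ≠ pwE p t' := by
    intro t t' htt he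
    have htt' : (t : ℕ) < t' := htt
    have ht' := t'.2
    rw [hE, hE] at he
    rcases gx_same hC (hP t).2.2 (hP t').2.2 he with ⟨_, h3, _⟩ | ⟨_, h4, _⟩
    · exact hdist t t' htt' (by omega) h3
    · exact hdist t (t' + 1) (by omega) (by omega) h4
  refine ⟨p, ⟨?_, ?_⟩, ?_, ?_, ?_⟩
  · intro t t' he
    rcases lt_trichotomy t t' with h | h | h
    · exact (hkey t t' h he).elim
    · exact h
    · exact (hkey t' t h he.symm).elim
  · intro t
    exact ⟨(hP t).1, (hP t).2.2⟩
  · show ρ (x ((0 : Fin (m + 1)) : ℕ)) = ρ v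
    rw [Fin.val_zero, hx0]
  · intro t
    exact Prod.ext (hP t).2.1 rfl
  · intro k y hy
    have h1 := gx_sub hx k 0 (by
      have := k.2
      omega)
    rw [List.drop_zero, hx0, hy, Nat.zero_add] at h1
    show ρ y = ρ (x k)
    rw [Option.some_injective _ h1]

end Pool.Agent.Lib.MP_6b7756_an.GM
end

section

/-!
# MP_6b7756_an, full disproof: task E5, existence of the graphs before labelling
-/

set_option autoImplicit false

namespace Pool.Agent.Lib.MP_6b7756_an.GM

open Classical in
/-- The first edges of the short closed walks. -/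
noncomputable def gh_R {N : ℕ} (g : ℕ) (φ : Ed N → Fin N) : Finset (Ed N) :=
  (Finset.range (g - 1)).biUnion fun k =>
    (Finset.univ.filter fun p : CW N k => IsCW φ p).image fun p => cwE p 0

open Classical in
/-- The edges at the vertices of large in-degree. -/
noncomputable def gh_H {N : ℕ} (φ : Ed N → Fin N) : Finset (Ed N) :=
  Finset.univ.filter fun e => 8000 < ind φ e.1 ∨ 8000 < ind φ (φ e)

theorem gh_R_card {N : ℕ} (g : ℕ) (φ : Ed N → Fin N) :
    (gh_R g φ).card ≤ ∑ k ∈ Finset.range (g - 1), {p : CW N k | IsCW φ p}.ncard := by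
  classical
  refine Finset.card_biUnion_le.trans (Finset.sum_le_sum fun k _ => ?_)
  refine Finset.card_image_le.trans ?_
  rw [Set.ncard_eq_toFinset_card', Set.toFinset_ofPred]

theorem gh_sum_CW (N k : ℕ) :
    ∑ φ : Ed N → Fin N, {p : CW N k | IsCW φ p}.ncard =
      {q : (Ed N → Fin N) × CW N k | IsCW q.1 q.2}.ncard := by
  classical
  rw [Set.ncard_eq_toFinset_card', Set.toFinset_ofPred, Finset.card_filter,
    Fintype.sum_prod_type]
  refine Finset.sum_congr rfl fun φ _ => ?_
  rw [Set.ncard_eq_toFinset_card', Set.toFinset_ofPred, Finset.card_filter]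

theorem gh_ind {N : ℕ} (φ : Ed N → Fin N) (v : Fin N) [DecidableEq (Fin N)] :
    ind φ v = (Finset.univ.filter fun e : Ed N => φ e = v).card := by
  classical
  unfold ind
  rw [Set.ncard_eq_toFinset_card', Set.toFinset_ofPred]

theorem gh_H_card {N : ℕ} (φ : Ed N → Fin N) :
    (gh_H φ).card ≤ ∑ v, (if 8000 < ind φ v then 1000 + ind φ v else 0) := by
  classical
  have h0 : gh_H φ = (Finset.univ.filter fun e : Ed N => 8000 < ind φ e.1) ∪
      (Finset.univ.filter fun e : Ed N => 8000 < ind φ (φ e)) := by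
    ext e; simp [gh_H]
  have h1 : (Finset.univ.filter fun e : Ed N => 8000 < ind φ e.1).card =
      ∑ v, (if 8000 < ind φ v then 1000 else 0) := by
    rw [Finset.card_filter, Fintype.sum_prod_type]
    refine Finset.sum_congr rfl fun v _ => ?_
    by_cases hv : 8000 < ind φ v <;> simp [hv]
  have h2 : (Finset.univ.filter fun e : Ed N => 8000 < ind φ (φ e)).card =
      ∑ v, (if 8000 < ind φ v then ind φ v else 0) := by
    rw [Finset.card_eq_sum_card_fiberwise (f := φ) (t := Finset.univ) (by intro x _; simp)]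
    refine Finset.sum_congr rfl fun v _ => ?_
    split_ifs with h
    · rw [gh_ind]
      congr 1
      ext e
      simp only [Finset.mem_filter, Finset.mem_univ, true_and]
      constructor
      · rintro ⟨_, h3⟩; exact h3
      · rintro h3; refine ⟨?_, h3⟩; rw [h3]; exact h
    · rw [Finset.card_eq_zero]
      ext e
      simp only [Finset.mem_filter, Finset.mem_univ, true_and, Finset.notMem_empty, iff_false,
        not_and]
      intro h3 h4
      rw [h4] at h3
      exact h h3
  rw [h0]
  refine (Finset.card_union_le _ _).trans ?_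
  rw [h1, h2, ← Finset.sum_add_distrib]
  refine Finset.sum_le_sum fun v _ => ?_
  split_ifs <;> simp

theorem gh_sum_R (h1 : Stmt_RG) (g N : ℕ) :
    ∑ φ : Ed N → Fin N, (gh_R g φ).card ≤ g * 2000 ^ g * N ^ (1000 * N) := by
  classical
  calc ∑ φ : Ed N → Fin N, (gh_R g φ).card
      ≤ ∑ φ : Ed N → Fin N, ∑ k ∈ Finset.range (g - 1), {p : CW N k | IsCW φ p}.ncard :=
        Finset.sum_le_sum fun φ _ => gh_R_card g φ
    _ = ∑ k ∈ Finset.range (g - 1), {q : (Ed N → Fin N) × CW N k | IsCW q.1 q.2}.ncard := by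
        rw [Finset.sum_comm]
        exact Finset.sum_congr rfl fun k _ => gh_sum_CW N k
    _ ≤ ∑ k ∈ Finset.range (g - 1), 2000 ^ g * N ^ (1000 * N) := by
        refine Finset.sum_le_sum fun k hk => (h1 N k).trans ?_
        rw [Finset.mem_range] at hk
        exact Nat.mul_le_mul_right _ (Nat.pow_le_pow_right (by norm_num) (by omega))
    _ = (g - 1) * (2000 ^ g * N ^ (1000 * N)) := by simp
    _ ≤ g * (2000 ^ g * N ^ (1000 * N)) := Nat.mul_le_mul_right _ (by omega)
    _ = _ := by ring

/-- The choice of `φ`. -/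
theorem gh_choice (h1 : Stmt_RG) (h2 : Stmt_RX) (h3 : Stmt_RT) (g N : ℕ) (hN : 1 ≤ N)
    (hgN : 10 ^ 8 * (g * 2000 ^ g) ≤ N) :
    ∃ φ : Ed N → Fin N, (∀ A B : Finset (Fin N), Disjoint A B →
      eAB φ A B ≤ 750 * (A.card + B.card)) ∧
      10 ^ 7 * ((gh_R g φ).card + {v | ind φ v < 550}.ncard +
        ∑ v, (if 8000 < ind φ v then 1000 + ind φ v else 0)) < N := by
  classical
  by_contra hcon
  push Not at hcon
  set Ω : ℕ := N ^ (1000 * N) with hΩ
  have hΩ0 : 0 < Ω := Nat.pow_pos (by omega)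
  have hcard : Fintype.card (Ed N → Fin N) = Ω := by
    simp [hΩ, Nat.mul_comm]
  set B : (Ed N → Fin N) → Prop := fun φ => ∃ A B : Finset (Fin N), Disjoint A B ∧
    750 * (A.card + B.card) < eAB φ A B with hB
  have hpt : ∀ φ : Ed N → Fin N, N ≤ (if B φ then N else 0) +
      10 ^ 7 * ((gh_R g φ).card + {v | ind φ v < 550}.ncard +
        ∑ v, (if 8000 < ind φ v then 1000 + ind φ v else 0)) := by
    intro φ
    by_cases hb : B φ
    · rw [if_pos hb]; exact Nat.le_add_right _ _
    · have := hcon φ (by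
        intro A' B' hd
        by_contra h
        push Not at h
        exact hb ⟨A', B', hd, h⟩)
      rw [if_neg hb, Nat.zero_add]
      exact this
  have hsum := Finset.sum_le_sum (s := (Finset.univ : Finset (Ed N → Fin N)))
    fun φ _ => hpt φ
  rw [Finset.sum_const, Finset.card_univ, hcard, smul_eq_mul, Finset.sum_add_distrib,
    ← Finset.mul_sum, Finset.sum_add_distrib, Finset.sum_add_distrib] at hsum
  have e1 : 100 * ∑ φ : Ed N → Fin N, (if B φ then N else 0) ≤ N * Ω := by
    have : ∑ φ : Ed N → Fin N, (if B φ then N else 0) = {φ | B φ}.ncard * N := by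
      rw [Set.ncard_eq_toFinset_card', Set.toFinset_ofPred, ← Finset.sum_filter, Finset.sum_const,
        smul_eq_mul]
    rw [this]
    have h4 := h2 N hN
    calc 100 * ({φ | B φ}.ncard * N) = (100 * {φ | B φ}.ncard) * N := by ring
      _ ≤ Ω * N := Nat.mul_le_mul_right _ h4
      _ = N * Ω := Nat.mul_comm _ _
  have e2 : 10 ^ 8 * ∑ φ : Ed N → Fin N, (gh_R g φ).card ≤ N * Ω := by
    calc 10 ^ 8 * ∑ φ : Ed N → Fin N, (gh_R g φ).card
        ≤ 10 ^ 8 * (g * 2000 ^ g * Ω) := Nat.mul_le_mul_left _ (gh_sum_R h1 g N)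
      _ = (10 ^ 8 * (g * 2000 ^ g)) * Ω := by ring
      _ ≤ N * Ω := Nat.mul_le_mul_right _ hgN
  obtain ⟨e3, e4⟩ := h3 N hN
  have hNΩ : 0 < N * Ω := Nat.mul_pos (by omega) hΩ0
  have hc : Ω * N = N * Ω := Nat.mul_comm _ _
  rw [hc] at hsum
  have e3' : 10 ^ 10 * ∑ φ : Ed N → Fin N, {v | ind φ v < 550}.ncard ≤ N * Ω := e3
  have e4' : 10 ^ 10 * ∑ φ : Ed N → Fin N,
    ∑ v, (if 8000 < ind φ v then 1000 + ind φ v else 0) ≤ N * Ω := e4
  clear e3 e4
  generalize N * Ω = X at *
  omega

theorem gh_degE {N : ℕ} (φ : Ed N → Fin N) (E : Finset (Ed N)) (v : Fin N) :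
    degE φ E v = (E.filter fun e => e.1 = v).card + (E.filter fun e => φ e = v).card := by
  classical
  unfold degE
  congr 1
  · rw [Set.ncard_eq_toFinset_card', Set.toFinset_ofPred]
    congr 1
    ext e
    simp
  · rw [Set.ncard_eq_toFinset_card', Set.toFinset_ofPred]
    congr 1
    ext e
    simp

theorem gh_out {N : ℕ} (v : Fin N) :
    ((Finset.univ : Finset (Ed N)).filter fun e => e.1 = v).card = 1000 := by
  classical
  have : ((Finset.univ : Finset (Ed N)).filter fun e => e.1 = v) =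
      (Finset.univ : Finset (Fin 1000)).image fun k => ((v, k) : Ed N) := by
    ext ⟨a, b⟩
    simp only [Finset.mem_filter, Finset.mem_univ, true_and, Finset.mem_image, Prod.mk.injEq]
    constructor
    · rintro rfl; exact ⟨b, rfl, rfl⟩
    · rintro ⟨_, h, _⟩; exact h.symm
  rw [this, Finset.card_image_of_injective _ (by intro a b h; simpa using h)]
  simp

theorem gh_main {N : ℕ} (g : ℕ) (φ : Ed N → Fin N)
    (hs : ∀ A B : Finset (Fin N), Disjoint A B → eAB φ A B ≤ 750 * (A.card + B.card))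
    (hc : 10 ^ 7 * ((gh_R g φ).card + {v | ind φ v < 550}.ncard +
        ∑ v, (if 8000 < ind φ v then 1000 + ind φ v else 0)) < N) :
    PreG g N φ (Finset.univ \ (gh_R g φ ∪ gh_H φ)) := by
  classical
  set Rm : Finset (Ed N) := gh_R g φ ∪ gh_H φ with hRm
  refine ⟨?_, ?_, ?_, hs⟩
  · intro k hk p hp
    refine ⟨0, ?_⟩
    intro hmem
    rw [Finset.mem_sdiff] at hmem
    apply hmem.2
    rw [hRm, Finset.mem_union]
    left
    unfold gh_R
    rw [Finset.mem_biUnion]
    refine ⟨k, Finset.mem_range.2 (by omega), ?_⟩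
    rw [Finset.mem_image]
    exact ⟨p, by simpa using hp, rfl⟩
  · intro v
    rw [gh_degE]
    by_cases hv : 8000 < ind φ v
    · have a1 : (Finset.univ \ Rm).filter (fun e => e.1 = v) = ∅ := by
        rw [Finset.filter_eq_empty_iff]
        intro e he h
        rw [Finset.mem_sdiff] at he
        apply he.2
        rw [hRm, Finset.mem_union]
        right
        unfold gh_H
        rw [Finset.mem_filter]
        exact ⟨Finset.mem_univ _, Or.inl (by rw [h]; exact hv)⟩
      have a2 : (Finset.univ \ Rm).filter (fun e => φ e = v) = ∅ := by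
        rw [Finset.filter_eq_empty_iff]
        intro e he h
        rw [Finset.mem_sdiff] at he
        apply he.2
        rw [hRm, Finset.mem_union]
        right
        unfold gh_H
        rw [Finset.mem_filter]
        exact ⟨Finset.mem_univ _, Or.inr (by rw [h]; exact hv)⟩
      rw [a1, a2]
      simp
    · have a1 : ((Finset.univ \ Rm).filter (fun e => e.1 = v)).card ≤ 1000 := by
        refine le_trans ?_ (gh_out v).le
        exact Finset.card_le_card (Finset.filter_subset_filter _ Finset.sdiff_subset)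
      have a2 : ((Finset.univ \ Rm).filter (fun e => φ e = v)).card ≤ ind φ v := by
        rw [gh_ind]
        exact Finset.card_le_card (Finset.filter_subset_filter _ Finset.sdiff_subset)
      omega
  · have hsub : {v | degE φ (Finset.univ \ Rm) v < 1550} ⊆
        {v | ind φ v < 550} ∪ ((Rm.image (fun e => e.1) ∪ Rm.image φ : Finset (Fin N)) :
          Set (Fin N)) := by
      intro v hv
      rw [Set.mem_ofPred_eq] at hv
      by_contra hnot
      rw [Set.mem_union, not_or, Set.mem_ofPred_eq, not_lt, Finset.mem_coe, Finset.mem_union,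
        not_or, Finset.mem_image, Finset.mem_image] at hnot
      obtain ⟨hi, hn1, hn2⟩ := hnot
      push Not at hn1 hn2
      rw [gh_degE] at hv
      have a1 : ((Finset.univ \ Rm).filter (fun e => e.1 = v)) =
          Finset.univ.filter (fun e => e.1 = v) := by
        ext e
        simp only [Finset.mem_filter, Finset.mem_sdiff, Finset.mem_univ, true_and]
        constructor
        · rintro ⟨_, h⟩; exact h
        · intro h; exact ⟨fun h' => hn1 e h' h, h⟩
      have a2 : ((Finset.univ \ Rm).filter (fun e => φ e = v)) =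
          Finset.univ.filter (fun e => φ e = v) := by
        ext e
        simp only [Finset.mem_filter, Finset.mem_sdiff, Finset.mem_univ, true_and]
        constructor
        · rintro ⟨_, h⟩; exact h
        · intro h; exact ⟨fun h' => hn2 e h' h, h⟩
      rw [a1, a2, gh_out, ← gh_ind] at hv
      omega
    have hle : {v | degE φ (Finset.univ \ Rm) v < 1550}.ncard ≤
        {v | ind φ v < 550}.ncard + 2 * Rm.card := by
      refine (Set.ncard_le_ncard hsub (Set.toFinite _)).trans ?_
      refine (Set.ncard_union_le _ _).trans ?_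
      refine Nat.add_le_add_left ?_ _
      rw [Set.ncard_coe_finset]
      refine (Finset.card_union_le _ _).trans ?_
      have b1 : (Rm.image (fun e => e.1)).card ≤ Rm.card := Finset.card_image_le
      have b2 : (Rm.image φ).card ≤ Rm.card := Finset.card_image_le
      omega
    have hR : Rm.card ≤ (gh_R g φ).card +
        ∑ v, (if 8000 < ind φ v then 1000 + ind φ v else 0) :=
      (Finset.card_union_le _ _).trans (Nat.add_le_add_left (gh_H_card φ) _)
    omega

theorem graph (h1 : Stmt_RG) (h2 : Stmt_RX) (h3 : Stmt_RT) : Stmt_Graph := by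
  refine ⟨10 ^ 8 * 4000, fun g hg => ?_⟩
  have hN : 1 ≤ 10 ^ 8 * (g * 2000 ^ g) :=
    Nat.mul_pos (by norm_num) (Nat.mul_pos hg (by positivity))
  refine ⟨10 ^ 8 * (g * 2000 ^ g), hN, ?_, ?_⟩
  · have a1 : (10 : ℕ) ^ 8 ≤ (10 ^ 8) ^ g := Nat.le_self_pow (by omega) _
    have a2 : g ≤ 2 ^ g := Nat.le_of_lt g.lt_two_pow_self
    calc 10 ^ 8 * (g * 2000 ^ g) ≤ (10 ^ 8) ^ g * (2 ^ g * 2000 ^ g) :=
          Nat.mul_le_mul a1 (Nat.mul_le_mul_right _ a2)
      _ = (10 ^ 8 * 4000) ^ g := by
          rw [← Nat.mul_pow, ← Nat.mul_pow]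
  · obtain ⟨φ, hs, hc⟩ := gh_choice h1 h2 h3 g _ hN le_rfl
    exact ⟨φ, _, gh_main g φ hs hc⟩

end Pool.Agent.Lib.MP_6b7756_an.GM
end

section

/-!
# MP_6b7756_an, full disproof: consequences of the windmill theorem for `Nc`
-/

set_option autoImplicit false

namespace Pool.Agent.Lib.MP_6b7756_an.GM

section
variable {S : Type} [DecidableEq S]

/-- The index set: all charts. -/
def nb_I (X : ℕ → LGr S) : Type :=
  Σ i : ℕ, {θ : FreeGroup S → Option (X i).V // ∃ u v, θ = (X i).chart u v}

theorem nb_chart_mul (X : LGr S) (f u : FreeGroup S) (v : X.V) (x : FreeGroup S) :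
    X.chart u v (f⁻¹ * x) = X.chart (f * u) v x := by
  simp only [LGr.chart, mul_inv_rev, mul_assoc]

/-- The action on charts. -/
def nb_acti (X : ℕ → LGr S) (p : FreeGroup S × KK) (Y : nb_I X) : nb_I X :=
  ⟨Y.1, ⟨fun x => Y.2.1 (p.1⁻¹ * x), by
    obtain ⟨i, θ, u, v, rfl⟩ := Y
    exact ⟨p.1 * u, v, by funext x; exact nb_chart_mul (X i) p.1 u v x⟩⟩⟩

/-- The stabilising group. -/
def nb_St (X : ℕ → LGr S) (Y : nb_I X) : Subgroup (FreeGroup S × KK) where
  carrier := {p | Stab Y.2.1 p.1 ∧ p.2 = Pi.mulSingle Y.1 (sgn p.1)}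
  one_mem' := by
    constructor
    · intro x; simp
    · simp
  mul_mem' := by
    rintro p q ⟨hp, hp'⟩ ⟨hq, hq'⟩
    constructor
    · intro x
      have := hq (p.1⁻¹ * x)
      rw [← mul_assoc] at this
      simp only [Prod.fst_mul, mul_inv_rev]
      rw [this, hp x]
    · simp only [Prod.snd_mul, Prod.fst_mul, map_mul, hp', hq', Pi.mulSingle_mul]
  inv_mem' := by
    rintro p ⟨hp, hp'⟩
    constructor
    · intro x
      simp only [Prod.fst_inv, inv_inv]
      have := hp (p.1 * x)
      simpa using this.symm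
    · simp only [Prod.snd_inv, Prod.fst_inv, map_inv, hp', Pi.mulSingle_inv]

omit [DecidableEq S] in
theorem nb_stab_apply {V : Type} {θ : FreeGroup S → Option V} {f : FreeGroup S} (h : Stab θ f)
    (x : FreeGroup S) : θ (f * x) = θ x := by
  have := h (f * x)
  simpa using this.symm

theorem nb_base (h1 : Stmt_Chart) (X : ℕ → LGr S) (Y : nb_I X) (x : FreeGroup S) (w : (X Y.1).V)
    (h : Y.2.1 x = some w) : Y.2.1 = (X Y.1).chart x w := by
  obtain ⟨i, θ, u, v, rfl⟩ := Y
  exact (h1 S (X i) u v).1 x w h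

/-- The rotating family. -/
noncomputable def nb_rot [Fintype S] (h1 : Stmt_Chart) (t : ZTree (FreeGroup S))
    (ht : ∀ x y, t.d x y = (x⁻¹ * y).norm)
    (ht' : ∀ x z y, t.Btw x z y ↔ (x⁻¹ * y).toWord = (x⁻¹ * z).toWord ++ (z⁻¹ * y).toWord)
    (X : ℕ → LGr S) (g : ℕ → ℕ) (hG : Good X g) :
    Rot (FreeGroup S) (FreeGroup S × KK) (nb_I X) t 100000 where
  act p x := p.1 * x
  act_one x := by simp
  act_mul p q x := by simp [mul_assoc]
  isom p x y := by simp only [ht, mul_inv_rev]; congr 1; group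
  acti p Y := nb_acti X p Y
  acti_one Y := by
    obtain ⟨i, θ, hθ⟩ := Y
    simp [nb_acti]
  acti_mul p q Y := by
    obtain ⟨i, θ, hθ⟩ := Y
    simp [nb_acti, mul_assoc]
  C Y := {x | (Y.2.1 x).isSome}
  C_conv Y := by
    intro x hx y hy z hz
    obtain ⟨i, θ, u, v, rfl⟩ := Y
    exact (h1 S (X i) u v).2 x y z hx hy ((ht' x z y).1 hz)
  C_ne Y := by
    obtain ⟨i, θ, u, v, rfl⟩ := Y
    exact ⟨u, by simp [LGr.chart, LGr.run]⟩
  C_act p Y x hx := by
    simp only [nb_acti, Set.mem_ofPred_eq] at *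
    simpa using hx
  St Y := nb_St X Y
  St_act := by
    rintro f Y h ⟨h1, h2⟩
    constructor
    · intro x
      simp only [nb_acti, Prod.fst_mul, Prod.fst_inv]
      have := h1 (f.1⁻¹ * x)
      rw [← this]
      group
    · simp only [Prod.snd_mul, Prod.fst_mul, Prod.snd_inv, Prod.fst_inv, h2, nb_acti]
      rw [mul_comm f.2, mul_assoc, mul_inv_cancel, mul_one]
      simp only [map_mul, map_inv]
      rw [mul_comm (sgn f.1), mul_assoc, mul_inv_cancel, mul_one]
  St_fix := by
    rintro Y h ⟨h1, h2⟩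
    obtain ⟨i, θ, hθ⟩ := Y
    have : (fun x => θ (h.1⁻¹ * x)) = θ := funext h1
    simp only [nb_acti]
    congr 1
    exact Subtype.ext this
  g Y := g Y.1
  g_act p Y := rfl
  disp := by
    rintro Y h x ⟨hs, hs'⟩ hne hx
    have hne1 : h.1 ≠ 1 := by
      intro h0
      apply hne
      rw [h0] at hs'
      exact Prod.ext h0 (by simpa using hs')
    obtain ⟨w, hw⟩ := Option.isSome_iff_exists.1 hx
    have e1 := nb_base h1 X Y x w hw
    have e2 : Y.2.1 (h.1 * x) = some w := by rw [nb_stab_apply hs, hw]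
    rw [e1] at e2
    rw [ht]
    refine hG.girth Y.1 w _ FreeGroup.isReduced_toWord ?_ e2
    intro h0
    have h3 := FreeGroup.toWord_eq_nil_iff.1 h0
    apply hne1
    have : h.1 = x * (x⁻¹ * (h.1 * x)) * x⁻¹ := by group
    rw [this, h3]; group
  small := by
    intro Y Z x y hYZ hxY hxZ hyY hyZ
    obtain ⟨v, hv⟩ := Option.isSome_iff_exists.1 hxY
    obtain ⟨w, hw⟩ := Option.isSome_iff_exists.1 hxZ
    have e1 := nb_base h1 X Y x v hv
    have e2 := nb_base h1 X Z x w hw
    rw [ht]
    refine hG.small Y.1 Z.1 v w _ FreeGroup.isReduced_toWord ?_ ?_ ?_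
    · have : (Y.2.1 y).isSome := hyY
      rw [e1] at this
      exact this
    · have : (Z.2.1 y).isSome := hyZ
      rw [e2] at this
      exact this
    · intro h
      apply hYZ
      obtain ⟨i, θ, hθ⟩ := Y
      obtain ⟨j, θ', hθ'⟩ := Z
      simp only [Sigma.mk.injEq] at h
      obtain ⟨rfl, h⟩ := h
      have h := eq_of_heq h
      simp only at e1 e2
      have e3 : θ = θ' := by rw [e1, e2, h]
      congr 1
      exact Subtype.ext e3
  large Y := by
    have := (hG.num Y.1).1
    omega

end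

theorem ncBig (h1 : Stmt_Chart) (h2 : Stmt_FreeTree) (h3 : Stmt_Windmill) (h4 : Stmt_RotInj) :
    Stmt_NcBig := by
  intro S _ _ X g hG
  obtain ⟨t, ht, ht'⟩ := h2 S
  set R := nb_rot h1 t ht ht' X g hG with hR
  have hN : Nc X ≤ R.N := by
    rw [Nc, Subgroup.normalClosure, Subgroup.closure_le]
    intro p hp
    obtain ⟨q, hq, hc⟩ := Group.mem_conjugatesOfSet_iff.1 hp
    obtain ⟨c, rfl⟩ := isConj_iff.1 hc
    obtain ⟨i, u, v, hs, hs'⟩ := hq
    refine Subgroup.subset_closure ⟨R.acti c ⟨i, (X i).chart u v, u, v, rfl⟩, R.St_act c _ q ?_⟩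
    exact ⟨hs, hs'⟩
  refine ⟨?_, ?_, ?_⟩
  · intro p hp hp1 o
    obtain ⟨Y, h, hh, hh1, a, ha, b, hb, e1, e2⟩ := h3 _ _ _ t 100000 R (by norm_num) p (hN hp) hp1 o
    obtain ⟨i, θ, u, v, rfl⟩ := Y
    rw [ht, ht, ht, ht] at e1
    rw [ht] at e2
    refine ⟨i, u, v, h.1, a, b, hh.1, ?_, ha, hb, e1, e2⟩
    intro h0
    apply hh1
    have h5 := hh.2
    rw [h0] at h5
    exact Prod.ext h0 (by simpa using h5)
  · intro p hp i u v x hx hpx
    exact h4 _ _ _ t 100000 R (by norm_num) p (hN hp) ⟨i, (X i).chart u v, u, v, rfl⟩ x hx hpx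
  · intro p hp hp1
    by_contra hne
    obtain ⟨Y, h, hh, hh1, a, ha, b, hb, e1, e2⟩ :=
      h3 _ _ _ t 100000 R (by norm_num) p (hN hp) hne 1
    have e3 := R.disp Y h a hh hh1 ha
    have e4 := t.tri a b (R.act h a)
    have e5 : 1000000 ≤ R.g Y := (hG.num Y.1).1
    have e6 : t.d 1 (R.act p 1) ≤ 1 := by
      rw [ht]
      have : (1 : FreeGroup S)⁻¹ * R.act p 1 = p.1 := by
        change (1 : FreeGroup S)⁻¹ * (p.1 * 1) = p.1
        group
      rw [this]; exact hp1
    omega

end Pool.Agent.Lib.MP_6b7756_an.GM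
end

section

/-!
# MP_6b7756_an: the numerical condition (task C10)
-/

set_option autoImplicit false

namespace Pool.Agent.Lib.MP_6b7756_an.GM

theorem nu_pow (k : ℕ) (hk : 30 ≤ k) : 900000 * (k + 1) ≤ 2 ^ k := by
  induction k, hk using Nat.le_induction with
  | base => norm_num
  | succ k hk ih =>
    rw [pow_succ]
    omega

theorem nu_bern (m t : ℕ) (h : 150 * m ≤ t) : (2 : ℝ) ^ m ≤ (151 / 150 : ℝ) ^ t := by
  have h1 : (2 : ℝ) ≤ (151 / 150 : ℝ) ^ 150 := by
    have h2 := one_add_mul_le_pow (a := (1 / 150 : ℝ)) (by norm_num) 150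
    have h3 : (1 : ℝ) + 1 / 150 = 151 / 150 := by norm_num
    rw [h3] at h2
    refine le_trans ?_ h2
    norm_num
  calc (2 : ℝ) ^ m ≤ ((151 / 150 : ℝ) ^ 150) ^ m := pow_le_pow_left₀ (by norm_num) h1 m
    _ = (151 / 150 : ℝ) ^ (150 * m) := by rw [pow_mul]
    _ ≤ (151 / 150 : ℝ) ^ t := pow_le_pow_right₀ (by norm_num) h

theorem num : Stmt_Num := by
  refine ⟨1000000, ?_⟩
  intro g hg
  refine ⟨hg, ?_⟩
  intro t ht
  have he : 14 * (4 * g / 100000) + g / 1000 ≤ t / 150 + 1 := by omega
  have hk0 : 30 ≤ g / 1000 := by omega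
  have hk := nu_pow (g / 1000) hk0
  have hg1 : g + 1 ≤ 1000 * (g / 1000 + 1) := by omega
  have h1 : 450 * (g + 1) * 2 ≤ 2 ^ (g / 1000) := by linarith
  have h2 : 9001 ^ (4 * g / 100000) ≤ 2 ^ (14 * (4 * g / 100000)) := by
    rw [pow_mul]
    exact Nat.pow_le_pow_left (by norm_num) _
  have h3 : 450 * (g + 1) * 9001 ^ (4 * g / 100000) * 2 ≤ 2 ^ (t / 150) * 2 := by
    calc 450 * (g + 1) * 9001 ^ (4 * g / 100000) * 2
        = (450 * (g + 1) * 2) * 9001 ^ (4 * g / 100000) := by ring
      _ ≤ 2 ^ (g / 1000) * 2 ^ (14 * (4 * g / 100000)) := Nat.mul_le_mul h1 h2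
      _ = 2 ^ (14 * (4 * g / 100000) + g / 1000) := by rw [← pow_add, add_comm]
      _ ≤ 2 ^ (t / 150 + 1) := Nat.pow_le_pow_right (by norm_num) he
      _ = 2 ^ (t / 150) * 2 := pow_succ _ _
  have h4 : 450 * (g + 1) * 9001 ^ (4 * g / 100000) ≤ 2 ^ (t / 150) := by linarith
  have h5 : (450 * ((g : ℝ) + 1) * 9001 ^ (4 * g / 100000)) ≤ (2 : ℝ) ^ (t / 150) := by
    exact_mod_cast h4
  exact h5.trans (nu_bern (t / 150) t (by omega))

end Pool.Agent.Lib.MP_6b7756_an.GM
end

section

/-!
# MP_6b7756_an, full disproof. Common words of the labelled graphs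
-/

set_option autoImplicit false

namespace Pool.Agent.Lib.MP_6b7756_an.GM

theorem ow_run_take {S : Type} (X : LGr S) (n : ℕ) : ∀ (l : List (S × Bool)) (v : X.V),
    (X.run v l).isSome → (X.run v (l.take n)).isSome := by
  induction n with
  | zero => intro l v _; simp [LGr.run]
  | succ n ih =>
    intro l v h
    cases l with
    | nil => simp [LGr.run]
    | cons a l =>
      rw [List.take_succ_cons]
      simp only [LGr.run] at h ⊢
      cases hs : X.step v a with
      | none => rw [hs] at h; simp at h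
      | some w =>
        rw [hs] at h
        simp only [Option.bind_some] at h ⊢
        exact ih l w h

theorem ow_run_inj {S : Type} (X : LGr S) : ∀ (l : List (S × Bool)) (v w y : X.V),
    X.run v l = some y → X.run w l = some y → v = w := by
  intro l
  induction l with
  | nil =>
    intro v w y h1 h2
    simp only [LGr.run, Option.some.injEq] at h1 h2
    rw [h1, h2]
  | cons a l ih =>
    intro v w y h1 h2
    simp only [LGr.run] at h1 h2
    cases hs : X.step v a with
    | none => rw [hs] at h1; simp at h1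
    | some v1 =>
      cases hs' : X.step w a with
      | none => rw [hs'] at h2; simp at h2
      | some w1 =>
        rw [hs] at h1
        rw [hs'] at h2
        simp only [Option.bind_some] at h1 h2
        have hvw : v1 = w1 := ih v1 w1 y h1 h2
        subst hvw
        have e1 := X.inv v v1 a.1 a.2 hs
        have e2 := X.inv w v1 a.1 a.2 hs'
        rw [e1] at e2
        exact Option.some.inj e2

theorem own (h : Stmt_WordPath) : Stmt_Own := by
  intro S _ N g m φ E c X ρ hX hg hm
  refine ⟨?_, ?_⟩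
  · intro hT v w l hl hv hw hvw
    by_contra hlen
    have hlen' : m ≤ l.length := by omega
    have hlt : (l.take m).length = m := by
      rw [List.length_take]; omega
    let f : Fin m → S × Bool := fun t => (l.take m).get (t.cast hlt.symm)
    have hf : List.ofFn f = l.take m := by
      apply List.ext_getElem
      · rw [List.length_ofFn, hlt]
      · intro n h1 h2
        rw [List.getElem_ofFn]
        rfl
    have hred : FreeGroup.IsReduced (List.ofFn f) := by
      rw [hf]; exact List.IsChain.take hl m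
    have hv' : (X.run v (List.ofFn f)).isSome := by rw [hf]; exact ow_run_take X m l v hv
    have hw' : (X.run w (List.ofFn f)).isSome := by rw [hf]; exact ow_run_take X m l w hw
    obtain ⟨p, hp1, hp2, hp3, hp4⟩ := h S N g φ E c X ρ hX hg m f v hm hred hv'
    obtain ⟨p', hp1', hp2', hp3', hp4'⟩ := h S N g φ E c X ρ hX hg m f w hm hred hw'
    refine hT (p, p') ⟨hp1, hp1', ?_, ?_⟩
    · intro t ht
      have ht' : pwE p t = pwE p' t := ht
      have hb : (p.2 t).1 = (p'.2 t).1 := by
        have a1 := congrArg Prod.snd (hp3 t)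
        have a2 := congrArg Prod.snd (hp3' t)
        exact a1.trans a2.symm
      have hk : ∃ k : Fin (m + 1), p.1 k = p'.1 k := by
        unfold pwE wE at ht'
        rw [← hb] at ht'
        by_cases hbb : (p.2 t).1 = true
        · rw [if_pos hbb, if_pos hbb] at ht'
          exact ⟨_, congrArg Prod.fst ht'⟩
        · rw [if_neg hbb, if_neg hbb] at ht'
          exact ⟨_, congrArg Prod.fst ht'⟩
      obtain ⟨k, hk⟩ := hk
      obtain ⟨y, hy⟩ := Option.isSome_iff_exists.mp (ow_run_take X k _ v hv')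
      obtain ⟨y', hy'⟩ := Option.isSome_iff_exists.mp (ow_run_take X k _ w hw')
      have e1 := hp4 k y hy
      have e2 := hp4' k y' hy'
      have hyy : y = y' := hX.inj (e1.trans (hk.trans e2.symm))
      subst hyy
      exact hvw (ow_run_inj X _ v w y hy hy')
    · intro t
      have a1 := congrArg Prod.fst (hp3 t)
      have a2 := congrArg Prod.fst (hp3' t)
      exact a1.trans a2.symm
  · intro Wd hT f v hred hv hf
    obtain ⟨p, hp1, hp2, hp3, hp4⟩ := h S N g φ E c X ρ hX hg m f v hm hred hv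
    refine hT p ⟨hp1, ?_⟩
    have : (fun t => (c (pwE p t), (p.2 t).1)) = f := funext hp3
    rw [this]
    exact hf

end Pool.Agent.Lib.MP_6b7756_an.GM
end

section

/-!
# MP_6b7756_an, full disproof. Statement (A) for `QQ X`, from the extension lemma
-/

set_option autoImplicit false

namespace Pool.Agent.Lib.MP_6b7756_an.GM

section
variable {S : Type} [DecidableEq S]

theorem sq_pt_add (x0 : FreeGroup S) (l : List (S × Bool)) (s k : ℕ) :
    pt x0 l (s + k) = pt x0 l s * FreeGroup.mk ((l.drop s).take k) := by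
  unfold pt
  rw [List.take_add, ← FreeGroup.mul_mk, mul_assoc]

/-- Points of the geodesic between two points of a reduced path. -/
theorem sq_btw (T : ZTree (FreeGroup S))
    (hT1 : ∀ x y, T.d x y = (x⁻¹ * y).norm)
    (hT2 : ∀ x z y, T.Btw x z y ↔ (x⁻¹ * y).toWord = (x⁻¹ * z).toWord ++ (z⁻¹ * y).toWord)
    (x0 : FreeGroup S) (l : List (S × Bool)) (hl : FreeGroup.IsReduced l) (s t : ℕ)
    (hst : s ≤ t) (htl : t ≤ l.length) (z : FreeGroup S)
    (hz : T.Btw (pt x0 l s) z (pt x0 l t)) :
    z = pt x0 l (s + T.d (pt x0 l s) z) ∧ s + T.d (pt x0 l s) z ≤ t := by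
  rw [hT2] at hz
  have e1 : (pt x0 l s)⁻¹ * pt x0 l t = FreeGroup.mk ((l.drop s).take (t - s)) := by
    have := sq_pt_add x0 l s (t - s)
    rw [Nat.add_sub_cancel' hst] at this
    rw [this]; group
  have hred : FreeGroup.IsReduced ((l.drop s).take (t - s)) := by
    refine red_sub hl ?_
    exact (List.take_prefix _ _).isInfix.trans (List.drop_suffix _ _).isInfix
  have e2 : ((pt x0 l s)⁻¹ * pt x0 l t).toWord = (l.drop s).take (t - s) := by
    rw [e1, FreeGroup.toWord_mk, hred.reduce_eq]
  rw [e2] at hz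
  have hk : T.d (pt x0 l s) z = ((pt x0 l s)⁻¹ * z).toWord.length := hT1 _ _
  have hlen : ((pt x0 l s)⁻¹ * z).toWord.length ≤ t - s := by
    have h1 := congrArg List.length hz
    rw [List.length_append, List.length_take, List.length_drop] at h1
    omega
  have e3 : ((pt x0 l s)⁻¹ * z).toWord = (l.drop s).take (((pt x0 l s)⁻¹ * z).toWord.length) := by
    have h1 : ((l.drop s).take (t - s)).take (((pt x0 l s)⁻¹ * z).toWord.length) =
        ((pt x0 l s)⁻¹ * z).toWord := by
      rw [hz, List.take_left]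
    rw [List.take_take, Nat.min_eq_left hlen] at h1
    exact h1.symm
  refine ⟨?_, by rw [hk]; omega⟩
  rw [hk, sq_pt_add, ← e3, FreeGroup.mk_toWord]
  group

theorem sq_disp {S : Type} [Fintype S] [DecidableEq S] (X : ℕ → LGr S) (g : ℕ → ℕ)
    (hG : Good X g) (i : ℕ) (u : FreeGroup S) (v : (X i).V) (h a : FreeGroup S)
    (hs : Stab ((X i).chart u v) h) (hne : h ≠ 1) (ha : ((X i).chart u v a).isSome) :
    g i ≤ (a⁻¹ * (h * a)).norm := by
  obtain ⟨w, hw⟩ := Option.isSome_iff_exists.mp ha
  have e1 : (X i).chart u v (h * a) = some w := by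
    rw [← hs (h * a)]
    rw [inv_mul_cancel_left]
    exact hw
  have e2 := ch_base (X i) u v a w hw
  rw [e2] at e1
  unfold LGr.chart at e1
  refine hG.girth i w _ FreeGroup.isReduced_toWord ?_ e1
  intro h0
  rw [FreeGroup.toWord_eq_nil_iff] at h0
  apply hne
  have : h = a * (a⁻¹ * (h * a)) * a⁻¹ := by group
  rw [this, h0]
  group

theorem sq_nil {S : Type} [Fintype S] [DecidableEq S] (X : ℕ → LGr S) (g : ℕ → ℕ)
    (hG : Good X g) (U : Finset (QQ X)) (x0 : FreeGroup S) (h0 : cl X x0 ∈ U) :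
    GPath X g U x0 [] where
  red := FreeGroup.IsReduced.nil
  inU := by
    intro k hk
    have : pt x0 ([] : List (S × Bool)) k = x0 := by
      unfold pt
      rw [List.take_nil, ← FreeGroup.one_eq_mk, mul_one]
    rw [this]; exact h0
  valid := by
    intro i u v s t hst ht
    simp only [List.length_nil] at ht
    omega
  clean := by
    intro i u v s hs _ _
    have h1 : 1000000 ≤ g i := (hG.num i).1
    simp only [List.length_nil] at hs ⊢
    omega

end

theorem sparseQ (h1 : Stmt_FreeTree) (h2 : Stmt_NcBig) (h3 : Stmt_Crit) (h4 : Stmt_Ext) :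
    Stmt_A := by
  intro S _ _ X g hG
  by_contra hA
  obtain ⟨U, σ, hC⟩ := h3 (QQ X) S (fun s => cl X (FreeGroup.of s)) hA
  obtain ⟨q0, hq0⟩ := hC.1
  obtain ⟨x0, hx0⟩ : ∃ x0, cl X x0 = q0 := QuotientGroup.mk_surjective q0
  have hlong : ∀ n : ℕ, ∃ l, n ≤ l.length ∧ GPath X g U x0 l := by
    intro n
    induction n with
    | zero => exact ⟨[], Nat.zero_le _, sq_nil X g hG U x0 (by rw [hx0]; exact hq0)⟩
    | succ n ih =>
      obtain ⟨l, hl, hP⟩ := ih
      obtain ⟨l', hl', hP'⟩ := h4 S X g hG U σ hC x0 l hP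
      exact ⟨l', by omega, hP'⟩
  obtain ⟨l, hl, hP⟩ := hlong U.card
  obtain ⟨s, t, hst, htl, heq⟩ : ∃ s t, s < t ∧ t ≤ l.length ∧
      cl X (pt x0 l s) = cl X (pt x0 l t) := by
    obtain ⟨a, ha, b, hb, hab, he⟩ := Finset.exists_ne_map_eq_of_card_lt_of_maps_to
      (s := Finset.range (l.length + 1)) (t := U) (f := fun k => cl X (pt x0 l k))
      (by rw [Finset.card_range]; omega)
      (fun k hk => hP.inU k (by have := Finset.mem_range.mp (Finset.mem_coe.mp hk); omega))
    rw [Finset.mem_range] at ha hb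
    rcases lt_or_gt_of_ne hab with h | h
    · exact ⟨a, b, h, by omega, he⟩
    · exact ⟨b, a, h, by omega, he.symm⟩
  have hmem : pt x0 l t * (pt x0 l s)⁻¹ ∈ NN X := by
    have e1 : (pt x0 l s)⁻¹ * pt x0 l t ∈ NN X := QuotientGroup.eq.mp heq
    have e2 := (inferInstance : (NN X).Normal).conj_mem _ e1 (pt x0 l s)
    have e3 : pt x0 l s * ((pt x0 l s)⁻¹ * pt x0 l t) * (pt x0 l s)⁻¹ =
        pt x0 l t * (pt x0 l s)⁻¹ := by group
    rwa [e3] at e2
  obtain ⟨p, hp, hp1⟩ := Subgroup.mem_map.mp hmem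
  have hp1' : p.1 = pt x0 l t * (pt x0 l s)⁻¹ := hp1
  obtain ⟨T, hT1, hT2⟩ := h1 S
  have hdst : T.d (pt x0 l s) (pt x0 l t) = t - s := by
    have e1 : (pt x0 l s)⁻¹ * pt x0 l t = FreeGroup.mk ((l.drop s).take (t - s)) := by
      have := sq_pt_add x0 l s (t - s)
      rw [Nat.add_sub_cancel' hst.le] at this
      rw [this]; group
    have hred : FreeGroup.IsReduced ((l.drop s).take (t - s)) := by
      refine red_sub hP.red ?_
      exact (List.take_prefix _ _).isInfix.trans (List.drop_suffix _ _).isInfix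
    rw [hT1, e1]
    unfold FreeGroup.norm
    rw [FreeGroup.toWord_mk, hred.reduce_eq, List.length_take, List.length_drop]
    omega
  have hpne : p ≠ 1 := by
    intro h
    rw [h] at hp1'
    have e1 : pt x0 l t = pt x0 l s := by
      have := congrArg (fun y => y * pt x0 l s) hp1'
      simpa using this.symm
    rw [e1, T.d_self] at hdst
    omega
  have hpo : p.1 * pt x0 l s = pt x0 l t := by rw [hp1']; group
  obtain ⟨i, u, v, h, a, b, hs, hne, ha, hb, hnorm, hclose⟩ :=
    (h2 S X g hG).1 p hp hpne (pt x0 l s)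
  rw [hpo] at hnorm
  rw [← hT1, ← hT1, ← hT1, ← hT1] at hnorm
  have t1 := T.tri (pt x0 l s) a (pt x0 l t)
  have t2 := T.tri a b (pt x0 l t)
  have t3 := T.tri (pt x0 l s) b (pt x0 l t)
  have t4 := T.tri (pt x0 l s) a b
  obtain ⟨ea, la⟩ := sq_btw T hT1 hT2 x0 l hP.red s t hst.le htl a
    (by unfold ZTree.Btw; omega)
  obtain ⟨eb, lb⟩ := sq_btw T hT1 hT2 x0 l hP.red s t hst.le htl b
    (by unfold ZTree.Btw; omega)
  have hdisp := sq_disp X g hG i u v h a hs hne ha
  rw [← hT1] at hdisp hclose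
  have t5 := T.tri a b (h * a)
  have hg : 1000000 ≤ g i := (hG.num i).1
  have hlt : g i ≤ 2 * T.d a b := by omega
  have key := hP.valid i u v (s + T.d (pt x0 l s) a) (s + T.d (pt x0 l s) b)
    (by omega) (by omega) (by rw [← ea]; exact ha) (by rw [← eb]; exact hb) (by omega) h hne hs
  rw [← ea, ← eb, ← hT1] at key
  omega

end Pool.Agent.Lib.MP_6b7756_an.GM
end
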