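import Mathlib
import Pool.Agent.Lib.MP_6b7756_an.Mg.G001

section

/-!
# MP_6b7756_an: growth of alternating neighbourhoods (task C6)
-/

set_option autoImplicit false

namespace Pool.Agent.Lib.MP_6b7756_an.GM

theorem gr_mk_true {S : Type} (s : S) : FreeGroup.mk [(s, true)] = FreeGroup.of s := rfl

theorem gr_mk_false {S : Type} (s : S) : FreeGroup.mk [(s, false)] = (FreeGroup.of s)⁻¹ := by
  rw [← gr_mk_true, FreeGroup.inv_mk]
  rfl

theorem gr_cl_false {S : Type} [DecidableEq S] (X : ℕ → LGr S) (s : S) :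
    cl X (FreeGroup.mk [(s, false)]) = (cl X (FreeGroup.of s))⁻¹ := by
  rw [gr_mk_false]
  rfl

/-- Every point of a critical set has many alternating letters. -/
theorem gr_first {S : Type} [Fintype S] [DecidableEq S] (X : ℕ → LGr S) (U : Finset (QQ X))
    (σ : QQ X → Bool) (hC : Crit (fun s : S => cl X (FreeGroup.of s)) U σ) (h : QQ X)
    (hh : h ∈ U) : 761 ≤ {a | HE X U σ h a}.ncard := by
  classical
  have h1 := hC.2 {h} (by simpa using hh) (Finset.singleton_nonempty h)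
  rw [Finset.card_singleton, mul_one] at h1
  refine le_trans (Nat.succ_le_of_lt h1) ?_
  refine Set.ncard_le_ncard_of_injOn (fun p : QQ X × S => (p.2, decide (p.1 = h))) ?_ ?_
    (Set.toFinite _)
  · rintro ⟨q, s⟩ ⟨hp1, hp2, hp3, hp4⟩
    simp only [Finset.mem_singleton] at hp1 hp2 hp3 hp4
    rcases hp4 with hp4 | hp4
    · subst hp4
      simp only [Set.mem_ofPred_eq, decide_true]
      exact ⟨hp1, hp2, hp3⟩
    · have hne : q ≠ h := by
        intro hq
        apply hp3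
        rw [hp4, hq]
      simp only [Set.mem_ofPred_eq, hne, decide_false]
      have hq : h * cl X (FreeGroup.mk [(s, false)]) = q := by
        rw [gr_cl_false, ← hp4, mul_assoc, mul_inv_cancel, mul_one]
      refine ⟨hh, ?_, ?_⟩
      · rw [hq]; exact hp1
      · rw [hq]
        rw [hp4] at hp3
        exact fun h' => hp3 h'.symm
  · rintro ⟨q, s⟩ ⟨hp1, hp2, hp3, hp4⟩ ⟨q', s'⟩ ⟨hp1', hp2', hp3', hp4'⟩ heq
    simp only [Finset.mem_singleton] at hp1 hp2 hp3 hp4 hp1' hp2' hp3' hp4'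
    simp only [Prod.mk.injEq, decide_eq_decide] at heq
    obtain ⟨hs, hq⟩ := heq
    subst hs
    by_cases hqh : q = h
    · have hqh' := hq.mp hqh
      rw [hqh, hqh']
    · have hqh' : ¬ q' = h := fun h' => hqh (hq.mpr h')
      have e1 := hp4.resolve_left hqh
      have e2 := hp4'.resolve_left hqh'
      have e3 : q = q' := mul_right_cancel (e1.trans e2.symm)
      rw [e3]

/-- Two different letters at a vertex lead to different vertices. -/
theorem gr_step_inj {S : Type} [Fintype S] (X : ℕ → LGr S) (g : ℕ → ℕ) (hG : Good X g) (i : ℕ)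
    (v w : (X i).V) (a a' : S × Bool) (ha : (X i).step v a = some w)
    (ha' : (X i).step v a' = some w) : a = a' := by
  by_contra hne
  have hi : (X i).step w (a'.1, !a'.2) = some v := (X i).inv v w a'.1 a'.2 ha'
  have hred : FreeGroup.IsReduced [a, (a'.1, !a'.2)] := by
    rw [FreeGroup.isReduced_cons_cons]
    refine ⟨?_, FreeGroup.IsReduced.singleton⟩
    intro h1
    simp only at h1 ⊢
    by_contra h2
    apply hne
    have h3 : a.2 = a'.2 := by
      cases h4 : a.2 <;> cases h5 : a'.2 <;> simp_all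
    exact Prod.ext h1 h3
  have hrun : (X i).run v [a, (a'.1, !a'.2)] = some v := by
    simp [LGr.run, ha, hi]
  have h1 := hG.girth i v _ hred (by simp) hrun
  have h2 := (hG.num i).1
  simp only [List.length_cons, List.length_nil] at h1
  omega

/-- Number of points reachable by short words. -/
theorem gr_ball {S : Type} [Fintype S] (X : ℕ → LGr S) (g : ℕ → ℕ) (hG : Good X g) (i : ℕ)
    (m : ℕ) : ∀ v : (X i).V, {w | ∃ l : List (S × Bool), l.length ≤ m ∧
      (X i).run v l = some w}.ncard ≤ 9001 ^ m := by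
  classical
  induction m with
  | zero =>
    intro v
    refine le_trans (Set.ncard_le_ncard (t := {v}) ?_ (Set.toFinite _)) ?_
    · rintro w ⟨l, hl, hw⟩
      have : l = [] := List.length_eq_zero_iff.mp (by omega)
      subst this
      simp only [LGr.run, Option.some.injEq] at hw
      exact hw.symm
    · rw [Set.ncard_singleton]
      norm_num
  | succ m ih =>
    intro v
    let A : Finset (S × Bool) := Finset.univ.filter (fun a => ((X i).step v a).isSome)
    have hA : A.card ≤ 9000 := by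
      have h1 := hG.deg i v
      have h2 : {a | ((X i).step v a).isSome} = (A : Set (S × Bool)) := by
        ext a
        simp [A]
      rw [LGr.deg, h2, Set.ncard_coe_finset] at h1
      exact h1
    let B : (X i).V → Finset (X i).V := fun u => Finset.univ.filter
      (fun w => ∃ l : List (S × Bool), l.length ≤ m ∧ (X i).run u l = some w)
    have hB : ∀ u, (B u).card ≤ 9001 ^ m := by
      intro u
      have h1 := ih u
      have h2 : {w | ∃ l : List (S × Bool), l.length ≤ m ∧ (X i).run u l = some w} =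
          (B u : Set (X i).V) := by
        ext w
        simp [B]
      rw [h2, Set.ncard_coe_finset] at h1
      exact h1
    have hsub : {w | ∃ l : List (S × Bool), l.length ≤ m + 1 ∧ (X i).run v l = some w} ⊆
        ((insert v (A.biUnion (fun a => B (((X i).step v a).getD v))) : Finset (X i).V) :
          Set (X i).V) := by
      rintro w ⟨l, hl, hw⟩
      rw [Finset.mem_coe, Finset.mem_insert, Finset.mem_biUnion]
      cases l with
      | nil =>
        simp only [LGr.run, Option.some.injEq] at hw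
        exact Or.inl hw.symm
      | cons a l =>
        right
        simp only [LGr.run] at hw
        rw [Option.bind_eq_some_iff] at hw
        obtain ⟨u, hu, hw⟩ := hw
        refine ⟨a, by simp [A, hu], ?_⟩
        rw [hu]
        simp only [Option.getD_some, B, Finset.mem_filter, Finset.mem_univ, true_and]
        simp only [List.length_cons] at hl
        exact ⟨l, by omega, hw⟩
    refine le_trans (Set.ncard_le_ncard hsub (Finset.finite_toSet _)) ?_
    rw [Set.ncard_coe_finset]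
    refine le_trans (Finset.card_insert_le _ _) ?_
    have h1 := Finset.card_biUnion_le_card_mul A (fun a => B (((X i).step v a).getD v)) (9001 ^ m)
      (fun a _ => hB _)
    have h2 : A.card * 9001 ^ m ≤ 9000 * 9001 ^ m := Nat.mul_le_mul_right _ hA
    have h3 : 1 ≤ 9001 ^ m := Nat.one_le_pow _ _ (by norm_num)
    rw [pow_succ]
    omega

/-- Growth of alternating neighbourhoods. -/
theorem gr_main {S : Type} [Fintype S] [DecidableEq S] (X : ℕ → LGr S) (g : ℕ → ℕ)
    (hG : Good X g) (U : Finset (QQ X)) (σ : QQ X → Bool)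
    (hC : Crit (fun s : S => cl X (FreeGroup.of s)) U σ) (i : ℕ) (j : (X i).V → QQ X)
    (hj : Function.Injective j)
    (hstep : ∀ v w a, (X i).step v a = some w → j w = j v * cl X (FreeGroup.mk [a]))
    (P : Finset (X i).V) (hP : P.Nonempty) (hPU : ∀ v ∈ P, j v ∈ U)
    (hPE : ∀ v ∈ P, v ∉ exits X U σ i j) :
    76 * P.card ≤ 75 * {w | w ∈ P ∨ ∃ v ∈ P, adjU X U σ i j v w}.ncard := by
  classical
  have hC' := hC.2 (P.image j) (by
    intro q hq
    rw [Finset.mem_image] at hq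
    obtain ⟨v, hv, rfl⟩ := hq
    exact hPU v hv) (hP.image j)
  rw [Finset.card_image_of_injective P hj] at hC'
  let W : Finset (X i).V := Finset.univ.filter (fun w => w ∈ P ∨ ∃ v ∈ P, adjU X U σ i j v w)
  have hW : {w | w ∈ P ∨ ∃ v ∈ P, adjU X U σ i j v w} = (W : Set (X i).V) := by
    ext w
    simp [W]
  rw [hW, Set.ncard_coe_finset]
  have hsp := hG.sparse i (W.filter (fun w => σ (j w) = true))
    (W.filter (fun w => ¬ σ (j w) = true)) (Finset.disjoint_filter_filter_not _ _ _)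
  rw [Finset.card_filter_add_card_filter_not] at hsp
  set F : Set ((X i).V × S) := {p : (X i).V × S | ∃ w, (X i).step p.1 (p.2, true) = some w ∧
      ((p.1 ∈ W.filter (fun w => σ (j w) = true) ∧ w ∈ W.filter (fun w => ¬ σ (j w) = true)) ∨
      (p.1 ∈ W.filter (fun w => ¬ σ (j w) = true) ∧
        w ∈ W.filter (fun w => σ (j w) = true)))} with hF
  -- alternating edges between points of `W` are in `F`
  have hkey : ∀ (x y : (X i).V) (s : S), (X i).step x (s, true) = some y → x ∈ W → y ∈ W →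
      σ (j x) ≠ σ (j y) → (x, s) ∈ F := by
    intro x y s hxy hx hy hne
    rw [hF]
    refine ⟨y, hxy, ?_⟩
    simp only [Finset.mem_filter]
    by_cases h1 : σ (j x) = true
    · left
      refine ⟨⟨hx, h1⟩, hy, ?_⟩
      intro h2
      exact hne (h1.trans h2.symm)
    · right
      refine ⟨⟨hx, h1⟩, hy, ?_⟩
      by_contra h2
      apply hne
      rw [Bool.eq_false_of_not_eq_true h1, Bool.eq_false_of_not_eq_true h2]
  have hsub : {p : QQ X × S | p.1 ∈ U ∧ p.1 * (fun s : S => cl X (FreeGroup.of s)) p.2 ∈ U ∧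
      σ p.1 ≠ σ (p.1 * (fun s : S => cl X (FreeGroup.of s)) p.2) ∧
      (p.1 ∈ P.image j ∨ p.1 * (fun s : S => cl X (FreeGroup.of s)) p.2 ∈ P.image j)} ⊆
      (fun p : (X i).V × S => (j p.1, p.2)) '' F := by
    rintro ⟨q, s⟩ ⟨h1, h2, h3, h4⟩
    simp only [Finset.mem_image] at h1 h2 h3 h4
    rcases h4 with ⟨v, hv, hvq⟩ | ⟨v, hv, hvq⟩
    · subst hvq
      have hex := hPE v hv
      cases hs : (X i).step v (s, true) with
      | none =>
        exfalso
        apply hex
        exact ⟨(s, true), hs, h1, h2, h3⟩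
      | some w =>
        have hjw := hstep v w (s, true) hs
        rw [gr_mk_true] at hjw
        rw [← hjw] at h2 h3
        have hvW : v ∈ W := by
          simp only [W, Finset.mem_filter, Finset.mem_univ, true_and]
          exact Or.inl hv
        have hwW : w ∈ W := by
          simp only [W, Finset.mem_filter, Finset.mem_univ, true_and]
          exact Or.inr ⟨v, hv, (s, true), hs, h1, h2, h3⟩
        exact ⟨(v, s), hkey v w s hs hvW hwW h3, rfl⟩
    · have hex := hPE v hv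
      have hq : j v * cl X (FreeGroup.mk [(s, false)]) = q := by
        rw [gr_cl_false, hvq, mul_assoc, mul_inv_cancel, mul_one]
      rw [← hvq] at h2 h3
      cases hs : (X i).step v (s, false) with
      | none =>
        exfalso
        apply hex
        refine ⟨(s, false), hs, h2, ?_, ?_⟩
        · rw [hq]; exact h1
        · rw [hq]; exact fun h' => h3 h'.symm
      | some w =>
        have hjw := hstep v w (s, false) hs
        rw [hq] at hjw
        have hs' := (X i).inv v w s false hs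
        simp only [Bool.not_false] at hs'
        rw [← hjw] at h1 h3
        have hvW : v ∈ W := by
          simp only [W, Finset.mem_filter, Finset.mem_univ, true_and]
          exact Or.inl hv
        have hwW : w ∈ W := by
          simp only [W, Finset.mem_filter, Finset.mem_univ, true_and]
          exact Or.inr ⟨v, hv, (s, false), hs, h2, h1, fun h' => h3 h'.symm⟩
        exact ⟨(w, s), hkey w v s hs' hwW hvW h3, by simp only [hjw]⟩
  have h5 := Set.ncard_le_ncard hsub ((Set.toFinite F).image _)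
  have h6 := Set.ncard_image_le (f := fun p : (X i).V × S => (j p.1, p.2)) (Set.toFinite F)
  omega

theorem growth : Stmt_Growth := by
  intro S _ _ X g hG U σ hC
  refine ⟨fun h hh => gr_first X U σ hC h hh, ?_⟩
  intro i j hj hstep
  refine ⟨fun P hP hPU hPE => gr_main X g hG U σ hC i j hj hstep P hP hPU hPE, ?_, ?_⟩
  · intro v hv hve
    refine le_trans (gr_first X U σ hC (j v) hv) ?_
    have hsome : ∀ a, HE X U σ (j v) a → ∃ w, (X i).step v a = some w ∧ adjU X U σ i j v w := by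
      intro a ha
      cases hs : (X i).step v a with
      | none =>
        exfalso
        exact hve ⟨a, hs, ha⟩
      | some w =>
        refine ⟨w, rfl, a, hs, ?_⟩
        rw [hstep v w a hs]
        exact ha
    refine Set.ncard_le_ncard_of_injOn (fun a => ((X i).step v a).getD v) ?_ ?_ (Set.toFinite _)
    · intro a ha
      obtain ⟨w, hw, hw'⟩ := hsome a ha
      simp only [Set.mem_ofPred_eq, hw, Option.getD_some]
      exact hw'
    · intro a ha a' ha' heq
      obtain ⟨w, hw, _⟩ := hsome a ha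
      obtain ⟨w', hw', _⟩ := hsome a' ha'
      simp only [hw, hw', Option.getD_some] at heq
      subst heq
      exact gr_step_inj X g hG i v w a a' hw hw'
  · intro v
    refine le_trans (Set.ncard_le_ncard ?_ (Set.toFinite _)) (gr_ball X g hG i _ v)
    rintro w ⟨l, _, hl, hw⟩
    refine ⟨l, ?_, hw⟩
    rw [Nat.le_div_iff_mul_le (by norm_num)]
    omega

end Pool.Agent.Lib.MP_6b7756_an.GM
end

section

/-!
# MP_6b7756_an: (H1) for `WR` (task D9)
-/

set_option autoImplicit false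

open scoped ComplexConjugate Classical

namespace Pool.Agent.Lib.MP_6b7756_an.GM

/-- Coordinates of invariant functions depend on the class only. -/
theorem ho_zeta {Q S E : Type} [Group Q] [Group E] (π : E →* Q) (τ : Q → E)
    (hτ : ∀ q, π (τ q) = q) (v : WR S π → ℂ) (hv : ∀ y, ∀ k ∈ KW π S, v (y * k) = v y)
    (e : E) (b : Finset (Q × S)) : zeta π v e b = zeta π v (τ (π e)) b := by
  unfold zeta
  rw [hτ]
  have hk : (⟨∅, τ (π e) * e⁻¹⟩ : WR S π) ∈ KW π S := by
    refine ⟨rfl, ?_⟩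
    change τ (π e) * e⁻¹ ∈ π.ker
    rw [MonoidHom.mem_ker, map_mul, hτ, map_inv, mul_inv_cancel]
  have h1 := hv ⟨tr (π e)⁻¹ b, (τ (π e))⁻¹⟩ _ hk
  rw [← h1]
  congr 1
  apply WR.ext' π
  · rw [WR.mul_b]
    change tr (π e)⁻¹ b = sdf (tr (π e)⁻¹ b) (tr _ ∅)
    rw [tr_empty, sdf_empty]
  · rw [WR.mul_e]
    change e⁻¹ = (τ (π e))⁻¹ * (τ (π e) * e⁻¹)
    rw [inv_mul_cancel_left]

/-- Real part of a coefficient. -/
theorem ho_re {Q S : Type} [Group Q] (z : Q → Finset (Q × S) → ℂ)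
    (hz : {p : Q × Finset (Q × S) | z p.1 p.2 ≠ 0}.Finite) (c : Finset (Q × S)) (f : Q) :
    (∑ᶠ p : Q × Finset (Q × S), z p.1 p.2 * conj (z (p.1 * f) (sdf (tr p.1 c) p.2))).re =
      Phi (fun q b => (z q b).re) c f + Phi (fun q b => (z q b).im) c f := by
  have h1 : (Function.support fun p : Q × Finset (Q × S) =>
      z p.1 p.2 * conj (z (p.1 * f) (sdf (tr p.1 c) p.2))).Finite := by
    refine hz.subset ?_
    intro p hp hp'
    apply hp
    change z p.1 p.2 * _ = 0
    rw [hp', zero_mul]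
  have h2 : (Function.support fun p : Q × Finset (Q × S) =>
      (z p.1 p.2).re * (z (p.1 * f) (sdf (tr p.1 c) p.2)).re).Finite := by
    refine hz.subset ?_
    intro p hp hp'
    apply hp
    change (z p.1 p.2).re * _ = 0
    rw [hp', Complex.zero_re, zero_mul]
  have h3 : (Function.support fun p : Q × Finset (Q × S) =>
      (z p.1 p.2).im * (z (p.1 * f) (sdf (tr p.1 c) p.2)).im).Finite := by
    refine hz.subset ?_
    intro p hp hp'
    apply hp
    change (z p.1 p.2).im * _ = 0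
    rw [hp', Complex.zero_im, zero_mul]
  have h4 := AddMonoidHom.map_finsum Complex.reLm.toAddMonoidHom h1
  change (∑ᶠ p : Q × Finset (Q × S), z p.1 p.2 * conj (z (p.1 * f) (sdf (tr p.1 c) p.2))).re = _
    at h4
  rw [h4]
  unfold Phi
  rw [← finsum_add_distrib h2 h3]
  refine finsum_congr fun p => ?_
  change (z p.1 p.2 * conj (z (p.1 * f) (sdf (tr p.1 c) p.2))).re = _
  rw [Complex.mul_re, Complex.conj_re, Complex.conj_im]
  ring

/-- The form is additive. -/
theorem ho_form {Q S E : Type} [Group Q] [Fintype S] [Group E] (gen : S → Q) (π : E →* Q)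
    (gE : S → E) (hg : ∀ s, π (gE s) = gen s) (A B : Finset (Q × S) → Q → ℝ)
    (F : Finset (Q × S) → E → ℝ) (hF : ∀ c f, F c f = A c (π f) + B c (π f)) :
    Form gen gE F = Form gen gen A + Form gen gen B := by
  unfold Form
  simp only [hF, hg, map_one]
  rw [add_add_add_comm, ← Finset.sum_add_distrib, ← Finset.sum_add_distrib]
  congr 1
  · refine Finset.sum_congr rfl fun s _ => ?_
    ring
  · refine Finset.sum_congr rfl fun T _ => ?_
    ring

/-- (H1) for `WR`. -/
theorem hone (a : Stmt_Core) (b : Stmt_WRq) : Stmt_H1 := by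
  intro Q S E _ _ _ gen π gE hgen hsp hsurj hgE hcen v hv hfin
  obtain ⟨τ, hτ⟩ := hsurj.hasRightInverse
  have hτ' : ∀ q, π (τ q) = q := hτ
  obtain ⟨hb1, hb2⟩ := b Q S E π hcen τ hτ' v (fun _ => 1) (fun y k hk => by rw [hv y k hk, one_mul])
    (fun k _ => by simp)
  have hz := hb1.mp hfin
  have hq : ∀ c f, (qform (KW π S) v ⟨c, f⟩).re =
      Phi (fun q b => (zeta π v (τ q) b).re) c (π f) +
        Phi (fun q b => (zeta π v (τ q) b).im) c (π f) := by
    intro c f
    rw [hb2 c f, ← ho_re (fun q b => zeta π v (τ q) b) hz c (π f)]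
    congr 1
    refine finsum_congr fun p => ?_
    rw [ho_zeta π τ hτ' v hv (τ p.1 * f), map_mul, hτ']
  rw [ho_form gen π gE hgE _ _ _ hq]
  have h1 : (qform (KW π S) v 1).re = Phi (fun q b => (zeta π v (τ q) b).re) ∅ 1 +
      Phi (fun q b => (zeta π v (τ q) b).im) ∅ 1 := by
    have := hq ∅ 1
    rw [map_one] at this
    exact this
  rw [h1, mul_add]
  refine add_le_add (a Q S gen hgen hsp _ (hz.subset ?_)) (a Q S gen hgen hsp _ (hz.subset ?_))
  · intro p hp hp'
    apply hp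
    rw [hp', Complex.zero_re]
  · intro p hp hp'
    apply hp
    rw [hp', Complex.zero_im]

end Pool.Agent.Lib.MP_6b7756_an.GM
end

section

/-!
# MP_6b7756_an, D10: (H2) for `WR`
-/

set_option autoImplicit false

open scoped ComplexConjugate Classical

namespace Pool.Agent.Lib.MP_6b7756_an.GM

section
variable {J : Type}

theorem ht_sg_prod (b w : Finset J) :
    sg b w = ∏ p ∈ w, (if p ∈ b then (-1 : ℝ) else 1) := by
  unfold sg
  rw [Finset.prod_ite, Finset.prod_const_one, mul_one, Finset.prod_const,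
    Finset.filter_mem_eq_inter, Finset.inter_comm]

theorem ht_sg_sdf (c b w : Finset J) : sg (sdf c b) w = sg c w * sg b w := by
  rw [ht_sg_prod, ht_sg_prod, ht_sg_prod, ← Finset.prod_mul_distrib]
  refine Finset.prod_congr rfl fun p _ => ?_
  simp only [mem_sdf]
  by_cases h1 : p ∈ c <;> by_cases h2 : p ∈ b <;> simp [h1, h2]

theorem ht_sg_sq (b w : Finset J) : sg b w * sg b w = 1 := by
  rw [ht_sg_prod, ← Finset.prod_mul_distrib]
  refine Finset.prod_eq_one fun p _ => ?_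
  split_ifs <;> norm_num

theorem ht_sg_empty (w : Finset J) : sg ∅ w = 1 := by
  rw [ht_sg_prod]
  simp

theorem ht_sdf_sub {c b Om : Finset J} (hc : c ⊆ Om) (hb : b ⊆ Om) : sdf c b ⊆ Om := by
  intro p hp
  rcases mem_sdf.1 hp with ⟨h, -⟩ | ⟨h, -⟩
  · exact hc h
  · exact hb h

/-- the normalised Walsh function restricted to the subsets of `Om` -/
noncomputable def ht_w (Om ω : Finset J) (b : Finset J) : ℝ :=
  if b ⊆ Om then (√(2 ^ Om.card))⁻¹ * sg b ω else 0

theorem ht_w_sum {Om ω c : Finset J} (hc : c ⊆ Om) :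
    ∑ b ∈ Om.powerset, ht_w Om ω b * ht_w Om ω (sdf c b) = sg c ω := by
  have h : ∀ b ∈ Om.powerset, ht_w Om ω b * ht_w Om ω (sdf c b) =
      ((2 : ℝ) ^ Om.card)⁻¹ * sg c ω := by
    intro b hb
    rw [Finset.mem_powerset] at hb
    unfold ht_w
    rw [if_pos hb, if_pos (ht_sdf_sub hc hb), ht_sg_sdf]
    have h1 : (√((2 : ℝ) ^ Om.card))⁻¹ * (√((2 : ℝ) ^ Om.card))⁻¹ = ((2 : ℝ) ^ Om.card)⁻¹ := by
      rw [← mul_inv, Real.mul_self_sqrt (by positivity)]
    calc (√((2 : ℝ) ^ Om.card))⁻¹ * sg b ω * ((√((2 : ℝ) ^ Om.card))⁻¹ * (sg c ω * sg b ω))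
        = ((√((2 : ℝ) ^ Om.card))⁻¹ * (√((2 : ℝ) ^ Om.card))⁻¹) * sg c ω *
          (sg b ω * sg b ω) := by ring
      _ = _ := by rw [h1, ht_sg_sq, mul_one]
  rw [Finset.sum_congr rfl h, Finset.sum_const, Finset.card_powerset, nsmul_eq_mul]
  push_cast
  rw [← mul_assoc, mul_inv_cancel₀ (by positivity), one_mul]

end

section
variable {Q S E : Type} [Group Q] [Group E]

theorem ht_tr_mono (q : Q) {c d : Finset (Q × S)} (h : c ⊆ d) : tr q c ⊆ tr q d := by
  intro p hp
  rw [mem_tr] at hp ⊢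
  exact h hp

theorem ht_tr_cancel (q : Q) (c : Finset (Q × S)) : tr q (tr q⁻¹ c) = c := by
  rw [← tr_mul, mul_inv_cancel, tr_one]

/-- the vector -/
noncomputable def ht_v (π : E →* Q) (P : Finset Q) (ω Om : Finset (Q × S)) (u : E → ℝ) :
    WR S π → ℂ :=
  fun y => (((√P.card)⁻¹ * u y.e⁻¹ * ht_w Om ω (tr (π y.e)⁻¹ y.b) : ℝ) : ℂ)

theorem ht_zeta (π : E →* Q) (P : Finset Q) (ω Om : Finset (Q × S)) (u : E → ℝ) (e : E)
    (b : Finset (Q × S)) :
    zeta π (ht_v π P ω Om u) e b = (((√P.card)⁻¹ * u e * ht_w Om ω b : ℝ) : ℂ) := by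
  unfold zeta ht_v
  simp only [inv_inv, map_inv]
  rw [ht_tr_cancel]

/-- the coefficients of the vector -/
theorem ht_coeff {π : E →* Q} (hc : π.ker ≤ Subgroup.center E) (h3 : Stmt_WRq) {τ : Q → E}
    (hτ : ∀ q, π (τ q) = q) {P : Finset Q} {ω Om : Finset (Q × S)} {u χ : E → ℝ}
    {χ' : WR S π → ℂ}
    (hv : ∀ y, ∀ k ∈ KW π S, ht_v π P ω Om u (y * k) = χ' k * ht_v π P ω Om u y)
    (hχ' : ∀ k ∈ KW π S, ‖χ' k‖ = 1) (hu0 : ∀ e, π e ∉ P → u e = 0) {c : Finset (Q × S)}
    (hcOm : ∀ q ∈ P, tr q c ⊆ Om) (f : E) :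
    qform (KW π S) (ht_v π P ω Om u) ⟨c, f⟩ =
      ((∑ q ∈ P, sg (tr q c) ω * ((P.card : ℝ)⁻¹ * (u (τ q) * u (τ q * f))) : ℝ) : ℂ) := by
  rw [(h3 Q S E π hc τ hτ (ht_v π P ω Om u) χ' hv hχ').2 c f]
  have hterm : ∀ p : Q × Finset (Q × S), zeta π (ht_v π P ω Om u) (τ p.1) p.2 *
      conj (zeta π (ht_v π P ω Om u) (τ p.1 * f) (sdf (tr p.1 c) p.2)) =
      (((P.card : ℝ)⁻¹ * (u (τ p.1) * u (τ p.1 * f)) *
        (ht_w Om ω p.2 * ht_w Om ω (sdf (tr p.1 c) p.2)) : ℝ) : ℂ) := by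
    intro p
    rw [ht_zeta, ht_zeta, Complex.conj_ofReal, ← Complex.ofReal_mul]
    congr 1
    have h1 : (√(P.card : ℝ))⁻¹ * (√(P.card : ℝ))⁻¹ = (P.card : ℝ)⁻¹ := by
      rw [← mul_inv, Real.mul_self_sqrt (by positivity)]
    rw [← h1]
    ring
  rw [finsum_congr hterm]
  rw [finsum_eq_sum_of_support_subset (s := P ×ˢ Om.powerset)]
  · rw [Finset.sum_product, Complex.ofReal_sum]
    refine Finset.sum_congr rfl fun q hq => ?_
    rw [← Complex.ofReal_sum]
    simp only
    rw [← Finset.mul_sum, ht_w_sum (hcOm q hq)]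
    congr 1
    ring
  · intro p hp
    rw [Function.mem_support] at hp
    rw [Finset.mem_coe, Finset.mem_product, Finset.mem_powerset]
    constructor
    · by_contra hP
      apply hp
      rw [hu0 (τ p.1) (by rwa [hτ])]
      simp
    · by_contra hO
      apply hp
      unfold ht_w
      rw [if_neg hO]
      simp

end

theorem htwo (a : Stmt_WtW) (b : Stmt_Fib) (c : Stmt_WRq) : Stmt_H2 := by
  intro Q S E _ _ _ _ gen π gE hgen hE E0 hE0
  have := hE.tg
  -- the data of the extension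
  obtain ⟨u, χ, P, ω, huc, huk, hχ, hχ0, hu1, hu0, hωP, hω, hdeg, hdef, hPne⟩ :=
    hE.bb (E0.image fun k => k.e⁻¹) (by
      intro k hk
      rw [Finset.mem_coe, Finset.mem_image] at hk
      obtain ⟨y, hy, rfl⟩ := hk
      exact inv_mem (hE0 hy).2)
  obtain ⟨τ, hτ⟩ : ∃ τ : Q → E, ∀ q, π (τ q) = q :=
    ⟨Function.surjInv hE.surj, Function.surjInv_eq hE.surj⟩
  set Om : Finset (Q × S) := P.biUnion fun h => tr h (LL gen) with hOm
  have hLOm : ∀ c ⊆ LL gen, ∀ q ∈ P, tr q c ⊆ Om := by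
    intro c hc q hq
    exact (ht_tr_mono q hc).trans (Finset.subset_biUnion_of_mem (fun h => tr h (LL gen)) hq)
  set v := ht_v π P ω Om u with hv
  set χ' : WR S π → ℂ := fun k => ((χ k.e⁻¹ : ℝ) : ℂ) with hχ'
  -- the character
  have h1 : ∀ y, ∀ k ∈ KW π S, v (y * k) = χ' k * v y := by
    rintro y k ⟨hkb, hke⟩
    have e1 : (y * k).b = y.b := by
      rw [WR.mul_b, hkb, tr_empty, sdf_empty]
    have e2 : (y * k).e⁻¹ = y.e⁻¹ * k.e⁻¹ := by
      rw [WR.mul_e, mul_inv_rev]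
      have h := Subgroup.mem_center_iff.1 (hE.cen (inv_mem hke)) y.e⁻¹
      exact h.symm
    have e3 : π (y * k).e = π y.e := by
      rw [WR.mul_e, map_mul, MonoidHom.mem_ker.1 hke, mul_one]
    simp only [hv, ht_v, hχ']
    rw [e1, e3, e2, huk _ _ (inv_mem hke)]
    push_cast
    ring
  have h2 : ∀ k ∈ KW π S, ‖χ' k‖ = 1 := by
    rintro k ⟨-, hke⟩
    rcases hχ _ (inv_mem hke) with h | h <;> simp [hχ', h]
  have h3 : ∀ k ∈ E0, χ' k = 1 := by
    intro k hk
    have := hχ0 k.e⁻¹ (Finset.mem_image_of_mem _ hk)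
    simp [hχ', this]
  -- continuity
  have h4 : ∀ b, Continuous fun e => v ⟨b, e⟩ := by
    intro b
    have hloc : Continuous fun e : E => ht_w Om ω (tr (π e)⁻¹ b) := by
      apply IsLocallyConstant.continuous
      rw [IsLocallyConstant.iff_exists_open]
      intro e
      refine ⟨(fun z => e⁻¹ * z) ⁻¹' (π.ker : Set E), hE.op.preimage (by fun_prop), ?_, ?_⟩
      · simp
      · intro z hz
        have hz' : e⁻¹ * z ∈ π.ker := hz
        rw [MonoidHom.mem_ker, map_mul, map_inv] at hz'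
        have hz'' : π z = π e := (inv_mul_eq_one.1 hz').symm
        rw [hz'']
    simp only [hv, ht_v]
    refine Complex.continuous_ofReal.comp ?_
    exact (continuous_const.mul (huc.comp continuous_inv)).mul hloc
  -- finiteness
  have h5 : {q : WR S π ⧸ KW π S | v q.out ≠ 0}.Finite := by
    rw [(c Q S E π hE.cen τ hτ v χ' h1 h2).1]
    refine (P ×ˢ Om.powerset).finite_toSet.subset ?_
    intro p hp
    rw [Set.mem_ofPred_eq, hv, ht_zeta] at hp
    rw [Finset.mem_coe, Finset.mem_product, Finset.mem_powerset]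
    constructor
    · by_contra hP
      apply hp
      rw [hu0 (τ p.1) (by rwa [hτ])]
      simp
    · by_contra hO
      apply hp
      unfold ht_w
      rw [if_neg hO]
      simp
  have hq : ∀ c ⊆ LL gen, ∀ f, qform (KW π S) v ⟨c, f⟩ =
      ((∑ q ∈ P, sg (tr q c) ω * ((P.card : ℝ)⁻¹ * (u (τ q) * u (τ q * f))) : ℝ) : ℂ) :=
    fun c' hc' f => ht_coeff hE.cen c hτ (χ := χ) h1 h2 hu0 (hLOm c' hc') f
  have hu2 : ∀ q ∈ P, u (τ q) * u (τ q) = 1 := by
    intro q hq
    rcases hu1 (τ q) (by rwa [hτ]) with h | h <;> rw [h] <;> norm_num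
  have hPc : (0 : ℝ) < P.card := by exact_mod_cast Finset.card_pos.2 hPne
  refine ⟨v, χ', h1, h2, h3, h4, h5, ?_, ?_⟩
  · have e : (1 : WR S π) = ⟨∅, 1⟩ := rfl
    rw [e, hq ∅ (Finset.empty_subset _) 1]
    rw [Finset.sum_congr rfl (g := fun _ => (P.card : ℝ)⁻¹)]
    · rw [Finset.sum_const, nsmul_eq_mul, mul_inv_cancel₀ hPc.ne', Complex.ofReal_one]
    · intro q hq
      rw [tr_empty, ht_sg_empty, mul_one, hu2 q hq]
      ring
  · -- the form
    set A : Q → ℝ := fun q => (P.card : ℝ)⁻¹ * (u (τ q) * u (τ q)) with hA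
    set B : S → Q → ℝ := fun s q => (P.card : ℝ)⁻¹ * (u (τ q) * u (τ q * gE s)) with hB
    have hA0 : ∀ q, q ∉ P → A q = 0 := by
      intro q hq
      simp only [hA]
      rw [hu0 (τ q) (by rwa [hτ])]
      ring
    have hB0 : ∀ s q, q ∉ P → B s q = 0 := by
      intro s q hq
      simp only [hB]
      rw [hu0 (τ q) (by rwa [hτ])]
      ring
    have hAP : ∀ q ∈ P, A q = (P.card : ℝ)⁻¹ := by
      intro q hq
      simp only [hA]
      rw [hu2 q hq, mul_one]
    have hL1 : ∀ s, ({((1 : Q), s)} : Finset (Q × S)) ⊆ LL gen := by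
      intro s
      rw [Finset.singleton_subset_iff]
      unfold LL
      rw [Finset.mem_union, Finset.mem_image]
      exact Or.inl ⟨s, Finset.mem_univ _, rfl⟩
    have hL2 : ∀ s, ({((gen s)⁻¹, s)} : Finset (Q × S)) ⊆ LL gen := by
      intro s
      rw [Finset.singleton_subset_iff]
      unfold LL
      rw [Finset.mem_union, Finset.mem_image, Finset.mem_image]
      exact Or.inr ⟨s, Finset.mem_univ _, rfl⟩
    have hqA : ∀ c ⊆ LL gen, (qform (KW π S) v ⟨c, 1⟩).re = ∑ q ∈ P, sg (tr q c) ω * A q := by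
      intro c' hc'
      rw [hq c' hc' 1, Complex.ofReal_re]
      simp only [hA, mul_one]
    have hqB : ∀ c ⊆ LL gen, ∀ s, (qform (KW π S) v ⟨c, gE s⟩).re =
        ∑ q ∈ P, sg (tr q c) ω * B s q := by
      intro c' hc' s
      rw [hq c' hc' (gE s), Complex.ofReal_re]
    have hqA0 : (qform (KW π S) v ⟨∅, 1⟩).re = ∑ q ∈ P, A q := by
      rw [hqA ∅ (Finset.empty_subset _)]
      refine Finset.sum_congr rfl fun q _ => ?_
      rw [tr_empty, ht_sg_empty, one_mul]
    have hqB0 : ∀ s, (qform (KW π S) v ⟨∅, gE s⟩).re = ∑ q ∈ P, B s q := by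
      intro s
      rw [hqB ∅ (Finset.empty_subset _)]
      refine Finset.sum_congr rfl fun q _ => ?_
      rw [tr_empty, ht_sg_empty, one_mul]
    unfold Form
    -- the first part vanishes
    have hfib := b Q S gen ω P A B hA0 hB0
    have hzero : ∑ p ∈ ω, (A p.1 + A (p.1 * gen p.2) + 2 * B p.2 p.1) = 0 := by
      refine Finset.sum_eq_zero fun p hp => ?_
      obtain ⟨hp1, hp2⟩ := hωP p hp
      rw [hAP _ hp1, hAP _ hp2]
      have e := hω (τ p.1) p.2 (by rw [hτ]; exact hp)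
      simp only [hB]
      rw [e]
      have e2 := hu2 p.1 hp1
      have e3 : u (τ p.1) * -u (τ p.1) = -1 := by rw [mul_neg, e2]
      rw [e3]
      ring
    have hfirst : ∑ s, ((qform (KW π S) v ⟨∅, 1⟩).re + (qform (KW π S) v ⟨∅, gE s⟩).re -
        1 / 2 * (qform (KW π S) v ⟨{((1 : Q), s)}, 1⟩).re -
        1 / 2 * (qform (KW π S) v ⟨{((gen s)⁻¹, s)}, 1⟩).re -
        (qform (KW π S) v ⟨{((1 : Q), s)}, gE s⟩).re) = 0 := by
      rw [← hzero, ← hfib]
      refine Finset.sum_congr rfl fun s _ => ?_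
      rw [hqA0, hqB0 s, hqA _ (hL1 s), hqA _ (hL2 s), hqB _ (hL1 s) s]
    rw [hfirst, zero_add]
    -- the second part
    have hsecond : ∑ T ∈ (LL gen).powerset, hW gen T * (qform (KW π S) v ⟨T, 1⟩).re =
        ∑ q ∈ P, (P.card : ℝ)⁻¹ * Wt (dg gen ω q) := by
      have e1 : ∀ T ∈ (LL gen).powerset, hW gen T * (qform (KW π S) v ⟨T, 1⟩).re =
          ∑ q ∈ P, (P.card : ℝ)⁻¹ * (hW gen T * sg (tr q T) ω) := by
        intro T hT
        rw [hqA T (Finset.mem_powerset.1 hT), Finset.mul_sum]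
        refine Finset.sum_congr rfl fun q hq => ?_
        rw [hAP q hq]
        ring
      rw [Finset.sum_congr rfl e1, Finset.sum_comm]
      refine Finset.sum_congr rfl fun q _ => ?_
      rw [← Finset.mul_sum, ← a Q S gen hgen ω q]
    rw [hsecond, ← Finset.mul_sum]
    -- the weights
    have hWt : ∀ q ∈ P, Wt (dg gen ω q) = if dg gen ω q < 1550 then (1 : ℝ) else 0 := by
      intro q hq
      unfold Wt
      rw [if_pos (hdeg q hq)]
    rw [Finset.sum_congr rfl hWt]
    have hcount : ∑ q ∈ P, (if dg gen ω q < 1550 then (1 : ℝ) else 0) =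
        ({h | h ∈ P ∧ dg gen ω h < 1550} : Set Q).ncard := by
      rw [← Finset.sum_filter, Finset.sum_const, nsmul_eq_mul, mul_one]
      congr 1
      rw [← Set.ncard_coe_finset]
      congr 1
      ext q
      simp
    rw [hcount]
    have hdef' : (1000 : ℝ) * ({h | h ∈ P ∧ dg gen ω h < 1550} : Set Q).ncard ≤ P.card := by
      exact_mod_cast hdef
    rw [inv_mul_le_iff₀ hPc]
    linarith

end Pool.Agent.Lib.MP_6b7756_an.GM
end

section

/-!
# MP_6b7756_an, full disproof: existence of the labelling (task E9)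
-/

set_option autoImplicit false

namespace Pool.Agent.Lib.MP_6b7756_an.GM

open Classical in
theorem lbl_ncard_prod {α β : Type} [Fintype α] [Fintype β] (P : α → β → Prop) :
    {q : α × β | P q.1 q.2}.ncard = ∑ a, {b | P a b}.ncard := by
  classical
  have h1 : {q : α × β | P q.1 q.2} =
      ((Finset.univ.sigma fun a => (Finset.univ.filter fun b => P a b)).map
        (Equiv.sigmaEquivProd α β).toEmbedding : Finset (α × β)) := by
    ext ⟨a, b⟩
    simp only [Set.mem_ofPred_eq, Finset.coe_map, Equiv.coe_toEmbedding, Set.mem_image,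
      Finset.mem_coe, Finset.mem_sigma, Finset.mem_univ, Finset.mem_filter, true_and]
    constructor
    · intro h
      exact ⟨⟨a, b⟩, h, rfl⟩
    · rintro ⟨⟨a', b'⟩, h, he⟩
      simp only [Equiv.sigmaEquivProd_apply, Prod.mk.injEq] at he
      obtain ⟨rfl, rfl⟩ := he
      exact h
  rw [h1, Set.ncard_coe_finset, Finset.card_map, Finset.card_sigma]
  refine Finset.sum_congr rfl fun a _ => ?_
  have h2 : {b | P a b} = ((Finset.univ.filter fun b => P a b : Finset β) : Set β) := by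
    ext b
    simp
  rw [h2, Set.ncard_coe_finset]

/-- Cancelling a power. -/
theorem lbl_cancel {A Lm Km Bm NT : ℕ} (hB : 0 < Bm) (hL : Km * Bm ≤ Lm)
    (h : A * Lm ≤ NT * Bm) : A * Km ≤ NT := by
  have h1 : A * Km * Bm ≤ NT * Bm := by
    calc A * Km * Bm = A * (Km * Bm) := by ring
      _ ≤ A * Lm := Nat.mul_le_mul_left _ hL
      _ ≤ NT * Bm := h
  exact Nat.le_of_mul_le_mul_right h1 hB

theorem lbl_geom (K NT j : ℕ) (A : ℕ → ℕ) (hK : 2 ≤ K)
    (h : ∀ i < j, A i * K ^ (i + 1) ≤ NT) :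
    (K - 1) * ∑ i ∈ Finset.range j, A i ≤ NT := by
  have key : ∀ n ≤ j, (K - 1) * K ^ n * ∑ i ∈ Finset.range n, A i ≤ (K ^ n - 1) * NT := by
    intro n
    induction n with
    | zero => intro _; simp
    | succ n ih =>
      intro hn
      have h1 := ih (by omega)
      have h2 := h n (by omega)
      rw [Finset.sum_range_succ]
      obtain ⟨K', rfl⟩ : ∃ K', K = K' + 1 := ⟨K - 1, by omega⟩
      have hp : 1 ≤ (K' + 1) ^ n := Nat.one_le_pow _ _ (by omega)
      have hp' : 1 ≤ (K' + 1) ^ (n + 1) := Nat.one_le_pow _ _ (by omega)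
      obtain ⟨P, hP⟩ : ∃ P, (K' + 1) ^ n = P + 1 := ⟨(K' + 1) ^ n - 1, by omega⟩
      obtain ⟨P', hP'⟩ : ∃ P', (K' + 1) ^ (n + 1) = P' + 1 := ⟨(K' + 1) ^ (n + 1) - 1, by omega⟩
      have hPP : P' + 1 = (P + 1) * (K' + 1) := by rw [← hP', ← hP, pow_succ]
      rw [hP] at h1
      rw [hP'] at h2 ⊢
      simp only [Nat.add_sub_cancel] at h1 ⊢
      have h5 : P' = P * K' + P + K' := by
        have : P' + 1 = P * K' + P + K' + 1 := by rw [hPP]; ring
        omega
      calc K' * (P' + 1) * (∑ x ∈ Finset.range n, A x + A n)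
          = (K' + 1) * (K' * (P + 1) * ∑ x ∈ Finset.range n, A x) + K' * (A n * (P' + 1)) := by
            rw [hPP]; ring
        _ ≤ (K' + 1) * (P * NT) + K' * NT :=
            Nat.add_le_add (Nat.mul_le_mul_left _ h1) (Nat.mul_le_mul_left _ h2)
        _ = P' * NT := by rw [h5]; ring
  have h3 := key j le_rfl
  have hp : 1 ≤ K ^ j := Nat.one_le_pow _ _ (by omega)
  have h4 : (K ^ j) * ((K - 1) * ∑ i ∈ Finset.range j, A i) ≤ K ^ j * NT := by
    calc (K ^ j) * ((K - 1) * ∑ i ∈ Finset.range j, A i)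
        = (K - 1) * K ^ j * ∑ i ∈ Finset.range j, A i := by ring
      _ ≤ (K ^ j - 1) * NT := h3
      _ ≤ K ^ j * NT := Nat.mul_le_mul_right _ (Nat.sub_le _ _)
  exact Nat.le_of_mul_le_mul_left h4 (by omega)

theorem lbl_pow2 (N T Q C m : ℕ) :
    N * C ^ m * (Q ^ m * C ^ m) * T = N * T * (Q * C ^ 2) ^ m := by
  rw [mul_pow, ← pow_mul C 2, mul_comm 2 m, pow_mul C m 2]
  generalize C ^ m = x
  generalize Q ^ m = y
  ring

theorem lbl_pow3 (N T Q C m : ℕ) :
    N * Q ^ m * (C ^ m) ^ 2 * T = N * T * (Q * C ^ 2) ^ m := by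
  rw [mul_pow, ← pow_mul C 2, mul_comm 2 m, pow_mul C m 2]
  generalize C ^ m = x
  generalize Q ^ m = y
  ring

/-- The abstract counting. -/
theorem lbl_main {S : Type} [Fintype S] (h1 : Stmt_Cnt1) (h2 : Stmt_Cnt2) (h3 : Stmt_Cnt3)
    (M E0 D : ℕ) (hE0 : E0 = 100000) (hD : D = 9000)
    (hS : (2 * (1000000 * ((M + 1) ^ E0 * D ^ 2))) ^ 3 ≤ Fintype.card S)
    (j0 j N : ℕ) (_hN1 : 1 ≤ N) (hNM : N ≤ M ^ (E0 * (j + j0)))
    (φ : Ed N → Fin N) (E : Finset (Ed N)) (hdeg : ∀ v, degE φ E v ≤ 9000)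
    (Wd : ∀ i : ℕ, Set (Fin (i + j0 + 1) → S × Bool))
    (hWd : ∀ i < j, (Wd i).ncard ≤ M ^ (E0 * (i + j0)) * D ^ (i + j0 + 1)) :
    ∃ c : Ed N → S, 100000 * ({e : Ed N × Ed N | T1 φ E c e}.ncard +
      (∑ i ∈ Finset.range j, {p : PW N (i + j0 + 1) | T2 φ E c (Wd i) p}.ncard) +
      {p : PW N (j + j0 + 1) × PW N (j + j0 + 1) | T3 φ E c p}.ncard) ≤ N := by
  classical
  obtain ⟨Q, hQ⟩ : ∃ Q, Q = (M + 1) ^ E0 := ⟨_, rfl⟩
  obtain ⟨K, hK⟩ : ∃ K, K = 1000000 := ⟨_, rfl⟩
  obtain ⟨B, hB⟩ : ∃ B, B = Q * D ^ 2 := ⟨_, rfl⟩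
  obtain ⟨L, hL⟩ : ∃ L, L = Fintype.card S := ⟨_, rfl⟩
  obtain ⟨T, hT⟩ : ∃ T, T = L ^ (1000 * N) := ⟨_, rfl⟩
  have hQ1 : 1 ≤ Q := by rw [hQ]; exact Nat.one_le_pow _ _ (by omega)
  have hD1 : 1 ≤ D := by omega
  rw [← hQ, ← hB, ← hK, ← hL] at hS
  have hBpos : 1 ≤ B := by
    rw [hB]
    exact Nat.mul_pos hQ1 (Nat.pow_pos hD1)
  have hKpos : 1 ≤ K := by omega
  have hKB : 1 ≤ K * B := Nat.mul_pos hKpos hBpos
  have hL3 : (K * B) ^ 3 ≤ L := le_trans (Nat.pow_le_pow_left (by omega) 3) hS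
  have hL1 : 2 * (K * B) ≤ L := by
    refine le_trans ?_ hS
    exact Nat.le_self_pow (by norm_num) _
  have hLKB : K * B ≤ L := by omega
  have hLpos : 0 < L := by omega
  have : Nonempty S := Fintype.card_pos_iff.mp (by rw [← hL]; exact hLpos)
  have hpowm : ∀ m : ℕ, K ^ m * B ^ m ≤ L ^ m := fun m => by
    rw [← mul_pow]; exact Nat.pow_le_pow_left hLKB m
  have hMQ : ∀ m : ℕ, M ^ (E0 * m) ≤ Q ^ (m + 1) := fun m => by
    calc M ^ (E0 * m) ≤ (M + 1) ^ (E0 * m) := Nat.pow_le_pow_left (by omega) _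
      _ = Q ^ m := by rw [pow_mul, hQ]
      _ ≤ Q ^ (m + 1) := Nat.pow_le_pow_right (by omega) (by omega)
  -- type 1
  obtain ⟨a1, ha1⟩ : ∃ a1 : (Ed N → S) → ℕ, ∀ c, a1 c = {e : Ed N × Ed N | T1 φ E c e}.ncard :=
    ⟨_, fun _ => rfl⟩
  obtain ⟨a2, ha2⟩ : ∃ a2 : ℕ → (Ed N → S) → ℕ, ∀ i c,
    a2 i c = {p : PW N (i + j0 + 1) | T2 φ E c (Wd i) p}.ncard := ⟨_, fun _ _ => rfl⟩
  obtain ⟨a3, ha3⟩ : ∃ a3 : (Ed N → S) → ℕ, ∀ c, a3 c =
    {p : PW N (j + j0 + 1) × PW N (j + j0 + 1) | T3 φ E c p}.ncard := ⟨_, fun _ => rfl⟩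
  have b1 : (∑ c, a1 c) * K ≤ N * T := by
    have e1 := h1 S N φ E hdeg
    rw [lbl_ncard_prod (fun (c : Ed N → S) e => T1 φ E c e)] at e1
    simp only [← ha1] at e1
    rw [← hL, ← hT, ← hD] at e1
    refine lbl_cancel (Bm := 2 * D ^ 2) (by positivity) (Lm := L) ?_ ?_
    · refine le_trans ?_ hL1
      have h9 : D ^ 2 ≤ B := by
        rw [hB]
        exact Nat.le_mul_of_pos_left _ hQ1
      calc K * (2 * D ^ 2) = 2 * (K * D ^ 2) := by ring
        _ ≤ 2 * (K * B) := Nat.mul_le_mul_left _ (Nat.mul_le_mul_left K h9)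
    · calc (∑ c, a1 c) * L ≤ 2 * N * D ^ 2 * T := e1
        _ = N * T * (2 * D ^ 2) := by ring
  have b2 : ∀ i < j, (∑ c, a2 i c) * K ^ (i + 1) ≤ N * T := by
    intro i hi
    have e2 := h2 S N (i + j0 + 1) φ E (Wd i) hdeg
    rw [lbl_ncard_prod (fun (c : Ed N → S) p => T2 φ E c (Wd i) p)] at e2
    simp only [← ha2] at e2
    rw [← hL, ← hT, ← hD] at e2
    have e3 : (∑ c, a2 i c) * K ^ (i + j0 + 1) ≤ N * T := by
      refine lbl_cancel (Bm := B ^ (i + j0 + 1)) (Nat.pow_pos hBpos) (hpowm _) ?_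
      refine le_trans e2 ?_
      have e4 : (Wd i).ncard ≤ Q ^ (i + j0 + 1) * D ^ (i + j0 + 1) :=
        le_trans (hWd i hi) (Nat.mul_le_mul_right _ (hMQ _))
      calc N * D ^ (i + j0 + 1) * (Wd i).ncard * T
          ≤ N * D ^ (i + j0 + 1) * (Q ^ (i + j0 + 1) * D ^ (i + j0 + 1)) * T :=
            Nat.mul_le_mul_right _ (Nat.mul_le_mul_left _ e4)
        _ = N * T * B ^ (i + j0 + 1) := by
            rw [hB]; exact lbl_pow2 N T Q D (i + j0 + 1)
    refine le_trans (Nat.mul_le_mul_left _ ?_) e3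
    exact Nat.pow_le_pow_right hKpos (by omega)
  have b3 : (∑ c, a3 c) * K ≤ N * T := by
    have e2 := h3 S N (j + j0 + 1) φ E hdeg
    rw [lbl_ncard_prod (fun (c : Ed N → S) p => T3 φ E c p)] at e2
    simp only [← ha3] at e2
    rw [← hL, ← hT, ← hD] at e2
    have e3 : (∑ c, a3 c) * K ^ (j + j0 + 1) ≤ N * T := by
      refine lbl_cancel (Bm := B ^ (j + j0 + 1)) (Nat.pow_pos hBpos)
        (Lm := L ^ ((j + j0 + 1 + 2) / 3)) ?_ ?_
      · rw [← mul_pow]
        calc (K * B) ^ (j + j0 + 1) ≤ (K * B) ^ (3 * ((j + j0 + 1 + 2) / 3)) :=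
              Nat.pow_le_pow_right hKB (by omega)
          _ = ((K * B) ^ 3) ^ ((j + j0 + 1 + 2) / 3) := by rw [pow_mul]
          _ ≤ L ^ ((j + j0 + 1 + 2) / 3) := Nat.pow_le_pow_left hL3 _
      · refine le_trans e2 ?_
        have e4 : N ≤ Q ^ (j + j0 + 1) := le_trans hNM (hMQ _)
        calc (N * D ^ (j + j0 + 1)) ^ 2 * T
            = N * N * (D ^ (j + j0 + 1)) ^ 2 * T := by
              generalize D ^ (j + j0 + 1) = x
              ring
          _ ≤ N * Q ^ (j + j0 + 1) * (D ^ (j + j0 + 1)) ^ 2 * T :=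
              Nat.mul_le_mul_right _ (Nat.mul_le_mul_right _ (Nat.mul_le_mul_left _ e4))
          _ = N * T * B ^ (j + j0 + 1) := by
              rw [hB]; exact lbl_pow3 N T Q D (j + j0 + 1)
    refine le_trans (Nat.mul_le_mul_left _ ?_) e3
    calc K = K ^ 1 := (pow_one K).symm
      _ ≤ K ^ (j + j0 + 1) := Nat.pow_le_pow_right hKpos (by omega)
  have b2' := lbl_geom K (N * T) j (fun i => ∑ c, a2 i c) (by omega) b2
  -- the good labelling
  have hsum : 100000 * ∑ c, (a1 c + (∑ i ∈ Finset.range j, a2 i c) + a3 c) ≤ N * T := by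
    have e1 : ∑ c, (a1 c + (∑ i ∈ Finset.range j, a2 i c) + a3 c) =
        (∑ c, a1 c) + (∑ i ∈ Finset.range j, ∑ c, a2 i c) + ∑ c, a3 c := by
      rw [Finset.sum_add_distrib, Finset.sum_add_distrib]
      congr 2
      exact Finset.sum_comm
    rw [e1]
    have hK1 : K - 1 = 999999 := by omega
    rw [hK1] at b2'
    rw [hK] at b1 b3
    generalize (∑ c, a1 c) = x at b1 ⊢
    generalize (∑ i ∈ Finset.range j, ∑ c, a2 i c) = y at b2' ⊢
    generalize (∑ c, a3 c) = z at b3 ⊢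
    generalize N * T = w at b1 b2' b3 ⊢
    omega
  have hex : ∃ c, 100000 * (a1 c + (∑ i ∈ Finset.range j, a2 i c) + a3 c) ≤ N := by
    by_contra hcon
    push Not at hcon
    have hcard : (Finset.univ : Finset (Ed N → S)).card = T := by
      rw [Finset.card_univ, Fintype.card_fun, hT, hL]
      congr 1
      rw [Fintype.card_prod, Fintype.card_fin, Fintype.card_fin, mul_comm]
    have e1 : ∑ _c : Ed N → S, N <
        ∑ c : Ed N → S, 100000 * (a1 c + (∑ i ∈ Finset.range j, a2 i c) + a3 c) := by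
      apply Finset.sum_lt_sum_of_nonempty Finset.univ_nonempty
      intro c _
      exact hcon c
    rw [Finset.sum_const, hcard, smul_eq_mul, ← Finset.mul_sum] at e1
    rw [mul_comm T N] at e1
    exact absurd hsum (not_le.mpr e1)
  obtain ⟨c, hc⟩ := hex
  refine ⟨c, ?_⟩
  simp only [ha1, ha2, ha3] at hc
  exact hc

theorem lbl_remove {S : Type} [Fintype S] (j0 j N : ℕ)
    (φ : Ed N → Fin N) (E : Finset (Ed N))
    (Wd : ∀ i : ℕ, Set (Fin (i + j0 + 1) → S × Bool)) (c : Ed N → S)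
    (hc : 100000 * ({e : Ed N × Ed N | T1 φ E c e}.ncard +
      (∑ i ∈ Finset.range j, {p : PW N (i + j0 + 1) | T2 φ E c (Wd i) p}.ncard) +
      {p : PW N (j + j0 + 1) × PW N (j + j0 + 1) | T3 φ E c p}.ncard) ≤ N) :
    ∃ (E' : Finset (Ed N)), E' ⊆ E ∧ 10 ^ 5 * (E \ E').card ≤ N ∧
      (∀ e, ¬ T1 φ E' c e) ∧ (∀ i < j, ∀ p, ¬ T2 φ E' c (Wd i) p) ∧
      (∀ p : PW N (j + j0 + 1) × PW N (j + j0 + 1), ¬ T3 φ E' c p) := by
  classical
  have f1 : {e : Ed N × Ed N | T1 φ E c e}.Finite := Set.toFinite _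
  have f2 : ∀ i, {p : PW N (i + j0 + 1) | T2 φ E c (Wd i) p}.Finite := fun i => Set.toFinite _
  have f3 : {p : PW N (j + j0 + 1) × PW N (j + j0 + 1) | T3 φ E c p}.Finite := Set.toFinite _
  obtain ⟨R1, hR1⟩ : ∃ R1 : Finset (Ed N), R1 = f1.toFinset.image (fun e => e.1) := ⟨_, rfl⟩
  obtain ⟨R2, hR2⟩ : ∃ R2 : Finset (Ed N), R2 = (Finset.range j).biUnion
    (fun i => (f2 i).toFinset.image (fun p => pwE p 0)) := ⟨_, rfl⟩
  obtain ⟨R3, hR3⟩ : ∃ R3 : Finset (Ed N), R3 = f3.toFinset.image (fun p => pwE p.1 0) :=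
    ⟨_, rfl⟩
  refine ⟨E \ (R1 ∪ R2 ∪ R3), Finset.sdiff_subset, ?_, ?_, ?_, ?_⟩
  · have g1 : R1.card ≤ {e : Ed N × Ed N | T1 φ E c e}.ncard := by
      rw [hR1]
      refine le_trans Finset.card_image_le ?_
      rw [Set.ncard_eq_toFinset_card _ f1]
    have g2 : R2.card ≤
        ∑ i ∈ Finset.range j, {p : PW N (i + j0 + 1) | T2 φ E c (Wd i) p}.ncard := by
      rw [hR2]
      refine le_trans Finset.card_biUnion_le ?_
      refine Finset.sum_le_sum fun i _ => ?_
      refine le_trans Finset.card_image_le ?_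
      rw [Set.ncard_eq_toFinset_card _ (f2 i)]
    have g3 : R3.card ≤ {p : PW N (j + j0 + 1) × PW N (j + j0 + 1) | T3 φ E c p}.ncard := by
      rw [hR3]
      refine le_trans Finset.card_image_le ?_
      rw [Set.ncard_eq_toFinset_card _ f3]
    have g4 : (E \ (E \ (R1 ∪ R2 ∪ R3))).card ≤ R1.card + R2.card + R3.card := by
      calc (E \ (E \ (R1 ∪ R2 ∪ R3))).card ≤ (R1 ∪ R2 ∪ R3).card := by
            apply Finset.card_le_card
            intro x hx
            simp only [Finset.mem_sdiff, not_and, not_not] at hx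
            exact hx.2 hx.1
        _ ≤ (R1 ∪ R2).card + R3.card := Finset.card_union_le _ _
        _ ≤ R1.card + R2.card + R3.card := Nat.add_le_add_right (Finset.card_union_le _ _) _
    have g5 : (10 : ℕ) ^ 5 = 100000 := by norm_num
    rw [g5]
    omega
  · intro e he
    obtain ⟨he1, he2, hne, hst, hcc⟩ := he
    rw [Finset.mem_sdiff] at he1 he2
    apply he1.2
    rw [Finset.mem_union, Finset.mem_union]
    refine Or.inl (Or.inl ?_)
    rw [hR1, Finset.mem_image]
    exact ⟨e, by rw [Set.Finite.mem_toFinset]; exact ⟨he1.1, he2.1, hne, hst, hcc⟩, rfl⟩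
  · intro i hi p hp
    obtain ⟨⟨hinj, hstep⟩, hw⟩ := hp
    have h0 := (hstep 0).1
    rw [Finset.mem_sdiff] at h0
    apply h0.2
    rw [Finset.mem_union, Finset.mem_union]
    refine Or.inl (Or.inr ?_)
    rw [hR2, Finset.mem_biUnion]
    refine ⟨i, Finset.mem_range.mpr hi, ?_⟩
    rw [Finset.mem_image]
    refine ⟨p, ?_, rfl⟩
    rw [Set.Finite.mem_toFinset]
    exact ⟨⟨hinj, fun t => ⟨(Finset.mem_sdiff.mp (hstep t).1).1, (hstep t).2⟩⟩, hw⟩
  · intro p hp
    obtain ⟨⟨hinj, hstep⟩, ⟨hinj', hstep'⟩, hne, hcc⟩ := hp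
    have h0 := (hstep 0).1
    rw [Finset.mem_sdiff] at h0
    apply h0.2
    rw [Finset.mem_union, Finset.mem_union]
    refine Or.inr ?_
    rw [hR3, Finset.mem_image]
    refine ⟨p, ?_, rfl⟩
    rw [Set.Finite.mem_toFinset]
    exact ⟨⟨hinj, fun t => ⟨(Finset.mem_sdiff.mp (hstep t).1).1, (hstep t).2⟩⟩,
      ⟨hinj', fun t => ⟨(Finset.mem_sdiff.mp (hstep' t).1).1, (hstep' t).2⟩⟩, hne, hcc⟩

theorem label (h1 : Stmt_Cnt1) (h2 : Stmt_Cnt2) (h3 : Stmt_Cnt3) : Stmt_Label := by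
  intro M
  obtain ⟨E0, hE0⟩ : ∃ E0, E0 = 100000 := ⟨_, rfl⟩
  obtain ⟨D, hD⟩ : ∃ D, D = 9000 := ⟨_, rfl⟩
  refine ⟨(2 * (1000000 * ((M + 1) ^ E0 * D ^ 2))) ^ 3, Nat.one_le_pow _ _ ?_, ?_⟩
  · have e1 : 0 < (M + 1) ^ E0 := Nat.pow_pos (by omega)
    have e2 : 0 < D ^ 2 := Nat.pow_pos (by omega)
    exact Nat.mul_pos (by norm_num) (Nat.mul_pos (by norm_num) (Nat.mul_pos e1 e2))
  intro S _ hS j0 j N hN1 hNM φ E hdeg Wd hWd
  rw [← hE0] at hNM
  have hWd' : ∀ i < j, (Wd i).ncard ≤ M ^ (E0 * (i + j0)) * D ^ (i + j0 + 1) := by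
    intro i hi
    have := hWd i hi
    rw [← hE0, ← hD] at this
    exact this
  obtain ⟨c, hc⟩ := lbl_main h1 h2 h3 M E0 D hE0 hD hS j0 j N hN1 hNM φ E hdeg Wd hWd'
  exact ⟨c, lbl_remove j0 j N φ E Wd c hc⟩

end Pool.Agent.Lib.MP_6b7756_an.GM
end

section

/-!
# MP_6b7756_an: layer cake form of (A) (task D1)
-/

set_option autoImplicit false

open scoped ComplexConjugate Classical

namespace Pool.Agent.Lib.MP_6b7756_an.GM

theorem ly_count {Q S : Type} [Group Q] [Fintype S] (gen : S → Q) (hA : SparseA gen)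
    (ω : Finset (Q × S)) (U : Finset Q) (σ : Q → Bool) :
    (ω.filter (fun p => σ p.1 ≠ σ (p.1 * gen p.2) ∧ (p.1 ∈ U ∧ p.1 * gen p.2 ∈ U))).card ≤
      760 * U.card := by
  refine le_trans ?_ (hA U σ)
  rw [← Set.ncard_coe_finset]
  refine Set.ncard_le_ncard ?_ ?_
  · intro p hp
    rw [Finset.mem_coe, Finset.mem_filter] at hp
    exact ⟨hp.2.2.1, hp.2.2.2, hp.2.1⟩
  · refine Set.Finite.subset (Finset.finite_toSet (U ×ˢ (Finset.univ : Finset S))) ?_
    rintro p ⟨hp, _, _⟩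
    rw [Finset.mem_coe, Finset.mem_product]
    exact ⟨hp, Finset.mem_univ _⟩

theorem ly_main {Q S : Type} [Group Q] [Fintype S] (gen : S → Q) (hA : SparseA gen)
    (ω : Finset (Q × S)) (P : Finset Q) (σ : Q → Bool) (n : ℕ) :
    ∀ f : Q → ℝ, (∀ h, 0 ≤ f h) → (∀ h, h ∉ P → f h = 0) →
      (P.filter (fun h => f h ≠ 0)).card = n →
      ∑ p ∈ ω with σ p.1 ≠ σ (p.1 * gen p.2), min (f p.1) (f (p.1 * gen p.2)) ≤
        760 * ∑ h ∈ P, f h := by
  induction n using Nat.strong_induction_on with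
  | _ n ih =>
    intro f hf0 hfP hn
    rcases Finset.eq_empty_or_nonempty (P.filter (fun h => f h ≠ 0)) with he | hne
    · have hz : ∀ h, f h = 0 := by
        intro h
        by_contra hh
        have hP : h ∈ P := by
          by_contra h'
          exact hh (hfP h h')
        have : h ∈ P.filter (fun h => f h ≠ 0) := Finset.mem_filter.mpr ⟨hP, hh⟩
        rw [he] at this
        simp at this
      simp [hz]
    · obtain ⟨h₀, hh₀, hmin⟩ := Finset.exists_min_image (P.filter (fun h => f h ≠ 0)) f hne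
      set U := P.filter (fun h => f h ≠ 0) with hU
      set m := f h₀ with hm
      have hm0 : 0 < m := by
        rw [hU, Finset.mem_filter] at hh₀
        exact lt_of_le_of_ne (hf0 h₀) (Ne.symm hh₀.2)
      have hnU : ∀ h, h ∉ U → f h = 0 := by
        intro h hh
        by_contra h1
        apply hh
        rw [hU, Finset.mem_filter]
        refine ⟨?_, h1⟩
        by_contra h2
        exact h1 (hfP h h2)
      have hUP : U ⊆ P := Finset.filter_subset _ _
      let f' : Q → ℝ := fun h => if h ∈ U then f h - m else 0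
      have hf'0 : ∀ h, 0 ≤ f' h := by
        intro h
        simp only [f']
        split_ifs with h1
        · linarith [hmin h h1]
        · exact le_refl _
      have hf'P : ∀ h, h ∉ P → f' h = 0 := by
        intro h hh
        simp only [f']
        rw [if_neg (fun h1 => hh (hUP h1))]
      have hcard : (P.filter (fun h => f' h ≠ 0)).card < n := by
        rw [← hn]
        apply Finset.card_lt_card
        rw [Finset.ssubset_iff_of_subset]
        · refine ⟨h₀, hh₀, ?_⟩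
          rw [Finset.mem_filter]
          rintro ⟨_, h1⟩
          apply h1
          simp only [f']
          rw [if_pos hh₀, ← hm, sub_self]
        · intro h hh
          rw [Finset.mem_filter] at hh
          by_contra h1
          apply hh.2
          simp only [f']
          rw [if_neg h1]
      have hih := ih _ hcard f' hf'0 hf'P rfl
      have hmineq : ∀ x y, min (f x) (f y) =
          min (f' x) (f' y) + (if x ∈ U ∧ y ∈ U then m else 0) := by
        intro x y
        by_cases hx : x ∈ U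
        · by_cases hy : y ∈ U
          · simp only [f', hx, hy, if_true, and_self]
            rw [min_sub_sub_right]
            ring
          · have e1 : f y = 0 := hnU y hy
            have e2 : f' y = 0 := by simp only [f']; rw [if_neg hy]
            rw [e1, e2, if_neg (fun h => hy h.2), min_eq_right (hf0 x), min_eq_right (hf'0 x)]
            ring
        · have e1 : f x = 0 := hnU x hx
          have e2 : f' x = 0 := by simp only [f']; rw [if_neg hx]
          rw [e1, e2, if_neg (fun h => hx h.1), min_eq_left (hf0 y), min_eq_left (hf'0 y)]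
          ring
      have hsum1 : ∑ p ∈ ω with σ p.1 ≠ σ (p.1 * gen p.2), min (f p.1) (f (p.1 * gen p.2)) =
          ∑ p ∈ ω with σ p.1 ≠ σ (p.1 * gen p.2), min (f' p.1) (f' (p.1 * gen p.2)) +
          (ω.filter (fun p => σ p.1 ≠ σ (p.1 * gen p.2) ∧ (p.1 ∈ U ∧ p.1 * gen p.2 ∈ U))).card
            * m := by
        rw [Finset.sum_congr rfl (fun p _ => hmineq p.1 (p.1 * gen p.2)),
          Finset.sum_add_distrib]
        congr 1
        rw [← Finset.sum_filter, Finset.filter_filter, Finset.sum_const, nsmul_eq_mul]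
      have hsum2 : ∑ h ∈ P, f h = ∑ h ∈ P, f' h + U.card * m := by
        have e1 : ∀ h ∈ P, f h = f' h + (if h ∈ U then m else 0) := by
          intro h _
          by_cases hx : h ∈ U
          · simp only [f', hx, if_true]
            ring
          · simp only [f', hx, if_false]
            rw [hnU h hx]
            ring
        have e2 : ∑ h ∈ P, (if h ∈ U then m else 0) = U.card * m := by
          rw [← Finset.sum_filter, Finset.filter_mem_eq_inter, Finset.inter_eq_right.mpr hUP,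
            Finset.sum_const, nsmul_eq_mul]
        rw [Finset.sum_congr rfl e1, Finset.sum_add_distrib, e2]
      have hc : ((ω.filter (fun p => σ p.1 ≠ σ (p.1 * gen p.2) ∧
          (p.1 ∈ U ∧ p.1 * gen p.2 ∈ U))).card : ℝ) ≤ 760 * U.card := by
        exact_mod_cast ly_count gen hA ω U σ
      rw [hsum1, hsum2]
      have := mul_le_mul_of_nonneg_right hc hm0.le
      linarith

theorem layer : Stmt_Layer := by
  intro Q S _ _ gen hA ω P f σ hf0 hfP
  exact ly_main gen hA ω P σ _ f hf0 hfP rfl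

end Pool.Agent.Lib.MP_6b7756_an.GM
end

section

/-!
# MP_6b7756_an, full disproof: a limit of coefficients under (H2)
-/

set_option autoImplicit false

open scoped ComplexConjugate Classical
open MeasureTheory Topology

namespace Pool.Agent.Lib.MP_6b7756_an.GM

/-- representatives differ by an element of `K` -/
theorem la_out {G : Type} [Group G] (K : Subgroup G) (y : G) :
    ∃ k ∈ K, ((y : G ⧸ K)).out = y * k := by
  have h : (((y : G ⧸ K)).out : G ⧸ K) = (y : G ⧸ K) := Quotient.out_eq' _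
  refine ⟨y⁻¹ * ((y : G ⧸ K)).out, ?_, by group⟩
  exact QuotientGroup.eq.1 h.symm

/-- the integral of a `K`-invariant function with finite support modulo `K` -/
theorem la_integral {G : Type} [Group G] [TopologicalSpace G] [IsTopologicalGroup G]
    [LocallyCompactSpace G] [T2Space G] [MeasurableSpace G] [BorelSpace G] (K : Subgroup G)
    (hK : IsOpen (K : Set G)) (hKc : IsCompact (K : Set G)) (f : G → ℂ)
    (hf : ∀ y, ∀ k ∈ K, f (y * k) = f y) (hfin : {q : G ⧸ K | f q.out ≠ 0}.Finite) :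
    ∫ y, f y ∂(Measure.haar : Measure G) =
      ((Measure.haar : Measure G).real K : ℂ) * ∑ᶠ q : G ⧸ K, f q.out := by
  have hmk : ∀ y : G, f ((y : G ⧸ K)).out = f y := by
    intro y
    obtain ⟨k, hk, h⟩ := la_out K y
    rw [h, hf y k hk]
  -- cosets
  have hcos : ∀ q : G ⧸ K, {y : G | (y : G ⧸ K) = q} = (fun y => q.out⁻¹ * y) ⁻¹' (K : Set G) := by
    intro q
    ext y
    have h : ((q.out : G) : G ⧸ K) = q := Quotient.out_eq' q
    rw [Set.mem_ofPred_eq, Set.mem_preimage, SetLike.mem_coe]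
    constructor
    · intro hy
      apply QuotientGroup.eq.1
      rw [h, hy]
    · intro hy
      rw [← h]
      exact (QuotientGroup.eq.2 hy).symm
  have hmeas : ∀ q : G ⧸ K, MeasurableSet {y : G | (y : G ⧸ K) = q} := by
    intro q
    rw [hcos q]
    exact (hK.preimage (continuous_const_mul _)).measurableSet
  have hvol : ∀ q : G ⧸ K, (Measure.haar : Measure G) {y : G | (y : G ⧸ K) = q} =
      (Measure.haar : Measure G) K := by
    intro q
    rw [hcos q]
    exact measure_preimage_mul _ _ _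
  have hKfin : (Measure.haar : Measure G) K ≠ ⊤ := hKc.measure_ne_top
  have hdec : f = fun y => ∑ q ∈ hfin.toFinset,
      ({y : G | (y : G ⧸ K) = q}).indicator (fun _ => f q.out) y := by
    funext y
    by_cases hy : (y : G ⧸ K) ∈ hfin.toFinset
    · rw [Finset.sum_eq_single_of_mem _ hy]
      · rw [Set.indicator_of_mem (by exact rfl)]
        exact (hmk y).symm
      · intro q _ hq
        exact Set.indicator_of_notMem (fun h => hq h.symm) _
    · rw [Finset.sum_eq_zero]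
      · rw [Set.Finite.mem_toFinset, Set.mem_ofPred_eq, not_not, hmk] at hy
        exact hy
      · intro q hq
        apply Set.indicator_of_notMem
        rintro rfl
        exact hy hq
  calc ∫ y, f y ∂(Measure.haar : Measure G)
      = ∫ y, ∑ q ∈ hfin.toFinset,
        ({y : G | (y : G ⧸ K) = q}).indicator (fun _ => f q.out) y
          ∂(Measure.haar : Measure G) := by rw [← hdec]
    _ = ∑ q ∈ hfin.toFinset, ∫ y, ({y : G | (y : G ⧸ K) = q}).indicator (fun _ => f q.out) y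
          ∂(Measure.haar : Measure G) := by
        apply integral_finsetSum
        intro q _
        rw [integrable_indicator_iff (hmeas q)]
        refine integrableOn_const ?_ ?_
        · rw [hvol q]
          exact hKfin
        · exact enorm_ne_top
    _ = ∑ q ∈ hfin.toFinset, ((Measure.haar : Measure G).real K : ℂ) * f q.out := by
        refine Finset.sum_congr rfl fun q _ => ?_
        rw [integral_indicator_const _ (hmeas q), Measure.real, hvol q, Complex.real_smul]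
        rfl
    _ = ((Measure.haar : Measure G).real K : ℂ) * ∑ᶠ q : G ⧸ K, f q.out := by
        rw [← Finset.mul_sum, finsum_eq_sum_of_support_subset]
        intro q hq
        rw [Set.Finite.coe_toFinset]
        exact hq

/-- Cauchy-Schwarz for the coefficients -/
theorem la_norm_le {G : Type} [Group G] (K : Subgroup G) (v χ : G → ℂ)
    (hv : ∀ y, ∀ k ∈ K, v (y * k) = χ k * v y) (hχ : ∀ k ∈ K, ‖χ k‖ = 1)
    (hfin : {q : G ⧸ K | v q.out ≠ 0}.Finite) (h1 : qform K v 1 = 1) (x : G) :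
    ‖qform K v x‖ ≤ 1 := by
  have hnorm : ∀ y : G, ‖v ((y : G ⧸ K)).out‖ = ‖v y‖ := by
    intro y
    obtain ⟨k, hk, h⟩ := la_out K y
    rw [h, hv y k hk, norm_mul, hχ k hk, one_mul]
  have hsum : ∑ᶠ q : G ⧸ K, ‖v q.out‖ ^ 2 = 1 := by
    have e1 : qform K v 1 = ∑ᶠ q : G ⧸ K, ((‖v q.out‖ ^ 2 : ℝ) : ℂ) := by
      unfold qform
      apply finsum_congr
      intro q
      rw [inv_one, one_mul, Complex.mul_conj, Complex.normSq_eq_norm_sq]
    rw [h1] at e1
    have e2 : ((∑ᶠ q : G ⧸ K, ‖v q.out‖ ^ 2 : ℝ) : ℂ) =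
        ∑ᶠ q : G ⧸ K, ((‖v q.out‖ ^ 2 : ℝ) : ℂ) := by
      have := AddMonoidHom.map_finsum_of_injective (Complex.ofRealHom : ℝ →+* ℂ).toAddMonoidHom
        Complex.ofReal_injective (fun q : G ⧸ K => ‖v q.out‖ ^ 2)
      exact this
    rw [← e2] at e1
    exact_mod_cast e1.symm
  -- the translate
  have hsum' : ∑ᶠ q : G ⧸ K, ‖v (x⁻¹ * q.out)‖ ^ 2 = 1 := by
    rw [← hsum]
    have e : ∀ q : G ⧸ K, ‖v (x⁻¹ * q.out)‖ ^ 2 = ‖v (x⁻¹ • q).out‖ ^ 2 := by
      intro q
      rw [← hnorm (x⁻¹ * q.out)]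
      congr 4
      have h : ((q.out : G) : G ⧸ K) = q := Quotient.out_eq' q
      calc ((x⁻¹ * q.out : G) : G ⧸ K) = x⁻¹ • ((q.out : G) : G ⧸ K) := rfl
        _ = x⁻¹ • q := by rw [h]
    rw [finsum_congr e]
    exact finsum_comp_equiv (MulAction.toPerm (x⁻¹ : G)) (f := fun q : G ⧸ K => ‖v q.out‖ ^ 2)
  have hfin2 : (Function.support fun q : G ⧸ K => ‖v q.out‖ ^ 2).Finite := by
    refine hfin.subset ?_
    intro q hq
    rw [Function.mem_support] at hq
    intro h
    apply hq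
    rw [h, norm_zero]
    norm_num
  have hfin3 : (Function.support fun q : G ⧸ K => ‖v (x⁻¹ * q.out)‖ ^ 2).Finite := by
    by_contra hcon
    have := finsum_of_infinite_support hcon
    rw [hsum'] at this
    exact one_ne_zero this
  obtain ⟨s, hs⟩ : ∃ s : Finset (G ⧸ K), (∀ q, ‖v q.out‖ ^ 2 ≠ 0 → q ∈ s) ∧
      ∀ q : G ⧸ K, ‖v (x⁻¹ * q.out)‖ ^ 2 ≠ 0 → q ∈ s := by
    refine ⟨hfin2.toFinset ∪ hfin3.toFinset, ?_, ?_⟩
    · intro q hq
      exact Finset.mem_union_left _ (hfin2.mem_toFinset.2 hq)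
    · intro q hq
      exact Finset.mem_union_right _ (hfin3.mem_toFinset.2 hq)
  have e1 : ∑ q ∈ s, ‖v q.out‖ ^ 2 = 1 := by
    rw [← hsum, finsum_eq_sum_of_support_subset]
    intro q hq
    exact hs.1 q hq
  have e2 : ∑ q ∈ s, ‖v (x⁻¹ * q.out)‖ ^ 2 = 1 := by
    rw [← hsum', finsum_eq_sum_of_support_subset]
    intro q hq
    exact hs.2 q hq
  have e3 : qform K v x = ∑ q ∈ s, v q.out * conj (v (x⁻¹ * q.out)) := by
    unfold qform
    apply finsum_eq_sum_of_support_subset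
    intro q hq
    apply hs.1 q
    intro h
    apply hq
    have h2 : v q.out = 0 := by
      rw [← norm_eq_zero]
      exact pow_eq_zero_iff (two_ne_zero) |>.1 h
    simp only [h2, zero_mul]
  rw [e3]
  calc ‖∑ q ∈ s, v q.out * conj (v (x⁻¹ * q.out))‖
      ≤ ∑ q ∈ s, ‖v q.out * conj (v (x⁻¹ * q.out))‖ := norm_sum_le _ _
    _ ≤ ∑ q ∈ s, (1 / 2 * ‖v q.out‖ ^ 2 + 1 / 2 * ‖v (x⁻¹ * q.out)‖ ^ 2) := by
        refine Finset.sum_le_sum fun q _ => ?_
        rw [norm_mul, RCLike.norm_conj]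
        nlinarith [sq_nonneg (‖v q.out‖ - ‖v (x⁻¹ * q.out)‖)]
    _ = 1 := by
        rw [Finset.sum_add_distrib, ← Finset.mul_sum, ← Finset.mul_sum, e1, e2]
        norm_num

/-- the coefficient of `v` is a coefficient of the regular representation -/
theorem la_coeff {G : Type} [Group G] [TopologicalSpace G] [IsTopologicalGroup G]
    [LocallyCompactSpace G] [T2Space G] [MeasurableSpace G] [BorelSpace G] (K : Subgroup G)
    (hK : IsOpen (K : Set G)) (hKc : IsCompact (K : Set G)) (v χ : G → ℂ)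
    (hv : ∀ y, ∀ k ∈ K, v (y * k) = χ k * v y) (hχ : ∀ k ∈ K, ‖χ k‖ = 1) (hcont : Continuous v)
    (hfin : {q : G ⧸ K | v q.out ≠ 0}.Finite) :
    ∃ ξ : G → ℂ, MemLp ξ 2 (Measure.haar : Measure G) ∧
      ∀ x : G, qform K v x = ∫ y, ξ y * (starRingEnd ℂ) (ξ (x⁻¹ * y))
        ∂(Measure.haar : Measure G) := by
  have hKfin : (Measure.haar : Measure G) K ≠ ⊤ := hKc.measure_ne_top
  have hKpos : (Measure.haar : Measure G) K ≠ 0 :=
    (hK.measure_pos _ ⟨1, K.one_mem⟩).ne'
  obtain ⟨m, hm⟩ : ∃ m : ℝ, m = (Measure.haar : Measure G).real K := ⟨_, rfl⟩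
  have hmpos : 0 < m := by
    rw [hm, Measure.real]
    exact ENNReal.toReal_pos hKpos hKfin
  obtain ⟨a, ha⟩ : ∃ a : ℝ, a = (Real.sqrt m)⁻¹ := ⟨_, rfl⟩
  have ham : a * a * m = 1 := by
    rw [ha]
    have h1 := Real.mul_self_sqrt hmpos.le
    have h2 : Real.sqrt m ≠ 0 := (Real.sqrt_pos.2 hmpos).ne'
    field_simp
    nlinarith
  -- compact support
  have hsupp : HasCompactSupport v := by
    refine HasCompactSupport.intro (K := ⋃ q ∈ hfin.toFinset, (fun k => (q : G ⧸ K).out * k) ''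
      (K : Set G)) ?_ ?_
    · refine Finset.isCompact_biUnion _ fun q _ => ?_
      exact hKc.image (continuous_const_mul _)
    · intro y hy
      by_contra hne
      apply hy
      obtain ⟨k, hk, h⟩ := la_out K y
      rw [Set.mem_iUnion₂]
      refine ⟨(y : G ⧸ K), ?_, k⁻¹, K.inv_mem hk, ?_⟩
      · rw [Set.Finite.mem_toFinset, Set.mem_ofPred_eq, h, hv y k hk]
        refine mul_ne_zero ?_ hne
        rw [← norm_ne_zero_iff, hχ k hk]
        exact one_ne_zero
      · change ((y : G ⧸ K)).out * k⁻¹ = y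
        rw [h]
        group
  have hLp : MemLp v 2 (Measure.haar : Measure G) := hcont.memLp_of_hasCompactSupport hsupp
  refine ⟨fun y => (a : ℂ) * v y, hLp.const_mul _, ?_⟩
  intro x
  have e1 : ∀ y, (a : ℂ) * v y * (starRingEnd ℂ) ((a : ℂ) * v (x⁻¹ * y)) =
      ((a * a : ℝ) : ℂ) * (v y * conj (v (x⁻¹ * y))) := by
    intro y
    rw [map_mul, Complex.conj_ofReal]
    push_cast
    ring
  simp only [e1]
  rw [integral_const_mul]
  have hinv : ∀ y, ∀ k ∈ K, v (y * k) * conj (v (x⁻¹ * (y * k))) = v y * conj (v (x⁻¹ * y)) := by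
    intro y k hk
    rw [← mul_assoc x⁻¹ y k, hv y k hk, hv (x⁻¹ * y) k hk, map_mul]
    have h1 : χ k * conj (χ k) = 1 := by
      rw [Complex.mul_conj, Complex.normSq_eq_norm_sq, hχ k hk]
      norm_num
    calc χ k * v y * (conj (χ k) * conj (v (x⁻¹ * y))) =
        (χ k * conj (χ k)) * (v y * conj (v (x⁻¹ * y))) := by ring
      _ = _ := by rw [h1, one_mul]
  rw [la_integral K hK hKc (fun y => v y * conj (v (x⁻¹ * y))) hinv]
  · rw [← mul_assoc, ← hm]
    have h2 : (((a * a : ℝ) : ℂ) * (m : ℂ)) = 1 := by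
      rw [← Complex.ofReal_mul, ham, Complex.ofReal_one]
    rw [h2, one_mul]
    rfl
  · refine hfin.subset ?_
    intro q hq
    rw [Set.mem_ofPred_eq] at hq ⊢
    exact left_ne_zero_of_mul hq

theorem limitA : Stmt_LimitA := by
  intro G _ _ _ _ _ _ _ K hK hKc hcen κ _ x γ δ hH
  -- choice of the vectors
  have hE : ∀ s : Finset K, ((s.image (fun k : K => (k : G)) : Finset G) : Set G) ⊆ K := by
    intro s y hy
    rw [Finset.coe_image] at hy
    obtain ⟨k, _, rfl⟩ := hy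
    exact k.2
  choose v χ hv hχ hχ1 hcont hfin hone hle using fun s : Finset K => hH _ (hE s)
  have hbd : ∀ (s : Finset K) (y : G), ‖qform K (v s) y‖ ≤ 1 := fun s y =>
    la_norm_le K (v s) (χ s) (hv s) (hχ s) (hfin s) (hone s) y
  have hcpt : IsCompact (Set.pi Set.univ fun _ : G => Metric.closedBall (0 : ℂ) 1) :=
    isCompact_univ_pi fun _ => isCompact_closedBall 0 1
  obtain ⟨u, hu⟩ : ∃ u : Ultrafilter (Finset K), (u : Filter (Finset K)) ≤ Filter.atTop :=
    ⟨Ultrafilter.of Filter.atTop, Ultrafilter.of_le _⟩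
  obtain ⟨φ, _, hφ⟩ := hcpt.ultrafilter_le_nhds (u.map fun s : Finset K => qform K (v s)) (by
    rw [Filter.le_principal_iff]
    refine Filter.mem_map.2 (Filter.univ_mem' ?_)
    intro s y _
    rw [Metric.mem_closedBall, dist_zero_right]
    exact hbd s y)
  have hφ' : Filter.Tendsto (fun s : Finset K => qform K (v s)) u (𝓝 φ) := hφ
  have hpt : ∀ y, Filter.Tendsto (fun s : Finset K => qform K (v s) y) u (𝓝 (φ y)) :=
    fun y => (tendsto_pi_nhds.1 hφ') y
  refine ⟨φ, ?_, ?_, ?_, ?_⟩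
  · refine mem_closure_of_tendsto hφ' (Filter.Eventually.of_forall ?_)
    intro s
    obtain ⟨ξ, h1, h2⟩ := la_coeff K hK hKc (v s) (χ s) (hv s) (hχ s) (hcont s) (hfin s)
    exact ⟨ξ, h1, h2⟩
  · intro y k hk
    refine tendsto_nhds_unique_of_eventuallyEq (hpt (y * k)) (hpt y) ?_
    have h1 : ∀ᶠ s : Finset K in Filter.atTop, (⟨k⁻¹, K.inv_mem hk⟩ : K) ∈ s := by
      refine Filter.eventually_atTop.2 ⟨{⟨k⁻¹, K.inv_mem hk⟩}, ?_⟩
      intro s hs
      exact hs (Finset.mem_singleton_self _)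
    refine (h1.filter_mono hu).mono ?_
    intro s hs
    have h2 : χ s k⁻¹ = 1 := by
      apply hχ1 s
      rw [Finset.mem_image]
      exact ⟨_, hs, rfl⟩
    change ∑ᶠ q : G ⧸ K, v s q.out * conj (v s ((y * k)⁻¹ * q.out)) =
      ∑ᶠ q : G ⧸ K, v s q.out * conj (v s (y⁻¹ * q.out))
    apply finsum_congr
    intro q
    have h3 : (y * k)⁻¹ * q.out = y⁻¹ * q.out * k⁻¹ := by
      have h4 := (Subgroup.mem_center_iff.1 (hcen (K.inv_mem hk))) (y⁻¹ * q.out)
      rw [mul_inv_rev, mul_assoc, h4]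
    rw [h3, hv s _ _ (K.inv_mem hk), h2, one_mul]
  · refine tendsto_nhds_unique (hpt 1) ?_
    simp only [hone]
    exact tendsto_const_nhds
  · have h1 : Filter.Tendsto (fun s : Finset K => ∑ i, γ i * (qform K (v s) (x i)).re) u
        (𝓝 (∑ i, γ i * (φ (x i)).re)) := by
      apply tendsto_finsetSum
      intro i _
      exact ((Complex.continuous_re.tendsto _).comp (hpt (x i))).const_mul _
    exact le_of_tendsto h1 (Filter.Eventually.of_forall hle)

end Pool.Agent.Lib.MP_6b7756_an.GM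
end

section

/-!
# MP_6b7756_an, full disproof: invariant limits under (H1)
-/

set_option autoImplicit false
set_option linter.unusedSectionVars false

open scoped ComplexConjugate Classical
open MeasureTheory

namespace Pool.Agent.Lib.MP_6b7756_an.GM

section
variable {G : Type} [Group G] [TopologicalSpace G] [IsTopologicalGroup G]
  [LocallyCompactSpace G] [T2Space G] [MeasurableSpace G] [BorelSpace G]

theorem lb_fibre (K : Subgroup G) (q : G ⧸ K) (y : G) :
    (QuotientGroup.mk (q.out * y) : G ⧸ K) = q ↔ y ∈ K := by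
  have h : (QuotientGroup.mk q.out : G ⧸ K) = q := QuotientGroup.out_eq' q
  rw [eq_comm]
  nth_rewrite 1 [← h]
  rw [QuotientGroup.eq, inv_mul_cancel_left]

theorem lb_normal {K : Subgroup G} (hK : IsOpen (K : Set G)) (hK' : IsCompact (K : Set G)) :
    NormalSpace G := by
  have hd := QuotientGroup.discreteTopology hK
  have hcl : ∀ q : G ⧸ K, IsClopen ((QuotientGroup.mk : G → G ⧸ K) ⁻¹' {q}) := fun q =>
    (isClopen_discrete {q}).preimage QuotientGroup.continuous_mk
  have hcp : ∀ q : G ⧸ K, IsCompact ((QuotientGroup.mk : G → G ⧸ K) ⁻¹' {q}) := by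
    intro q
    have h1 : (QuotientGroup.mk : G → G ⧸ K) ⁻¹' {q} = (fun k => q.out * k) '' (K : Set G) := by
      ext y
      constructor
      · intro hy
        refine ⟨q.out⁻¹ * y, ?_, mul_inv_cancel_left _ _⟩
        rw [SetLike.mem_coe, ← lb_fibre K q, mul_inv_cancel_left]
        exact hy
      · rintro ⟨k, hk, rfl⟩
        exact (lb_fibre K q k).2 hk
    rw [h1]
    exact hK'.image (continuous_const_mul _)
  constructor
  intro s t hs ht hst
  have h1 : ∀ q : G ⧸ K, SeparatedNhds (s ∩ (QuotientGroup.mk : G → G ⧸ K) ⁻¹' {q})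
      (t ∩ (QuotientGroup.mk : G → G ⧸ K) ⁻¹' {q}) := fun q =>
    SeparatedNhds.of_isCompact_isCompact ((hcp q).inter_left hs) ((hcp q).inter_left ht)
      (hst.mono Set.inter_subset_left Set.inter_subset_left)
  choose U V hU hV hsU htV hUV using h1
  refine ⟨⋃ q, (QuotientGroup.mk : G → G ⧸ K) ⁻¹' {q} ∩ U q,
    ⋃ q, (QuotientGroup.mk : G → G ⧸ K) ⁻¹' {q} ∩ V q,
    isOpen_iUnion fun q => (hcl q).isOpen.inter (hU q),
    isOpen_iUnion fun q => (hcl q).isOpen.inter (hV q), ?_, ?_, ?_⟩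
  · intro y hy
    exact Set.mem_iUnion.2 ⟨QuotientGroup.mk y, rfl, hsU _ ⟨hy, rfl⟩⟩
  · intro y hy
    exact Set.mem_iUnion.2 ⟨QuotientGroup.mk y, rfl, htV _ ⟨hy, rfl⟩⟩
  · rw [Set.disjoint_left]
    intro y hy hy'
    obtain ⟨q, hq, hq'⟩ := Set.mem_iUnion.1 hy
    obtain ⟨r, hr, hr'⟩ := Set.mem_iUnion.1 hy'
    obtain rfl : q = r := (show _ = q from hq).symm.trans hr
    exact Set.disjoint_left.1 (hUV q) hq' hr'

/-- the coefficient of `ξ` -/
noncomputable def lb_co (ξ : G → ℂ) (x : G) : ℂ :=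
  ∫ y, ξ y * conj (ξ (x⁻¹ * y)) ∂(Measure.haar : Measure G)

/-- the `L²` norm -/
noncomputable def lb_nm (ξ : G → ℂ) : ℝ := (eLpNorm ξ 2 (Measure.haar : Measure G)).toReal

theorem lb_cs {a b : G → ℂ} (ha : MemLp a 2 (Measure.haar : Measure G))
    (hb : MemLp b 2 (Measure.haar : Measure G)) :
    Integrable (fun y => a y * conj (b y)) (Measure.haar : Measure G) ∧
    ‖∫ y, a y * conj (b y) ∂(Measure.haar : Measure G)‖ ≤ lb_nm a * lb_nm b := by
  have h1 : ∀ᵐ y ∂(Measure.haar : Measure G), inner ℂ (hb.toLp b y) (ha.toLp a y) =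
      a y * conj (b y) := by
    filter_upwards [ha.coeFn_toLp, hb.coeFn_toLp] with y h2 h3
    rw [h2, h3, RCLike.inner_apply]
  constructor
  · exact (L2.integrable_inner (𝕜 := ℂ) (hb.toLp b) (ha.toLp a)).congr h1
  · rw [← integral_congr_ae h1, ← L2.inner_def]
    refine (norm_inner_le_norm _ _).trans ?_
    rw [Lp.norm_toLp, Lp.norm_toLp, mul_comm]
    rfl

theorem lb_shift {b : G → ℂ} (hb : MemLp b 2 (Measure.haar : Measure G)) (x : G) :
    MemLp (fun y => b (x⁻¹ * y)) 2 (Measure.haar : Measure G) ∧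
      lb_nm (fun y => b (x⁻¹ * y)) = lb_nm b := by
  have h1 := measurePreserving_mul_left (Measure.haar : Measure G) x⁻¹
  refine ⟨hb.comp_measurePreserving h1, ?_⟩
  unfold lb_nm
  exact congrArg ENNReal.toReal (eLpNorm_comp_measurePreserving hb.1 h1)

theorem lb_diff {f ξ : G → ℂ} (hf : MemLp f 2 (Measure.haar : Measure G))
    (hξ : MemLp ξ 2 (Measure.haar : Measure G)) (x : G) :
    ‖lb_co f x - lb_co ξ x‖ ≤ lb_nm (f - ξ) * (lb_nm f + lb_nm ξ) := by
  obtain ⟨hf1, hf2⟩ := lb_shift hf x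
  obtain ⟨hd1, hd2⟩ := lb_shift (hf.sub hξ) x
  obtain ⟨i1, n1⟩ := lb_cs (hf.sub hξ) hf1
  obtain ⟨i2, n2⟩ := lb_cs hξ hd1
  obtain ⟨i3, -⟩ := lb_cs hf hf1
  obtain ⟨i4, -⟩ := lb_cs hξ (lb_shift hξ x).1
  have h1 : lb_co f x - lb_co ξ x =
      (∫ y, (f - ξ) y * conj (f (x⁻¹ * y)) ∂(Measure.haar : Measure G)) +
      ∫ y, ξ y * conj ((f - ξ) (x⁻¹ * y)) ∂(Measure.haar : Measure G) := by
    unfold lb_co
    rw [← integral_sub i3 i4, ← integral_add i1 i2]
    congr 1
    funext y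
    simp only [Pi.sub_apply, map_sub]
    ring
  rw [h1]
  refine (norm_add_le _ _).trans ?_
  rw [hf2] at n1
  rw [hd2] at n2
  calc _ ≤ lb_nm (f - ξ) * lb_nm f + lb_nm ξ * lb_nm (f - ξ) := add_le_add n1 n2
    _ = _ := by ring

theorem lb_approx [NormalSpace G] {ξ : G → ℂ} (hξ : MemLp ξ 2 (Measure.haar : Measure G)) {ε : ℝ} (hε : 0 < ε) :
    ∃ f : G → ℂ, Continuous f ∧ HasCompactSupport f ∧ ∀ x, ‖lb_co f x - lb_co ξ x‖ ≤ ε := by
  have hn : 0 ≤ lb_nm ξ := ENNReal.toReal_nonneg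
  set t : ℝ := min 1 (ε / (2 * lb_nm ξ + 1)) with ht
  have ht0 : 0 < t := by positivity
  obtain ⟨f, hf1, hf2, hf3, hf4⟩ := hξ.exists_hasCompactSupport_eLpNorm_sub_le
    (by simp) (ε := ENNReal.ofReal t) (by simpa using ht0)
  refine ⟨f, hf3, hf1, fun x => (lb_diff hf4 hξ x).trans ?_⟩
  have h1 : lb_nm (f - ξ) ≤ t := by
    unfold lb_nm
    rw [eLpNorm_sub_comm]
    exact ENNReal.toReal_le_of_le_ofReal ht0.le hf2
  have h2 : lb_nm f ≤ lb_nm ξ + t := by
    have h3 : lb_nm f ≤ lb_nm (f - ξ) + lb_nm ξ := by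
      unfold lb_nm
      rw [← ENNReal.toReal_add (hf4.sub hξ).2.ne hξ.2.ne]
      refine ENNReal.toReal_mono (by simp [(hf4.sub hξ).2.ne, hξ.2.ne]) ?_
      have h4 := eLpNorm_add_le (hf4.sub hξ).1 hξ.1 (by norm_num : (1 : ENNReal) ≤ 2)
      rwa [sub_add_cancel] at h4
    linarith
  have h5 : 0 ≤ lb_nm (f - ξ) := ENNReal.toReal_nonneg
  have h6 : t ≤ 1 := min_le_left _ _
  have h7 : t * (2 * lb_nm ξ + 1) ≤ ε := by
    have h8 : t ≤ ε / (2 * lb_nm ξ + 1) := min_le_right _ _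
    rwa [le_div_iff₀ (by positivity)] at h8
  calc lb_nm (f - ξ) * (lb_nm f + lb_nm ξ) ≤ t * (2 * lb_nm ξ + 1) := by
        exact mul_le_mul h1 (by linarith) (add_nonneg ENNReal.toReal_nonneg hn) ht0.le
    _ ≤ ε := h7

/-! ### averaging -/

/-- the sum over the subgroup `K` -/
noncomputable def lb_avg (K : Subgroup G) (f : G → ℂ) (y : G) : ℂ :=
  ∫ k in (K : Set G), f (y * k) ∂(Measure.haar : Measure G)

theorem lb_avg_eq {K : Subgroup G} (hK : IsOpen (K : Set G)) (f : G → ℂ) (y : G) :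
    lb_avg K f y = ∫ k, (K : Set G).indicator (fun k => f (y * k)) k
      ∂(Measure.haar : Measure G) := by
  unfold lb_avg
  rw [integral_indicator hK.measurableSet]

theorem lb_avg_inv {K : Subgroup G} (hK : IsOpen (K : Set G)) (f : G → ℂ) (y : G) {k₀ : G}
    (hk₀ : k₀ ∈ K) : lb_avg K f (y * k₀) = lb_avg K f y := by
  rw [lb_avg_eq hK, lb_avg_eq hK,
    ← integral_mul_left_eq_self ((K : Set G).indicator (fun k => f (y * k))) k₀]
  congr 1
  funext k
  by_cases hk : k ∈ K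
  · rw [Set.indicator_of_mem (show k ∈ (K : Set G) from hk),
      Set.indicator_of_mem (show k₀ * k ∈ (K : Set G) from K.mul_mem hk₀ hk), mul_assoc]
  · rw [Set.indicator_of_notMem (show k ∉ (K : Set G) from hk), Set.indicator_of_notMem]
    intro h
    exact hk ((K.mul_mem_cancel_left hk₀).1 h)

/-- the cosets which meet a compact set -/
theorem lb_fin {K : Subgroup G} (hK : IsOpen (K : Set G)) {C : Set G} (hC : IsCompact C) :
    ∃ Q0 : Finset (G ⧸ K), ∀ y ∈ C, (QuotientGroup.mk y : G ⧸ K) ∈ Q0 := by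
  have := QuotientGroup.discreteTopology hK
  have h1 : IsCompact ((QuotientGroup.mk : G → G ⧸ K) '' C) :=
    hC.image QuotientGroup.continuous_mk
  have h2 := h1.finite_of_discrete
  refine ⟨h2.toFinset, fun y hy => ?_⟩
  rw [Set.Finite.mem_toFinset]
  exact ⟨y, hy, rfl⟩

/-- integral over the cosets -/
theorem lb_cosets {K : Subgroup G} (hK : IsOpen (K : Set G)) (Q0 : Finset (G ⧸ K)) {F : G → ℂ}
    (hF : Integrable F (Measure.haar : Measure G))
    (hF0 : ∀ y, F y ≠ 0 → (QuotientGroup.mk y : G ⧸ K) ∈ Q0) :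
    ∫ y, F y ∂(Measure.haar : Measure G) =
      ∑ q ∈ Q0, ∫ k in (K : Set G), F (q.out * k) ∂(Measure.haar : Measure G) := by
  have hd := QuotientGroup.discreteTopology hK
  have hcl : ∀ q : G ⧸ K, MeasurableSet ((QuotientGroup.mk : G → G ⧸ K) ⁻¹' {q}) := fun q =>
    ((isClopen_discrete {q}).preimage QuotientGroup.continuous_mk).isOpen.measurableSet
  have h1 : F = fun y => ∑ q ∈ Q0, ((QuotientGroup.mk : G → G ⧸ K) ⁻¹' {q}).indicator F y := by
    funext y
    by_cases hy : F y = 0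
    · rw [hy, Finset.sum_eq_zero]
      intro q _
      rw [Set.indicator_apply_eq_zero]
      exact fun _ => hy
    · rw [Finset.sum_eq_single_of_mem (QuotientGroup.mk y) (hF0 y hy)]
      · exact (Set.indicator_of_mem (by rfl) F).symm
      · intro q _ hq
        rw [Set.indicator_of_notMem]
        exact fun h => hq (show _ = q from h).symm
  conv_lhs => rw [h1]
  rw [integral_finsetSum _ fun q _ => hF.indicator (hcl q)]
  refine Finset.sum_congr rfl fun q _ => ?_
  rw [← integral_mul_left_eq_self _ q.out, ← integral_indicator hK.measurableSet]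
  congr 1
  funext k
  by_cases hk : k ∈ K
  · rw [Set.indicator_of_mem (show k ∈ (K : Set G) from hk), Set.indicator_of_mem]
    exact (lb_fibre K q k).2 hk
  · rw [Set.indicator_of_notMem (show k ∉ (K : Set G) from hk), Set.indicator_of_notMem]
    exact fun h => hk ((lb_fibre K q k).1 h)

/-- the coefficient with an averaged vector -/
theorem lb_qform {K : Subgroup G} (hK : IsOpen (K : Set G)) {f : G → ℂ}
    (hf' : HasCompactSupport f) (x : G)
    (hi : Integrable (fun y => f y * conj (lb_avg K f (x⁻¹ * y))) (Measure.haar : Measure G)) :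
    ∫ y, f y * conj (lb_avg K f (x⁻¹ * y)) ∂(Measure.haar : Measure G) =
      qform K (lb_avg K f) x ∧ {q : G ⧸ K | lb_avg K f q.out ≠ 0}.Finite := by
  obtain ⟨Q0, hQ0⟩ := lb_fin hK hf'.isCompact
  have hs : ∀ q : G ⧸ K, lb_avg K f q.out ≠ 0 → q ∈ Q0 := by
    intro q hq
    by_contra hq'
    apply hq
    unfold lb_avg
    rw [setIntegral_congr_fun (g := fun _ => (0 : ℂ)) hK.measurableSet]
    · simp
    · intro k hk
      by_contra h
      apply hq'
      rw [← (lb_fibre K q k).2 hk]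
      exact hQ0 _ (subset_tsupport _ h)
  refine ⟨?_, Q0.finite_toSet.subset hs⟩
  rw [lb_cosets hK Q0 hi]
  · unfold qform
    rw [finsum_eq_sum_of_support_subset (s := Q0)]
    · refine Finset.sum_congr rfl fun q _ => ?_
      have h1 : ∀ k ∈ (K : Set G), f (q.out * k) * conj (lb_avg K f (x⁻¹ * (q.out * k))) =
          f (q.out * k) * conj (lb_avg K f (x⁻¹ * q.out)) := by
        intro k hk
        rw [← mul_assoc x⁻¹, lb_avg_inv hK f _ hk]
      rw [setIntegral_congr_fun hK.measurableSet h1, integral_mul_const]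
      rfl
    · intro q hq
      refine hs q fun h => hq ?_
      simp only
      rw [h, zero_mul]
  · intro y hy
    refine hQ0 y (subset_tsupport _ fun h => hy ?_)
    rw [h, zero_mul]

theorem lb_co_cont {f : G → ℂ} (hf : Continuous f) (hf' : HasCompactSupport f) :
    Continuous (lb_co f) := by
  rw [← continuousOn_univ]
  refine continuousOn_integral_of_compact_support hf'.isCompact ?_ ?_
  · apply Continuous.continuousOn
    show Continuous fun p : G × G => f p.2 * conj (f (p.1⁻¹ * p.2))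
    fun_prop
  · intro p y _ hy
    rw [image_eq_zero_of_notMem_tsupport hy, zero_mul]

theorem lb_ind_cont {K : Subgroup G} (hK : IsOpen (K : Set G)) :
    Continuous ((K : Set G).indicator fun _ => (1 : ℂ)) :=
  IsClopen.continuous_indicator ⟨K.isClosed_of_isOpen hK, hK⟩ continuous_const

theorem lb_avg_ind {K : Subgroup G} (hK : IsOpen (K : Set G)) (f : G → ℂ) (y : G) :
    lb_avg K f y = ∫ k, (K : Set G).indicator (fun _ => (1 : ℂ)) k * f (y * k)
      ∂(Measure.haar : Measure G) := by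
  rw [lb_avg_eq hK]
  congr 1
  funext k
  by_cases hk : k ∈ K
  · rw [Set.indicator_of_mem (show k ∈ (K : Set G) from hk),
      Set.indicator_of_mem (show k ∈ (K : Set G) from hk), one_mul]
  · rw [Set.indicator_of_notMem (show k ∉ (K : Set G) from hk),
      Set.indicator_of_notMem (show k ∉ (K : Set G) from hk), zero_mul]

theorem lb_avg_cont {K : Subgroup G} (hK : IsOpen (K : Set G)) (hK' : IsCompact (K : Set G))
    {f : G → ℂ} (hf : Continuous f) : Continuous (lb_avg K f) := by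
  have h1 : lb_avg K f = fun y => ∫ k, (K : Set G).indicator (fun _ => (1 : ℂ)) k * f (y * k)
      ∂(Measure.haar : Measure G) := by
    funext y
    exact lb_avg_ind hK f y
  rw [h1, ← continuousOn_univ]
  refine continuousOn_integral_of_compact_support hK' ?_ ?_
  · apply Continuous.continuousOn
    show Continuous fun p : G × G =>
      (K : Set G).indicator (fun _ => (1 : ℂ)) p.2 * f (p.1 * p.2)
    exact ((lb_ind_cont hK).comp continuous_snd).mul (hf.comp (continuous_fst.mul continuous_snd))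
  · intro p k _ hk
    rw [Set.indicator_of_notMem hk, zero_mul]

/-- Fubini -/
theorem lb_fubini {K : Subgroup G} (hK : IsOpen (K : Set G)) (hK' : IsCompact (K : Set G))
    (hKc : K ≤ Subgroup.center G) {f : G → ℂ} (hf : Continuous f)
    (hf' : HasCompactSupport f) (x : G) :
    ∫ k in (K : Set G), lb_co f (x * k⁻¹) ∂(Measure.haar : Measure G) =
      ∫ y, f y * conj (lb_avg K f (x⁻¹ * y)) ∂(Measure.haar : Measure G) := by
  let F : G → G → ℂ := fun k y => (K : Set G).indicator (fun _ => (1 : ℂ)) k *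
    (f y * conj (f (x⁻¹ * y * k)))
  have h1 : ∫ k in (K : Set G), lb_co f (x * k⁻¹) ∂(Measure.haar : Measure G) =
      ∫ k, (∫ y, F k y ∂(Measure.haar : Measure G)) ∂(Measure.haar : Measure G) := by
    rw [← integral_indicator hK.measurableSet]
    congr 1
    funext k
    by_cases hk : k ∈ K
    · rw [Set.indicator_of_mem (show k ∈ (K : Set G) from hk)]
      unfold lb_co
      congr 1
      funext y
      show _ = (K : Set G).indicator (fun _ => (1 : ℂ)) k * (f y * conj (f (x⁻¹ * y * k)))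
      rw [Set.indicator_of_mem (show k ∈ (K : Set G) from hk), one_mul, mul_inv_rev, inv_inv,
        mul_assoc, ← Subgroup.mem_center_iff.1 (hKc hk)]
    · rw [Set.indicator_of_notMem (show k ∉ (K : Set G) from hk)]
      have h2 : ∀ y, F k y = 0 := by
        intro y
        show (K : Set G).indicator (fun _ => (1 : ℂ)) k * (f y * conj (f (x⁻¹ * y * k))) = 0
        rw [Set.indicator_of_notMem (show k ∉ (K : Set G) from hk), zero_mul]
      simp only [h2, integral_zero]
  have h2 : ∫ y, f y * conj (lb_avg K f (x⁻¹ * y)) ∂(Measure.haar : Measure G) =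
      ∫ y, (∫ k, F k y ∂(Measure.haar : Measure G)) ∂(Measure.haar : Measure G) := by
    congr 1
    funext y
    rw [lb_avg_ind hK, ← integral_conj, ← integral_const_mul]
    congr 1
    funext k
    show _ = (K : Set G).indicator (fun _ => (1 : ℂ)) k * (f y * conj (f (x⁻¹ * y * k)))
    by_cases hk : k ∈ K
    · rw [Set.indicator_of_mem (show k ∈ (K : Set G) from hk), one_mul, one_mul]
    · rw [Set.indicator_of_notMem (show k ∉ (K : Set G) from hk), zero_mul, zero_mul, map_zero,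
        mul_zero]
  rw [h1, h2]
  refine integral_integral_swap_of_hasCompactSupport ?_ ?_
  · show Continuous fun p : G × G => (K : Set G).indicator (fun _ => (1 : ℂ)) p.1 *
      (f p.2 * conj (f (x⁻¹ * p.2 * p.1)))
    refine ((lb_ind_cont hK).comp continuous_fst).mul ?_
    fun_prop
  · refine HasCompactSupport.intro (hK'.prod hf'.isCompact) ?_
    rintro ⟨k, y⟩ hky
    show (K : Set G).indicator (fun _ => (1 : ℂ)) k * (f y * conj (f (x⁻¹ * y * k))) = 0
    by_cases hk : k ∈ K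
    · have hy : y ∉ tsupport f := fun h => hky ⟨hk, h⟩
      rw [image_eq_zero_of_notMem_tsupport hy, zero_mul, mul_zero]
    · rw [Set.indicator_of_notMem (show k ∉ (K : Set G) from hk), zero_mul]

theorem lb_main {K : Subgroup G} (hK : IsOpen (K : Set G)) (hK' : IsCompact (K : Set G))
    (hKc : K ≤ Subgroup.center G) {f : G → ℂ} (hf : Continuous f)
    (hf' : HasCompactSupport f) :
    {q : G ⧸ K | lb_avg K f q.out ≠ 0}.Finite ∧ ∀ x,
      ∫ k in (K : Set G), lb_co f (x * k⁻¹) ∂(Measure.haar : Measure G) =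
        qform K (lb_avg K f) x := by
  have hi : ∀ x : G, Integrable (fun y => f y * conj (lb_avg K f (x⁻¹ * y)))
      (Measure.haar : Measure G) := by
    intro x
    have hc := lb_avg_cont hK hK' hf
    refine Continuous.integrable_of_hasCompactSupport ?_ hf'.mul_right
    fun_prop
  refine ⟨(lb_qform hK hf' 1 (hi 1)).2, fun x => ?_⟩
  rw [lb_fubini hK hK' hKc hf hf' x]
  exact (lb_qform hK hf' x (hi x)).1

end

theorem limitB : Stmt_LimitB := by
  intro G _ _ _ _ _ _ _ K hK hK' hKc κ _ x γ δ hδ hH φ hφ hφ1 hφ2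
  have hN := lb_normal hK hK'
  set m : ℝ := (Measure.haar : Measure G).real (K : Set G) with hm
  have hKfin : (Measure.haar : Measure G) (K : Set G) < ⊤ := hK'.measure_lt_top
  have hm0 : 0 < m := by
    rw [hm, Measure.real, ENNReal.toReal_pos_iff]
    exact ⟨hK.measure_pos _ ⟨1, K.one_mem⟩, hKfin⟩
  set Γ : ℝ := ∑ i, |γ i| with hΓ
  have hΓ0 : 0 ≤ Γ := Finset.sum_nonneg fun i _ => abs_nonneg _
  set ε : ℝ := δ / (8 * (δ + Γ)) with hε
  have hε0 : 0 < ε := by positivity
  refine ⟨(K : Set G) ∪ ⋃ i, (fun k => x i * k) '' (K : Set G),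
    hK'.union (isCompact_iUnion fun i => hK'.image (continuous_const_mul _)), ε, hε0, ?_⟩
  rintro ⟨ξ, hξ, hξ'⟩
  obtain ⟨f, hf, hf', hfa⟩ := lb_approx hξ hε0
  obtain ⟨hfin, hq⟩ := lb_main hK hK' hKc hf hf'
  have key : ∀ z : G, (∀ k ∈ K, ‖φ (z * k) - lb_co ξ (z * k)‖ < ε) →
      ‖qform K (lb_avg K f) z - (m : ℂ) * φ z‖ ≤ 2 * ε * m := by
    intro z hz
    have h1 : qform K (lb_avg K f) z - (m : ℂ) * φ z =
        ∫ k in (K : Set G), (lb_co f (z * k⁻¹) - φ z) ∂(Measure.haar : Measure G) := by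
      rw [integral_sub, hq z, setIntegral_const]
      · simp [hm]
      · apply ContinuousOn.integrableOn_compact hK'
        apply Continuous.continuousOn
        have := lb_co_cont hf hf'
        fun_prop
      · exact integrableOn_const hKfin.ne
    rw [h1]
    refine norm_setIntegral_le_of_norm_le_const hKfin fun k hk => ?_
    have h2 := hz k⁻¹ (K.inv_mem hk)
    rw [hφ z k⁻¹ (K.inv_mem hk)] at h2
    calc ‖lb_co f (z * k⁻¹) - φ z‖ ≤ ‖lb_co f (z * k⁻¹) - lb_co ξ (z * k⁻¹)‖ +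
          ‖lb_co ξ (z * k⁻¹) - φ z‖ := norm_sub_le_norm_sub_add_norm_sub _ _ _
      _ ≤ ε + ε := by
          refine add_le_add (hfa _) ?_
          rw [norm_sub_rev]
          exact h2.le
      _ = 2 * ε := by ring
  have h1 := key 1 (fun k hk => by
    rw [one_mul]
    exact hξ' k (Or.inl hk))
  have h2 : ∀ i, ‖qform K (lb_avg K f) (x i) - (m : ℂ) * φ (x i)‖ ≤ 2 * ε * m := fun i =>
    key (x i) (fun k hk => hξ' _ (Or.inr (Set.mem_iUnion.2 ⟨i, k, hk, rfl⟩)))
  have h3 := hH (lb_avg K f) (fun y k hk => lb_avg_inv hK f y hk) hfin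
  have h4 : m - 2 * ε * m ≤ (qform K (lb_avg K f) 1).re := by
    have h5 := (Complex.abs_re_le_norm _).trans h1
    rw [hφ1, mul_one, Complex.sub_re, Complex.ofReal_re] at h5
    linarith [(abs_le.1 h5).1]
  have h5 : ∀ i, γ i * (qform K (lb_avg K f) (x i)).re ≤
      m * (γ i * (φ (x i)).re) + |γ i| * (2 * ε * m) := by
    intro i
    have h6 := (Complex.abs_re_le_norm _).trans (h2 i)
    rw [Complex.sub_re, Complex.re_ofReal_mul] at h6
    have h7 : γ i * ((qform K (lb_avg K f) (x i)).re - m * (φ (x i)).re) ≤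
        |γ i| * (2 * ε * m) :=
      (le_abs_self _).trans (by
        rw [abs_mul]
        exact mul_le_mul_of_nonneg_left h6 (abs_nonneg _))
    linarith
  have h6 : ∑ i, γ i * (qform K (lb_avg K f) (x i)).re ≤ m * (δ / 2) + Γ * (2 * ε * m) := by
    refine (Finset.sum_le_sum fun i _ => h5 i).trans ?_
    rw [Finset.sum_add_distrib, ← Finset.mul_sum, ← Finset.sum_mul]
    have := mul_le_mul_of_nonneg_left hφ2 hm0.le
    linarith
  have h7 : δ * (m - 2 * ε * m) ≤ m * (δ / 2) + Γ * (2 * ε * m) :=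
    (mul_le_mul_of_nonneg_left h4 hδ.le).trans (h3.trans h6)
  have h8 : ε * (8 * (δ + Γ)) = δ := by
    rw [hε]
    field_simp
  have h9 : m * δ ≤ 0 := by nlinarith
  have h10 : 0 < m * δ := by positivity
  linarith

end Pool.Agent.Lib.MP_6b7756_an.GM
end

section

/-!
# MP_6b7756_an: the bigness condition for the next windmill
-/

set_option autoImplicit false

namespace Pool.Agent.Lib.MP_6b7756_an.GM

section
variable {T F ι : Type} [Group F] {t : ZTree T} {K0 : ℕ} (R : Rot T F ι t K0)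

theorem mb_act_act_inv (f : F) (x : T) : R.act f (R.act f⁻¹ x) = x := by
  rw [← R.act_mul, mul_inv_cancel, R.act_one]

theorem mb_acti_inv_acti (f : F) (Y : ι) : R.acti f⁻¹ (R.acti f Y) = Y := by
  rw [← R.acti_mul, inv_mul_cancel, R.acti_one]

/-- gates are equivariant -/
theorem mb_gate_act (f : F) (Y : ι) (x p : T) (h : t.IsGate (R.C Y) x p) :
    t.IsGate (R.C (R.acti f Y)) (R.act f x) (R.act f p) := by
  refine ⟨R.C_act f Y p h.1, ?_⟩
  intro c hc
  have hc' : R.act f⁻¹ c ∈ R.C Y := by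
    have := R.C_act f⁻¹ _ c hc
    rwa [mb_acti_inv_acti] at this
  have h2 := h.2 _ hc'
  have h3 : c = R.act f (R.act f⁻¹ c) := (mb_act_act_inv R f c).symm
  rw [h3, R.isom, R.isom, R.isom]
  exact h2

end

theorem millBig (h1 : Stmt_Tree) (h2 : Stmt_NF) : Stmt_MillBig := by
  intro T F ι _ t K0 R hK o W O H hM n hn hne
  obtain ⟨hA, hform, hside, -⟩ := h2 T F ι t K0 R hK o W O H hM
  rcases hform n hn with hH | ⟨a, ha, Y', hY', b, hb, hb1, n', hNF, rfl⟩
  · exact hM.big n hH hne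
  · obtain ⟨p, s, hg, hs, hsW, hd⟩ := hside Y' n' o hNF hY' hM.mem
    have hZ' := hA a ha Y' hY'
    have hb' : a * b * a⁻¹ ∈ R.St (R.acti a Y') := R.St_act a Y' b hb
    have hb'1 : a * b * a⁻¹ ≠ 1 := by
      intro h
      apply hb1
      have h3 : b = a⁻¹ * (a * b * a⁻¹) * a := by group
      rw [h3, h]
      group
    have hp1 := mb_gate_act R a Y' _ _ hg
    have hq := mb_gate_act R (a * b * a⁻¹) _ _ _ hp1
    rw [R.St_fix _ _ hb', show R.act (a * b * a⁻¹) (R.act a (R.act n' o)) =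
      R.act (a * b * n') o by rw [← R.act_mul, ← R.act_mul]; congr 1; group] at hq
    obtain ⟨o', ho'⟩ := (h1 T t).2.1 (R.C (R.acti a Y')) (R.C_conv _) (R.C_ne _) o
    -- the gate of `o` is in `W`
    obtain ⟨w, hwC, hwW⟩ := hZ'.2
    have ho'W : o' ∈ W := hM.conv o hM.mem w hwW o' (ho'.2 w hwC).symm
    -- distances
    have ht0C : R.act a s ∈ R.C (R.acti a Y') := R.C_act a Y' s hs
    have ht0W : R.act a s ∈ W := hM.inv a ha s hsW
    have hthin := hM.thin _ hZ'.1 (R.act a s) ht0C ht0W o' ho'.1 ho'W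
    have hd1 : K0 * t.d (R.act a p) (R.act a s) ≤ R.g (R.acti a Y') := by
      rw [R.isom, R.g_act]; exact hd
    have htri := t.tri (R.act a p) (R.act a s) o'
    have hclose : K0 * t.d (R.act a p) o' ≤ 4 * R.g (R.acti a Y') := by
      calc K0 * t.d (R.act a p) o'
          ≤ K0 * (t.d (R.act a p) (R.act a s) + t.d (R.act a s) o') := Nat.mul_le_mul_left _ htri
        _ = K0 * t.d (R.act a p) (R.act a s) + K0 * t.d (R.act a s) o' := Nat.mul_add _ _ _
        _ ≤ 4 * R.g (R.acti a Y') := by omega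
    have hdisp := R.disp _ _ _ hb' hb'1 hp1.1
    have hlarge := R.large (R.acti a Y')
    have hne' : o' ≠ R.act (a * b * a⁻¹) (R.act a p) := by
      intro h
      rw [← h] at hdisp
      have h4 : K0 * R.g (R.acti a Y') ≤ K0 * t.d (R.act a p) o' := Nat.mul_le_mul_left _ hdisp
      have h5 : 10 * R.g (R.acti a Y') ≤ K0 * R.g (R.acti a Y') := Nat.mul_le_mul_right _ hK
      omega
    refine ⟨R.acti a Y', a * b * a⁻¹, hb', hb'1, o', ho'.1, _, hq.1, ?_, ?_⟩
    · exact (h1 T t).2.2.2.2 (R.C (R.acti a Y')) o _ o' _ (R.C_conv _) ho' hq hne'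
    · rw [R.isom]
      exact hclose

end Pool.Agent.Lib.MP_6b7756_an.GM
end

section

/-!
# MP_6b7756_an, W3: formal properties of the next windmill
-/

set_option autoImplicit false

namespace Pool.Agent.Lib.MP_6b7756_an.GM

lemma mf_btw_symm {T : Type} (t : ZTree T) {x z y : T} (h : t.Btw x z y) : t.Btw y z x := by
  unfold ZTree.Btw at *
  rw [t.symm y z, t.symm z x, t.symm y x, add_comm]
  exact h

lemma mf_btw_act {T F ι : Type} [Group F] {t : ZTree T} {K0 : ℕ} (R : Rot T F ι t K0) (f : F)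
    {x z y : T} : t.Btw (R.act f x) (R.act f z) (R.act f y) ↔ t.Btw x z y := by
  unfold ZTree.Btw
  rw [R.isom, R.isom, R.isom]

lemma mf_act_inv {T F ι : Type} [Group F] {t : ZTree T} {K0 : ℕ} (R : Rot T F ι t K0) (f : F)
    (x : T) : R.act f (R.act f⁻¹ x) = x := by
  rw [← R.act_mul, mul_inv_cancel, R.act_one]

lemma mf_acti_inv {T F ι : Type} [Group F] {t : ZTree T} {K0 : ℕ} (R : Rot T F ι t K0) (f : F)
    (Y : ι) : R.acti f⁻¹ (R.acti f Y) = Y := by
  rw [← R.acti_mul, inv_mul_cancel, R.acti_one]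

/-- a geodesic is covered by a broken geodesic with one intermediate point -/
lemma mf_split (h1 : Stmt_Tree) {T : Type} (t : ZTree T) {x y u : T} (z : T)
    (h : t.Btw x u y) : t.Btw x u z ∨ t.Btw z u y :=
  (h1 T t).2.2.2.1 x y z u h

/-- the 1-neighbourhood of a convex set is convex -/
lemma mf_nbhd (h1 : Stmt_Tree) {T : Type} (t : ZTree T) {C : Set T} (hC : t.Conv C) :
    t.Conv {x | ∃ w ∈ C, t.d x w ≤ 1} := by
  rintro x ⟨wx, hwx, hx⟩ y ⟨wy, hwy, hy⟩ u hu
  rcases mf_split h1 t wx hu with h | h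
  · refine ⟨wx, hwx, ?_⟩
    unfold ZTree.Btw at h
    omega
  · rcases mf_split h1 t wy h with h | h
    · exact ⟨u, hC wx hwx wy hwy u h, by rw [t.d_self]; exact Nat.zero_le _⟩
    · refine ⟨wy, hwy, ?_⟩
      unfold ZTree.Btw at h
      rw [t.symm wy u, t.symm wy y] at h
      omega

section
variable {T F ι : Type} [Group F] {t : ZTree T} {K0 : ℕ} (R : Rot T F ι t K0) {o : T}
  {W : Set T} {O : Set ι} {H : Subgroup F}

lemma mf_H_le : H ≤ R.nextH W O H := by
  intro h hh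
  exact Subgroup.subset_closure (Or.inl hh)

lemma mf_St_le {Y : ι} (hY : Y ∈ R.newA W O) : R.St Y ≤ R.nextH W O H := by
  intro h hh
  exact Subgroup.subset_closure (Or.inr ⟨Y, hY, hh⟩)

lemma mf_base {z : T} (hz : z ∈ W ∨ ∃ Y ∈ R.newA W O, z ∈ R.C Y) : z ∈ R.nextW' W O H :=
  ⟨1, (R.nextH W O H).one_mem, z, hz, (R.act_one z).symm⟩

lemma mf_inv' {h : F} (hh : h ∈ R.nextH W O H) {x : T} (hx : x ∈ R.nextW' W O H) :
    R.act h x ∈ R.nextW' W O H := by
  obtain ⟨n, hn, z, hz, rfl⟩ := hx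
  exact ⟨h * n, (R.nextH W O H).mul_mem hh hn, z, hz, (R.act_mul h n z).symm⟩

/-- segments from the base point to its image under a generator -/
lemma mf_gen (h1 : Stmt_Tree) (hM : R.Mill o W O H) {γ : F}
    (hγ : γ ∈ (H : Set F) ∪ {h | ∃ Y ∈ R.newA W O, h ∈ R.St Y}) {u : T}
    (hu : t.Btw o u (R.act γ o)) : u ∈ R.nextW' W O H := by
  rcases hγ with hγ | ⟨Y, hY, hγ⟩
  · exact mf_base R (Or.inl (hM.conv o hM.mem _ (hM.inv γ hγ o hM.mem) u hu))
  · obtain ⟨v, hvC, hvW⟩ := hY.2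
    have hγv : R.act γ v ∈ R.C Y := by
      have := R.C_act γ Y v hvC
      rwa [R.St_fix Y γ hγ] at this
    rcases mf_split h1 t v hu with h | h
    · exact mf_base R (Or.inl (hM.conv o hM.mem v hvW u h))
    · rcases mf_split h1 t (R.act γ v) h with h | h
      · exact mf_base R (Or.inr ⟨Y, hY, R.C_conv Y v hvC _ hγv u h⟩)
      · rw [← mf_act_inv R γ u, mf_btw_act] at h
        have h2 : R.act γ⁻¹ u ∈ W := hM.conv v hvW o hM.mem _ h
        have h3 := mf_inv' R (mf_St_le R (H := H) hY hγ) (mf_base R (O := O) (H := H) (Or.inl h2))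
        rwa [mf_act_inv] at h3

/-- segments from the base point to points of the next tree -/
lemma mf_seg (h1 : Stmt_Tree) (hM : R.Mill o W O H) {n : F} (hn : n ∈ R.nextH W O H) :
    ∀ z, (z ∈ W ∨ ∃ Y ∈ R.newA W O, z ∈ R.C Y) → ∀ u, t.Btw o u (R.act n z) →
      u ∈ R.nextW' W O H := by
  have key : ∀ γ ∈ (H : Set F) ∪ {h | ∃ Y ∈ R.newA W O, h ∈ R.St Y}, ∀ n' : F,
      (∀ z, (z ∈ W ∨ ∃ Y ∈ R.newA W O, z ∈ R.C Y) → ∀ u, t.Btw o u (R.act n' z) →
        u ∈ R.nextW' W O H) →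
      (∀ z, (z ∈ W ∨ ∃ Y ∈ R.newA W O, z ∈ R.C Y) → ∀ u, t.Btw o u (R.act (γ * n') z) →
        u ∈ R.nextW' W O H) := by
    intro γ hγ n' ih z hz u hu
    rcases mf_split h1 t (R.act γ o) hu with h | h
    · exact mf_gen R h1 hM hγ h
    · rw [R.act_mul, ← mf_act_inv R γ u, mf_btw_act] at h
      have h2 := ih z hz _ h
      have h3 := mf_inv' R (Subgroup.subset_closure hγ) h2
      rwa [mf_act_inv] at h3
  have hinv : ∀ γ ∈ (H : Set F) ∪ {h | ∃ Y ∈ R.newA W O, h ∈ R.St Y},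
      γ⁻¹ ∈ (H : Set F) ∪ {h | ∃ Y ∈ R.newA W O, h ∈ R.St Y} := by
    rintro γ (hγ | ⟨Y, hY, hγ⟩)
    · exact Or.inl (H.inv_mem hγ)
    · exact Or.inr ⟨Y, hY, (R.St Y).inv_mem hγ⟩
  unfold Rot.nextH at hn
  induction hn using Subgroup.closure_induction_left with
  | one =>
    intro z hz u hu
    rw [R.act_one] at hu
    rcases hz with hz | ⟨Y, hY, hz⟩
    · exact mf_base R (Or.inl (hM.conv o hM.mem z hz u hu))
    · obtain ⟨v, hvC, hvW⟩ := hY.2
      rcases mf_split h1 t v hu with h | h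
      · exact mf_base R (Or.inl (hM.conv o hM.mem v hvW u h))
      · exact mf_base R (Or.inr ⟨Y, hY, R.C_conv Y v hvC z hz u h⟩)
  | mul_left γ hγ n' _ ih => exact key γ hγ n' ih
  | inv_mul_cancel γ hγ n' _ ih => exact key γ⁻¹ (hinv γ hγ) n' ih

end

theorem millForm (h1 : Stmt_Tree) : Stmt_MillForm := by
  intro T F ι _ t K0 R o W O H hM
  have hstar : ∀ x ∈ R.nextW' W O H, ∀ u, t.Btw o u x → u ∈ R.nextW' W O H := by
    rintro x ⟨n, hn, z, hz, rfl⟩ u hu
    exact mf_seg R h1 hM hn z hz u hu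
  have hconv : t.Conv (R.nextW' W O H) := by
    intro x hx y hy u hu
    rcases mf_split h1 t o hu with h | h
    · exact hstar x hx u (mf_btw_symm t h)
    · exact hstar y hy u h
  have ho : o ∈ R.nextW' W O H := mf_base R (Or.inl hM.mem)
  refine ⟨hconv, mf_nbhd h1 t hconv, ⟨o, ho, by rw [t.d_self]; exact Nat.zero_le _⟩,
    fun h hh x hx => mf_inv' R hh hx, ?_, ?_, ?_⟩
  · rintro h hh x ⟨w, hw, hd⟩
    exact ⟨R.act h w, mf_inv' R hh hw, by rw [R.isom]; exact hd⟩
  · rintro h hh Y ⟨n, hn, Z, hZ, rfl⟩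
    exact ⟨h * n, (R.nextH W O H).mul_mem hh hn, Z, hZ, (R.acti_mul h n Z).symm⟩
  · rintro Y ⟨n, hn, Z, hZ, rfl⟩ g hg
    have h2 : n⁻¹ * g * n ∈ R.St Z := by
      have := R.St_act n⁻¹ _ g hg
      rwa [mf_acti_inv, inv_inv] at this
    have h3 : n⁻¹ * g * n ∈ R.nextH W O H := by
      rcases hZ with hZ | hZ
      · exact mf_H_le R (hM.stO Z hZ h2)
      · exact mf_St_le R hZ h2
    have h4 : g = n * (n⁻¹ * g * n) * n⁻¹ := by group
    rw [h4]
    exact (R.nextH W O H).mul_mem ((R.nextH W O H).mul_mem hn h3) ((R.nextH W O H).inv_mem hn)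

end Pool.Agent.Lib.MP_6b7756_an.GM
end

section

/-!
# MP_6b7756_an, W5: subtrees outside `nextO` meet `nextW'` in small sets
-/

set_option autoImplicit false

namespace Pool.Agent.Lib.MP_6b7756_an.GM

section
variable {T F ι : Type} [Group F] {t : ZTree T} {K0 : ℕ} (R : Rot T F ι t K0)
  {W : Set T} {O : Set ι} {H : Subgroup F}

theorem mt_act_inv (f : F) (x : T) : R.act f⁻¹ (R.act f x) = x := by
  rw [← R.act_mul, inv_mul_cancel, R.act_one]

theorem mt_acti_inv (f : F) (Y : ι) : R.acti f⁻¹ (R.acti f Y) = Y := by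
  rw [← R.acti_mul, inv_mul_cancel, R.acti_one]

theorem mt_newA_nextO {Y : ι} (h : Y ∈ R.newA W O) : Y ∈ R.nextO W O H :=
  ⟨1, one_mem _, Y, Or.inr h, (R.acti_one Y).symm⟩

theorem mt_O_nextO {Y : ι} (h : Y ∈ O) : Y ∈ R.nextO W O H :=
  ⟨1, one_mem _, Y, Or.inl h, (R.acti_one Y).symm⟩

theorem mt_meet {Y : ι} (hY : Y ∉ R.nextO W O H) {z : T} (hz : z ∈ R.C Y) : z ∉ W := by
  intro hW
  by_cases hO : Y ∈ O
  · exact hY (mt_O_nextO R hO)
  · exact hY (mt_newA_nextO R ⟨hO, z, hz, hW⟩)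

theorem mt_nextO_act {n : F} (hn : n ∈ R.nextH W O H) {Y : ι}
    (hY : R.acti n Y ∈ R.nextO W O H) : Y ∈ R.nextO W O H := by
  obtain ⟨m, hm, Z, hZ, h⟩ := hY
  refine ⟨n⁻¹ * m, mul_mem (inv_mem hn) hm, Z, hZ, ?_⟩
  rw [R.acti_mul, ← h, mt_acti_inv]

theorem mt_nextO_inv {n : F} (hn : n ∈ R.nextH W O H) {Y : ι}
    (hY : Y ∉ R.nextO W O H) : R.acti n⁻¹ Y ∉ R.nextO W O H :=
  fun h => hY (mt_nextO_act R (inv_mem hn) h)

theorem mt_H_le : H ≤ R.nextH W O H := fun _ hx => Subgroup.subset_closure (Or.inl hx)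

theorem mt_St_le {Y : ι} (hY : Y ∈ R.newA W O) {b : F} (hb : b ∈ R.St Y) :
    b ∈ R.nextH W O H := Subgroup.subset_closure (Or.inr ⟨Y, hY, hb⟩)

/-- the gates of two points of a convex set `V` disjoint from `C Y` are equal; general form: two
different gates lie in every convex set containing the two points -/
theorem mt_gates (h1 : Stmt_Tree) {V : Set T} (hV : t.Conv V) {Y : ι} {v v' p p' : T}
    (hv : v ∈ V) (hv' : v' ∈ V) (hp : t.IsGate (R.C Y) v p) (hp' : t.IsGate (R.C Y) v' p')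
    (hne : p ≠ p') : p ∈ V ∧ p' ∈ V := by
  obtain ⟨-, -, -, -, h5⟩ := h1 T t
  have h := h5 (R.C Y) v v' p p' (R.C_conv Y) hp hp' hne
  have e1 := hp.2 p' hp'.1
  have e2 := hp'.2 p hp.1
  have s1 := t.symm p' p
  have s2 := t.symm v' p
  have s3 := t.symm v' p'
  constructor
  · refine hV v hv v' hv' p ?_
    unfold ZTree.Btw
    rw [← s2, e2, s3, h, s1]
    ring
  · refine hV v hv v' hv' p' ?_
    unfold ZTree.Btw
    rw [e1, h]

/-- the case `n = 1` -/
theorem mt_one (h1 : Stmt_Tree) {o : T} (hM : R.Mill o W O H) {Y1 Y2 Y : ι}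
    (hY1 : Y1 ∈ R.newA W O) (hY2 : Y2 ∈ R.newA W O) (hY : Y ∉ R.nextO W O H) {x y : T}
    (hx1 : x ∈ R.C Y1) (hx : x ∈ R.C Y) (hy2 : y ∈ R.C Y2) (hy : y ∈ R.C Y) :
    K0 * t.d x y ≤ 2 * R.g Y := by
  have hne1 : Y ≠ Y1 := fun h => hY (h ▸ mt_newA_nextO R hY1)
  have hne2 : Y ≠ Y2 := fun h => hY (h ▸ mt_newA_nextO R hY2)
  obtain ⟨-, v1, hv1, hv1W⟩ := hY1
  obtain ⟨-, v2, hv2, hv2W⟩ := hY2
  obtain ⟨r, hr⟩ := (h1 T t).2.1 (R.C Y) (R.C_conv Y) (R.C_ne Y) v1
  obtain ⟨r', hr'⟩ := (h1 T t).2.1 (R.C Y) (R.C_conv Y) (R.C_ne Y) v2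
  have hrr : r = r' := by
    by_contra hne
    exact mt_meet R hY hr.1 (mt_gates R h1 hM.conv hv1W hv2W hr hr' hne).1
  subst hrr
  have hr1 : r ∈ R.C Y1 := by
    refine R.C_conv Y1 v1 hv1 x hx1 r ?_
    exact (hr.2 x hx).symm
  have hr2 : r ∈ R.C Y2 := by
    refine R.C_conv Y2 v2 hv2 y hy2 r ?_
    exact (hr'.2 y hy).symm
  have e1 := R.small Y Y1 x r hne1 hx hx1 hr.1 hr1
  have e2 := R.small Y Y2 r y hne2 hr.1 hr2 hy hy2
  have e3 := t.tri x r y
  calc K0 * t.d x y ≤ K0 * (t.d x r + t.d r y) := Nat.mul_le_mul_left _ e3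
    _ = K0 * t.d x r + K0 * t.d r y := by ring
    _ ≤ 2 * R.g Y := by omega

/-- the induction statement -/
def mt_P (W : Set T) (O : Set ι) (H : Subgroup F) (n : F) : Prop :=
  ∀ Y1 ∈ R.newA W O, ∀ Y2 ∈ R.newA W O, ∀ Y, Y ∉ R.nextO W O H → ∀ x ∈ R.C Y1, x ∈ R.C Y →
    ∀ z ∈ R.C Y2, R.act n z ∈ R.C Y → K0 * t.d x (R.act n z) ≤ 2 * R.g Y

theorem mt_base (h1 : Stmt_Tree) {o : T} (hM : R.Mill o W O H)
    (hA : ∀ h ∈ H, ∀ Y ∈ R.newA W O, R.acti h Y ∈ R.newA W O) {n : F} (hn : n ∈ H) :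
    mt_P R W O H n := by
  intro Y1 hY1 Y2 hY2 Y hY x hx1 hx z hz hnz
  exact mt_one R h1 hM hY1 (hA n hn Y2 hY2) hY hx1 hx (R.C_act n Y2 z hz) hnz

theorem mt_gate_act {f : F} {Y : ι} {q p : T} (h : t.IsGate (R.C Y) q p) :
    t.IsGate (R.C (R.acti f Y)) (R.act f q) (R.act f p) := by
  refine ⟨R.C_act f Y p h.1, ?_⟩
  intro c hc
  have hc' : R.act f⁻¹ c ∈ R.C Y := by
    have := R.C_act f⁻¹ _ c hc
    rwa [mt_acti_inv] at this
  have e := h.2 _ hc'
  have hcc : R.act f (R.act f⁻¹ c) = c := by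
    rw [← R.act_mul, mul_inv_cancel, R.act_one]
  rw [← R.isom f q, ← R.isom f q, ← R.isom f p, hcc] at e
  exact e

theorem mt_cons (h1 : Stmt_Tree) (hK : 10 ≤ K0) {o : T} (hM : R.Mill o W O H)
    (hA : ∀ h ∈ H, ∀ Y ∈ R.newA W O, R.acti h Y ∈ R.newA W O)
    (h3 : ∀ Y n p, R.NF W O H Y n → Y ∈ R.newA W O → p ∈ W → R.Side W Y (R.act n p))
    (h4 : ∀ Y Z q, Y ∈ R.newA W O → Z ∈ R.newA W O → Y ≠ Z → q ∈ R.C Y → R.Side W Z q)
    {a b n' : F} {Y' : ι} (ha : a ∈ H) (hY' : Y' ∈ R.newA W O) (hb : b ∈ R.St Y') (hb1 : b ≠ 1)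
    (hn' : R.NF W O H Y' n') (hP : mt_P R W O H n') : mt_P R W O H (a * b * n') := by
  intro Y1 hY1 Y2 hY2 Y hY x hx1 hx z hz hnz
  have hab : a * b ∈ R.nextH W O H := mul_mem (mt_H_le R ha) (mt_St_le R hY' hb)
  have habY' : R.acti (a * b) Y' = R.acti a Y' := by rw [R.acti_mul, R.St_fix Y' b hb]
  have hnz' : R.act (a * b) (R.act n' z) = R.act (a * b * n') z := (R.act_mul _ _ _).symm
  by_cases c1 : Y1 = R.acti a Y'
  · -- apply the induction hypothesis to the translate by `(ab)⁻¹`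
    have e := hP Y' hY' Y2 hY2 (R.acti (a * b)⁻¹ Y) (mt_nextO_inv R hab hY)
      (R.act (a * b)⁻¹ x) (by
        have := R.C_act (a * b)⁻¹ Y1 x hx1
        rw [c1, ← habY', mt_acti_inv] at this
        exact this)
      (R.C_act _ _ _ hx) z hz (by
        have := R.C_act (a * b)⁻¹ Y _ hnz
        rw [← hnz', mt_act_inv] at this
        exact this)
    have e2 : t.d (R.act (a * b)⁻¹ x) (R.act n' z) = t.d x (R.act (a * b * n') z) := by
      rw [← R.isom (a * b), hnz', ← R.act_mul, mul_inv_cancel, R.act_one]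
    rw [e2, R.g_act] at e
    exact e
  by_cases c2 : R.acti (a * b * n') Y2 = R.acti a Y'
  · refine mt_one R h1 hM hY1 (hA a ha Y' hY') hY hx1 hx ?_ hnz
    rw [← c2]
    exact R.C_act _ _ _ hz
  · exfalso
    have hZ : R.acti a Y' ∈ R.newA W O := hA a ha Y' hY'
    -- the gate of `x`
    obtain ⟨p1, s1, hp1, hs1, hs1W, hd1⟩ := h4 Y1 (R.acti a Y') x hY1 hZ c1 hx1
    -- the gate of `n v₂`
    obtain ⟨hY2O, v2, hv2, hv2W⟩ := hY2
    obtain ⟨p', s', hp', hs', hs'W, hd'⟩ := h3 Y' n' v2 hn' hY' hv2W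
    have hp2 : t.IsGate (R.C (R.acti a Y')) (R.act (a * b * n') v2) (R.act (a * b) p') := by
      have := mt_gate_act R (f := a * b) hp'
      rw [habY', ← R.act_mul] at this
      exact this
    -- the gate of `n z`
    obtain ⟨q, hq⟩ := (h1 T t).2.1 (R.C (R.acti a Y')) (R.C_conv _) (R.C_ne _)
      (R.act (a * b * n') z)
    have hqp : K0 * t.d q (R.act (a * b) p') ≤ R.g (R.acti a Y') := by
      by_cases hne : q = R.act (a * b) p'
      · rw [← hne, t.d_self]
        simp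
      · obtain ⟨m1, m2⟩ := mt_gates R h1 (R.C_conv (R.acti (a * b * n') Y2))
          (R.C_act _ _ _ hz) (R.C_act _ _ _ hv2) hq hp2 hne
        exact R.small _ _ q _ (fun h => c2 h.symm) hq.1 m1 hp2.1 m2
    -- the point `b' t₁`
    have hbt : R.act (a * b) s' = R.act (a * b * a⁻¹) (R.act a s') := by
      rw [← R.act_mul]
      congr 1
      group
    have hs1' : R.act a s' ∈ R.C (R.acti a Y') := R.C_act _ _ _ hs'
    have hdisp := R.disp (R.acti a Y') (a * b * a⁻¹) (R.act a s') (R.St_act a Y' b hb) (by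
      intro h
      apply hb1
      have : b = a⁻¹ * (a * b * a⁻¹) * a := by group
      rw [this, h]
      group) hs1'
    have hthin := hM.thin (R.acti a Y') hZ.1 s1 hs1 hs1W (R.act a s') hs1'
      (hM.inv a ha s' hs'W)
    rw [← hbt] at hdisp
    have hd2 : K0 * t.d (R.act (a * b) p') (R.act (a * b) s') ≤ R.g (R.acti a Y') := by
      rw [R.isom, R.g_act]
      exact hd'
    have hlarge := R.large (R.acti a Y')
    -- the two gates are far apart
    have htri : t.d (R.act a s') (R.act (a * b) s') ≤ t.d s1 (R.act a s') + t.d p1 s1 +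
        t.d p1 q + t.d q (R.act (a * b) p') + t.d (R.act (a * b) p') (R.act (a * b) s') := by
      have i1 := t.tri (R.act a s') s1 (R.act (a * b) s')
      have i2 := t.tri s1 p1 (R.act (a * b) s')
      have i3 := t.tri p1 q (R.act (a * b) s')
      have i4 := t.tri q (R.act (a * b) p') (R.act (a * b) s')
      have i5 := t.symm (R.act a s') s1
      have i6 := t.symm s1 p1
      omega
    set g := R.g (R.acti a Y')
    have hfar : g < K0 * t.d p1 q := by
      have j1 : K0 * g ≤ K0 * (t.d s1 (R.act a s') + t.d p1 s1 +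
        t.d p1 q + t.d q (R.act (a * b) p') + t.d (R.act (a * b) p') (R.act (a * b) s')) :=
        Nat.mul_le_mul_left _ (hdisp.trans htri)
      have j2 : 10 * g ≤ K0 * g := Nat.mul_le_mul_right _ hK
      simp only [mul_add] at j1
      omega
    have hne : p1 ≠ q := by
      rintro rfl
      rw [t.d_self] at hfar
      simp at hfar
    obtain ⟨m1, m2⟩ := mt_gates R h1 (R.C_conv Y) hx hnz hp1 hq hne
    have hYZ : R.acti a Y' ≠ Y := fun h => hY (h ▸ mt_newA_nextO R hZ)
    have := R.small _ _ p1 q hYZ hp1.1 m1 hq.1 m2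
    omega

theorem mt_NF (h1 : Stmt_Tree) (hK : 10 ≤ K0) {o : T} (hM : R.Mill o W O H)
    (hA : ∀ h ∈ H, ∀ Y ∈ R.newA W O, R.acti h Y ∈ R.newA W O)
    (h3 : ∀ Y n p, R.NF W O H Y n → Y ∈ R.newA W O → p ∈ W → R.Side W Y (R.act n p))
    (h4 : ∀ Y Z q, Y ∈ R.newA W O → Z ∈ R.newA W O → Y ≠ Z → q ∈ R.C Y → R.Side W Z q)
    {Y0 : ι} {n : F} (hn : R.NF W O H Y0 n) : mt_P R W O H n := by
  induction hn with
  | base Y n hn => exact mt_base R h1 hM hA hn
  | cons Y a Y' b n' ha hY' hb hb1 hn' _ ih =>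
    exact mt_cons R h1 hK hM hA h3 h4 ha hY' hb hb1 hn' ih

end

theorem millThin (h1 : Stmt_Tree) (h2 : Stmt_NF) (h3 : Stmt_MillForm) : Stmt_MillThin' := by
  intro T F ι _ t K0 R hK o W O H hM Y hY x hx hxW y hy hyW
  obtain ⟨hA, hform, hside, hside'⟩ := h2 T F ι t K0 R hK o W O H hM
  have key : ∀ n ∈ R.nextH W O H, mt_P R W O H n := by
    intro n hn
    rcases hform n hn with h | ⟨a, ha, Y', hY', b, hb, hb1, n', hn', rfl⟩
    · exact mt_base R h1 hM hA h
    · exact mt_cons R h1 hK hM hA hside hside' ha hY' hb hb1 hn'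
        (mt_NF R h1 hK hM hA hside hside' hn')
  -- the points of `nextW'` in `C Y` are in translates of new subtrees
  have htr : ∀ w ∈ R.C Y, w ∈ R.nextW' W O H → ∃ n ∈ R.nextH W O H, ∃ Z ∈ R.newA W O,
      ∃ z ∈ R.C Z, w = R.act n z := by
    rintro w hw ⟨n, hn, z, hz, rfl⟩
    rcases hz with hz | ⟨Z, hZ, hz⟩
    · exfalso
      have := R.C_act n⁻¹ Y _ hw
      rw [mt_act_inv] at this
      exact mt_meet R (mt_nextO_inv R hn hY) this hz
    · exact ⟨n, hn, Z, hZ, z, hz, rfl⟩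
  obtain ⟨n1, hn1, Y1, hY1, z1, hz1, rfl⟩ := htr x hx hxW
  obtain ⟨n2, hn2, Y2, hY2, z2, hz2, rfl⟩ := htr y hy hyW
  have hx' : z1 ∈ R.C (R.acti n1⁻¹ Y) := by
    have := R.C_act n1⁻¹ Y _ hx
    rwa [mt_act_inv] at this
  have hy' : R.act (n1⁻¹ * n2) z2 ∈ R.C (R.acti n1⁻¹ Y) := by
    have := R.C_act n1⁻¹ Y _ hy
    rwa [← R.act_mul] at this
  have e := key (n1⁻¹ * n2) (mul_mem (inv_mem hn1) hn2) Y1 hY1 Y2 hY2 (R.acti n1⁻¹ Y)
    (mt_nextO_inv R hn1 hY) z1 hz1 hx' z2 hz2 hy'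
  have e2 : t.d (R.act n1 z1) (R.act n2 z2) = t.d z1 (R.act (n1⁻¹ * n2) z2) := by
    rw [← R.isom n1 z1, ← R.act_mul]
    congr 2
    group
  rw [e2, ← R.g_act n1⁻¹ Y]
  exact e

end Pool.Agent.Lib.MP_6b7756_an.GM
end

section

/-!
# MP_6b7756_an: normal forms and the gate lemma (windmill theorem)
-/

set_option autoImplicit false

namespace Pool.Agent.Lib.MP_6b7756_an.GM

section
variable {T F ι : Type} [Group F] {t : ZTree T} {K0 : ℕ} (R : Rot T F ι t K0)

theorem nf_act_inv_act (f : F) (x : T) : R.act f⁻¹ (R.act f x) = x := by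
  rw [← R.act_mul, inv_mul_cancel, R.act_one]

theorem nf_act_act_inv (f : F) (x : T) : R.act f (R.act f⁻¹ x) = x := by
  rw [← R.act_mul, mul_inv_cancel, R.act_one]

theorem nf_acti_inv_acti (f : F) (Y : ι) : R.acti f⁻¹ (R.acti f Y) = Y := by
  rw [← R.acti_mul, inv_mul_cancel, R.acti_one]

/-- gates are equivariant -/
theorem nf_gate_act (f : F) (Y : ι) (x p : T) (h : t.IsGate (R.C Y) x p) :
    t.IsGate (R.C (R.acti f Y)) (R.act f x) (R.act f p) := by
  refine ⟨R.C_act f Y p h.1, ?_⟩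
  intro c hc
  have hc' : R.act f⁻¹ c ∈ R.C Y := by
    have := R.C_act f⁻¹ _ c hc
    rwa [nf_acti_inv_acti] at this
  have h2 := h.2 _ hc'
  have h3 : c = R.act f (R.act f⁻¹ c) := (nf_act_act_inv R f c).symm
  rw [h3, R.isom, R.isom, R.isom]
  exact h2

/-- Lemma B, gate form -/
theorem nf_gate_mem {V : Set T} (hV : t.Conv V) {Z : ι} {v q p : T} (hv : v ∈ R.C Z)
    (hvV : v ∈ V) (hq : q ∈ V) (hp : t.IsGate (R.C Z) q p) : p ∈ V := by
  refine hV q hq v hvV p ?_
  exact (hp.2 v hv).symm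

/-- Lemma B -/
theorem nf_B (h1 : Stmt_Tree) {V : Set T} (hV : t.Conv V) {Z : ι} {v q : T} (hv : v ∈ R.C Z)
    (hvV : v ∈ V) (hq : q ∈ V) : R.Side V Z q := by
  obtain ⟨p, hp⟩ := (h1 T t).2.1 (R.C Z) (R.C_conv Z) (R.C_ne Z) q
  refine ⟨p, p, hp, hp.1, nf_gate_mem R hV hv hvV hq hp, ?_⟩
  rw [t.d_self]; simp

/-- Lemma B' -/
theorem nf_B' (h1 : Stmt_Tree) {V : Set T} (hV : t.Conv V) {Z Z' : ι} (hne : Z ≠ Z') {v v' q : T}
    (hv : v ∈ R.C Z) (hvV : v ∈ V) (hv' : v' ∈ R.C Z') (hvV' : v' ∈ V) (hq : q ∈ R.C Z') :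
    R.Side V Z q := by
  obtain ⟨p, hp⟩ := (h1 T t).2.1 (R.C Z) (R.C_conv Z) (R.C_ne Z) q
  obtain ⟨p', hp'⟩ := (h1 T t).2.1 (R.C Z) (R.C_conv Z) (R.C_ne Z) v'
  have hpV' : p' ∈ V := nf_gate_mem R hV hv hvV hvV' hp'
  refine ⟨p, p', hp, hp'.1, hpV', ?_⟩
  by_cases hpp : p = p'
  · rw [hpp, t.d_self]; simp
  · have hd := (h1 T t).2.2.2.2 (R.C Z) q v' p p' (R.C_conv Z) hp hp' hpp
    have t1 := t.tri p p' v'
    have t2 := t.tri q p v'
    have t3 := t.tri q p p'
    have t4 := t.tri q p' v'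
    have m1 : p ∈ R.C Z' := by
      refine R.C_conv Z' q hq v' hv' p ?_
      unfold ZTree.Btw; omega
    have m2 : p' ∈ R.C Z' := by
      refine R.C_conv Z' q hq v' hv' p' ?_
      unfold ZTree.Btw; omega
    exact R.small Z Z' p p' hne hp.1 m1 hp'.1 m2

/-- Lemma C -/
theorem nf_C (h1 : Stmt_Tree) {V : Set T} (hV : t.Conv V) {Z Z' : ι} (hne : Z ≠ Z')
    {v v' q' p' : T} (hv : v ∈ R.C Z) (hvV : v ∈ V) (hv' : v' ∈ R.C Z') (hvV' : v' ∈ V)
    (hp' : t.IsGate (R.C Z') q' p')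
    (hfar : ∀ y ∈ R.C Z', y ∈ V → R.g Z' < K0 * t.d p' y) : R.Side V Z q' := by
  by_cases hint : (R.C Z ∩ R.C Z').Nonempty
  · obtain ⟨y, ⟨hyZ, hyZ'⟩, hyV⟩ := (h1 T t).2.2.1 (R.C Z) (R.C Z') V (R.C_conv Z) (R.C_conv Z') hV
      hint ⟨v', hv', hvV'⟩ ⟨v, hv, hvV⟩
    obtain ⟨s, hs⟩ := (h1 T t).2.1 (R.C Z) (R.C_conv Z) (R.C_ne Z) q'
    have e1 := hs.2 y hyZ
    have e2 := hp'.2 y hyZ'
    have hb : t.Btw q' s y := e1.symm
    rcases (h1 T t).2.2.2.1 q' y p' s hb with hc | hc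
    · exfalso
      unfold ZTree.Btw at hc
      have hb2 : t.Btw s p' y := by
        unfold ZTree.Btw; omega
      have hm : p' ∈ R.C Z := R.C_conv Z s hs.1 y hyZ p' hb2
      have h3 := R.small Z' Z p' y hne.symm hp'.1 hm hyZ' hyZ
      have h4 := hfar y hyZ' hyV
      omega
    · have hm : s ∈ R.C Z' := R.C_conv Z' p' hp'.1 y hyZ' s hc
      exact ⟨s, y, hs, hyZ, hyV, R.small Z Z' s y hne hs.1 hm hyZ hyZ'⟩
  · obtain ⟨r', hr'⟩ := (h1 T t).2.1 (R.C Z') (R.C_conv Z') (R.C_ne Z') v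
    have hr'V : r' ∈ V := nf_gate_mem R hV hv' hvV' hvV hr'
    obtain ⟨r, hr⟩ := (h1 T t).2.1 (R.C Z) (R.C_conv Z) (R.C_ne Z) r'
    have hrV : r ∈ V := nf_gate_mem R hV hv hvV hr'V hr
    -- all points of `C Z` have the gate `r'`
    have hall : ∀ c ∈ R.C Z, t.IsGate (R.C Z') c r' := by
      intro c hc
      obtain ⟨c', hc'⟩ := (h1 T t).2.1 (R.C Z') (R.C_conv Z') (R.C_ne Z') c
      by_cases hcr : c' = r'
      · rwa [hcr] at hc'
      · exfalso
        have hd := (h1 T t).2.2.2.2 (R.C Z') c v c' r' (R.C_conv Z') hc' hr' hcr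
        have t1 := t.tri c' r' v
        have t2 := t.tri c c' v
        have hb : t.Btw c c' v := by
          unfold ZTree.Btw; omega
        exact hint ⟨c', R.C_conv Z c hc v hv c' hb, hc'.1⟩
    have hne' : p' ≠ r' := by
      intro he
      have := hfar r' hr'.1 hr'V
      rw [he, t.d_self] at this
      simp at this
    have key : ∀ c ∈ R.C Z, t.d q' c = t.d q' p' + t.d p' r' + t.d r' r + t.d r c := by
      intro c hc
      have hd := (h1 T t).2.2.2.2 (R.C Z') q' c p' r' (R.C_conv Z') hp' (hall c hc) hne'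
      have h5 := hr.2 c hc
      have h6 := t.symm r' c
      rw [hd]
      omega
    have hgate : t.IsGate (R.C Z) q' r := by
      refine ⟨hr.1, ?_⟩
      intro c hc
      have k1 := key c hc
      have k2 := key r hr.1
      rw [t.d_self] at k2
      omega
    refine ⟨r, r, hgate, hr.1, hrV, ?_⟩
    rw [t.d_self]; simp

end

/-- Normal forms. -/
theorem nf_form_of {T F ι : Type} [Group F] {t : ZTree T} {K0 : ℕ} (R : Rot T F ι t K0)
    {W : Set T} {O : Set ι} {H : Subgroup F} {Y : ι} {n : F} (h : R.NF W O H Y n) :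
    n ∈ H ∨ ∃ a ∈ H, ∃ Y' ∈ R.newA W O, ∃ b ∈ R.St Y', b ≠ 1 ∧
      ∃ n', R.NF W O H Y' n' ∧ n = a * b * n' := by
  cases h with
  | base _ _ hn => exact Or.inl hn
  | cons _ a Y' b n' ha hY' hb hb1 hNF hne =>
    exact Or.inr ⟨a, ha, Y', hY', b, hb, hb1, n', hNF, rfl⟩

theorem nf (h1 : Stmt_Tree) : Stmt_NF := by
  intro T F ι _ t K0 R hK o W O H hM
  -- invariance of the new indices
  have hI : ∀ h ∈ H, ∀ Y ∈ R.newA W O, R.acti h Y ∈ R.newA W O := by
    rintro h hh Y ⟨hYO, x, hxY, hxW⟩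
    refine ⟨?_, R.act h x, R.C_act h Y x hxY, hM.inv h hh x hxW⟩
    intro hc
    have := hM.oinv h⁻¹ (H.inv_mem hh) _ hc
    rw [nf_acti_inv_acti] at this
    exact hYO this
  refine ⟨hI, ?_, ?_, ?_⟩
  · -- normal forms
    have hleft : ∀ c ∈ H, ∀ n, (n ∈ H ∨ ∃ a ∈ H, ∃ Y' ∈ R.newA W O, ∃ b ∈ R.St Y', b ≠ 1 ∧
        ∃ n', R.NF W O H Y' n' ∧ n = a * b * n') →
        (c * n ∈ H ∨ ∃ a ∈ H, ∃ Y' ∈ R.newA W O, ∃ b ∈ R.St Y', b ≠ 1 ∧
        ∃ n', R.NF W O H Y' n' ∧ c * n = a * b * n') := by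
      rintro c hc n (hn | ⟨a, ha, Y', hY', b, hb, hb1, n', hNF, rfl⟩)
      · exact Or.inl (H.mul_mem hc hn)
      · exact Or.inr ⟨c * a, H.mul_mem hc ha, Y', hY', b, hb, hb1, n', hNF, by group⟩
    have hst : ∀ Z ∈ R.newA W O, ∀ c ∈ R.St Z, ∀ n, (n ∈ H ∨ ∃ a ∈ H, ∃ Y' ∈ R.newA W O,
        ∃ b ∈ R.St Y', b ≠ 1 ∧ ∃ n', R.NF W O H Y' n' ∧ n = a * b * n') →
        (c * n ∈ H ∨ ∃ a ∈ H, ∃ Y' ∈ R.newA W O, ∃ b ∈ R.St Y', b ≠ 1 ∧
        ∃ n', R.NF W O H Y' n' ∧ c * n = a * b * n') := by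
      intro Z hZ c hc n hn
      by_cases hc1 : c = 1
      · rw [hc1, one_mul]; exact hn
      rcases hn with hn | ⟨a, ha, Y', hY', b, hb, hb1, n', hNF, rfl⟩
      · exact Or.inr ⟨1, H.one_mem, Z, hZ, c, hc, hc1, n, Rot.NF.base Z n hn, by group⟩
      · by_cases haY : R.acti a Y' = Z
        · have hc' : a⁻¹ * c * a ∈ R.St Y' := by
            have h3 := R.St_act a⁻¹ Z c hc
            rw [inv_inv, ← haY, nf_acti_inv_acti] at h3
            exact h3
          by_cases hcb : a⁻¹ * c * a * b = 1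
          · have he : c * (a * b * n') = a * n' := by
              have : c * (a * b * n') = a * (a⁻¹ * c * a * b) * n' := by group
              rw [this, hcb, mul_one]
            rw [he]
            exact hleft a ha n' (nf_form_of R hNF)
          · exact Or.inr ⟨a, ha, Y', hY', a⁻¹ * c * a * b, (R.St Y').mul_mem hc' hb, hcb, n', hNF,
              by group⟩
        · exact Or.inr ⟨1, H.one_mem, Z, hZ, c, hc, hc1, a * b * n',
            Rot.NF.cons Z a Y' b n' ha hY' hb hb1 hNF haY, by group⟩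
    intro n hn
    unfold Rot.nextH at hn
    induction hn using Subgroup.closure_induction_left with
    | one => exact Or.inl H.one_mem
    | mul_left x hx y hy ih =>
      rcases hx with hx | ⟨Y, hY, hx⟩
      · exact hleft x hx y ih
      · exact hst Y hY x hx y ih
    | inv_mul_cancel x hx y hy ih =>
      rcases hx with hx | ⟨Y, hY, hx⟩
      · exact hleft x⁻¹ (H.inv_mem hx) y ih
      · exact hst Y hY x⁻¹ ((R.St Y).inv_mem hx) y ih
  · -- the gate lemma
    intro Y n p hNF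
    induction hNF with
    | base Y n hn =>
      rintro ⟨_, x, hxY, hxW⟩ hp
      exact nf_B R h1 hM.conv hxY hxW (hM.inv n hn p hp)
    | cons Y a Y' b n' ha hY' hb hb1 hNF hne ih =>
      rintro ⟨hYO, x, hxY, hxW⟩ hp
      obtain ⟨p1, s, hp1, hsY, hsW, hps⟩ := ih hY' hp
      have hZ' : R.acti a Y' ∈ R.newA W O := hI a ha Y' hY'
      have hg := R.g_act a Y'
      have hq := nf_gate_act R a Y' _ _ hp1
      have ht0 : R.act a s ∈ R.C (R.acti a Y') := R.C_act a Y' s hsY
      have ht0W : R.act a s ∈ W := hM.inv a ha s hsW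
      have hb' : a * b * a⁻¹ ∈ R.St (R.acti a Y') := R.St_act a Y' b hb
      have hb'1 : a * b * a⁻¹ ≠ 1 := by
        intro h
        apply hb1
        have : b = a⁻¹ * (a * b * a⁻¹) * a := by group
        rw [this, h]; group
      have hfix := R.St_fix _ _ hb'
      have hq2 := nf_gate_act R (a * b * a⁻¹) _ _ _ hq
      rw [hfix] at hq2
      have he : R.act (a * b * a⁻¹) (R.act a (R.act n' p)) = R.act (a * b * n') p := by
        rw [← R.act_mul, ← R.act_mul]
        congr 1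
        group
      rw [he] at hq2
      refine nf_C R h1 hM.conv (Ne.symm hne) hxY hxW ht0 ht0W hq2 ?_
      intro y hy hyW
      have f1 := R.disp _ _ _ hb' hb'1 ht0
      have f2 := hM.thin _ hZ'.1 y hy hyW _ ht0 ht0W
      have f3 := R.isom (a * b * a⁻¹) (R.act a p1) (R.act a s)
      have f4 := R.isom a p1 s
      have f5 := t.tri (R.act a s) y (R.act (a * b * a⁻¹) (R.act a s))
      have f6 := t.tri y (R.act (a * b * a⁻¹) (R.act a p1)) (R.act (a * b * a⁻¹) (R.act a s))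
      have f7 := t.symm (R.act a s) y
      have f8 := t.symm y (R.act (a * b * a⁻¹) (R.act a p1))
      have f9 := R.large (R.acti a Y')
      rw [f3, f4] at f6
      rw [← hg] at hps
      -- combine
      generalize R.g (R.acti a Y') = g at *
      generalize t.d (R.act (a * b * a⁻¹) (R.act a p1)) y = D at *
      generalize t.d p1 s = e at *
      generalize t.d y (R.act a s) = c at *
      have g1 : g ≤ c + (D + e) := by
        calc g ≤ _ := f1
          _ ≤ _ := f5
          _ ≤ c + (D + e) := by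
            rw [f7]
            have := f6
            rw [f8] at this
            omega
      have g2 : K0 * g ≤ K0 * c + (K0 * D + K0 * e) := by
        have := Nat.mul_le_mul_left K0 g1
        rw [Nat.mul_add, Nat.mul_add] at this
        exact this
      have g3 : 10 * g ≤ K0 * g := Nat.mul_le_mul_right g hK
      omega
  · rintro Y Z q ⟨hYO, y, hyY, hyW⟩ ⟨hZO, z, hzZ, hzW⟩ hYZ hq
    exact nf_B' R h1 hM.conv (Ne.symm hYZ) hzZ hzW hyY hyW hq

end Pool.Agent.Lib.MP_6b7756_an.GM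
end

section

/-!
# MP_6b7756_an, full disproof. The next graph of the family
-/

set_option autoImplicit false

namespace Pool.Agent.Lib.MP_6b7756_an.GM

theorem nx_degE_mono {N : ℕ} (φ : Ed N → Fin N) {E E' : Finset (Ed N)} (h : E' ⊆ E) (v : Fin N) :
    degE φ E' v ≤ degE φ E v := by
  unfold degE
  apply add_le_add
  · exact Set.ncard_le_ncard (fun e he => ⟨h he.1, he.2⟩) (Set.toFinite _)
  · exact Set.ncard_le_ncard (fun e he => ⟨h he.1, he.2⟩) (Set.toFinite _)

theorem nx_dfc {N : ℕ} (φ : Ed N → Fin N) {E E' : Finset (Ed N)} (h : E' ⊆ E)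
    (h1 : 10 ^ 5 * {v | degE φ E v < 1550}.ncard ≤ N) (h2 : 10 ^ 5 * (E \ E').card ≤ N) :
    1000 * {v | degE φ E' v < 1550}.ncard ≤ N := by
  classical
  have hsub : {v | degE φ E' v < 1550} ⊆ ({v | degE φ E v < 1550} ∪
      (((E \ E').image Prod.fst : Finset (Fin N)) : Set (Fin N))) ∪
      (((E \ E').image φ : Finset (Fin N)) : Set (Fin N)) := by
    intro v hv
    by_contra hcon
    simp only [Set.mem_union, Set.mem_ofPred_eq, not_or, Finset.coe_image, Set.mem_image,
      Finset.mem_coe, Finset.mem_sdiff, not_exists, not_and] at hcon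
    obtain ⟨⟨c1, c2⟩, c3⟩ := hcon
    apply c1
    have e1 : {e | e ∈ E' ∧ e.1 = v} = {e | e ∈ E ∧ e.1 = v} := by
      ext e
      constructor
      · rintro ⟨a, b⟩; exact ⟨h a, b⟩
      · rintro ⟨a, b⟩
        refine ⟨?_, b⟩
        by_contra hn
        exact c2 e ⟨a, hn⟩ b
    have e2 : {e | e ∈ E' ∧ φ e = v} = {e | e ∈ E ∧ φ e = v} := by
      ext e
      constructor
      · rintro ⟨a, b⟩; exact ⟨h a, b⟩
      · rintro ⟨a, b⟩
        refine ⟨?_, b⟩
        by_contra hn
        exact c3 e ⟨a, hn⟩ b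
    have hv' : degE φ E' v < 1550 := hv
    unfold degE at hv' ⊢
    rw [e1, e2] at hv'
    exact hv'
  have hc := Set.ncard_le_ncard hsub (Set.toFinite _)
  have hc1 := Set.ncard_union_le ({v | degE φ E v < 1550} ∪
      (((E \ E').image Prod.fst : Finset (Fin N)) : Set (Fin N)))
      (((E \ E').image φ : Finset (Fin N)) : Set (Fin N))
  have hc2 := Set.ncard_union_le {v | degE φ E v < 1550}
      (((E \ E').image Prod.fst : Finset (Fin N)) : Set (Fin N))
  have hc3 : (((E \ E').image Prod.fst : Finset (Fin N)) : Set (Fin N)).ncard ≤ (E \ E').card := by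
    rw [Set.ncard_coe_finset]; exact Finset.card_image_le
  have hc4 : (((E \ E').image φ : Finset (Fin N)) : Set (Fin N)).ncard ≤ (E \ E').card := by
    rw [Set.ncard_coe_finset]; exact Finset.card_image_le
  omega

theorem nx_sparse {S : Type} {N : ℕ} {φ : Ed N → Fin N} {E : Finset (Ed N)} {c : Ed N → S}
    {X : LGr S} {ρ : X.V → Fin N} (h : IsComp φ E c X ρ)
    (hs : ∀ A B : Finset (Fin N), Disjoint A B → eAB φ A B ≤ 750 * (A.card + B.card))
    (A B : Finset X.V) (hAB : Disjoint A B) :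
    {p : X.V × S | ∃ w, X.step p.1 (p.2, true) = some w ∧
      ((p.1 ∈ A ∧ w ∈ B) ∨ (p.1 ∈ B ∧ w ∈ A))}.ncard ≤ 750 * (A.card + B.card) := by
  classical
  have hd : Disjoint (A.map ⟨ρ, h.inj⟩) (B.map ⟨ρ, h.inj⟩) := by
    rw [Finset.disjoint_map]; exact hAB
  have h1 := hs _ _ hd
  rw [Finset.card_map, Finset.card_map] at h1
  refine le_trans ?_ h1
  unfold eAB
  have key : ∀ p : X.V × S, ∃ e : Ed N, (∃ w, X.step p.1 (p.2, true) = some w) →
      (e.1 = ρ p.1 ∧ c e = p.2 ∧ ∃ w, X.step p.1 (p.2, true) = some w ∧ φ e = ρ w) := by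
    intro p
    by_cases hp : ∃ w, X.step p.1 (p.2, true) = some w
    · obtain ⟨w, hw⟩ := hp
      obtain ⟨k, _, hk2, hk3⟩ := (h.step_iff p.1 w p.2).mp hw
      exact ⟨(ρ p.1, k), fun _ => ⟨rfl, hk2, w, hw, hk3⟩⟩
    · by_cases hN : Nonempty (Ed N)
      · exact ⟨hN.some, fun hh => absurd hh hp⟩
      · exact absurd ⟨(ρ p.1, (0 : Fin 1000))⟩ hN
  choose F hF using key
  refine Set.ncard_le_ncard_of_injOn F ?_ ?_ (Set.toFinite _)
  · rintro p ⟨w, hw, hw'⟩
    obtain ⟨a1, a2, w', hw1, hw2⟩ := hF p ⟨w, hw⟩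
    have hww : w' = w := by
      rw [hw] at hw1; exact (Option.some.inj hw1).symm
    subst hww
    rcases hw' with ⟨b1, b2⟩ | ⟨b1, b2⟩
    · left
      rw [a1, hw2]
      exact ⟨Finset.mem_map_of_mem ⟨ρ, h.inj⟩ b1, Finset.mem_map_of_mem ⟨ρ, h.inj⟩ b2⟩
    · right
      rw [a1, hw2]
      exact ⟨Finset.mem_map_of_mem ⟨ρ, h.inj⟩ b1, Finset.mem_map_of_mem ⟨ρ, h.inj⟩ b2⟩
  · rintro p ⟨w, hw, _⟩ p' ⟨w', hw', _⟩ hpp
    obtain ⟨a1, a2, _⟩ := hF p ⟨w, hw⟩
    obtain ⟨b1, b2, _⟩ := hF p' ⟨w', hw'⟩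
    rw [hpp] at a1 a2
    exact Prod.ext (h.inj (a1.symm.trans b1)) (a2.symm.trans b2)

theorem nx_run_take {S : Type} (X : LGr S) (n : ℕ) : ∀ (l : List (S × Bool)) (v : X.V),
    (X.run v l).isSome → (X.run v (l.take n)).isSome := by
  induction n with
  | zero => intro l v _; simp [LGr.run]
  | succ n ih =>
    intro l v h
    cases l with
    | nil => simp [LGr.run]
    | cons a l =>
      rw [List.take_succ_cons]
      simp only [LGr.run] at h ⊢
      cases hs : X.step v a with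
      | none => rw [hs] at h; simp at h
      | some w =>
        rw [hs] at h
        simp only [Option.bind_some] at h ⊢
        exact ih l w h

theorem nx_red_take {S : Type} (l : List (S × Bool)) (n : ℕ) (h : FreeGroup.IsReduced l) :
    FreeGroup.IsReduced (l.take n) := List.IsChain.take h n

theorem next (h1 : Stmt_Graph) (h2 : Stmt_Label) (h3 : Stmt_Comp) (h4 : Stmt_GirthX)
    (h5 : Stmt_Own) (h6 : Stmt_WdCount) : Stmt_Next := by
  classical
  obtain ⟨M, hM⟩ := h1
  obtain ⟨L0, hL0, hL⟩ := h2 M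
  refine ⟨M, Fin L0, inferInstance, inferInstance, ?_⟩
  intro j0 hj0 j X hX
  obtain ⟨N, hN1, hN2, φ, E, hP⟩ := hM (100000 * (j + j0)) (by omega)
  obtain ⟨c, E', hE', hcard, hT1, hT2, hT3⟩ := hL (Fin L0) (by simp) j0 j N hN1 hN2 φ E hP.deg
    (fun i => {f : Fin (i + j0 + 1) → Fin L0 × Bool | ∃ v, ((X i).run v (List.ofFn f)).isSome})
    (fun i hi => (h6 (Fin L0) (X i) (i + j0 + 1) (hX i hi).deg).trans
      (Nat.mul_le_mul_right _ (hX i hi).card_le))
  obtain ⟨Y, ρ, hY, hne, hconn, hdfc⟩ := h3 (Fin L0) N φ E' c hN1 hT1 (nx_dfc φ hE' hP.dfc hcard)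
  have hgirth := h4 (Fin L0) N (100000 * (j + j0)) φ E' c Y ρ hY
    (fun k hk p hp => by
      obtain ⟨i, hi⟩ := hP.cyc k hk p hp
      exact ⟨i, fun h => hi (hE' h)⟩)
  refine ⟨Y, ⟨?_, hne, hconn, hgirth, ?_, ?_, hdfc, ?_⟩, ?_⟩
  · refine le_trans ?_ hN2
    have := Fintype.card_le_of_injective ρ hY.inj
    simpa using this
  · exact (h5 (Fin L0) N (100000 * (j + j0)) (j + j0 + 1) φ E' c Y ρ hY hgirth (by omega)).1 hT3
  · intro v
    rw [hY.deg v]
    exact (nx_degE_mono φ hE' _).trans (hP.deg _)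
  · intro A B hAB
    exact nx_sparse hY hP.sparse A B hAB
  · intro i hi v w l hl hv hw
    by_contra hlen
    have hlen' : i + j0 + 1 ≤ l.length := by omega
    have hlt : (l.take (i + j0 + 1)).length = i + j0 + 1 := by
      rw [List.length_take]; omega
    let f : Fin (i + j0 + 1) → Fin L0 × Bool :=
      fun t => (l.take (i + j0 + 1)).get (t.cast hlt.symm)
    have hf : List.ofFn f = l.take (i + j0 + 1) := by
      apply List.ext_getElem
      · rw [List.length_ofFn, hlt]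
      · intro n h1 h2
        rw [List.getElem_ofFn]
        rfl
    have h7 := (h5 (Fin L0) N (100000 * (j + j0)) (i + j0 + 1) φ E' c Y ρ hY hgirth
      (by omega)).2 _ (hT2 i hi) f w (by rw [hf]; exact nx_red_take l _ hl)
      (by rw [hf]; exact nx_run_take Y _ l w hw)
    apply h7
    refine ⟨v, ?_⟩
    rw [hf]
    exact nx_run_take (X i) _ l v hv

end Pool.Agent.Lib.MP_6b7756_an.GM
end
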