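import Mathlib
import Pool.Agent.Lib.MP_6b7756_an.Mg.G001

section

/-!
# MP_6b7756_an, E6: counting walks and words
-/

set_option autoImplicit false

namespace Pool.Agent.Lib.MP_6b7756_an.GM

theorem pc_fib {α β : Type} [Finite α] [Finite β] (s : Set α) (t : Set β) (f : α → β) (n : ℕ)
    (hf : ∀ a ∈ s, f a ∈ t) (hn : ∀ b ∈ t, {a | a ∈ s ∧ f a = b}.ncard ≤ n) :
    s.ncard ≤ n * t.ncard := by
  classical
  have := Fintype.ofFinite α
  have := Fintype.ofFinite β
  rw [Set.ncard_eq_toFinset_card' s, Set.ncard_eq_toFinset_card' t]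
  refine Finset.card_le_mul_card_image_of_maps_to (f := f) (fun a ha => ?_) n (fun b hb => ?_)
  · rw [Set.mem_toFinset] at ha ⊢
    exact hf a ha
  · rw [Set.mem_toFinset] at hb
    refine le_trans (le_of_eq ?_) (hn b hb)
    rw [← Set.ncard_coe_finset]
    congr 1
    ext a
    simp

/-- walks, the edges need not be distinct -/
def pc_W {N : ℕ} (φ : Ed N → Fin N) (E : Finset (Ed N)) (m : ℕ) : Set (PW N m) :=
  {p | ∀ t, pwE p t ∈ E ∧ wOK φ (p.1 t.castSucc) (p.1 t.succ) (p.2 t).1 (p.2 t).2}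

theorem pc_zero {N : ℕ} (φ : Ed N → Fin N) (E : Finset (Ed N)) : (pc_W φ E 0).ncard ≤ N := by
  have h : (pc_W φ E 0).ncard ≤ (Set.univ : Set (Fin N)).ncard := by
    refine Set.ncard_le_ncard_of_injOn (fun p => p.1 0) (fun _ _ => Set.mem_univ _) ?_
      (Set.toFinite _)
    rintro ⟨x, y⟩ - ⟨x', y'⟩ - h
    have e1 : x = x' := by
      funext i
      have hi : i = 0 := Fin.ext (by omega)
      rw [hi]
      exact h
    have e2 : y = y' := by
      funext i
      exact i.elim0
    rw [e1, e2]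
  rwa [Set.ncard_univ, Nat.card_eq_fintype_card, Fintype.card_fin] at h

/-- dropping the last step -/
def pc_drop {N m : ℕ} (p : PW N (m + 1)) : PW N m :=
  (fun t => p.1 t.castSucc, fun t => p.2 t.castSucc)

theorem pc_drop_mem {N m : ℕ} {φ : Ed N → Fin N} {E : Finset (Ed N)} {p : PW N (m + 1)}
    (hp : p ∈ pc_W φ E (m + 1)) : pc_drop p ∈ pc_W φ E m := by
  intro t
  have h := hp t.castSucc
  exact h

theorem pc_step {N m : ℕ} {φ : Ed N → Fin N} {E : Finset (Ed N)}
    (hd : ∀ v, degE φ E v ≤ 9000) (q : PW N m) :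
    {p | p ∈ pc_W φ E (m + 1) ∧ pc_drop p = q}.ncard ≤ 9000 := by
  set x : Fin N := q.1 (Fin.last m) with hx
  -- the target
  have htarget : ((fun e => (true, e)) '' {e | e ∈ E ∧ e.1 = x} ∪
      (fun e => (false, e)) '' {e | e ∈ E ∧ φ e = x} : Set (Bool × Ed N)).ncard ≤ 9000 := by
    refine (Set.ncard_union_le _ _).trans (le_trans (Nat.add_le_add ?_ ?_) (hd x))
    · exact Set.ncard_image_le (Set.toFinite _)
    · exact Set.ncard_image_le (Set.toFinite _)
  refine le_trans ?_ htarget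
  refine Set.ncard_le_ncard_of_injOn
    (fun p => ((p.2 (Fin.last m)).1, pwE p (Fin.last m))) ?_ ?_ (Set.toFinite _)
  · rintro p ⟨hp, hpq⟩
    have hpx : p.1 (Fin.last m).castSucc = x := by
      rw [hx, ← hpq]
      rfl
    obtain ⟨h1, h2⟩ := hp (Fin.last m)
    rcases hb : (p.2 (Fin.last m)).1 with _ | _
    · right
      refine ⟨pwE p (Fin.last m), ⟨h1, ?_⟩, by simp only⟩
      unfold wOK at h2
      rw [hb] at h2
      simp only [Bool.false_eq_true, if_false] at h2
      rw [← hpx, ← h2]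
      unfold pwE
      rw [hb]
    · left
      refine ⟨pwE p (Fin.last m), ⟨h1, ?_⟩, by simp only⟩
      unfold pwE wE
      rw [hb]
      simp only [if_true]
      exact hpx
  · rintro p ⟨hp, hpq⟩ p' ⟨hp', hpq'⟩ h
    simp only [Prod.mk.injEq] at h
    obtain ⟨hb, he⟩ := h
    have hd1 : pc_drop p = pc_drop p' := by rw [hpq, hpq']
    have hx1 : p.1 (Fin.last m).castSucc = x := by
      rw [hx, ← hpq]
      rfl
    have hx2 : p'.1 (Fin.last m).castSucc = x := by
      rw [hx, ← hpq']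
      rfl
    obtain ⟨-, h2⟩ := hp (Fin.last m)
    obtain ⟨-, h2'⟩ := hp' (Fin.last m)
    -- the last steps agree
    have hlast : p.1 (Fin.last m).succ = p'.1 (Fin.last m).succ ∧
        (p.2 (Fin.last m)).2 = (p'.2 (Fin.last m)).2 := by
      rcases hbb : (p.2 (Fin.last m)).1 with _ | _
      · have hbb' : (p'.2 (Fin.last m)).1 = false := by rw [← hb, hbb]
        unfold pwE wE at he
        rw [hbb, hbb'] at he
        simp only [Bool.false_eq_true, if_false, Prod.mk.injEq] at he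
        exact he
      · have hbb' : (p'.2 (Fin.last m)).1 = true := by rw [← hb, hbb]
        unfold wOK at h2 h2'
        rw [hbb] at h2
        rw [hbb'] at h2'
        unfold pwE at he
        rw [hbb, hbb'] at he
        simp only [if_true] at h2 h2'
        refine ⟨?_, ?_⟩
        · rw [← h2, ← h2', he]
        · unfold wE at he
          simp only [if_true, Prod.mk.injEq] at he
          exact he.2
    refine Prod.ext ?_ ?_
    · funext i
      refine Fin.lastCases ?_ (fun j => ?_) i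
      · rw [← Fin.succ_last]
        exact hlast.1
      · exact congrFun (congrArg Prod.fst hd1) j
    · funext i
      refine Fin.lastCases ?_ (fun j => ?_) i
      · exact Prod.ext hb hlast.2
      · exact congrFun (congrArg Prod.snd hd1) j

theorem pathCount : Stmt_PathCount := by
  intro N m φ E hd
  have key : ∀ m, (pc_W φ E m).ncard ≤ N * 9000 ^ m := by
    intro m
    induction m with
    | zero =>
      rw [pow_zero, mul_one]
      exact pc_zero φ E
    | succ m ih =>
      have h := pc_fib (pc_W φ E (m + 1)) (pc_W φ E m) pc_drop 9000 (fun p hp => pc_drop_mem hp)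
        (fun q _ => pc_step hd q)
      calc _ ≤ 9000 * (pc_W φ E m).ncard := h
        _ ≤ 9000 * (N * 9000 ^ m) := Nat.mul_le_mul_left _ ih
        _ = N * 9000 ^ (m + 1) := by ring
  exact (Set.ncard_le_ncard (fun p hp => hp.2) (Set.toFinite _)).trans (key m)

theorem pc_words {S : Type} [Fintype S] (X : LGr S) (hd : ∀ v : X.V, X.deg v ≤ 9000) (m : ℕ) :
    ∀ v : X.V, {f : Fin m → S × Bool | (X.run v (List.ofFn f)).isSome}.ncard ≤ 9000 ^ m := by
  induction m with
  | zero =>
    intro v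
    rw [pow_zero]
    refine (Set.ncard_le_ncard (Set.subset_univ _) (Set.toFinite _)).trans ?_
    rw [Set.ncard_univ, Nat.card_eq_fintype_card]
    simp
  | succ m ih =>
    intro v
    have h := pc_fib {f : Fin (m + 1) → S × Bool | (X.run v (List.ofFn f)).isSome}
      {a | (X.step v a).isSome} (fun f => f 0) (9000 ^ m) (by
        intro f hf
        have hf' : (X.run v (List.ofFn f)).isSome := hf
        rw [List.ofFn_succ] at hf'
        unfold LGr.run at hf'
        rw [Set.mem_ofPred_eq]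
        cases hs : X.step v (f 0) with
        | none =>
          rw [hs] at hf'
          simp at hf'
        | some w => simp) (by
        intro a ha
        obtain ⟨w, hw⟩ := Option.isSome_iff_exists.1 ha
        refine le_trans ?_ (ih w)
        refine Set.ncard_le_ncard_of_injOn (fun f => fun i : Fin m => f i.succ) ?_ ?_
          (Set.toFinite _)
        · rintro f ⟨hf, hfa⟩
          have hf' : (X.run v (List.ofFn f)).isSome := hf
          rw [List.ofFn_succ] at hf'
          unfold LGr.run at hf'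
          have hfa' : f 0 = a := hfa
          rw [hfa', hw] at hf'
          exact hf'
        · rintro f ⟨-, hfa⟩ f' ⟨-, hfa'⟩ hff
          funext i
          refine Fin.cases ?_ (fun j => ?_) i
          · exact hfa.trans hfa'.symm
          · exact congrFun hff j)
    calc _ ≤ 9000 ^ m * X.deg v := h
      _ ≤ 9000 ^ m * 9000 := Nat.mul_le_mul_left _ (hd v)
      _ = 9000 ^ (m + 1) := (pow_succ _ _).symm

theorem wdCount : Stmt_WdCount := by
  intro S _ X m hd
  classical
  rcases isEmpty_or_nonempty X.V with hV | hV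
  · have : {f : Fin m → S × Bool | ∃ v, (X.run v (List.ofFn f)).isSome} = ∅ := by
      ext f
      simp
    rw [this]
    simp
  · have hch : ∀ f : Fin m → S × Bool, ∃ v, (∃ v, (X.run v (List.ofFn f)).isSome) →
        (X.run v (List.ofFn f)).isSome := by
      intro f
      by_cases h : ∃ v, (X.run v (List.ofFn f)).isSome
      · obtain ⟨v, hv⟩ := h
        exact ⟨v, fun _ => hv⟩
      · exact ⟨Classical.arbitrary _, fun h' => absurd h' h⟩
    choose w hw using hch
    have h := pc_fib {f : Fin m → S × Bool | ∃ v, (X.run v (List.ofFn f)).isSome}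
      (Set.univ : Set X.V) w (9000 ^ m) (fun _ _ => Set.mem_univ _) (by
        intro v _
        refine (Set.ncard_le_ncard ?_ (Set.toFinite _)).trans (pc_words X hd m v)
        rintro f ⟨hf, rfl⟩
        exact hw f hf)
    rw [Set.ncard_univ, Nat.card_eq_fintype_card] at h
    rw [mul_comm]
    exact h

end Pool.Agent.Lib.MP_6b7756_an.GM
end

section

/-!
# MP_6b7756_an, full disproof: the number of closed walks of random functions
-/

set_option autoImplicit false

namespace Pool.Agent.Lib.MP_6b7756_an.GM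

theorem rg_prod {A B : Type} [Fintype A] [Fintype B] (P : A → B → Prop) :
    {q : A × B | P q.1 q.2}.ncard = ∑ b, {a | P a b}.ncard := by
  classical
  simp only [Set.ncard_eq_toFinset_card', Set.toFinset_setOf, Finset.card_filter]
  rw [Fintype.sum_prod_type, Finset.sum_comm]

theorem rg_key {N k : ℕ} (p : CW N k) :
    {φ : Ed N → Fin N | IsCW φ p}.ncard * N ^ (k + 1) ≤ N ^ (1000 * N) := by
  classical
  by_cases hinj : Function.Injective (cwE p)
  · have h1 : Fintype.card ({φ : Ed N → Fin N | IsCW φ p} × (Fin (k + 1) → Fin N)) ≤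
        Fintype.card (Ed N → Fin N) := by
      refine Fintype.card_le_of_injective
        (fun q => Function.extend (cwE p) q.2 q.1.1) ?_
      rintro ⟨⟨φ, hφ⟩, z⟩ ⟨⟨φ', hφ'⟩, z'⟩ h
      simp only at h
      have hz : z = z' := by
        funext i
        have := congrFun h (cwE p i)
        rwa [hinj.extend_apply, hinj.extend_apply] at this
      have hp : φ = φ' := by
        funext d
        by_cases hd : ∃ i, cwE p i = d
        · obtain ⟨i, rfl⟩ := hd
          have a1 := hφ.2 i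
          have a2 := hφ'.2 i
          unfold wOK at a1 a2
          unfold cwE
          rw [a1, a2]
        · have := congrFun h d
          rwa [Function.extend_apply' _ _ _ hd, Function.extend_apply' _ _ _ hd] at this
      subst hz; subst hp; rfl
    rw [Fintype.card_prod, Fintype.card_fun, Fintype.card_fun, Fintype.card_fin,
      Fintype.card_fin, Fintype.card_prod, Fintype.card_fin, Fintype.card_fin] at h1
    rw [← Nat.card_coe_set_eq, Nat.card_eq_fintype_card, mul_comm 1000 N]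
    exact h1
  · have : {φ : Ed N → Fin N | IsCW φ p} = ∅ := by
      ext φ
      simp only [Set.mem_setOf_eq, Set.mem_empty_iff_false, iff_false]
      exact fun h => hinj h.1
    rw [this, Set.ncard_empty, zero_mul]
    exact Nat.zero_le _

/-- The number of closed walks. -/
theorem rg : Stmt_RG := by
  intro N k
  rcases Nat.eq_zero_or_pos N with rfl | hN
  · have : {q : (Ed 0 → Fin 0) × CW 0 k | IsCW q.1 q.2} = ∅ := by
      ext q
      exact (q.2 0).1.elim0
    rw [this, Set.ncard_empty]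
    exact Nat.zero_le _
  · rw [rg_prod (fun (φ : Ed N → Fin N) (p : CW N k) => IsCW φ p)]
    refine Nat.le_of_mul_le_mul_right ?_ (pow_pos hN (k + 1))
    rw [Finset.sum_mul]
    calc ∑ p : CW N k, {φ : Ed N → Fin N | IsCW φ p}.ncard * N ^ (k + 1)
        ≤ ∑ _p : CW N k, N ^ (1000 * N) := Finset.sum_le_sum fun p _ => rg_key p
      _ = (N * 2000) ^ (k + 1) * N ^ (1000 * N) := by
          rw [Finset.sum_const, Finset.card_univ, smul_eq_mul, Fintype.card_fun,
            Fintype.card_fin, Fintype.card_prod, Fintype.card_prod, Fintype.card_bool,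
            Fintype.card_fin, Fintype.card_fin]
      _ = 2000 ^ (k + 1) * N ^ (1000 * N) * N ^ (k + 1) := by
          rw [mul_pow]; ring

end Pool.Agent.Lib.MP_6b7756_an.GM
end

section

/-!
# MP_6b7756_an, full disproof. Tails of the in-degree
-/

set_option autoImplicit false

namespace Pool.Agent.Lib.MP_6b7756_an.GM

open Finset

/-- The in-degree as a product of factors over the edges. -/
theorem rt_pow_ind {N : ℕ} (φ : Ed N → Fin N) (v : Fin N) (t : ℝ) :
    t ^ ind φ v = ∏ e : Ed N, (if φ e = v then t else 1) := by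
  classical
  have e1 : ind φ v = (Finset.univ.filter fun e : Ed N => φ e = v).card := by
    unfold ind
    rw [← Set.ncard_coe_finset]
    congr 1
    ext e
    simp
  rw [e1, Finset.prod_ite, Finset.prod_const, Finset.prod_const_one, mul_one]

/-- The exponential moment of the in-degree. -/
theorem rt_moment {N : ℕ} (hN : 1 ≤ N) (v : Fin N) {t : ℝ} (ht : 0 ≤ t) :
    ∑ φ : Ed N → Fin N, t ^ ind φ v ≤ (N : ℝ) ^ (1000 * N) * Real.exp (1000 * (t - 1)) := by
  classical
  have hNpos : (0 : ℝ) < N := by exact_mod_cast hN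
  have h1 : ∑ φ : Ed N → Fin N, t ^ ind φ v =
      ∏ e : Ed N, ∑ w : Fin N, (if w = v then t else 1) := by
    rw [Finset.prod_univ_sum]
    rw [Fintype.piFinset_univ]
    exact Finset.sum_congr rfl fun φ _ => rt_pow_ind φ v t
  have h2 : ∑ w : Fin N, (if w = v then t else (1 : ℝ)) = N + (t - 1) := by
    have : ∀ w : Fin N, (if w = v then t else (1 : ℝ)) = 1 + (if w = v then t - 1 else 0) := by
      intro w
      split_ifs <;> ring
    rw [Finset.sum_congr rfl fun w _ => this w, Finset.sum_add_distrib, Finset.sum_ite_eq']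
    simp
  rw [h1, h2, Finset.prod_const]
  have hc : (Finset.univ : Finset (Ed N)).card = N * 1000 := by simp [Ed]
  rw [hc]
  have hN1 : (1 : ℝ) ≤ N := by exact_mod_cast hN
  have h3 : (N : ℝ) + (t - 1) ≤ N * Real.exp ((t - 1) / N) := by
    have h := Real.add_one_le_exp ((t - 1) / N)
    have h' : (N : ℝ) + (t - 1) = N * ((t - 1) / N + 1) := by field_simp; ring
    rw [h']
    exact mul_le_mul_of_nonneg_left h hNpos.le
  calc ((N : ℝ) + (t - 1)) ^ (N * 1000) ≤ (N * Real.exp ((t - 1) / N)) ^ (N * 1000) := by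
        refine pow_le_pow_left₀ (by linarith) h3 _
    _ = (N : ℝ) ^ (1000 * N) * Real.exp (1000 * (t - 1)) := by
        rw [mul_pow, ← Real.exp_nat_mul, mul_comm N 1000]
        congr 2
        push_cast
        field_simp

/-- A bound on `e ^ 500` from below. -/
theorem rt_exp500 : (10 : ℝ) ^ 10 * 2 ^ 550 ≤ Real.exp 500 := by
  have h0 : (2.7182818283 : ℝ) ≤ Real.exp 1 := Real.exp_one_gt_d9.le
  have h7 : (2 : ℝ) ^ 10 ≤ Real.exp 7 := by
    have : Real.exp 7 = Real.exp 1 ^ 7 := by
      rw [← Real.exp_nat_mul]; norm_num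
    rw [this]
    calc (2 : ℝ) ^ 10 ≤ 2.7182818283 ^ 7 := by norm_num
      _ ≤ Real.exp 1 ^ 7 := by gcongr
  have h : Real.exp 500 = Real.exp 7 ^ 71 * Real.exp 3 := by
    rw [← Real.exp_nat_mul, ← Real.exp_add]; norm_num
  rw [h]
  have h3 : (1 : ℝ) ≤ Real.exp 3 := Real.one_le_exp (by norm_num)
  calc (10 : ℝ) ^ 10 * 2 ^ 550 ≤ 2 ^ 40 * 2 ^ 550 := by
        refine mul_le_mul_of_nonneg_right (by norm_num) (by positivity)
    _ = 2 ^ 590 := by rw [← pow_add]
    _ ≤ 2 ^ 710 := pow_le_pow_right₀ (by norm_num) (by norm_num)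
    _ = (2 ^ 10) ^ 71 := by rw [← pow_mul]
    _ ≤ Real.exp 7 ^ 71 := by gcongr
    _ ≤ Real.exp 7 ^ 71 * Real.exp 3 := le_mul_of_one_le_right (by positivity) h3

/-- A bound on `e ^ 1000` from above. -/
theorem rt_exp1000 : Real.exp 1000 ≤ 2 ^ 1500 := by
  have h0 : Real.exp 1 ≤ 2.7182818286 := Real.exp_one_lt_d9.le
  have h2 : Real.exp 2 ≤ 2 ^ 3 := by
    have : Real.exp 2 = Real.exp 1 ^ 2 := by
      rw [← Real.exp_nat_mul]; norm_num
    rw [this]
    calc Real.exp 1 ^ 2 ≤ 2.7182818286 ^ 2 := by gcongr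
      _ ≤ 2 ^ 3 := by norm_num
  have h : Real.exp 1000 = Real.exp 2 ^ 500 := by
    rw [← Real.exp_nat_mul]; norm_num
  rw [h]
  calc Real.exp 2 ^ 500 ≤ (2 ^ 3) ^ 500 := by gcongr
    _ = 2 ^ 1500 := by rw [← pow_mul]

/-- The lower tail, pointwise. -/
theorem rt_lo {k : ℕ} : (if k < 550 then (1 : ℝ) else 0) ≤ 2 ^ 550 * (1 / 2 : ℝ) ^ k := by
  split_ifs with h
  · have h1 : (2 : ℝ) ^ 550 * (1 / 2 : ℝ) ^ k = 2 ^ (550 - k) := by
      have : (2 : ℝ) ^ 550 = 2 ^ (550 - k) * 2 ^ k := by
        rw [← pow_add]; congr 1; omega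
      rw [this, mul_assoc, ← mul_pow]
      norm_num
    rw [h1]
    exact one_le_pow₀ (by norm_num)
  · positivity

/-- The upper tail, pointwise. -/
theorem rt_hi_nat (k : ℕ) : 1000 + (8001 + k) ≤ 9001 * 2 ^ k := by
  induction k with
  | zero => norm_num
  | succ n ih =>
    rw [pow_succ]
    have : 1 ≤ 2 ^ n := Nat.one_le_two_pow
    omega

theorem rt_hi {k : ℕ} : (2 : ℝ) ^ 8001 * (if 8000 < k then ((1000 + k : ℕ) : ℝ) else 0) ≤
    9001 * (2 : ℝ) ^ k := by
  split_ifs with h
  · obtain ⟨j, rfl⟩ := Nat.exists_eq_add_of_lt h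
    have h1 := rt_hi_nat j
    have h2 : ((1000 + (8000 + j + 1) : ℕ) : ℝ) ≤ 9001 * 2 ^ j := by
      have : 1000 + (8000 + j + 1) ≤ 9001 * 2 ^ j := by omega
      exact_mod_cast this
    calc (2 : ℝ) ^ 8001 * ((1000 + (8000 + j + 1) : ℕ) : ℝ) ≤ 2 ^ 8001 * (9001 * 2 ^ j) :=
          mul_le_mul_of_nonneg_left h2 (by positivity)
      _ = 9001 * (2 ^ 8001 * 2 ^ j) := by
          generalize (2 : ℝ) ^ 8001 = P
          ring
      _ = 9001 * (2 : ℝ) ^ (8000 + j + 1) := by
          rw [← pow_add]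
          congr 2
          omega
  · rw [mul_zero]
    positivity

/-- The lower tail. -/
theorem rt_lower {N : ℕ} (hN : 1 ≤ N) :
    10 ^ 10 * ∑ φ : Ed N → Fin N, {v | ind φ v < 550}.ncard ≤ N * N ^ (1000 * N) := by
  classical
  have e1 : ∀ φ : Ed N → Fin N, (({v | ind φ v < 550}.ncard : ℕ) : ℝ) =
      ∑ v : Fin N, (if ind φ v < 550 then (1 : ℝ) else 0) := by
    intro φ
    have : {v | ind φ v < 550}.ncard = (Finset.univ.filter fun v : Fin N => ind φ v < 550).card := by
      rw [← Set.ncard_coe_finset]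
      congr 1
      ext v
      simp
    rw [this, Finset.card_filter]
    push_cast
    rfl
  have key : (10 : ℝ) ^ 10 * ∑ φ : Ed N → Fin N, (({v | ind φ v < 550}.ncard : ℕ) : ℝ) ≤
      N * (N : ℝ) ^ (1000 * N) := by
    have h1 : ∑ φ : Ed N → Fin N, (({v | ind φ v < 550}.ncard : ℕ) : ℝ) ≤
        N * (2 ^ 550 * ((N : ℝ) ^ (1000 * N) * Real.exp (1000 * (1 / 2 - 1)))) := by
      rw [Finset.sum_congr rfl fun φ _ => e1 φ, Finset.sum_comm]
      calc ∑ v : Fin N, ∑ φ : Ed N → Fin N, (if ind φ v < 550 then (1 : ℝ) else 0)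
          ≤ ∑ v : Fin N, 2 ^ 550 * ((N : ℝ) ^ (1000 * N) * Real.exp (1000 * (1 / 2 - 1))) := by
            refine Finset.sum_le_sum fun v _ => ?_
            calc ∑ φ : Ed N → Fin N, (if ind φ v < 550 then (1 : ℝ) else 0)
                ≤ ∑ φ : Ed N → Fin N, 2 ^ 550 * (1 / 2 : ℝ) ^ ind φ v :=
                  Finset.sum_le_sum fun φ _ => rt_lo
              _ = 2 ^ 550 * ∑ φ : Ed N → Fin N, (1 / 2 : ℝ) ^ ind φ v := by
                  rw [Finset.mul_sum]
              _ ≤ 2 ^ 550 * ((N : ℝ) ^ (1000 * N) * Real.exp (1000 * (1 / 2 - 1))) :=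
                  mul_le_mul_of_nonneg_left (rt_moment hN v (by norm_num)) (by positivity)
        _ = N * (2 ^ 550 * ((N : ℝ) ^ (1000 * N) * Real.exp (1000 * (1 / 2 - 1)))) := by
            rw [Finset.sum_const, Finset.card_univ, Fintype.card_fin, nsmul_eq_mul]
    have h2 : (1000 : ℝ) * (1 / 2 - 1) = -500 := by norm_num
    rw [h2, Real.exp_neg] at h1
    have h3 : (10 : ℝ) ^ 10 * 2 ^ 550 * (Real.exp 500)⁻¹ ≤ 1 := by
      rw [← div_eq_mul_inv, div_le_one (Real.exp_pos _)]
      exact rt_exp500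
    calc (10 : ℝ) ^ 10 * ∑ φ : Ed N → Fin N, (({v | ind φ v < 550}.ncard : ℕ) : ℝ)
        ≤ 10 ^ 10 * (N * (2 ^ 550 * ((N : ℝ) ^ (1000 * N) * (Real.exp 500)⁻¹))) :=
          mul_le_mul_of_nonneg_left h1 (by positivity)
      _ = (10 ^ 10 * 2 ^ 550 * (Real.exp 500)⁻¹) * (N * (N : ℝ) ^ (1000 * N)) := by
          generalize (2 : ℝ) ^ 550 = P
          generalize (N : ℝ) ^ (1000 * N) = Q
          ring
      _ ≤ 1 * (N * (N : ℝ) ^ (1000 * N)) := mul_le_mul_of_nonneg_right h3 (by positivity)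
      _ = N * (N : ℝ) ^ (1000 * N) := one_mul _
  exact_mod_cast key

/-- The upper tail. -/
theorem rt_upper {N : ℕ} (hN : 1 ≤ N) :
    10 ^ 10 * ∑ φ : Ed N → Fin N, ∑ v, (if 8000 < ind φ v then 1000 + ind φ v else 0) ≤
      N * N ^ (1000 * N) := by
  classical
  have key : (10 : ℝ) ^ 10 * ∑ φ : Ed N → Fin N, ∑ v,
      (if 8000 < ind φ v then ((1000 + ind φ v : ℕ) : ℝ) else 0) ≤
      N * (N : ℝ) ^ (1000 * N) := by
    have h1 : (2 : ℝ) ^ 8001 * ∑ φ : Ed N → Fin N, ∑ v,
        (if 8000 < ind φ v then ((1000 + ind φ v : ℕ) : ℝ) else 0) ≤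
        N * (9001 * ((N : ℝ) ^ (1000 * N) * Real.exp (1000 * (2 - 1)))) := by
      rw [Finset.sum_comm, Finset.mul_sum]
      calc ∑ v : Fin N, (2 : ℝ) ^ 8001 * ∑ φ : Ed N → Fin N,
            (if 8000 < ind φ v then ((1000 + ind φ v : ℕ) : ℝ) else 0)
          ≤ ∑ v : Fin N, 9001 * ((N : ℝ) ^ (1000 * N) * Real.exp (1000 * (2 - 1))) := by
            refine Finset.sum_le_sum fun v _ => ?_
            rw [Finset.mul_sum]
            calc ∑ φ : Ed N → Fin N, (2 : ℝ) ^ 8001 *
                  (if 8000 < ind φ v then ((1000 + ind φ v : ℕ) : ℝ) else 0)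
                ≤ ∑ φ : Ed N → Fin N, 9001 * (2 : ℝ) ^ ind φ v :=
                  Finset.sum_le_sum fun φ _ => rt_hi
              _ = 9001 * ∑ φ : Ed N → Fin N, (2 : ℝ) ^ ind φ v := by
                  rw [Finset.mul_sum]
              _ ≤ 9001 * ((N : ℝ) ^ (1000 * N) * Real.exp (1000 * (2 - 1))) :=
                  mul_le_mul_of_nonneg_left (rt_moment hN v (by norm_num)) (by positivity)
        _ = N * (9001 * ((N : ℝ) ^ (1000 * N) * Real.exp (1000 * (2 - 1)))) := by
            rw [Finset.sum_const, Finset.card_univ, Fintype.card_fin, nsmul_eq_mul]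
    have h2 : (1000 : ℝ) * (2 - 1) = 1000 := by norm_num
    rw [h2] at h1
    have h3 : (10 : ℝ) ^ 10 * (9001 * Real.exp 1000) ≤ 2 ^ 8001 := by
      calc (10 : ℝ) ^ 10 * (9001 * Real.exp 1000) ≤ 10 ^ 10 * (9001 * 2 ^ 1500) := by
            have := rt_exp1000
            gcongr
        _ = (10 ^ 10 * 9001) * 2 ^ 1500 := by
            generalize (2 : ℝ) ^ 1500 = P
            ring
        _ ≤ 2 ^ 60 * 2 ^ 1500 := by
            refine mul_le_mul_of_nonneg_right (by norm_num) (by positivity)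
        _ = 2 ^ 1560 := by rw [← pow_add]
        _ ≤ 2 ^ 8001 := pow_le_pow_right₀ (by norm_num) (by norm_num)
    have hP : (0 : ℝ) < 2 ^ 8001 := by positivity
    have hQ : (0 : ℝ) ≤ (N : ℝ) * (N : ℝ) ^ (1000 * N) := by positivity
    have hE : (0 : ℝ) < Real.exp 1000 := Real.exp_pos _
    generalize (2 : ℝ) ^ 8001 = P at h1 h3 hP
    generalize Real.exp 1000 = E at h1 h3 hE
    generalize (∑ φ : Ed N → Fin N, ∑ v,
      (if 8000 < ind φ v then ((1000 + ind φ v : ℕ) : ℝ) else 0)) = S at h1 ⊢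
    have h4 : P * ((10 : ℝ) ^ 10 * S) ≤ P * (N * (N : ℝ) ^ (1000 * N)) := by
      calc P * ((10 : ℝ) ^ 10 * S) = 10 ^ 10 * (P * S) := by ring
        _ ≤ 10 ^ 10 * (N * (9001 * ((N : ℝ) ^ (1000 * N) * E))) :=
            mul_le_mul_of_nonneg_left h1 (by positivity)
        _ = (10 ^ 10 * (9001 * E)) * (N * (N : ℝ) ^ (1000 * N)) := by ring
        _ ≤ P * (N * (N : ℝ) ^ (1000 * N)) := mul_le_mul_of_nonneg_right h3 hQ
    exact le_of_mul_le_mul_left h4 hP
  have e2 : ((10 ^ 10 * ∑ φ : Ed N → Fin N, ∑ v,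
      (if 8000 < ind φ v then 1000 + ind φ v else 0) : ℕ) : ℝ) ≤
      ((N * N ^ (1000 * N) : ℕ) : ℝ) := by
    push_cast
    push_cast at key
    norm_num at key ⊢
    exact key
  exact_mod_cast e2

/-- Tails of the in-degree. -/
theorem rt : Stmt_RT := fun _ hN => ⟨rt_lower hN, rt_upper hN⟩

end Pool.Agent.Lib.MP_6b7756_an.GM
end

section

/-!
# MP_6b7756_an, full disproof. Few functions have dense bipartite subgraphs
-/

set_option autoImplicit false

namespace Pool.Agent.Lib.MP_6b7756_an.GM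

open Finset

/-- Markov inequality for the number of edges between two sets. -/
theorem rxb_markov (h : Stmt_RX1) {N : ℕ} (hN : 1 ≤ N) (A B : Finset (Fin N)) (n : ℕ)
    (hd : Disjoint A B) (hn : A.card + B.card = n) {t : ℝ} (ht : 1 ≤ t) :
    (({φ : Ed N → Fin N | 750 * n < eAB φ A B}.ncard : ℕ) : ℝ) * t ^ (750 * n) ≤
      (N : ℝ) ^ (1000 * N) * Real.exp (500 * (t - 1) * n ^ 2 / N) := by
  classical
  have h1 := h N A B t hN hd ht
  have hNpos : (0 : ℝ) < N := by exact_mod_cast hN
  have h2 : (({φ : Ed N → Fin N | 750 * n < eAB φ A B}.ncard : ℕ) : ℝ) * t ^ (750 * n) ≤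
      ∑ φ : Ed N → Fin N, t ^ eAB φ A B := by
    have e1 : {φ : Ed N → Fin N | 750 * n < eAB φ A B}.ncard =
        (Finset.univ.filter fun φ : Ed N → Fin N => 750 * n < eAB φ A B).card := by
      rw [← Set.ncard_coe_finset]
      congr 1
      ext φ
      simp
    rw [e1]
    calc ((Finset.univ.filter fun φ : Ed N → Fin N => 750 * n < eAB φ A B).card : ℝ)
          * t ^ (750 * n)
        = ∑ φ ∈ Finset.univ.filter (fun φ : Ed N → Fin N => 750 * n < eAB φ A B),
            t ^ (750 * n) := by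
          rw [Finset.sum_const, nsmul_eq_mul]
      _ ≤ ∑ φ ∈ Finset.univ.filter (fun φ : Ed N → Fin N => 750 * n < eAB φ A B),
            t ^ eAB φ A B := by
          refine Finset.sum_le_sum fun φ hφ => ?_
          refine pow_le_pow_right₀ ht ?_
          exact le_of_lt (Finset.mem_filter.mp hφ).2
      _ ≤ ∑ φ : Ed N → Fin N, t ^ eAB φ A B := by
          refine Finset.sum_le_sum_of_subset_of_nonneg (Finset.filter_subset _ _) ?_
          intro φ _ _
          positivity
  refine h2.trans (h1.trans ?_)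
  refine mul_le_mul_of_nonneg_left ?_ (by positivity)
  refine Real.exp_le_exp.mpr ?_
  refine div_le_div_of_nonneg_right ?_ hNpos.le
  have h3 : (4 : ℝ) * (A.card * B.card) ≤ (n : ℝ) ^ 2 := by
    rw [← hn]
    push_cast
    nlinarith [sq_nonneg ((A.card : ℝ) - B.card)]
  have h4 : 0 ≤ t - 1 := by linarith
  nlinarith [mul_le_mul_of_nonneg_left h3 h4]

/-- `e ^ 500 ≤ 2 ^ 723`. -/
theorem rxb_exp500 : Real.exp 500 ≤ 2 ^ 723 := by
  have h0 : Real.exp 1 ≤ 2.7182818286 := Real.exp_one_lt_d9.le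
  have h9 : Real.exp 9 ≤ 2 ^ 13 := by
    have : Real.exp 9 = Real.exp 1 ^ 9 := by
      rw [← Real.exp_nat_mul]; norm_num
    rw [this]
    calc Real.exp 1 ^ 9 ≤ 2.7182818286 ^ 9 := by gcongr
      _ ≤ 2 ^ 13 := by norm_num
  have h5 : Real.exp 5 ≤ 2 ^ 8 := by
    have : Real.exp 5 = Real.exp 1 ^ 5 := by
      rw [← Real.exp_nat_mul]; norm_num
    rw [this]
    calc Real.exp 1 ^ 5 ≤ 2.7182818286 ^ 5 := by gcongr
      _ ≤ 2 ^ 8 := by norm_num
  have h : Real.exp 500 = Real.exp 9 ^ 55 * Real.exp 5 := by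
    rw [← Real.exp_nat_mul, ← Real.exp_add]; norm_num
  rw [h]
  calc Real.exp 9 ^ 55 * Real.exp 5 ≤ (2 ^ 13) ^ 55 * 2 ^ 8 := by gcongr
    _ = 2 ^ 723 := by rw [← pow_mul, ← pow_add]

/-- The numerical inequality. -/
theorem rxb_num {x : ℝ} (hx : 1 ≤ x) : ∃ t : ℝ, 1 ≤ t ∧
    2 * Real.exp 1 * x * Real.exp (500 * (t - 1) / x) * 1000 ≤ t ^ 750 := by
  have hx0 : 0 < x := by linarith
  have he : Real.exp 1 ≤ 3 := Real.exp_one_lt_three.le
  rcases le_or_gt x 8 with h8 | h8
  · refine ⟨2, by norm_num, ?_⟩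
    have h1 : Real.exp (500 * (2 - 1) / x) ≤ 2 ^ 723 := by
      refine le_trans (Real.exp_le_exp.mpr ?_) rxb_exp500
      rw [div_le_iff₀ hx0]
      linarith
    calc 2 * Real.exp 1 * x * Real.exp (500 * (2 - 1) / x) * 1000
        ≤ 2 * 3 * 8 * 2 ^ 723 * 1000 := by gcongr
      _ ≤ 2 ^ 750 := by
          have : (2 : ℝ) ^ 750 = 2 ^ 723 * 2 ^ 27 := by rw [← pow_add]
          rw [this]
          have h2 : (0 : ℝ) < 2 ^ 723 := by positivity
          generalize (2 : ℝ) ^ 723 = P at h2 ⊢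
          nlinarith
  · refine ⟨x, hx, ?_⟩
    have h1 : Real.exp (500 * (x - 1) / x) ≤ 2 ^ 723 := by
      refine le_trans (Real.exp_le_exp.mpr ?_) rxb_exp500
      rw [div_le_iff₀ hx0]
      nlinarith
    have h3 : (8 : ℝ) ^ 749 ≤ x ^ 749 := by gcongr
    calc 2 * Real.exp 1 * x * Real.exp (500 * (x - 1) / x) * 1000
        ≤ 2 * 3 * x * 2 ^ 723 * 1000 := by gcongr
      _ = (6000 * 2 ^ 723) * x := by
          generalize (2 : ℝ) ^ 723 = P
          ring
      _ ≤ x ^ 749 * x := by
          refine mul_le_mul_of_nonneg_right ?_ hx0.le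
          refine le_trans ?_ h3
          have : (8 : ℝ) ^ 749 = 2 ^ 723 * 2 ^ 1524 := by
            rw [← pow_add, show (8 : ℝ) = 2 ^ 3 by norm_num, ← pow_mul]
          rw [this]
          have h2 : (0 : ℝ) < 2 ^ 723 := by positivity
          have h4 : (6000 : ℝ) ≤ 2 ^ 1524 := by
            calc (6000 : ℝ) ≤ 2 ^ 13 := by norm_num
              _ ≤ 2 ^ 1524 := pow_le_pow_right₀ (by norm_num) (by norm_num)
          generalize (2 : ℝ) ^ 723 = P at h2 ⊢
          generalize (2 : ℝ) ^ 1524 = R at h4 ⊢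
          nlinarith
      _ = x ^ 750 := by rw [← pow_succ]

/-- Binomial coefficients. -/
theorem rxb_choose {N n : ℕ} (hn : 1 ≤ n) :
    ((N.choose n : ℕ) : ℝ) ≤ (Real.exp 1 * (N / n)) ^ n := by
  have hn0 : (0 : ℝ) < n := by exact_mod_cast hn
  have h1 : ((N.choose n : ℕ) : ℝ) ≤ (N : ℝ) ^ n / (n.factorial : ℝ) := by
    exact_mod_cast Nat.choose_le_pow_div (α := ℝ) n N
  have h2 : (n : ℝ) ^ n / n.factorial ≤ Real.exp n :=
    Real.pow_div_factorial_le_exp (n : ℝ) hn0.le n
  refine h1.trans ?_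
  have hf : (0 : ℝ) < n.factorial := by exact_mod_cast n.factorial_pos
  have h3 : Real.exp (n : ℝ) = Real.exp 1 ^ n := by
    rw [← Real.exp_nat_mul]; simp
  rw [mul_pow, div_pow, ← h3]
  rw [div_le_iff₀ hf] at h2 ⊢
  have h4 : Real.exp (n : ℝ) * ((N : ℝ) ^ n / (n : ℝ) ^ n) * (n.factorial : ℝ) =
      (Real.exp (n : ℝ) * n.factorial) * ((N : ℝ) ^ n / (n : ℝ) ^ n) := by ring
  rw [h4]
  have h5 : (N : ℝ) ^ n = (n : ℝ) ^ n * ((N : ℝ) ^ n / (n : ℝ) ^ n) := by
    field_simp
  calc (N : ℝ) ^ n = (n : ℝ) ^ n * ((N : ℝ) ^ n / (n : ℝ) ^ n) := h5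
    _ ≤ _ := mul_le_mul_of_nonneg_right h2 (by positivity)

/-- One term of the sum. -/
theorem rxb_term (h : Stmt_RX1) {N : ℕ} (hN : 1 ≤ N) (n : ℕ) (hn : 1 ≤ n) (hnN : n ≤ N) :
    ∃ g : ℝ, 0 ≤ g ∧ (∀ A B : Finset (Fin N), Disjoint A B → A.card + B.card = n →
      (({φ : Ed N → Fin N | 750 * n < eAB φ A B}.ncard : ℕ) : ℝ) ≤ (N : ℝ) ^ (1000 * N) * g) ∧
      ((N.choose n : ℕ) : ℝ) * (2 ^ n * g) ≤ (1 / 1000 : ℝ) ^ n := by
  have hn0 : (0 : ℝ) < n := by exact_mod_cast hn
  have hN0 : (0 : ℝ) < N := by exact_mod_cast hN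
  have hx : (1 : ℝ) ≤ (N : ℝ) / n := by
    rw [le_div_iff₀ hn0]
    simpa using (by exact_mod_cast hnN : (n : ℝ) ≤ N)
  obtain ⟨t, ht, hnum⟩ := rxb_num hx
  have ht0 : 0 < t := by linarith
  refine ⟨Real.exp (500 * (t - 1) * n ^ 2 / N) / t ^ (750 * n), by positivity, ?_, ?_⟩
  · intro A B hd hc
    rw [← mul_div_assoc, le_div_iff₀ (by positivity)]
    exact rxb_markov h hN A B n hd hc ht
  · have h1 := rxb_choose (N := N) hn
    have h2 : Real.exp (500 * (t - 1) * n ^ 2 / N) =
        Real.exp (500 * (t - 1) / (N / n)) ^ n := by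
      rw [← Real.exp_nat_mul]
      congr 1
      field_simp
    rw [h2]
    calc ((N.choose n : ℕ) : ℝ) * (2 ^ n * (Real.exp (500 * (t - 1) / (N / n)) ^ n /
            t ^ (750 * n)))
        ≤ (Real.exp 1 * (N / n)) ^ n * (2 ^ n * (Real.exp (500 * (t - 1) / (N / n)) ^ n /
            t ^ (750 * n))) := by gcongr
      _ = (2 * Real.exp 1 * (N / n) * Real.exp (500 * (t - 1) / (N / n)) / t ^ 750) ^ n := by
          rw [pow_mul, div_pow, mul_pow, mul_pow, mul_pow, mul_pow]
          ring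
      _ ≤ (1 / 1000 : ℝ) ^ n := by
          refine pow_le_pow_left₀ (by positivity) ?_ n
          rw [div_le_div_iff₀ (by positivity) (by norm_num)]
          linarith

/-- Few functions have dense bipartite subgraphs. -/
theorem rx (h : Stmt_RX1) : Stmt_RX := by
  classical
  intro N hN
  have hN0 : (0 : ℝ) < N := by exact_mod_cast hN
  set Bd : Finset (Fin N) → Finset (Fin N) → Finset (Ed N → Fin N) := fun U A =>
    Finset.univ.filter fun φ => 750 * U.card < eAB φ A (U \ A) with hBd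
  have hsub : {φ : Ed N → Fin N | ∃ A B : Finset (Fin N), Disjoint A B ∧
      750 * (A.card + B.card) < eAB φ A B} ⊆
      ((Finset.univ.powerset.biUnion fun U : Finset (Fin N) =>
        U.powerset.biUnion fun A => Bd U A : Finset (Ed N → Fin N)) : Set _) := by
    rintro φ ⟨A, B, hd, hlt⟩
    rw [Finset.mem_coe, Finset.mem_biUnion]
    refine ⟨A ∪ B, Finset.mem_powerset.mpr (Finset.subset_univ _), ?_⟩
    rw [Finset.mem_biUnion]
    refine ⟨A, Finset.mem_powerset.mpr Finset.subset_union_left, ?_⟩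
    simp only [hBd, Finset.mem_filter, Finset.mem_univ, true_and]
    rw [Finset.card_union_of_disjoint hd]
    have : (A ∪ B) \ A = B := by
      rw [Finset.union_sdiff_left]
      exact Finset.sdiff_eq_self_of_disjoint hd.symm
    rwa [this]
  have hcard : ({φ : Ed N → Fin N | ∃ A B : Finset (Fin N), Disjoint A B ∧
      750 * (A.card + B.card) < eAB φ A B}.ncard : ℝ) ≤
      ∑ U ∈ (Finset.univ : Finset (Fin N)).powerset, ∑ A ∈ U.powerset, ((Bd U A).card : ℝ) := by
    have h1 := Set.ncard_le_ncard hsub (Finset.finite_toSet _)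
    rw [Set.ncard_coe_finset] at h1
    have h2 : (Finset.univ.powerset.biUnion fun U : Finset (Fin N) =>
        U.powerset.biUnion fun A => Bd U A).card ≤
        ∑ U ∈ (Finset.univ : Finset (Fin N)).powerset, ∑ A ∈ U.powerset, (Bd U A).card := by
      refine Finset.card_biUnion_le.trans ?_
      exact Finset.sum_le_sum fun U _ => Finset.card_biUnion_le
    exact_mod_cast h1.trans h2
  have hterm : ∀ n : ℕ, ∃ g : ℝ, 0 ≤ g ∧
      (1 ≤ n → n ≤ N → (∀ A B : Finset (Fin N), Disjoint A B → A.card + B.card = n →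
      (({φ : Ed N → Fin N | 750 * n < eAB φ A B}.ncard : ℕ) : ℝ) ≤ (N : ℝ) ^ (1000 * N) * g) ∧
      ((N.choose n : ℕ) : ℝ) * (2 ^ n * g) ≤ (1 / 1000 : ℝ) ^ n) := by
    intro n
    by_cases hn : 1 ≤ n ∧ n ≤ N
    · obtain ⟨g, hg0, hg1, hg2⟩ := rxb_term h hN n hn.1 hn.2
      exact ⟨g, hg0, fun _ _ => ⟨hg1, hg2⟩⟩
    · exact ⟨0, le_rfl, fun h1 h2 => absurd ⟨h1, h2⟩ hn⟩
  choose g hg0 hg using hterm
  have hU : ∀ U ∈ (Finset.univ : Finset (Fin N)).powerset, ∑ A ∈ U.powerset,
      ((Bd U A).card : ℝ) ≤ if U.card = 0 then 0 else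
        (N : ℝ) ^ (1000 * N) * (2 ^ U.card * g U.card) := by
    intro U _
    have hUN : U.card ≤ N := by simpa using U.card_le_univ
    split_ifs with h0
    · rw [Finset.card_eq_zero] at h0
      subst h0
      have : Bd ∅ ∅ = ∅ := by
        simp only [hBd]
        refine Finset.filter_eq_empty_iff.mpr ?_
        intro φ _
        simp [eAB]
      simp [this]
    · have h1 : 1 ≤ U.card := Nat.one_le_iff_ne_zero.mpr h0
      have h2 : ∀ A ∈ U.powerset, ((Bd U A).card : ℝ) ≤ (N : ℝ) ^ (1000 * N) * g U.card := by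
        intro A hA
        have hA' : A ⊆ U := Finset.mem_powerset.mp hA
        have h3 := (hg U.card h1 hUN).1 A (U \ A) Finset.disjoint_sdiff (by
          rw [Finset.card_sdiff_of_subset hA']
          have := Finset.card_le_card hA'
          omega)
        have e1 : {φ : Ed N → Fin N | 750 * U.card < eAB φ A (U \ A)}.ncard =
            (Bd U A).card := by
          rw [← Set.ncard_coe_finset (Bd U A)]
          congr 1
          ext φ
          simp [hBd]
        rwa [e1] at h3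
      calc ∑ A ∈ U.powerset, ((Bd U A).card : ℝ)
          ≤ ∑ A ∈ U.powerset, (N : ℝ) ^ (1000 * N) * g U.card := Finset.sum_le_sum h2
        _ = (N : ℝ) ^ (1000 * N) * (2 ^ U.card * g U.card) := by
            rw [Finset.sum_const, Finset.card_powerset, nsmul_eq_mul]
            push_cast
            ring
  have hsum : ∑ U ∈ (Finset.univ : Finset (Fin N)).powerset, (if U.card = 0 then 0 else
        (N : ℝ) ^ (1000 * N) * (2 ^ U.card * g U.card)) ≤ (N : ℝ) ^ (1000 * N) * (1 / 100) := by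
    rw [Finset.sum_powerset_apply_card (fun n => if n = 0 then (0 : ℝ) else
        (N : ℝ) ^ (1000 * N) * (2 ^ n * g n))]
    have hc : (Finset.univ : Finset (Fin N)).card = N := by simp
    rw [hc]
    have h1 : ∀ n ∈ Finset.range (N + 1), (N.choose n) • (if n = 0 then (0 : ℝ) else
        (N : ℝ) ^ (1000 * N) * (2 ^ n * g n)) ≤
        (N : ℝ) ^ (1000 * N) * (if n = 0 then 0 else (1 / 1000 : ℝ) ^ n) := by
      intro n hn
      have hnN : n ≤ N := by
        have := Finset.mem_range.mp hn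
        omega
      split_ifs with h0
      · simp
      · have h2 := (hg n (Nat.one_le_iff_ne_zero.mpr h0) hnN).2
        rw [nsmul_eq_mul]
        calc (N.choose n : ℝ) * ((N : ℝ) ^ (1000 * N) * (2 ^ n * g n))
            = (N : ℝ) ^ (1000 * N) * ((N.choose n : ℝ) * (2 ^ n * g n)) := by ring
          _ ≤ _ := mul_le_mul_of_nonneg_left h2 (by positivity)
    refine (Finset.sum_le_sum h1).trans ?_
    rw [← Finset.mul_sum]
    refine mul_le_mul_of_nonneg_left ?_ (by positivity)
    rw [Finset.sum_range_succ']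
    simp only [Nat.add_eq_zero_iff, one_ne_zero, and_false, if_false, if_true, add_zero]
    have h3 : ∀ M : ℕ, ∑ n ∈ Finset.range M, (1 / 1000 : ℝ) ^ (n + 1) ≤
        1 / 100 - (1 / 1000 : ℝ) ^ M / 100 := by
      intro M
      induction M with
      | zero => norm_num
      | succ M ih =>
        rw [Finset.sum_range_succ]
        have h5 : (0 : ℝ) < (1 / 1000 : ℝ) ^ M := by positivity
        have h6 : (1 / 1000 : ℝ) ^ (M + 1) = (1 / 1000 : ℝ) ^ M * (1 / 1000) := pow_succ _ _
        rw [h6]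
        linarith
    have h4 := h3 N
    have h5 : (0 : ℝ) < (1 / 1000 : ℝ) ^ N := by positivity
    linarith
  have hfin : (100 : ℝ) * ({φ : Ed N → Fin N | ∃ A B : Finset (Fin N), Disjoint A B ∧
      750 * (A.card + B.card) < eAB φ A B}.ncard : ℝ) ≤ (N : ℝ) ^ (1000 * N) := by
    have := hcard.trans ((Finset.sum_le_sum hU).trans hsum)
    linarith
  exact_mod_cast hfin

end Pool.Agent.Lib.MP_6b7756_an.GM
end

section

/-!
# MP_6b7756_an: exponential moments of the number of edges between two sets (task E2)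
-/

set_option autoImplicit false

namespace Pool.Agent.Lib.MP_6b7756_an.GM

open Classical in
theorem rxa_sum {N : ℕ} (A : Finset (Fin N)) (x : ℝ) :
    ∑ e : Ed N, (if e.1 ∈ A then x else 0) = 1000 * (A.card * x) := by
  have h1 : ∀ v : Fin N, ∑ _k : Fin 1000, (if v ∈ A then x else 0) =
      1000 * (if v ∈ A then x else 0) := by
    intro v
    rw [Finset.sum_const, Finset.card_univ, Fintype.card_fin, nsmul_eq_mul]
    norm_num
  rw [Fintype.sum_prod_type]
  show ∑ v : Fin N, ∑ _k : Fin 1000, (if v ∈ A then x else 0) = 1000 * (A.card * x)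
  rw [Finset.sum_congr rfl (fun v _ => h1 v), ← Finset.mul_sum, ← Finset.sum_filter,
    Finset.filter_mem_eq_inter, Finset.univ_inter, Finset.sum_const, nsmul_eq_mul]

theorem rx1 : Stmt_RX1 := by
  classical
  intro N A B t hN _ ht
  have hNr : (0 : ℝ) < N := by exact_mod_cast hN
  let w : Ed N → Fin N → ℝ := fun e v =>
    if (e.1 ∈ A ∧ v ∈ B) ∨ (e.1 ∈ B ∧ v ∈ A) then t else 1
  have h1 : ∀ φ : Ed N → Fin N, t ^ eAB φ A B = ∏ e, w e (φ e) := by
    intro φ
    have h0 : eAB φ A B = (Finset.univ.filter (fun e : Ed N =>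
        (e.1 ∈ A ∧ φ e ∈ B) ∨ (e.1 ∈ B ∧ φ e ∈ A))).card := by
      rw [eAB, ← Set.ncard_coe_finset]
      congr 1
      ext e
      simp
    rw [h0, ← Finset.prod_const, Finset.prod_filter]
  have h2 : ∑ φ : Ed N → Fin N, ∏ e, w e (φ e) = ∏ e, ∑ v, w e v := by
    rw [Finset.prod_univ_sum, Fintype.piFinset_univ]
  let q : Ed N → ℝ := fun e => (t - 1) * ((if e.1 ∈ A then (B.card : ℝ) else 0) +
    (if e.1 ∈ B then (A.card : ℝ) else 0)) / N
  have h3 : ∀ e ∈ (Finset.univ : Finset (Ed N)), ∑ v, w e v ≤ N * Real.exp (q e) := by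
    intro e _
    have e1 : ∀ v, w e v ≤ 1 + (t - 1) * ((if e.1 ∈ A then (if v ∈ B then (1 : ℝ) else 0) else 0) +
        (if e.1 ∈ B then (if v ∈ A then (1 : ℝ) else 0) else 0)) := by
      intro v
      simp only [w]
      by_cases p1 : e.1 ∈ A <;> by_cases p2 : e.1 ∈ B <;> by_cases p3 : v ∈ A <;>
        by_cases p4 : v ∈ B <;> simp [p1, p2, p3, p4] <;> linarith
    have e2 : ∑ v : Fin N, (1 + (t - 1) * ((if e.1 ∈ A then (if v ∈ B then (1 : ℝ) else 0) else 0)
        + (if e.1 ∈ B then (if v ∈ A then (1 : ℝ) else 0) else 0))) = N * (1 + q e) := by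
      rw [Finset.sum_add_distrib, ← Finset.mul_sum, Finset.sum_add_distrib]
      have e3 : ∀ C : Finset (Fin N), ∑ v : Fin N, (if v ∈ C then (1 : ℝ) else 0) = C.card := by
        intro C
        rw [← Finset.sum_filter, Finset.filter_mem_eq_inter, Finset.univ_inter, Finset.sum_const,
          nsmul_eq_mul, mul_one]
      have e4 : ∑ v : Fin N, (if e.1 ∈ A then (if v ∈ B then (1 : ℝ) else 0) else 0) =
          if e.1 ∈ A then (B.card : ℝ) else 0 := by
        split_ifs
        · exact e3 B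
        · exact Finset.sum_const_zero
      have e5 : ∑ v : Fin N, (if e.1 ∈ B then (if v ∈ A then (1 : ℝ) else 0) else 0) =
          if e.1 ∈ B then (A.card : ℝ) else 0 := by
        split_ifs
        · exact e3 A
        · exact Finset.sum_const_zero
      rw [e4, e5, Finset.sum_const, Finset.card_univ, Fintype.card_fin, nsmul_eq_mul, mul_one]
      simp only [q]
      field_simp
    calc ∑ v, w e v ≤ _ := Finset.sum_le_sum (fun v _ => e1 v)
      _ = N * (1 + q e) := e2
      _ ≤ N * Real.exp (q e) := by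
        refine mul_le_mul_of_nonneg_left ?_ hNr.le
        linarith [Real.add_one_le_exp (q e)]
  have h4 : ∀ e ∈ (Finset.univ : Finset (Ed N)), 0 ≤ ∑ v, w e v := by
    intro e _
    refine Finset.sum_nonneg (fun v _ => ?_)
    simp only [w]
    split_ifs
    · linarith
    · norm_num
  have h5 : ∑ e : Ed N, q e = (t - 1) * (2000 * A.card * B.card) / N := by
    simp only [q]
    rw [← Finset.sum_div, ← Finset.mul_sum, Finset.sum_add_distrib, rxa_sum, rxa_sum]
    congr 1
    ring
  calc ∑ φ : Ed N → Fin N, t ^ eAB φ A B = ∑ φ : Ed N → Fin N, ∏ e, w e (φ e) :=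
        Finset.sum_congr rfl (fun φ _ => h1 φ)
    _ = ∏ e, ∑ v, w e v := h2
    _ ≤ ∏ e : Ed N, (N * Real.exp (q e)) := Finset.prod_le_prod h4 h3
    _ = (N : ℝ) ^ (1000 * N) * Real.exp ((t - 1) * (2000 * A.card * B.card) / N) := by
      rw [Finset.prod_mul_distrib, Finset.prod_const, ← Real.exp_sum, h5, Finset.card_univ,
        Fintype.card_prod, Fintype.card_fin, Fintype.card_fin, mul_comm N 1000]

end Pool.Agent.Lib.MP_6b7756_an.GM
end

section

/-!
# MP_6b7756_an: basic facts on integer trees (task W1)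
-/

set_option autoImplicit false

namespace Pool.Agent.Lib.MP_6b7756_an.GM

variable {T : Type}

lemma tr_median (t : ZTree T) (x y z : T) :
    ∃ m, t.Btw x m y ∧ t.Btw y m z ∧ t.Btw x m z := by
  have h1 := t.tri x y z
  have h2 := t.tri x z y
  have h3 := t.tri y x z
  have h4 := t.even x y z
  have s1 := t.symm y x
  have s2 := t.symm z y
  rw [Nat.even_iff] at h4
  obtain ⟨k, hk⟩ : ∃ k, 2 * k + t.d y z = t.d x y + t.d x z :=
    ⟨(t.d x y + t.d x z - t.d y z) / 2, by omega⟩
  obtain ⟨m, hm1, hm2⟩ := t.seg x y k (by omega)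
  have h5 := t.four x y m z
  have h6 := t.tri x m z
  have s3 := t.symm y m
  have h7 : t.d m z ≤ t.d x z - k := by
    rcases le_max_iff.mp h5 with h | h <;> omega
  refine ⟨m, ?_, ?_, ?_⟩ <;> unfold ZTree.Btw <;> omega

lemma tr_gate (t : ZTree T) (C : Set T) (hC : t.Conv C) (hne : C.Nonempty) (x : T) :
    ∃ p, t.IsGate C x p := by
  classical
  have hex : ∃ n, ∃ p ∈ C, t.d x p = n := by
    obtain ⟨p, hp⟩ := hne
    exact ⟨_, p, hp, rfl⟩
  obtain ⟨p, hp, hpn⟩ := Nat.find_spec hex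
  refine ⟨p, hp, ?_⟩
  intro c hc
  obtain ⟨m, h1, h2, h3⟩ := tr_median t x p c
  have hm : m ∈ C := hC p hp c hc m h2
  have hmin : Nat.find hex ≤ t.d x m := Nat.find_min' hex ⟨m, hm, rfl⟩
  unfold ZTree.Btw at h1 h3
  have h0 : t.d m p = 0 := by omega
  have := t.eq_of _ _ h0
  subst this
  omega

lemma tr_helly (t : ZTree T) (A B C : Set T) (hA : t.Conv A) (hB : t.Conv B) (hC : t.Conv C)
    (hAB : (A ∩ B).Nonempty) (hBC : (B ∩ C).Nonempty) (hAC : (A ∩ C).Nonempty) :
    (A ∩ B ∩ C).Nonempty := by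
  obtain ⟨x, hxA, hxB⟩ := hAB
  obtain ⟨y, hyB, hyC⟩ := hBC
  obtain ⟨z, hzA, hzC⟩ := hAC
  obtain ⟨m, h1, h2, h3⟩ := tr_median t x y z
  exact ⟨m, ⟨hA x hxA z hzA m h3, hB x hxB y hyB m h1⟩, hC y hyC z hzC m h2⟩

lemma tr_split (t : ZTree T) (x y z u : T) (h : t.Btw x u y) :
    t.Btw x u z ∨ t.Btw z u y := by
  unfold ZTree.Btw at h ⊢
  have h1 := t.four x y z u
  have h2 := t.tri x u z
  have h3 := t.tri z u y
  have s1 := t.symm u z
  have s2 := t.symm y u
  have s3 := t.symm y z
  rcases le_max_iff.mp h1 with h4 | h4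
  · left; omega
  · right; omega

lemma tr_gates (t : ZTree T) (C : Set T) (x y p q : T) (hp : t.IsGate C x p)
    (hq : t.IsGate C y q) (hpq : p ≠ q) :
    t.d x y = t.d x p + t.d p q + t.d q y := by
  have h1 := hp.2 q hq.1
  have h2 := hq.2 p hp.1
  have h3 := t.four x q p y
  have h4 := t.tri x p y
  have h5 := t.tri p q y
  have s1 := t.symm p q
  have s2 := t.symm y p
  have s3 := t.symm y q
  have h6 : t.d p q ≠ 0 := fun h => hpq (t.eq_of _ _ h)
  rcases le_max_iff.mp h3 with h7 | h7 <;> omega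

theorem tree_facts : Stmt_Tree := by
  intro T t
  exact ⟨tr_median t, tr_gate t, tr_helly t, tr_split t,
    fun C x y p q _ hp hq hpq => tr_gates t C x y p q hp hq hpq⟩

end Pool.Agent.Lib.MP_6b7756_an.GM
end

section

/-!
# MP_6b7756_an: coefficients of `WR` in coordinates (task D8)
-/

set_option autoImplicit false

open scoped ComplexConjugate Classical

namespace Pool.Agent.Lib.MP_6b7756_an.GM

/-- The representative with given coordinates. -/
def wq_Y {Q S E : Type} [Group Q] [Group E] (π : E →* Q) (τ : Q → E)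
    (p : Q × Finset (Q × S)) : WR S π := ⟨tr (π (τ p.1))⁻¹ p.2, (τ p.1)⁻¹⟩

theorem wq_sdf_eq_empty {J : Type} (a b : Finset J) (h : sdf a b = ∅) : a = b := by
  have h1 := sdf_assoc a b b
  rw [h, empty_sdf, sdf_self, sdf_empty] at h1
  exact h1.symm

/-- Membership in `KW` of a quotient. -/
theorem wq_mem {Q S E : Type} [Group Q] [Group E] (π : E →* Q) (τ : Q → E)
    (hτ : ∀ q, π (τ q) = q) (p : Q × Finset (Q × S)) (y : WR S π) :
    (wq_Y π τ p)⁻¹ * y ∈ KW π S ↔ p.2 = tr p.1 y.b ∧ p.1 * π y.e = 1 := by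
  have h1 : ((wq_Y π τ p)⁻¹ * y).b = sdf p.2 (tr p.1 y.b) := by
    rw [WR.mul_b, WR.inv_b, WR.inv_e]
    unfold wq_Y
    simp only [hτ, map_inv, inv_inv]
    rw [← tr_mul, mul_inv_cancel, tr_one]
  have h2 : ((wq_Y π τ p)⁻¹ * y).e = τ p.1 * y.e := by
    rw [WR.mul_e, WR.inv_e]
    unfold wq_Y
    rw [inv_inv]
  change ((wq_Y π τ p)⁻¹ * y).b = ∅ ∧ ((wq_Y π τ p)⁻¹ * y).e ∈ π.ker ↔ _
  rw [h1, h2, MonoidHom.mem_ker, map_mul, hτ]
  constructor
  · rintro ⟨h3, h4⟩
    exact ⟨wq_sdf_eq_empty _ _ h3, h4⟩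
  · rintro ⟨h3, h4⟩
    exact ⟨by rw [← h3, sdf_self], h4⟩

/-- The coordinates are bijective. -/
theorem wq_bij {Q S E : Type} [Group Q] [Group E] (π : E →* Q) (τ : Q → E)
    (hτ : ∀ q, π (τ q) = q) : Function.Bijective
      (fun p : Q × Finset (Q × S) => (QuotientGroup.mk (wq_Y π τ p) : WR S π ⧸ KW π S)) := by
  constructor
  · intro p p' h
    have h1 := (wq_mem π τ hτ p _).mp (QuotientGroup.eq.mp h)
    have h2 : p.1 = p'.1 := by
      have h3 := h1.2
      change p.1 * π (τ p'.1)⁻¹ = 1 at h3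
      rw [map_inv, hτ, mul_inv_eq_one] at h3
      exact h3
    refine Prod.ext h2 ?_
    rw [h1.1, h2]
    change tr p'.1 (tr (π (τ p'.1))⁻¹ p'.2) = p'.2
    rw [hτ, ← tr_mul, mul_inv_cancel, tr_one]
  · intro q
    obtain ⟨y, rfl⟩ := QuotientGroup.mk_surjective q
    refine ⟨((π y.e)⁻¹, tr (π y.e)⁻¹ y.b), ?_⟩
    apply QuotientGroup.eq.mpr
    rw [wq_mem π τ hτ]
    exact ⟨rfl, by rw [inv_mul_cancel]⟩

theorem wrq : Stmt_WRq := by
  intro Q S E _ _ π hcen τ hτ v χ hv hχ
  have hbij := wq_bij (S := S) π τ hτ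
  have hχ0 : ∀ k ∈ KW π S, χ k ≠ 0 := by
    intro k hk h
    have := hχ k hk
    rw [h, norm_zero] at this
    exact zero_ne_one this
  have hout : ∀ p : Q × Finset (Q × S), ∃ k ∈ KW π S,
      (QuotientGroup.mk (wq_Y π τ p) : WR S π ⧸ KW π S).out = wq_Y π τ p * k := by
    intro p
    obtain ⟨k, hk⟩ := QuotientGroup.mk_out_eq_mul (KW π S) (wq_Y π τ p)
    exact ⟨k, k.2, hk⟩
  constructor
  · have h1 : {q : WR S π ⧸ KW π S | v q.out ≠ 0} =
        (fun p : Q × Finset (Q × S) => (QuotientGroup.mk (wq_Y π τ p) : WR S π ⧸ KW π S)) ''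
          {p | zeta π v (τ p.1) p.2 ≠ 0} := by
      ext q
      constructor
      · intro hq
        obtain ⟨p, rfl⟩ := hbij.2 q
        refine ⟨p, ?_, rfl⟩
        obtain ⟨k, hk, hk2⟩ := hout p
        intro h
        apply hq
        change v (QuotientGroup.mk (wq_Y π τ p) : WR S π ⧸ KW π S).out = 0
        rw [hk2, hv _ k hk]
        change χ k * zeta π v (τ p.1) p.2 = 0
        rw [h, mul_zero]
      · rintro ⟨p, hp, rfl⟩
        obtain ⟨k, hk, hk2⟩ := hout p
        change v (QuotientGroup.mk (wq_Y π τ p) : WR S π ⧸ KW π S).out ≠ 0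
        rw [hk2, hv _ k hk]
        exact mul_ne_zero (hχ0 k hk) hp
    rw [h1]
    exact Set.finite_image_iff (hbij.1.injOn)
  · intro c f
    unfold qform
    rw [← finsum_comp_equiv (Equiv.ofBijective _ hbij)]
    refine finsum_congr fun p => ?_
    obtain ⟨k, hk, hk2⟩ := hout p
    rw [Equiv.ofBijective_apply, hk2, ← mul_assoc, hv _ k hk, hv _ k hk]
    have h2 : (⟨c, f⟩ : WR S π)⁻¹ * wq_Y π τ p =
        ⟨tr (π (τ p.1 * f))⁻¹ (sdf (tr p.1 c) p.2), (τ p.1 * f)⁻¹⟩ := by
      apply WR.ext' π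
      · rw [WR.mul_b, WR.inv_b, WR.inv_e]
        unfold wq_Y
        simp only [hτ, map_inv, map_mul, tr_sdf, mul_inv_rev, ← tr_mul, inv_mul_cancel_right]
      · rw [WR.mul_e, WR.inv_e]
        unfold wq_Y
        simp only [mul_inv_rev]
    rw [h2]
    change χ k * zeta π v (τ p.1) p.2 * conj (χ k * zeta π v (τ p.1 * f) (sdf (tr p.1 c) p.2)) = _
    rw [map_mul]
    have h3 : χ k * conj (χ k) = 1 := by
      rw [Complex.mul_conj, Complex.normSq_eq_norm_sq, hχ k hk]
      norm_num
    calc χ k * zeta π v (τ p.1) p.2 *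
          (conj (χ k) * conj (zeta π v (τ p.1 * f) (sdf (tr p.1 c) p.2)))
        = (χ k * conj (χ k)) * (zeta π v (τ p.1) p.2 *
          conj (zeta π v (τ p.1 * f) (sdf (tr p.1 c) p.2))) := by ring
      _ = _ := by rw [h3, one_mul]

end Pool.Agent.Lib.MP_6b7756_an.GM
end

section

/-!
# MP_6b7756_an: topological properties of the group `WR`
-/

set_option autoImplicit false

open scoped ComplexConjugate Classical

namespace Pool.Agent.Lib.MP_6b7756_an.GM

/-- a homomorphism with open kernel is continuous for the discrete topology on the target -/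
theorem wt_cont_hom {Q E : Type} [Group Q] [Group E] [TopologicalSpace E] [IsTopologicalGroup E]
    [TopologicalSpace Q] [DiscreteTopology Q] (π : E →* Q) (h : IsOpen (π.ker : Set E)) :
    Continuous π := by
  rw [continuous_discrete_rng]
  intro q
  rw [isOpen_iff_mem_nhds]
  intro e he
  have h1 : IsOpen ((fun x : E => e⁻¹ * x) ⁻¹' (π.ker : Set E)) :=
    h.preimage (continuous_const.mul continuous_id)
  refine Filter.mem_of_superset (h1.mem_nhds ?_) ?_
  · simp
  · intro x hx
    have hx' : π (e⁻¹ * x) = 1 := hx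
    have he' : π e = q := he
    rw [map_mul, map_inv, he', inv_mul_eq_one] at hx'
    exact hx'.symm

theorem wrtop : Stmt_WRtop := by
  intro Q S E _ _ _ _ _ π hop hcpt hcen
  let tF : TopologicalSpace (Finset (Q × S)) := ⊥
  have dF : DiscreteTopology (Finset (Q × S)) := ⟨rfl⟩
  let tQ : TopologicalSpace Q := ⊥
  have dQ : DiscreteTopology Q := ⟨rfl⟩
  have hπ : Continuous π := wt_cont_hom π hop
  let f : WR S π → Finset (Q × S) × E := fun x => (x.b, x.e)
  have hind : Topology.IsInducing f := ⟨rfl⟩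
  have hf : Continuous f := hind.continuous
  have hinj : Function.Injective f := by
    intro x y h
    exact WR.ext' π (congrArg Prod.fst h) (congrArg Prod.snd h)
  have hb : Continuous fun x : WR S π => x.b := continuous_fst.comp hf
  have he : Continuous fun x : WR S π => x.e := continuous_snd.comp hf
  have hmul : Continuous fun p : WR S π × WR S π => p.1 * p.2 := by
    rw [hind.continuous_iff]
    have h1 : Continuous fun t : Finset (Q × S) × Q × Finset (Q × S) =>
        sdf t.1 (tr t.2.1 t.2.2) := continuous_of_discreteTopology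
    have h2 : Continuous fun p : WR S π × WR S π => (p.1.b, π p.1.e, p.2.b) :=
      (hb.comp continuous_fst).prodMk
        ((hπ.comp (he.comp continuous_fst)).prodMk (hb.comp continuous_snd))
    have h3 : Continuous fun p : WR S π × WR S π => p.1.e * p.2.e :=
      (he.comp continuous_fst).mul (he.comp continuous_snd)
    exact (h1.comp h2).prodMk h3
  have hinv : Continuous fun x : WR S π => x⁻¹ := by
    rw [hind.continuous_iff]
    have h1 : Continuous fun t : Finset (Q × S) × Q => tr t.2⁻¹ t.1 :=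
      continuous_of_discreteTopology
    have h2 : Continuous fun x : WR S π => (x.b, π x.e) := hb.prodMk (hπ.comp he)
    exact (h1.comp h2).prodMk he.inv
  have htg : IsTopologicalGroup (WR S π) :=
    { continuous_mul := hmul
      continuous_inv := hinv }
  have hKo : IsOpen (KW π S : Set (WR S π)) := by
    have h1 : (KW π S : Set (WR S π)) = (fun x : WR S π => x.b) ⁻¹' {∅} ∩
        (fun x : WR S π => x.e) ⁻¹' (π.ker : Set E) := by
      ext x
      rfl
    rw [h1]
    exact ((isOpen_discrete _).preimage hb).inter (hop.preimage he)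
  have hKc : IsCompact (KW π S : Set (WR S π)) := by
    rw [hind.isCompact_iff]
    have h1 : f '' (KW π S : Set (WR S π)) = ({∅} : Set (Finset (Q × S))) ×ˢ (π.ker : Set E) := by
      ext p
      constructor
      · rintro ⟨x, hx, rfl⟩
        exact hx
      · rintro ⟨h1, h2⟩
        exact ⟨⟨p.1, p.2⟩, ⟨h1, h2⟩, rfl⟩
    rw [h1]
    exact isCompact_singleton.prod hcpt
  refine ⟨htg, T2Space.of_injective_continuous hinj hf,
    hKc.locallyCompactSpace_of_mem_nhds_of_group (hKo.mem_nhds (KW π S).one_mem), hKo, hKc, ?_,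
    ?_⟩
  · rintro x ⟨hx1, hx2⟩
    rw [Subgroup.mem_center_iff]
    intro y
    have h1 := Subgroup.mem_center_iff.mp (hcen hx2) y.e
    have hx2' : π x.e = 1 := hx2
    apply WR.ext' π
    · rw [WR.mul_b, WR.mul_b, hx1, hx2', tr_one, tr_empty, sdf_empty, empty_sdf]
    · rw [WR.mul_e, WR.mul_e, h1]
  · intro v hv
    have h1 : Continuous fun p : Finset (Q × S) × E => v ⟨p.1, p.2⟩ := by
      rw [continuous_prod_of_discrete_left]
      exact hv
    exact h1.comp hf

end Pool.Agent.Lib.MP_6b7756_an.GM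
end

section

/-!
# MP_6b7756_an, full disproof. Walsh functions: Parseval identity and inversion formula
-/

set_option autoImplicit false

open scoped ComplexConjugate Classical

namespace Pool.Agent.Lib.MP_6b7756_an.GM

theorem wa_sg_prod {J : Type} (b w : Finset J) :
    sg b w = ∏ p ∈ w, (if p ∈ b then (-1 : ℝ) else 1) := by
  unfold sg
  rw [Finset.prod_ite, Finset.prod_const, Finset.prod_const_one, mul_one,
    Finset.filter_mem_eq_inter, Finset.inter_comm]

theorem wa_sg_comm {J : Type} (b w : Finset J) : sg b w = sg w b := by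
  unfold sg
  rw [Finset.inter_comm]

theorem wa_sg_mul {J : Type} (b c w : Finset J) : sg b w * sg c w = sg (sdf b c) w := by
  rw [wa_sg_prod, wa_sg_prod, wa_sg_prod, ← Finset.prod_mul_distrib]
  refine Finset.prod_congr rfl ?_
  intro p _
  by_cases h1 : p ∈ b <;> by_cases h2 : p ∈ c <;> simp [mem_sdf, h1, h2]

/-- Orthogonality. -/
theorem wa_sum {J : Type} (Om b : Finset J) (hb : b ⊆ Om) :
    ∑ w ∈ Om.powerset, sg b w = if b = ∅ then (2 : ℝ) ^ Om.card else 0 := by
  have e1 : ∑ w ∈ Om.powerset, sg b w = ∏ p ∈ Om, (1 + (if p ∈ b then (-1 : ℝ) else 1)) := by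
    rw [Finset.prod_one_add]
    exact Finset.sum_congr rfl fun w _ => wa_sg_prod b w
  rw [e1]
  split_ifs with h
  · subst h
    have : ∀ p ∈ Om, (1 + (if p ∈ (∅ : Finset J) then (-1 : ℝ) else 1)) = 2 := by
      intro p _
      simp
      norm_num
    rw [Finset.prod_congr rfl this, Finset.prod_const]
  · obtain ⟨p, hp⟩ := Finset.nonempty_iff_ne_empty.mpr h
    exact Finset.prod_eq_zero (hb hp) (by simp [hp])

theorem wa_sdf_eq_empty {J : Type} (b c : Finset J) : sdf b c = ∅ ↔ c = b := by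
  constructor
  · intro h
    ext p
    have h1 : p ∉ sdf b c := by rw [h]; exact Finset.notMem_empty p
    rw [mem_sdf] at h1
    tauto
  · rintro rfl
    exact sdf_self _

theorem wa_sdf_subset {J : Type} {b c Om : Finset J} (hb : b ⊆ Om) (hc : c ⊆ Om) :
    sdf b c ⊆ Om := by
  intro p hp
  rcases mem_sdf.mp hp with h | h
  · exact hb h.1
  · exact hc h.1

theorem walsh : Stmt_Walsh := by
  intro J Om
  refine ⟨?_, ?_⟩
  · intro z z' c hc _ _
    have e1 : ∀ w, sg c w * (∑ b ∈ Om.powerset, sg b w * z b) *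
        (∑ b ∈ Om.powerset, sg b w * z' b) =
        ∑ b ∈ Om.powerset, ∑ b' ∈ Om.powerset, z b * z' b' * sg (sdf (sdf c b) b') w := by
      intro w
      rw [mul_assoc, Finset.sum_mul_sum, Finset.mul_sum]
      refine Finset.sum_congr rfl fun b _ => ?_
      rw [Finset.mul_sum]
      refine Finset.sum_congr rfl fun b' _ => ?_
      rw [← wa_sg_mul, ← wa_sg_mul]
      ring
    have e2 : ∑ w ∈ Om.powerset, sg c w * (∑ b ∈ Om.powerset, sg b w * z b) *
        (∑ b ∈ Om.powerset, sg b w * z' b) =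
        ∑ b ∈ Om.powerset, ∑ b' ∈ Om.powerset, z b * z' b' *
          ∑ w ∈ Om.powerset, sg (sdf (sdf c b) b') w := by
      rw [Finset.sum_congr rfl fun w _ => e1 w, Finset.sum_comm]
      refine Finset.sum_congr rfl fun b _ => ?_
      rw [Finset.sum_comm]
      refine Finset.sum_congr rfl fun b' _ => ?_
      rw [Finset.mul_sum]
    rw [e2, Finset.mul_sum]
    refine Finset.sum_congr rfl fun b hb => ?_
    rw [Finset.mem_powerset] at hb
    have hcb := wa_sdf_subset hc hb
    rw [Finset.sum_eq_single (sdf c b)]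
    · rw [wa_sum Om _ (wa_sdf_subset hcb hcb), if_pos (sdf_self _)]
      ring
    · intro b' hb' hne
      rw [Finset.mem_powerset] at hb'
      rw [wa_sum Om _ (wa_sdf_subset hcb hb'), if_neg, mul_zero]
      intro h
      exact hne ((wa_sdf_eq_empty _ _).mp h)
    · intro h
      exact absurd (Finset.mem_powerset.mpr hcb) h
  · intro F w hw
    have e1 : ∀ T, ((2 : ℝ) ^ Om.card)⁻¹ * (∑ w' ∈ Om.powerset, sg T w' * F w') * sg T w =
        ∑ w' ∈ Om.powerset, ((2 : ℝ) ^ Om.card)⁻¹ * F w' * sg (sdf w' w) T := by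
      intro T
      rw [Finset.mul_sum, Finset.sum_mul]
      refine Finset.sum_congr rfl fun w' _ => ?_
      rw [← wa_sg_mul, wa_sg_comm w' T, wa_sg_comm w T]
      ring
    rw [Finset.sum_congr rfl fun T _ => e1 T, Finset.sum_comm]
    have e2 : ∀ w' ∈ Om.powerset, ∑ T ∈ Om.powerset,
        ((2 : ℝ) ^ Om.card)⁻¹ * F w' * sg (sdf w' w) T = if w' = w then F w' else 0 := by
      intro w' hw'
      rw [Finset.mem_powerset] at hw'
      rw [← Finset.mul_sum, wa_sum Om _ (wa_sdf_subset hw' hw)]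
      by_cases h : w' = w
      · subst h
        rw [if_pos (sdf_self _), if_pos rfl]
        have : (2 : ℝ) ^ Om.card ≠ 0 := by positivity
        field_simp
      · rw [if_neg h, if_neg, mul_zero]
        intro h2
        exact h ((wa_sdf_eq_empty _ _).mp h2).symm
    rw [Finset.sum_congr rfl e2, Finset.sum_ite_eq' Om.powerset w F,
      if_pos (Finset.mem_powerset.mpr hw)]

end Pool.Agent.Lib.MP_6b7756_an.GM
end

section

/-!
# MP_6b7756_an, full disproof. Part 1: the windmill theorem from the stage lemmas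
-/

set_option autoImplicit false

namespace Pool.Agent.Lib.MP_6b7756_an.GM

section
variable {T F ι : Type} [Group F] {t : ZTree T} {K0 : ℕ} (R : Rot T F ι t K0)

lemma wm_subW' (W : Set T) (O : Set ι) (H : Subgroup F) : W ⊆ R.nextW' W O H := by
  intro x hx
  exact ⟨1, Subgroup.one_mem _, x, Or.inl hx, (R.act_one x).symm⟩

lemma wm_W'sub (W : Set T) (O : Set ι) (H : Subgroup F) : R.nextW' W O H ⊆ R.nextW W O H := by
  intro x hx
  exact ⟨x, hx, by rw [t.d_self]; exact Nat.zero_le _⟩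

lemma wm_subH (W : Set T) (O : Set ι) (H : Subgroup F) : H ≤ R.nextH W O H := by
  intro h hh
  exact Subgroup.subset_closure (Or.inl hh)

/-- a point at distance one from the convex set `V` and outside `V`: the neighbour is its gate. -/
lemma wm_gate (h1 : Stmt_Tree) (t : ZTree T) {V : Set T} (hV : t.Conv V) {x w : T} (hx : x ∉ V)
    (hw : w ∈ V) (hd : t.d x w ≤ 1) : t.IsGate V x w ∧ t.d x w = 1 := by
  obtain ⟨-, hg, -, -, -⟩ := h1 T t
  obtain ⟨p, hp⟩ := hg V hV ⟨w, hw⟩ x
  have h2 := hp.2 w hw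
  have h3 : t.d x p ≠ 0 := by
    intro h
    exact hx (by rw [t.eq_of _ _ h]; exact hp.1)
  have h4 : t.d p w = 0 := by omega
  have h5 := t.eq_of _ _ h4
  subst h5
  exact ⟨hp, by omega⟩

/-- the thinness of the next stage -/
lemma wm_thin (h1 : Stmt_Tree) (W' : Set T) (hW' : t.Conv W') (Y : ι)
    (h5 : ∀ x ∈ R.C Y, x ∈ W' → ∀ y ∈ R.C Y, y ∈ W' → K0 * t.d x y ≤ 2 * R.g Y)
    (x y : T) (hx : x ∈ R.C Y) (hy : y ∈ R.C Y) (hx' : ∃ w ∈ W', t.d x w ≤ 1)
    (hy' : ∃ w ∈ W', t.d y w ≤ 1) : K0 * t.d x y ≤ 3 * R.g Y := by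
  obtain ⟨-, -, -, -, hfar⟩ := h1 T t
  have hlarge := R.large Y
  by_cases hne : ∃ z, z ∈ R.C Y ∧ z ∈ W'
  · obtain ⟨z, hz1, hz2⟩ := hne
    have key : ∀ x, x ∈ R.C Y → (∃ w ∈ W', t.d x w ≤ 1) → ∃ x', x' ∈ R.C Y ∧ x' ∈ W' ∧
        t.d x x' ≤ 1 := by
      intro x hx hx'
      by_cases hxW : x ∈ W'
      · exact ⟨x, hx, hxW, by rw [t.d_self]; exact Nat.zero_le _⟩
      · obtain ⟨w, hw, hd⟩ := hx'
        obtain ⟨hg, hd1⟩ := wm_gate h1 t hW' hxW hw hd
        refine ⟨w, ?_, hw, hd⟩
        exact R.C_conv Y x hx z hz1 w (hg.2 z hz2).symm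
    obtain ⟨x', hx1, hx2, hx3⟩ := key x hx hx'
    obtain ⟨y', hy1, hy2, hy3⟩ := key y hy hy'
    have h6 := h5 x' hx1 hx2 y' hy1 hy2
    have h7 : t.d x y ≤ t.d x' y' + 2 := by
      have := t.tri x x' y
      have h8 := t.tri x' y' y
      have h9 := t.symm y y'
      omega
    calc K0 * t.d x y ≤ K0 * (t.d x' y' + 2) := Nat.mul_le_mul_left _ h7
      _ = K0 * t.d x' y' + 2 * K0 := by ring
      _ ≤ 2 * R.g Y + R.g Y := by omega
      _ = 3 * R.g Y := by ring
  · have hempty : ∀ z, z ∈ R.C Y → z ∉ W' := fun z hz hz' => hne ⟨z, hz, hz'⟩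
    obtain ⟨w, hw, hd⟩ := hx'
    obtain ⟨w', hw', hd'⟩ := hy'
    obtain ⟨hg, hd1⟩ := wm_gate h1 t hW' (hempty x hx) hw hd
    obtain ⟨hg', hd1'⟩ := wm_gate h1 t hW' (hempty y hy) hw' hd'
    by_cases hww : w = w'
    · subst hww
      have h8 := t.symm y w
      have h6 := t.tri x w y
      have h7 := t.even x w y
      have h9 : t.d x y = 0 ∨ t.d x y = 2 := by
        obtain ⟨r, hr⟩ := h7
        omega
      rcases h9 with h9 | h9
      · rw [h9, Nat.mul_zero]
        exact Nat.zero_le _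
      · exfalso
        refine hempty w (R.C_conv Y x hx y hy w ?_) hw
        unfold ZTree.Btw
        omega
    · exfalso
      have h6 := hfar W' x y w w' hW' hg hg' hww
      refine hempty w (R.C_conv Y x hx y hy w ?_) hw
      have h7 := t.tri w w' y
      have h8 := t.tri x w y
      unfold ZTree.Btw
      omega

/-- one stage of the windmill construction -/
lemma wm_stage (h1 : Stmt_Tree) (h3 : Stmt_MillForm) (h4 : Stmt_MillBig) (h5 : Stmt_MillThin')
    (hK : 10 ≤ K0) (o : T) (W : Set T) (O : Set ι) (H : Subgroup F) (hM : R.Mill o W O H) :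
    R.Mill o (R.nextW W O H) (R.nextO W O H) (R.nextH W O H) := by
  obtain ⟨f1, f2, f3, f4, f5, f6, f7⟩ := h3 T F ι t K0 R o W O H hM
  refine ⟨f2, f3, f5, f6, f7, ?_, ?_⟩
  · intro Y hY x hx hxW y hy hyW
    exact wm_thin R h1 (R.nextW' W O H) f1 Y (h5 T F ι t K0 R hK o W O H hM Y hY) x y hx hy hxW hyW
  · exact h4 T F ι t K0 R hK o W O H hM

/-- the sequence of windmills -/
def wm_seq (o : T) : ℕ → Set T × Set ι × Subgroup F
  | 0 => ({o}, ∅, ⊥)
  | k + 1 => (R.nextW (wm_seq o k).1 (wm_seq o k).2.1 (wm_seq o k).2.2,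
      R.nextO (wm_seq o k).1 (wm_seq o k).2.1 (wm_seq o k).2.2,
      R.nextH (wm_seq o k).1 (wm_seq o k).2.1 (wm_seq o k).2.2)

lemma wm_mill (h1 : Stmt_Tree) (h3 : Stmt_MillForm) (h4 : Stmt_MillBig) (h5 : Stmt_MillThin')
    (hK : 10 ≤ K0) (o : T) (k : ℕ) :
    R.Mill o (wm_seq R o k).1 (wm_seq R o k).2.1 (wm_seq R o k).2.2 := by
  induction k with
  | zero =>
    refine ⟨?_, ?_, ?_, ?_, ?_, ?_, ?_⟩
    · intro x hx y hy z hz
      have hx : x = o := hx
      have hy : y = o := hy
      subst hx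
      subst hy
      unfold ZTree.Btw at hz
      rw [t.d_self] at hz
      exact (t.eq_of _ _ (by omega : t.d y z = 0)).symm
    · exact rfl
    · intro h hh x hx
      have hh : h = 1 := Subgroup.mem_bot.1 hh
      rw [hh, R.act_one]
      exact hx
    · intro h hh Y hY
      exact absurd hY (Set.notMem_empty Y)
    · intro Y hY
      exact absurd hY (Set.notMem_empty Y)
    · intro Y _ x _ hx y _ hy
      have hx : x = o := hx
      have hy : y = o := hy
      rw [hx, hy, t.d_self, Nat.mul_zero]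
      exact Nat.zero_le _
    · intro n hn hn1
      exact absurd (Subgroup.mem_bot.1 hn) hn1
  | succ k ih => exact wm_stage R h1 h3 h4 h5 hK o _ _ _ ih

lemma wm_ball (o : T) (k : ℕ) : ∀ x, t.d o x ≤ k → x ∈ (wm_seq R o k).1 := by
  induction k with
  | zero =>
    intro x hx
    exact (t.eq_of _ _ (by omega : t.d o x = 0)).symm
  | succ k ih =>
    intro x hx
    by_cases h : t.d o x ≤ k
    · exact wm_W'sub R _ _ _ (wm_subW' R _ _ _ (ih x h))
    · obtain ⟨z, hz1, hz2⟩ := t.seg o x k (by omega)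
      refine ⟨z, wm_subW' R _ _ _ (ih z (by omega)), ?_⟩
      rw [t.symm]
      omega

lemma wm_monoH (o : T) : Monotone (fun k => (wm_seq R o k).2.2) :=
  monotone_nat_of_le_succ (fun _ => wm_subH R _ _ _)

lemma wm_N (h1 : Stmt_Tree) (h3 : Stmt_MillForm) (h4 : Stmt_MillBig) (h5 : Stmt_MillThin')
    (hK : 10 ≤ K0) (o : T) (n : F) (hn : n ∈ R.N) : ∃ k, n ∈ (wm_seq R o k).2.2 := by
  have h6 : R.N ≤ ⨆ k, (wm_seq R o k).2.2 := by
    unfold Rot.N
    rw [Subgroup.closure_le]
    rintro h ⟨Y, hY⟩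
    obtain ⟨x, hx⟩ := R.C_ne Y
    have hxk := wm_ball R o (t.d o x) x (le_refl _)
    by_cases hO : Y ∈ (wm_seq R o (t.d o x)).2.1
    · exact Subgroup.mem_iSup_of_mem (t.d o x)
        ((wm_mill R h1 h3 h4 h5 hK o (t.d o x)).stO Y hO hY)
    · refine Subgroup.mem_iSup_of_mem (t.d o x + 1) ?_
      exact Subgroup.subset_closure (Or.inr ⟨Y, ⟨hO, x, hx, hxk⟩, hY⟩)
  have h7 := h6 hn
  rwa [Subgroup.mem_iSup_of_directed (wm_monoH R o).directed_le] at h7

end

theorem windmill (h1 : Stmt_Tree) (h3 : Stmt_MillForm) (h4 : Stmt_MillBig)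
    (h5 : Stmt_MillThin') : Stmt_Windmill := by
  intro T F ι _ t K0 R hK n hn hn1 o
  obtain ⟨k, hk⟩ := wm_N R h1 h3 h4 h5 hK o n hn
  exact (wm_mill R h1 h3 h4 h5 hK o k).big n hk hn1

theorem rotInj (h1 : Stmt_Tree) (h : Stmt_Windmill) : Stmt_RotInj := by
  intro T F ι _ t K0 R hK n hn Y x hx
  obtain ⟨-, -, -, -, -⟩ := h1 T t
  have key : ∀ (D : ℕ) (n : F), n ∈ R.N → t.d x (R.act n x) ≤ D → R.act n x ∈ R.C Y →
      n ∈ R.St Y := by
    intro D
    induction D with
    | zero =>
      intro n hn hD hnx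
      by_cases hn1 : n = 1
      · rw [hn1]
        exact Subgroup.one_mem _
      · exfalso
        obtain ⟨Z, h', hh, hh1, a, ha, b, hb, hd, hc⟩ := h T F ι t K0 R hK n hn hn1 x
        have h2 := R.disp Z h' a hh hh1 ha
        have h3 := R.large Z
        have h4 : t.d a b = 0 := by omega
        have h5 := t.eq_of _ _ h4
        subst h5
        have h6 : K0 * R.g Z ≤ 4 * R.g Z := le_trans (Nat.mul_le_mul_left _ h2) hc
        have h7 : 10 * R.g Z ≤ K0 * R.g Z := Nat.mul_le_mul_right _ hK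
        omega
    | succ D ih =>
      intro n hn hD hnx
      by_cases hn1 : n = 1
      · rw [hn1]
        exact Subgroup.one_mem _
      · obtain ⟨Z, h', hh, hh1, a, ha, b, hb, hd, hc⟩ := h T F ι t K0 R hK n hn hn1 x
        have h2 := R.disp Z h' a hh hh1 ha
        have h3 := R.large Z
        have hab : t.d a (R.act h' a) ≤ t.d a b + t.d b (R.act h' a) := t.tri _ _ _
        have h6 : K0 * R.g Z ≤ K0 * t.d a b + 4 * R.g Z := by
          calc K0 * R.g Z ≤ K0 * (t.d a b + t.d b (R.act h' a)) :=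
                Nat.mul_le_mul_left _ (le_trans h2 hab)
            _ = K0 * t.d a b + K0 * t.d b (R.act h' a) := by ring
            _ ≤ K0 * t.d a b + 4 * R.g Z := by omega
        have h7 : 10 * R.g Z ≤ K0 * R.g Z := Nat.mul_le_mul_right _ hK
        have h8 : 6 * R.g Z ≤ K0 * t.d a b := by omega
        -- the points `a`, `b` are on the geodesic
        have hxa : t.Btw x a (R.act n x) := by
          have h9 := t.tri a b (R.act n x)
          have h10 := t.tri x a (R.act n x)
          unfold ZTree.Btw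
          omega
        have hxb : t.Btw x b (R.act n x) := by
          have h9 := t.tri x a b
          have h10 := t.tri x b (R.act n x)
          unfold ZTree.Btw
          omega
        have haY : a ∈ R.C Y := R.C_conv Y x hx _ hnx a hxa
        have hbY : b ∈ R.C Y := R.C_conv Y x hx _ hnx b hxb
        have hZY : Z = Y := by
          by_contra hne
          have h9 := R.small Z Y a b hne ha haY hb hbY
          omega
        subst hZY
        have hinv : h'⁻¹ ∈ R.St Z := Subgroup.inv_mem _ hh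
        have hhN : h'⁻¹ ∈ R.N := Subgroup.subset_closure ⟨Z, hinv⟩
        have h9 : t.d x (R.act (h'⁻¹ * n) x) ≤ D := by
          have h10 : t.d x (R.act (h'⁻¹ * n) x) = t.d (R.act h' x) (R.act n x) := by
            rw [← R.isom h' x (R.act (h'⁻¹ * n) x), ← R.act_mul]
            congr 2
            group
          rw [h10]
          have h11 := t.tri (R.act h' x) (R.act h' a) (R.act n x)
          have h12 := t.tri (R.act h' a) b (R.act n x)
          rw [R.isom] at h11
          have h13 : t.d (R.act h' a) b < t.d a b := by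
            rw [t.symm]
            have h14 : K0 * t.d b (R.act h' a) < K0 * t.d a b := by omega
            exact Nat.lt_of_mul_lt_mul_left h14
          omega
        have h10 : R.act (h'⁻¹ * n) x ∈ R.C Z := by
          rw [R.act_mul]
          have h11 := R.C_act h'⁻¹ Z _ hnx
          rwa [R.St_fix Z _ hinv] at h11
        have h11 := ih (h'⁻¹ * n) (Subgroup.mul_mem _ hhN hn) h9 h10
        have h12 : n = h' * (h'⁻¹ * n) := by group
        rw [h12]
        exact Subgroup.mul_mem _ hh h11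
  intro hnx
  exact key _ n hn (le_refl _) hnx

end Pool.Agent.Lib.MP_6b7756_an.GM
end

section

/-!
# MP_6b7756_an, full disproof. The weight of the degree in terms of Walsh functions
-/

set_option autoImplicit false

open scoped ComplexConjugate Classical

namespace Pool.Agent.Lib.MP_6b7756_an.GM

theorem ww_mem_LL {Q S : Type} [Group Q] [Fintype S] (gen : S → Q) (p : Q × S) :
    p ∈ LL gen ↔ p.1 = 1 ∨ p.1 = (gen p.2)⁻¹ := by
  unfold LL
  simp only [Finset.mem_union, Finset.mem_image, Finset.mem_univ, true_and]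
  constructor
  · rintro (⟨s, rfl⟩ | ⟨s, rfl⟩)
    · exact Or.inl rfl
    · exact Or.inr rfl
  · rintro (h | h)
    · exact Or.inl ⟨p.2, Prod.ext h.symm rfl⟩
    · exact Or.inr ⟨p.2, Prod.ext h.symm rfl⟩

theorem ww_sg {Q S : Type} [Group Q] [Fintype S] (gen : S → Q) (ω : Finset (Q × S)) (q : Q)
    (T : Finset (Q × S)) (hT : T ⊆ LL gen) :
    sg T (LL gen ∩ tr q⁻¹ ω) = sg (tr q T) ω := by
  unfold sg
  congr 1
  rw [← Finset.card_map ⟨fun p : Q × S => (q * p.1, p.2), tr_inj q⟩]
  congr 1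
  ext p
  change p ∈ tr q _ ↔ _
  rw [mem_tr]
  simp only [Finset.mem_inter, mem_tr, inv_inv, mul_inv_cancel_left]
  constructor
  · rintro ⟨h1, _, h2⟩
    exact ⟨h1, h2⟩
  · rintro ⟨h1, h2⟩
    exact ⟨h1, hT h1, h2⟩

theorem ww_dg {Q S : Type} [Group Q] [Fintype S] (gen : S → Q) (hg : ∀ s, gen s ≠ 1)
    (ω : Finset (Q × S)) (q : Q) : (LL gen ∩ tr q⁻¹ ω).card = dg gen ω q := by
  unfold dg
  have e1 : ((LL gen ∩ tr q⁻¹ ω : Finset (Q × S)) : Set (Q × S)) =
      (fun s => ((1 : Q), s)) '' {s | (q, s) ∈ ω} ∪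
      (fun s => ((gen s)⁻¹, s)) '' {s | (q * (gen s)⁻¹, s) ∈ ω} := by
    ext ⟨a, s⟩
    rw [Finset.mem_coe, Finset.mem_inter, ww_mem_LL, mem_tr, inv_inv, Set.mem_union,
      Set.mem_image, Set.mem_image]
    constructor
    · rintro ⟨h1 | h1, h2⟩
      · left
        simp only at h1 h2
        subst h1
        rw [mul_one] at h2
        exact ⟨s, h2, rfl⟩
      · right
        simp only at h1 h2
        subst h1
        exact ⟨s, h2, rfl⟩
    · rintro (⟨s', h1, h2⟩ | ⟨s', h1, h2⟩)
      · have h3 := congrArg Prod.fst h2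
        have h4 := congrArg Prod.snd h2
        simp only at h3 h4
        subst h3
        subst h4
        refine ⟨Or.inl rfl, ?_⟩
        simp only [mul_one]
        exact h1
      · have h3 := congrArg Prod.fst h2
        have h4 := congrArg Prod.snd h2
        simp only at h3 h4
        subst h4
        subst h3
        exact ⟨Or.inr rfl, h1⟩
  rw [← Set.ncard_coe_finset, e1, Set.ncard_union_eq, Set.ncard_image_of_injective,
    Set.ncard_image_of_injective]
  · intro a b h; exact congrArg Prod.snd h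
  · intro a b h; exact congrArg Prod.snd h
  · rw [Set.disjoint_left]
    rintro ⟨a, s⟩ ⟨s1, _, h5⟩ ⟨s2, _, h6⟩
    have h7 := congrArg Prod.fst h5
    have h8 := congrArg Prod.fst h6
    simp only at h7 h8
    rw [← h7] at h8
    exact hg s2 (inv_eq_one.mp h8)

theorem wtW (h : Stmt_Walsh) : Stmt_WtW := by
  intro Q S _ _ gen hg ω q
  have h1 := (h (Q × S) (LL gen)).2 (fun w => Wt w.card) (LL gen ∩ tr q⁻¹ ω)
    Finset.inter_subset_left
  rw [ww_dg gen hg ω q] at h1
  rw [h1]
  refine Finset.sum_congr rfl fun T hT => ?_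
  rw [Finset.mem_powerset] at hT
  rw [ww_sg gen ω q T hT]
  rfl

end Pool.Agent.Lib.MP_6b7756_an.GM
end
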