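import Mathlib
import Pool.Agent.Lib.MP_6b7756_an.Rep

section

/-!
A Schur type estimate for compactly supported continuous functions on a locally compact group.
-/

set_option autoImplicit false
set_option linter.unusedSectionVars false

open scoped Topology Pointwise
open Filter Set MeasureTheory

noncomputable section

namespace Pool.Agent.Lib.MP_6b7756_an

variable {G : Type} [Group G] [TopologicalSpace G] [IsTopologicalGroup G]
  [LocallyCompactSpace G] [MeasurableSpace G] [BorelSpace G]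
  {μ : Measure G} [μ.IsHaarMeasure]

theorem hasCompactSupport_mul_conv {E : Type} [MulZeroClass E] {p q : G → E}
    (hp : HasCompactSupport p) (hq : HasCompactSupport q) :
    HasCompactSupport (fun z : G × G => p z.2 * q (z.1⁻¹ * z.2)) := by
  apply HasCompactSupport.intro (K := (fun z : G × G => (z.1 * z.2⁻¹, z.1)) ''
    (tsupport p ×ˢ tsupport q))
  · exact (IsCompact.prod hp hq).image (by fun_prop)
  · intro z hz
    by_contra hne
    apply hz
    refine ⟨(z.2, z.1⁻¹ * z.2), ⟨subset_tsupport p (left_ne_zero_of_mul hne),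
      subset_tsupport q (right_ne_zero_of_mul hne)⟩, ?_⟩
    simp

theorem continuous_inner_integral {p q : G → ℝ} (hp : Continuous p) (hp' : HasCompactSupport p)
    (hq : Continuous q) : Continuous (fun s => ∫ t, p t * q (s⁻¹ * t) ∂μ) := by
  rw [← continuousOn_univ]
  apply continuousOn_integral_of_compact_support (k := tsupport p) hp'
  · apply Continuous.continuousOn
    simp only [Function.uncurry_def]
    fun_prop
  · intro s t _ ht
    rw [image_eq_zero_of_notMem_tsupport ht, zero_mul]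

theorem inner_integral_support {p q : G → ℝ} (hp : HasCompactSupport p)
    (hq : HasCompactSupport q) : HasCompactSupport (fun s => ∫ t, p t * q (s⁻¹ * t) ∂μ) := by
  apply HasCompactSupport.intro (K := (fun z : G × G => z.1 * z.2⁻¹) ''
    (tsupport p ×ˢ tsupport q))
  · exact (IsCompact.prod hp hq).image (by fun_prop)
  · intro s hs
    have h1 : ∀ t, p t * q (s⁻¹ * t) = 0 := by
      intro t
      by_contra hne
      apply hs
      refine ⟨(t, s⁻¹ * t), ⟨subset_tsupport p (left_ne_zero_of_mul hne),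
        subset_tsupport q (right_ne_zero_of_mul hne)⟩, ?_⟩
      simp
    simp [h1]

theorem swap_bound {p q : G → ℝ} (hp : Continuous p) (hp' : HasCompactSupport p)
    (hq : Continuous q) (hq' : HasCompactSupport q) (hinv : ∀ x, q x⁻¹ = q x) :
    ∫ s, ∫ t, p t * q (s⁻¹ * t) ∂μ ∂μ = (∫ x, q x ∂μ) * ∫ x, p x ∂μ := by
  rw [integral_integral_swap_of_hasCompactSupport (f := fun s t => p t * q (s⁻¹ * t))]
  · have h1 : ∀ t, ∫ s, p t * q (s⁻¹ * t) ∂μ = (∫ x, q x ∂μ) * p t := by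
      intro t
      rw [integral_const_mul, mul_comm]
      congr 1
      have h2 : ∀ s, q (s⁻¹ * t) = q (t⁻¹ * s) := by
        intro s
        rw [← hinv]
        congr 1
        group
      simp only [h2]
      exact integral_mul_left_eq_self q t⁻¹
    simp only [h1]
    rw [integral_const_mul]
  · simp only [Function.uncurry_def]
    fun_prop
  · exact hasCompactSupport_mul_conv (E := ℝ) hp' hq'

/-- The Schur estimate. -/
theorem schur_bound {p q : G → ℝ} (hp : Continuous p) (hp' : HasCompactSupport p)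
    (hp0 : ∀ x, 0 ≤ p x) (hq : Continuous q) (hq' : HasCompactSupport q) (hq0 : ∀ x, 0 ≤ q x)
    (hinv : ∀ x, q x⁻¹ = q x) :
    ∫ s, p s * ∫ t, p t * q (s⁻¹ * t) ∂μ ∂μ ≤ (∫ x, q x ∂μ) * ∫ x, p x ^ 2 ∂μ := by
  have hp2 : Continuous (fun x => p x ^ 2) := by fun_prop
  have hp2' : HasCompactSupport (fun x => p x ^ 2) :=
    hp'.comp_left (g := fun x => x ^ 2) (by norm_num)
  have hI : ∀ s : G, ∫ t, q (s⁻¹ * t) ∂μ = ∫ x, q x ∂μ := fun s =>
    integral_mul_left_eq_self q s⁻¹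
  have hq1 : ∀ s : G, Continuous (fun t => q (s⁻¹ * t)) := fun s => by fun_prop
  have hq2 : ∀ s : G, HasCompactSupport (fun t => q (s⁻¹ * t)) := fun s =>
    hq'.comp_homeomorph (Homeomorph.mulLeft s⁻¹)
  have hqi : ∀ s : G, Integrable (fun t => q (s⁻¹ * t)) μ := fun s =>
    (hq1 s).integrable_of_hasCompactSupport (hq2 s)
  have hpq : ∀ s : G, Integrable (fun t => p t * q (s⁻¹ * t)) μ := fun s =>
    (hp.mul (hq1 s)).integrable_of_hasCompactSupport ((hq2 s).mul_left)
  have hp2q : ∀ s : G, Integrable (fun t => p t ^ 2 * q (s⁻¹ * t)) μ := fun s =>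
    (hp2.mul (hq1 s)).integrable_of_hasCompactSupport ((hq2 s).mul_left)
  have hA : Integrable (fun s => p s ^ 2 * ∫ x, q x ∂μ) μ :=
    (hp2.integrable_of_hasCompactSupport hp2').mul_const _
  have hB : Integrable (fun s => ∫ t, p t ^ 2 * q (s⁻¹ * t) ∂μ) μ :=
    (continuous_inner_integral hp2 hp2' hq).integrable_of_hasCompactSupport
      (inner_integral_support hp2' hq')
  have h1 : ∫ s, p s * ∫ t, p t * q (s⁻¹ * t) ∂μ ∂μ ≤
      ∫ s, (1 / 2) * (p s ^ 2 * ∫ x, q x ∂μ) + (1 / 2) * ∫ t, p t ^ 2 * q (s⁻¹ * t) ∂μ ∂μ := by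
    apply integral_mono_of_nonneg
    · filter_upwards with s
      exact mul_nonneg (hp0 s) (integral_nonneg fun t => mul_nonneg (hp0 t) (hq0 _))
    · exact (hA.const_mul _).add (hB.const_mul _)
    · filter_upwards with s
      rw [← integral_const_mul, ← hI s, ← integral_const_mul, ← integral_const_mul,
        ← integral_const_mul, ← integral_add ((hqi s).const_mul _ |>.const_mul _)
          ((hp2q s).const_mul _)]
      apply integral_mono
      · exact (hpq s).const_mul _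
      · exact ((hqi s).const_mul _ |>.const_mul _).add ((hp2q s).const_mul _)
      · intro t
        simp only
        nlinarith [mul_nonneg (sq_nonneg (p s - p t)) (hq0 (s⁻¹ * t))]
  refine h1.trans_eq ?_
  rw [integral_add (hA.const_mul _) (hB.const_mul _), integral_const_mul, integral_const_mul,
    swap_bound hp2 hp2' hq hq' hinv, integral_mul_const]
  ring

end Pool.Agent.Lib.MP_6b7756_an
end
end

section

/-!
A vector which is moved only a little by all elements near the identity is close to a vector whose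
orbit map is continuous.
-/

set_option autoImplicit false
set_option linter.unusedSectionVars false

open scoped ComplexOrder InnerProductSpace ComplexConjugate Topology Pointwise
open Filter Set

noncomputable section

namespace Pool.Agent.Lib.MP_6b7756_an

variable {G : Type} [Group G] [TopologicalSpace G] [IsTopologicalGroup G]
  {H : Type} [NormedAddCommGroup H] [InnerProductSpace ℂ H] [CompleteSpace H]
  {σ : G → H →L[ℂ] H}

/-- The closed convex hull of the orbit piece `σ(V)η`. -/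
def hull (σ : G → H →L[ℂ] H) (η : H) (V : Set G) : Set H :=
  closure (convexHull ℝ ((fun u => σ u η) '' V))

theorem hull_mono (η : H) {V W : Set G} (h : V ⊆ W) : hull σ η V ⊆ hull σ η W :=
  closure_mono (convexHull_mono (image_mono h))

theorem isClosed_hull (η : H) (V : Set G) : IsClosed (hull σ η V) := isClosed_closure

theorem convex_hull (η : H) (V : Set G) : Convex ℝ (hull σ η V) :=
  (convex_convexHull ℝ _).closure

theorem mem_hull (hσ : IsRep σ) (η : H) {V : Set G} (h : (1 : G) ∈ V) : η ∈ hull σ η V := by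
  apply subset_closure
  apply subset_convexHull
  exact ⟨1, h, hσ.one η⟩

theorem norm_map (hσ : IsRep σ) (g : G) (x : H) : ‖σ g x‖ = ‖x‖ := by
  rw [@norm_eq_sqrt_re_inner ℂ, @norm_eq_sqrt_re_inner ℂ, hσ.inner]

theorem map_hull (hσ : IsRep σ) (η : H) {V W : Set G} {g : G} (h : ∀ v ∈ V, g * v ∈ W) {x : H}
    (hx : x ∈ hull σ η V) : σ g x ∈ hull σ η W := by
  have h1 : σ g '' (hull σ η V) ⊆ closure (σ g '' convexHull ℝ ((fun u => σ u η) '' V)) :=
    image_closure_subset_closure_image (σ g).continuous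
  have h2 : σ g '' convexHull ℝ ((fun u => σ u η) '' V) =
      convexHull ℝ (σ g '' ((fun u => σ u η) '' V)) :=
    LinearMap.image_convexHull ((σ g).restrictScalars ℝ : H →ₗ[ℝ] H) _
  have h3 : σ g '' ((fun u => σ u η) '' V) ⊆ (fun u => σ u η) '' W := by
    rintro _ ⟨_, ⟨v, hv, rfl⟩, rfl⟩
    exact ⟨g * v, h v hv, hσ.mul g v η⟩
  have h4 := h1 (mem_image_of_mem _ hx)
  rw [h2] at h4
  exact closure_mono (convexHull_mono h3) h4

/-- The distance of the origin to the hull. -/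
def rad (σ : G → H →L[ℂ] H) (η : H) (V : Set G) : ℝ := Metric.infDist (0 : H) (hull σ η V)

theorem rad_nonneg (η : H) (V : Set G) : 0 ≤ rad σ η V := Metric.infDist_nonneg

theorem rad_le (η : H) {V : Set G} {x : H} (hx : x ∈ hull σ η V) : rad σ η V ≤ ‖x‖ := by
  have := Metric.infDist_le_dist_of_mem (x := (0 : H)) hx
  rwa [dist_zero_left] at this

theorem exists_min (hσ : IsRep σ) (η : H) {V : Set G} (h : (1 : G) ∈ V) :
    ∃ p ∈ hull σ η V, ‖p‖ = rad σ η V := by
  letI : InnerProductSpace ℝ H := InnerProductSpace.rclikeToReal ℂ H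
  obtain ⟨p, hp, h1⟩ := exists_norm_eq_iInf_of_complete_convex ⟨η, mem_hull hσ η h⟩
    (isClosed_hull η V).isComplete (convex_hull η V) 0
  refine ⟨p, hp, ?_⟩
  rw [rad, Metric.infDist_eq_iInf]
  simpa [dist_eq_norm] using h1

/-- The supremum of the distances. -/
def supRad (σ : G → H →L[ℂ] H) (η : H) : ℝ := sSup (rad σ η '' {V : Set G | V ∈ 𝓝 (1 : G)})

theorem rad_le_supRad (hσ : IsRep σ) (η : H) {V : Set G} (h : V ∈ 𝓝 (1 : G)) :
    rad σ η V ≤ supRad σ η := by
  apply le_csSup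
  · refine ⟨‖η‖, ?_⟩
    rintro _ ⟨W, hW, rfl⟩
    exact rad_le η (mem_hull hσ η (mem_of_mem_nhds hW))
  · exact ⟨V, h, rfl⟩

/-- The part of the hull in the ball of radius `supRad`. -/
def core (σ : G → H →L[ℂ] H) (η : H) (V : Set G) : Set H :=
  hull σ η V ∩ Metric.closedBall 0 (supRad σ η)

theorem core_diam (hσ : IsRep σ) (η : H) {V : Set G} (h : V ∈ 𝓝 (1 : G)) {x y : H}
    (hx : x ∈ core σ η V) (hy : y ∈ core σ η V) :
    ‖x - y‖ ^ 2 ≤ 4 * (supRad σ η ^ 2 - rad σ η V ^ 2) := by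
  have h1 : (1 / 2 : ℝ) • x + (1 / 2 : ℝ) • y ∈ hull σ η V :=
    convex_hull η V hx.1 hy.1 (by norm_num) (by norm_num) (by norm_num)
  have h2 := rad_le η h1
  have h3 : ‖(1 / 2 : ℝ) • x + (1 / 2 : ℝ) • y‖ = (1 / 2) * ‖x + y‖ := by
    rw [← smul_add, norm_smul]; norm_num
  rw [h3] at h2
  have h4 := parallelogram_law_with_norm ℂ x y
  have hx2 : ‖x‖ ≤ supRad σ η := by simpa using hx.2
  have hy2 : ‖y‖ ≤ supRad σ η := by simpa using hy.2
  have h5 := rad_nonneg (σ := σ) η V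
  nlinarith [norm_nonneg x, norm_nonneg y, norm_nonneg (x + y)]

theorem exists_close (hσ : IsRep σ) (η : H) {ε : ℝ} (hε : 0 < ε) :
    ∃ V ∈ 𝓝 (1 : G), 4 * (supRad σ η ^ 2 - rad σ η V ^ 2) < ε := by
  have hR0 : 0 ≤ supRad σ η :=
    (rad_nonneg η univ).trans (rad_le_supRad hσ η univ_mem)
  by_contra hcon
  push Not at hcon
  have h1 : ∀ V ∈ 𝓝 (1 : G), rad σ η V ≤ Real.sqrt (supRad σ η ^ 2 - ε / 4) := by
    intro V hV
    apply Real.le_sqrt_of_sq_le
    linarith [hcon V hV]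
  have h2 : supRad σ η ≤ Real.sqrt (supRad σ η ^ 2 - ε / 4) := by
    apply csSup_le ⟨rad σ η univ, mem_image_of_mem _ univ_mem⟩
    rintro _ ⟨V, hV, rfl⟩
    exact h1 V hV
  have h3 : 0 ≤ supRad σ η ^ 2 - ε / 4 := by
    have := hcon univ univ_mem
    nlinarith [sq_nonneg (rad σ η (univ : Set G))]
  have h4 := pow_le_pow_left₀ hR0 h2 2
  rw [Real.sq_sqrt h3] at h4
  linarith

theorem exists_smooth (hσ : IsRep σ) (η : H) {U : Set G} (hU : U ∈ 𝓝 (1 : G)) {δ : ℝ}
    (hδ : ∀ u ∈ U, ‖σ u η - η‖ ≤ δ) :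
    ∃ η' : H, ‖η' - η‖ ≤ δ ∧ Tendsto (fun g => σ g η') (𝓝 1) (𝓝 η') ∧ η' ∈ hull σ η U := by
  have hmono : Monotone (core σ η) := fun V W h => inter_subset_inter_left _ (hull_mono η h)
  let F : Filter H := (𝓝 (1 : G)).lift' (core σ η)
  have hF : ∀ V ∈ 𝓝 (1 : G), core σ η V ∈ F := fun V hV => mem_lift' hV
  have hne : F.NeBot := by
    rw [lift'_neBot_iff hmono]
    intro V hV
    obtain ⟨p, hp, hp2⟩ := exists_min hσ η (mem_of_mem_nhds hV)
    refine ⟨p, hp, ?_⟩
    rw [mem_closedBall_zero_iff, hp2]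
    exact rad_le_supRad hσ η hV
  have hC : Cauchy F := by
    rw [Metric.cauchy_iff]
    refine ⟨hne, fun ε hε => ?_⟩
    obtain ⟨V, hV, hV2⟩ := exists_close (σ := σ) hσ η (pow_pos hε 2)
    refine ⟨_, hF V hV, fun x hx y hy => ?_⟩
    rw [dist_eq_norm]
    exact lt_of_pow_lt_pow_left₀ 2 hε.le ((core_diam hσ η hV hx hy).trans_lt hV2)
  obtain ⟨η', hη'⟩ := CompleteSpace.complete hC
  have hmem : ∀ V ∈ 𝓝 (1 : G), η' ∈ core σ η V := by
    intro V hV
    have hcl : IsClosed (core σ η V) := (isClosed_hull η V).inter Metric.isClosed_closedBall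
    exact hcl.mem_of_tendsto (f := id) (b := F) hη' (hF V hV)
  refine ⟨η', ?_, ?_, (hmem U hU).1⟩
  · have h1 : hull σ η U ⊆ Metric.closedBall η δ := by
      apply closure_minimal _ Metric.isClosed_closedBall
      apply convexHull_min _ (convex_closedBall η δ)
      rintro _ ⟨u, hu, rfl⟩
      rw [mem_closedBall_iff_norm]
      exact hδ u hu
    have := h1 (hmem U hU).1
    rwa [mem_closedBall_iff_norm] at this
  · rw [Metric.tendsto_nhds]
    intro ε hε
    obtain ⟨V, hV, hV2⟩ := exists_close (σ := σ) hσ η (pow_pos hε 2)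
    obtain ⟨W, hW, hW2⟩ := exists_nhds_one_split hV
    filter_upwards [hW] with g hg
    rw [dist_eq_norm]
    have h1 : σ g η' ∈ core σ η V := by
      refine ⟨map_hull hσ η (fun v hv => hW2 g hg v hv) (hmem W hW).1, ?_⟩
      rw [mem_closedBall_zero_iff, norm_map hσ]
      simpa using (hmem V hV).2
    exact lt_of_pow_lt_pow_left₀ 2 hε.le ((core_diam hσ η hV h1 (hmem V hV)).trans_lt hV2)

end Pool.Agent.Lib.MP_6b7756_an
end
end

section

/-!
A continuous compactly supported positive definite function is a uniform limit of coefficients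
of the left regular representation.
-/

set_option autoImplicit false
set_option linter.unusedSectionVars false

open scoped ComplexOrder InnerProductSpace ComplexConjugate Topology Pointwise ENNReal
open scoped CompactlySupported
open Filter Set MeasureTheory

noncomputable section

namespace Pool.Agent.Lib.MP_6b7756_an

theorem exists_sqrt {E : Type} [NormedAddCommGroup E] [InnerProductSpace ℂ E] [CompleteSpace E]
    {H : Type} [NormedAddCommGroup H] [InnerProductSpace ℂ H] [CompleteSpace H]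
    (B : E →L[ℂ] H) : ∃ S : E →L[ℂ] E, ContinuousLinearMap.adjoint S = S ∧
      S * S = (ContinuousLinearMap.adjoint B) ∘L B ∧
      ∀ L : E →L[ℂ] E, Commute L (ContinuousLinearMap.adjoint B ∘L B) → Commute L S := by
  have hT : 0 ≤ (ContinuousLinearMap.adjoint B) ∘L B := by
    rw [ContinuousLinearMap.nonneg_iff_isPositive]
    exact ContinuousLinearMap.isPositive_adjoint_comp_self B
  refine ⟨CFC.sqrt ((ContinuousLinearMap.adjoint B) ∘L B), ?_, ?_, ?_⟩
  · exact (CFC.sqrt_nonneg ((ContinuousLinearMap.adjoint B) ∘L B)).isSelfAdjoint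
  · exact CFC.sqrt_mul_sqrt_self _ hT
  · intro L hL
    exact (Commute.cfcₙ_nnreal hL.symm _).symm

/-- Transport of coefficients from a dense subspace through a bounded intertwiner. -/
theorem exists_vector {G : Type} [Group G]
    {H : Type} [NormedAddCommGroup H] [InnerProductSpace ℂ H] [CompleteSpace H]
    {σ : G → H →L[ℂ] H} (hσ : IsRep σ)
    {L : Type} [NormedAddCommGroup L] [InnerProductSpace ℂ L] [CompleteSpace L]
    {lam : G → L →L[ℂ] L} (hlam : IsRep lam)
    {V : Type} [AddCommGroup V] [Module ℂ V] (ι : V →ₗ[ℂ] L) (B₀ : V →ₗ[ℂ] H) (C : ℝ)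
    (hB : ∀ v, ‖B₀ v‖ ≤ C * ‖ι v‖) (τ : G → V → V) (h1 : ∀ g v, lam g (ι v) = ι (τ g v))
    (h2 : ∀ g v, σ g (B₀ v) = B₀ (τ g v)) (v : V) :
    ∃ ζ : L, ∀ g, ⟪lam g ζ, ζ⟫_ℂ = ⟪σ g (B₀ v), B₀ v⟫_ℂ := by
  let P : Submodule ℂ L := (LinearMap.range ι).topologicalClosure
  have hι : ∀ v, ι v ∈ P := fun v => (LinearMap.range ι).le_topologicalClosure ⟨v, rfl⟩
  have hlamP : ∀ g, ∀ x ∈ P, lam g x ∈ P := by
    intro g x hx
    have h3 : MapsTo (lam g) (LinearMap.range ι : Set L) (LinearMap.range ι : Set L) := by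
      rintro _ ⟨w, rfl⟩
      exact ⟨τ g w, (h1 g w).symm⟩
    exact h3.closure (lam g).continuous hx
  have : CompleteSpace P :=
    (Submodule.isClosed_topologicalClosure (LinearMap.range ι)).completeSpace_coe
  let ι' : V →ₗ[ℂ] P := ι.codRestrict P hι
  have hd : DenseRange ι' := by
    intro x
    rw [closure_subtype]
    have h3 : ((↑) : P → L) '' (range ι') = range ι := by
      rw [← range_comp]
      rfl
    rw [h3]
    exact x.2
  let B : P →L[ℂ] H := B₀.extendOfNorm ι'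
  have hBe : ∀ w, B (ι' w) = B₀ w := fun w =>
    LinearMap.extendOfNorm_eq hd ⟨C, fun w => hB w⟩ w
  let l : G → P →L[ℂ] P := fun g => ((lam g).comp P.subtypeL).codRestrict P
    (fun x => hlamP g _ x.2)
  obtain ⟨S, hS1, hS2, hS3⟩ := exists_sqrt B
  have hl : ∀ g (x : P), ((l g x : P) : L) = lam g x := fun g x => rfl
  have hint : ∀ g x, B (l g x) = σ g (B x) := by
    intro g x
    have h3 : (fun x => B (l g x)) = (fun x => σ g (B x)) := by
      apply hd.equalizer (B.continuous.comp (l g).continuous) ((σ g).continuous.comp B.continuous)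
      ext w
      simp only [Function.comp_apply]
      have h4 : l g (ι' w) = ι' (τ g w) := by
        apply Subtype.ext
        rw [hl]
        exact h1 g w
      rw [h4, hBe, hBe, h2]
    exact congrFun h3 x
  have hcomm : ∀ g, Commute (l g) (ContinuousLinearMap.adjoint B ∘L B) := by
    intro g
    have h3 : ∀ (x : P) , l g (l g⁻¹ x) = x := by
      intro x
      apply Subtype.ext
      rw [hl, hl, ← hlam.mul, mul_inv_cancel, hlam.one]
    have h4 : ∀ x : H, σ g (σ g⁻¹ x) = x := by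
      intro x
      rw [← hσ.mul, mul_inv_cancel, hσ.one]
    have h5 : ∀ x y : P, ⟪l g x, l g y⟫_ℂ = ⟪x, y⟫_ℂ := fun x y => hlam.inner g x y
    ext1 x
    refine ext_inner_right ℂ fun y => ?_
    change ⟪l g (ContinuousLinearMap.adjoint B (B x)), y⟫_ℂ =
      ⟪ContinuousLinearMap.adjoint B (B (l g x)), y⟫_ℂ
    calc ⟪l g (ContinuousLinearMap.adjoint B (B x)), y⟫_ℂ
        = ⟪l g (ContinuousLinearMap.adjoint B (B x)), l g (l g⁻¹ y)⟫_ℂ := by rw [h3]
      _ = ⟪B x, σ g⁻¹ (B y)⟫_ℂ := by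
          rw [h5, ContinuousLinearMap.adjoint_inner_left, hint]
      _ = ⟪σ g (B x), B y⟫_ℂ := by rw [← hσ.inner g, h4]
      _ = ⟪ContinuousLinearMap.adjoint B (B (l g x)), y⟫_ℂ := by
          rw [ContinuousLinearMap.adjoint_inner_left, hint]
  refine ⟨((S (ι' v) : P) : L), fun g => ?_⟩
  have h5 : (l g) (S (ι' v)) = S (l g (ι' v)) := by
    have := hS3 (l g) (hcomm g)
    exact congrArg (fun A : P →L[ℂ] P => A (ι' v)) this.eq
  calc ⟪lam g ((S (ι' v) : P) : L), ((S (ι' v) : P) : L)⟫_ℂ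
      = ⟪l g (S (ι' v)), S (ι' v)⟫_ℂ := rfl
    _ = ⟪S (l g (ι' v)), S (ι' v)⟫_ℂ := by rw [h5]
    _ = ⟪l g (ι' v), (S * S) (ι' v)⟫_ℂ := by
        conv_lhs => rw [← hS1]
        rw [ContinuousLinearMap.adjoint_inner_left, hS1]
        rfl
    _ = ⟪B (l g (ι' v)), B (ι' v)⟫_ℂ := by
        rw [hS2, ContinuousLinearMap.comp_apply, ContinuousLinearMap.adjoint_inner_right]
    _ = ⟪σ g (B₀ v), B₀ v⟫_ℂ := by rw [hint, hBe]

variable {G : Type} [Group G] [TopologicalSpace G] [IsTopologicalGroup G]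
  [LocallyCompactSpace G] [T2Space G] [MeasurableSpace G] [BorelSpace G]
  {μ : Measure G} [μ.IsHaarMeasure]
  {H : Type} [NormedAddCommGroup H] [InnerProductSpace ℂ H] [CompleteSpace H]
  {σ : G → H →L[ℂ] H}

theorem continuous_orbit (hσ : IsRep σ) {v : H} (hv : Tendsto (fun g => σ g v) (𝓝 1) (𝓝 v)) :
    Continuous (fun g => σ g v) := by
  rw [continuous_iff_continuousAt]
  intro g
  rw [ContinuousAt, ← tendsto_sub_nhds_zero_iff]
  have h1 : Tendsto (fun x : G => g⁻¹ * x) (𝓝 g) (𝓝 1) := by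
    have : Continuous (fun x : G => g⁻¹ * x) := by fun_prop
    simpa using this.tendsto g
  have h2 := hv.comp h1
  rw [← tendsto_sub_nhds_zero_iff, tendsto_zero_iff_norm_tendsto_zero] at h2
  rw [tendsto_zero_iff_norm_tendsto_zero]
  refine h2.congr fun x => ?_
  simp only [Function.comp_apply]
  rw [← norm_map hσ g, map_sub, ← hσ.mul, mul_inv_cancel_left]

/-- The inclusion of `C_c(G)` in `L²(G)`. -/
def incl (μ : Measure G) [μ.IsHaarMeasure] : C_c(G, ℂ) →ₗ[ℂ] Lp ℂ 2 μ where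
  toFun f := (f.continuous.memLp_of_hasCompactSupport f.hasCompactSupport).toLp f
  map_add' f g := by rfl
  map_smul' c f := by rfl

/-- The left regular representation. -/
def lreg (μ : Measure G) [μ.IsHaarMeasure] (g : G) : Lp ℂ 2 μ →L[ℂ] Lp ℂ 2 μ :=
  (Lp.compMeasurePreservingₗᵢ ℂ (fun x => g⁻¹ * x)
    (measurePreserving_mul_left μ g⁻¹)).toContinuousLinearMap

theorem lreg_coe (g : G) (F : Lp ℂ 2 μ) : lreg μ g F =ᵐ[μ] fun x => F (g⁻¹ * x) :=
  Lp.coeFn_compMeasurePreserving F (measurePreserving_mul_left μ g⁻¹)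

theorem lreg_isRep : IsRep (lreg μ : G → Lp ℂ 2 μ →L[ℂ] Lp ℂ 2 μ) where
  one F := by
    apply Lp.ext
    filter_upwards [lreg_coe 1 F] with x hx
    rw [hx, inv_one, one_mul]
  mul g h F := by
    apply Lp.ext
    have h1 := (measurePreserving_mul_left μ g⁻¹).quasiMeasurePreserving.ae (lreg_coe h F)
    filter_upwards [lreg_coe (g * h) F, lreg_coe g (lreg μ h F), h1] with x hx hx2 hx3
    rw [hx, hx2, hx3, mul_inv_rev, mul_assoc]
  inner g F F' := (Lp.compMeasurePreservingₗᵢ ℂ (fun x => g⁻¹ * x)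
    (measurePreserving_mul_left μ g⁻¹)).inner_map_map F F'

/-- Left translation of compactly supported continuous functions. -/
def trans (g : G) (f : C_c(G, ℂ)) : C_c(G, ℂ) where
  toFun x := f (g⁻¹ * x)
  hasCompactSupport' := f.hasCompactSupport.comp_homeomorph (Homeomorph.mulLeft g⁻¹)

theorem lreg_incl (g : G) (f : C_c(G, ℂ)) : lreg μ g (incl μ f) = incl μ (trans g f) := by
  rfl

theorem incl_norm (f : C_c(G, ℂ)) : ‖incl μ f‖ ^ 2 = ∫ x, ‖f x‖ ^ 2 ∂μ := by
  have h1 : (‖incl μ f‖ ^ 2 : ℝ) = RCLike.re ⟪incl μ f, incl μ f⟫_ℂ :=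
    norm_sq_eq_re_inner (𝕜 := ℂ) _
  rw [h1, L2.inner_def]
  have h2 : ∀ᵐ x ∂μ, ⟪(incl μ f : Lp ℂ 2 μ) x, (incl μ f : Lp ℂ 2 μ) x⟫_ℂ =
      ((‖f x‖ ^ 2 : ℝ) : ℂ) := by
    filter_upwards [(f.continuous.memLp_of_hasCompactSupport f.hasCompactSupport :
      MemLp f 2 μ).coeFn_toLp] with x hx
    rw [show (incl μ f : Lp ℂ 2 μ) x = f x from hx, inner_self_eq_norm_sq_to_K]
    simp
  rw [integral_congr_ae h2, integral_complex_ofReal]
  simp

theorem integrable_smul_orbit {c : G → H} (hc : Continuous c) (f : C_c(G, ℂ)) :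
    Integrable (fun s => f s • c s) μ :=
  (f.continuous.smul hc).integrable_of_hasCompactSupport (f.hasCompactSupport.smul_right)

/-- The operator `f ↦ ∫ f(s) σ(s)v ds`. -/
def avg (μ : Measure G) [μ.IsHaarMeasure] (c : G → H) (hc : Continuous c) :
    C_c(G, ℂ) →ₗ[ℂ] H where
  toFun f := ∫ s, f s • c s ∂μ
  map_add' f g := by
    rw [← integral_add (integrable_smul_orbit hc f) (integrable_smul_orbit hc g)]
    simp [add_smul]
  map_smul' a f := by
    rw [← integral_smul]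
    simp [smul_smul]

theorem avg_bound (hσ : IsRep σ) {v : H} (hc : Continuous (fun g => σ g v))
    (hψ : HasCompactSupport (fun g => ⟪σ g v, v⟫_ℂ)) (f : C_c(G, ℂ)) :
    ‖avg μ _ hc f‖ ^ 2 ≤ (∫ x, ‖⟪σ x v, v⟫_ℂ‖ ∂μ) * ‖incl μ f‖ ^ 2 := by
  obtain ⟨w, hw⟩ : ∃ w, w = avg μ _ hc f := ⟨_, rfl⟩
  have hinv : ∀ x, ‖⟪σ x⁻¹ v, v⟫_ℂ‖ = ‖⟪σ x v, v⟫_ℂ‖ := by
    intro x
    rw [← hσ.inner x, ← hσ.mul, mul_inv_cancel, hσ.one, norm_inner_symm]
  have h1 : ∀ s, ‖⟪w, σ s v⟫_ℂ‖ ≤ ∫ t, ‖f t‖ * ‖⟪σ (s⁻¹ * t) v, v⟫_ℂ‖ ∂μ := by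
    intro s
    rw [norm_inner_symm, hw]
    have h2 : avg μ _ hc f = ∫ t, f t • σ t v ∂μ := rfl
    rw [h2, ← integral_inner (integrable_smul_orbit hc f)]
    refine (norm_integral_le_integral_norm _).trans_eq (integral_congr_ae ?_)
    filter_upwards with t
    rw [inner_smul_right, norm_mul]
    congr 1
    rw [norm_inner_symm, ← hσ.inner s⁻¹, ← hσ.mul, ← hσ.mul, inv_mul_cancel, hσ.one]
  have h3 : ‖w‖ ^ 2 = ‖⟪w, w⟫_ℂ‖ := by
    rw [inner_self_eq_norm_sq_to_K]
    simp
  rw [← hw, h3]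
  have h4 : ⟪w, w⟫_ℂ = ∫ s, f s * ⟪w, σ s v⟫_ℂ ∂μ := by
    conv_lhs => rw [hw]
    have h2 : avg μ _ hc f = ∫ t, f t • σ t v ∂μ := rfl
    rw [← hw]
    nth_rw 2 [hw]
    rw [h2, ← integral_inner (integrable_smul_orbit hc f)]
    simp only [inner_smul_right]
  rw [h4, incl_norm]
  have hψc : Continuous (fun g => ⟪σ g v, v⟫_ℂ) := hc.inner continuous_const
  refine le_trans ?_ (schur_bound (p := fun x => ‖f x‖) (q := fun x => ‖⟪σ x v, v⟫_ℂ‖)
    f.continuous.norm f.hasCompactSupport.norm (fun x => norm_nonneg _) hψc.norm hψ.norm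
    (fun x => norm_nonneg _) hinv)
  refine (norm_integral_le_integral_norm _).trans ?_
  apply integral_mono_of_nonneg
  · filter_upwards with s
    positivity
  · apply Continuous.integrable_of_hasCompactSupport
    · exact f.continuous.norm.mul (continuous_inner_integral f.continuous.norm
        f.hasCompactSupport.norm hψc.norm)
    · exact f.hasCompactSupport.norm.mul_right
  · filter_upwards with s
    rw [norm_mul]
    exact mul_le_mul_of_nonneg_left (h1 s) (norm_nonneg _)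

/-- There are probability densities in `C_c(G)` supported near the identity. -/
theorem exists_density {V : Set G} (hV : V ∈ 𝓝 (1 : G)) :
    ∃ f : G → ℝ, Continuous f ∧ HasCompactSupport f ∧ (∀ x, 0 ≤ f x) ∧
      (∀ x, x ∉ V → f x = 0) ∧ ∫ x, f x ∂μ = 1 := by
  obtain ⟨f, hf1, hf2, hf3, hf4⟩ := exists_continuous_one_zero_of_isCompact
    (isCompact_singleton (x := (1 : G))) (isOpen_interior (s := V)).isClosed_compl
    (by
      rw [disjoint_compl_right_iff_subset, singleton_subset_iff]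
      exact mem_interior_iff_mem_nhds.mpr hV)
  have hpos : 0 < ∫ x, f x ∂μ := by
    apply f.continuous.integral_pos_of_hasCompactSupport_nonneg_nonzero hf3
      (fun x => (hf4 x).1) (x := 1)
    rw [hf1 (mem_singleton 1)]
    simp
  refine ⟨fun x => (∫ x, f x ∂μ)⁻¹ * f x, by fun_prop, ?_, ?_, ?_, ?_⟩
  · exact hf3.mul_left
  · intro x
    exact mul_nonneg (inv_nonneg.mpr hpos.le) (hf4 x).1
  · intro x hx
    have : f x = 0 := hf2 (fun h => hx (interior_subset h))
    simp [this]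
  · rw [integral_const_mul, inv_mul_cancel₀ hpos.ne']

theorem avg_close (hσ : IsRep σ) {v : H} (hv : Tendsto (fun g => σ g v) (𝓝 1) (𝓝 v))
    (hc : Continuous (fun g => σ g v)) {δ : ℝ} (hδ : 0 < δ) :
    ∃ f : C_c(G, ℂ), ‖avg μ _ hc f - v‖ ≤ δ := by
  have hV : {g : G | ‖σ g v - v‖ < δ} ∈ 𝓝 (1 : G) := by
    filter_upwards [Metric.tendsto_nhds.mp hv δ hδ] with g hg
    rwa [dist_eq_norm] at hg
  obtain ⟨f, hf1, hf2, hf3, hf4, hf5⟩ := exists_density (μ := μ) hV
  let F : C_c(G, ℂ) := ⟨⟨fun x => (f x : ℂ), by fun_prop⟩, hf2.comp_left (g := fun x : ℝ => (x : ℂ))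
    (by simp)⟩
  refine ⟨F, ?_⟩
  have hi : Integrable f μ := hf1.integrable_of_hasCompactSupport hf2
  have h1 : avg μ _ hc F = ∫ s, (f s : ℂ) • σ s v ∂μ := rfl
  have h2 : v = ∫ s, (f s : ℂ) • v ∂μ := by
    rw [integral_smul_const, integral_complex_ofReal, hf5]
    simp
  have h3 : Integrable (fun s => (f s : ℂ) • σ s v) μ := integrable_smul_orbit hc F
  have h4 : Integrable (fun s => (f s : ℂ) • v) μ := hi.ofReal.smul_const v
  have h5 : avg μ _ hc F - v = ∫ s, (f s : ℂ) • (σ s v - v) ∂μ := by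
    rw [h1]
    simp only [smul_sub]
    rw [integral_sub h3 h4, ← h2]
  rw [h5]
  refine (norm_integral_le_integral_norm _).trans ?_
  have h6 : ∫ s, f s * δ ∂μ = δ := by
    rw [integral_mul_const, hf5, one_mul]
  refine le_trans ?_ h6.le
  apply integral_mono_of_nonneg
  · filter_upwards with s
    positivity
  · exact hi.mul_const δ
  · filter_upwards with s
    rw [norm_smul]
    simp only [Complex.norm_real, Real.norm_eq_abs, abs_of_nonneg (hf3 s)]
    by_cases hs : s ∈ {g : G | ‖σ g v - v‖ < δ}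
    · exact mul_le_mul_of_nonneg_left (le_of_lt hs) (hf3 s)
    · rw [hf4 s hs]
      simp

/-- Continuous compactly supported coefficients are uniform limits of coefficients of the left
regular representation. -/
theorem coeff_approx (hσ : IsRep σ) {v : H} (hv : Tendsto (fun g => σ g v) (𝓝 1) (𝓝 v))
    (hψ : HasCompactSupport (fun g => ⟪σ g v, v⟫_ℂ)) {ε : ℝ} (hε : 0 < ε) :
    ∃ ζ : Lp ℂ 2 μ, ∀ g, ‖⟪σ g v, v⟫_ℂ - ⟪lreg μ g ζ, ζ⟫_ℂ‖ < ε := by
  have hc := continuous_orbit hσ hv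
  obtain ⟨δ, hδ, hδ2⟩ : ∃ δ : ℝ, 0 < δ ∧ δ * (2 * ‖v‖ + δ) < ε := by
    have h1 : Tendsto (fun δ : ℝ => δ * (2 * ‖v‖ + δ)) (𝓝[>] 0) (𝓝 (0 * (2 * ‖v‖ + 0))) := by
      apply Tendsto.mono_left _ nhdsWithin_le_nhds
      apply Continuous.tendsto
      fun_prop
    rw [zero_mul] at h1
    have h2 := h1.eventually_lt_const hε
    obtain ⟨δ, h3, h4⟩ := (h2.and self_mem_nhdsWithin).exists
    exact ⟨δ, h4, h3⟩
  obtain ⟨f, hf⟩ := avg_close (μ := μ) hσ hv hc hδ
  obtain ⟨C, hC⟩ : ∃ C : ℝ, C = Real.sqrt (∫ x, ‖⟪σ x v, v⟫_ℂ‖ ∂μ) := ⟨_, rfl⟩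
  have hint0 : 0 ≤ ∫ x, ‖⟪σ x v, v⟫_ℂ‖ ∂μ := integral_nonneg fun x => norm_nonneg _
  have hB : ∀ f, ‖avg μ _ hc f‖ ≤ C * ‖incl μ f‖ := by
    intro f
    rw [hC]
    apply le_of_sq_le_sq _ (by positivity)
    rw [mul_pow, Real.sq_sqrt hint0]
    exact avg_bound hσ hc hψ f
  have h2 : ∀ g f, σ g (avg μ _ hc f) = avg μ _ hc (trans g f) := by
    intro g f
    have h3 : σ g (avg μ _ hc f) = ∫ s, f s • σ (g * s) v ∂μ := by
      have h4 : avg μ _ hc f = ∫ t, f t • σ t v ∂μ := rfl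
      rw [h4, ← ContinuousLinearMap.integral_comp_comm _ (integrable_smul_orbit hc f)]
      simp only [map_smul, hσ.mul]
    have h4 : avg μ _ hc (trans g f) = ∫ t, f (g⁻¹ * t) • σ t v ∂μ := rfl
    rw [h3, h4, ← integral_mul_left_eq_self (fun t => f (g⁻¹ * t) • σ t v) g]
    simp only [inv_mul_cancel_left]
  obtain ⟨ζ, hζ⟩ := exists_vector hσ (lreg_isRep (μ := μ)) (incl μ) (avg μ _ hc) C hB trans
    lreg_incl h2 f
  refine ⟨ζ, fun g => ?_⟩
  rw [hζ g]
  obtain ⟨w, hw⟩ : ∃ w, w = avg μ _ hc f := ⟨_, rfl⟩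
  rw [← hw] at hf ⊢
  have h5 : ⟪σ g v, v⟫_ℂ - ⟪σ g w, w⟫_ℂ = ⟪σ g (v - w), v⟫_ℂ + ⟪σ g w, v - w⟫_ℂ := by
    rw [map_sub, inner_sub_left, inner_sub_right]
    ring
  have hw2 : ‖w‖ ≤ ‖v‖ + δ := by
    have := norm_add_le (w - v) v
    rw [sub_add_cancel] at this
    linarith
  have h6 : ‖⟪σ g (v - w), v⟫_ℂ‖ ≤ δ * ‖v‖ := by
    refine (norm_inner_le_norm _ _).trans ?_
    rw [norm_map hσ, norm_sub_rev]
    exact mul_le_mul_of_nonneg_right hf (norm_nonneg _)
  have h7 : ‖⟪σ g w, v - w⟫_ℂ‖ ≤ (‖v‖ + δ) * δ := by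
    refine (norm_inner_le_norm _ _).trans ?_
    rw [norm_map hσ, norm_sub_rev]
    exact mul_le_mul hw2 hf (norm_nonneg _) (by positivity)
  rw [h5]
  refine (norm_add_le _ _).trans_lt ?_
  nlinarith

theorem lreg_inner (g : G) (ζ : Lp ℂ 2 μ) :
    ⟪lreg μ g ζ, ζ⟫_ℂ = ∫ y, ζ y * conj (ζ (g⁻¹ * y)) ∂μ := by
  rw [L2.inner_def]
  apply integral_congr_ae
  filter_upwards [lreg_coe g ζ] with y hy
  rw [hy, RCLike.inner_apply]

end Pool.Agent.Lib.MP_6b7756_an
end
end
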